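import Pool.Agent.H314.BK.Ab

set_option autoImplicit false

open Filter Topology
open scoped InnerProductSpace

namespace BK.JA1

section
variable {H0 H1 : Type*} [NormedAddCommGroup H0] [InnerProductSpace ℂ H0] [CompleteSpace H0]
  [NormedAddCommGroup H1] [InnerProductSpace ℂ H1] [CompleteSpace H1]

/-- compact operators map weakly null sequences to norm null sequences -/
theorem cpt_null (A : H0 →L[ℂ] H1) (hA : IsCompactOperator A) (x : ℕ → H0) (hx : WN x) :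
    Nl (fun k => A (x k)) := by
  obtain ⟨⟨C, hC⟩, hw⟩ := hx
  have hcomp : IsCompact (closure ((A : H0 → H1) '' Metric.closedBall 0 C)) :=
    IsCompactOperator.isCompact_closure_image_closedBall (f := (A : H0 →ₗ[ℂ] H1)) hA C
  have hmem : ∀ k, A (x k) ∈ closure ((A : H0 → H1) '' Metric.closedBall 0 C) := fun k =>
    subset_closure ⟨x k, by simpa using hC k, rfl⟩
  have hwA : ∀ z, Tendsto (fun k => inner ℂ z (A (x k))) atTop (𝓝 0) := by
    intro z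
    have h := hw (ContinuousLinearMap.adjoint A z)
    refine h.congr (fun k => ?_)
    rw [ContinuousLinearMap.adjoint_inner_left]
  unfold Nl
  apply tendsto_of_subseq_tendsto
  intro ns hns
  obtain ⟨y, _, φ, hφ, hy⟩ := hcomp.tendsto_subseq (fun n => hmem (ns n))
  have hy0 : y = 0 := by
    have h1 : Tendsto (fun n => inner ℂ y (A (x (ns (φ n))))) atTop (𝓝 (inner ℂ y y)) :=
      (Tendsto.inner tendsto_const_nhds hy)
    have h2 : Tendsto (fun n => inner ℂ y (A (x (ns (φ n))))) atTop (𝓝 0) :=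
      (hwA y).comp (hns.comp hφ.tendsto_atTop)
    have h3 := tendsto_nhds_unique h1 h2
    exact inner_self_eq_zero.mp h3
  refine ⟨φ, ?_⟩
  have h4 := hy.norm
  rw [hy0, norm_zero] at h4
  exact h4

theorem h400_fin_null (V : Submodule ℂ H0) [FiniteDimensional ℂ V] (x : ℕ → H0) (hx : WN x) :
    Nl (fun k => V.starProjection (x k)) := by
  haveI : ProperSpace V := FiniteDimensional.proper ℂ V
  have h1 : IsCompactOperator (V.subtypeL) := isCompactOperator_of_locallyCompactSpace_rng _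
  have h2 : IsCompactOperator (V.subtypeL ∘ V.orthogonalProjectionOnto) := h1.comp_clm _
  exact cpt_null V.starProjection h2 x hx

theorem h400_norm_sub_proj (V : Submodule ℂ H0) [FiniteDimensional ℂ V] (x : H0) :
    x - V.starProjection x ∈ Vᗮ ∧ ‖x - V.starProjection x‖ ≤ ‖x‖ := by
  refine ⟨Submodule.sub_starProjection_mem_orthogonal x, ?_⟩
  have h := Submodule.norm_starProjection_apply_le Vᗮ x
  rw [Submodule.starProjection_orthogonal_val] at h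
  exact h

theorem h400_essLe (A : H0 →L[ℂ] H1) (κ : ℝ) (hκ : 0 ≤ κ)
    (hlt : ∀ c, κ < c → ∃ V : Submodule ℂ H0, FiniteDimensional ℂ V ∧ ∀ x ∈ Vᗮ, ‖A x‖ ≤ c * ‖x‖) :
    EssLe A κ := by
  intro x hx ε hε
  obtain ⟨⟨C, hC⟩, hw⟩ := hx
  have hC0 : 0 ≤ C := (norm_nonneg _).trans (hC 0)
  obtain ⟨δ, hδdef⟩ : ∃ δ : ℝ, δ = min 1 (ε / (2 * (2 * κ + 1) * (C ^ 2 + 1))) := ⟨_, rfl⟩
  have hδ0 : 0 < δ := by rw [hδdef]; positivity
  have hδ1 : δ ≤ 1 := by rw [hδdef]; exact min_le_left _ _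
  have hδ2 : δ * (2 * (2 * κ + 1) * (C ^ 2 + 1)) ≤ ε := by
    have h1 : δ ≤ ε / (2 * (2 * κ + 1) * (C ^ 2 + 1)) := by rw [hδdef]; exact min_le_right _ _
    rwa [le_div_iff₀ (by positivity)] at h1
  obtain ⟨V, hV, hVA⟩ := hlt (κ + δ) (by linarith)
  have hp := h400_fin_null V x ⟨⟨C, hC⟩, hw⟩
  unfold Nl at hp
  obtain ⟨c, hcdef⟩ : ∃ c, c = κ + δ := ⟨_, rfl⟩
  rw [← hcdef] at hVA
  have hc0 : 0 ≤ c := by rw [hcdef]; linarith
  have hr : Tendsto (fun k => 2 * c * C * ‖A‖ * ‖V.starProjection (x k)‖ + ‖A‖ ^ 2 * ‖V.starProjection (x k)‖ ^ 2)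
      atTop (𝓝 0) := by
    have h1 := (hp.const_mul (2 * c * C * ‖A‖)).add ((hp.pow 2).const_mul (‖A‖ ^ 2))
    simpa using h1
  have hev := hr.eventually (gt_mem_nhds (show (0 : ℝ) < ε / 2 by positivity))
  filter_upwards [hev] with k hk
  obtain ⟨hs1, hs2⟩ := h400_norm_sub_proj V (x k)
  have h1 : ‖A (x k)‖ ≤ ‖A‖ * ‖V.starProjection (x k)‖ + c * ‖x k‖ := by
    have e : A (x k) = A (V.starProjection (x k)) + A (x k - V.starProjection (x k)) := by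
      rw [← map_add]; congr 1; abel
    rw [e]
    refine (norm_add_le _ _).trans (add_le_add (A.le_opNorm _) ?_)
    exact (hVA _ hs1).trans (mul_le_mul_of_nonneg_left hs2 hc0)
  have h2 : ‖A (x k)‖ ^ 2 ≤ (‖A‖ * ‖V.starProjection (x k)‖ + c * ‖x k‖) ^ 2 :=
    pow_le_pow_left₀ (norm_nonneg _) h1 2
  have h3 : c * ‖A‖ * ‖V.starProjection (x k)‖ * ‖x k‖ ≤ c * ‖A‖ * ‖V.starProjection (x k)‖ * C :=
    mul_le_mul_of_nonneg_left (hC k) (by positivity)
  have h4 : ‖x k‖ ^ 2 ≤ C ^ 2 := pow_le_pow_left₀ (norm_nonneg _) (hC k) 2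
  have h5 : (c ^ 2 - κ ^ 2) * ‖x k‖ ^ 2 ≤ ε / 2 := by
    have h6 : c ^ 2 - κ ^ 2 ≤ δ * (2 * κ + 1) := by
      rw [hcdef]
      nlinarith
    have h7 : 0 ≤ c ^ 2 - κ ^ 2 := by rw [hcdef]; nlinarith [mul_nonneg hκ hδ0.le]
    calc (c ^ 2 - κ ^ 2) * ‖x k‖ ^ 2 ≤ (δ * (2 * κ + 1)) * (C ^ 2 + 1) := by
          apply mul_le_mul h6 (by linarith) (by positivity) (by positivity)
      _ ≤ ε / 2 := by linarith
  have h8 : (‖A‖ * ‖V.starProjection (x k)‖ + c * ‖x k‖) ^ 2 =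
      ‖A‖ ^ 2 * ‖V.starProjection (x k)‖ ^ 2 + 2 * (c * ‖A‖ * ‖V.starProjection (x k)‖ * ‖x k‖)
        + (c ^ 2 - κ ^ 2) * ‖x k‖ ^ 2 + κ ^ 2 * ‖x k‖ ^ 2 := by ring
  linarith

theorem h400_compact (A : H0 →L[ℂ] H1)
    (hlt : ∀ c, 0 < c → ∃ V : Submodule ℂ H0, FiniteDimensional ℂ V ∧ ∀ x ∈ Vᗮ, ‖A x‖ ≤ c * ‖x‖) :
    IsCompactOperator A := by
  have h1 : ∀ n : ℕ, ∃ F : H0 →L[ℂ] H1, IsCompactOperator F ∧ ‖F - A‖ ≤ 1 / ((n : ℝ) + 1) := by
    intro n
    obtain ⟨V, hV, hVA⟩ := hlt (1 / ((n : ℝ) + 1)) (by positivity)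
    refine ⟨A.comp V.starProjection, ?_, ?_⟩
    · haveI : ProperSpace V := FiniteDimensional.proper ℂ V
      have h1 : IsCompactOperator (V.subtypeL) := isCompactOperator_of_locallyCompactSpace_rng _
      have h2 : IsCompactOperator (V.subtypeL ∘ V.orthogonalProjectionOnto) := h1.comp_clm _
      exact h2.clm_comp A
    · apply ContinuousLinearMap.opNorm_le_bound _ (by positivity)
      intro x
      obtain ⟨hs1, hs2⟩ := h400_norm_sub_proj V x
      have e : (A.comp V.starProjection - A) x = - A (x - V.starProjection x) := by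
        simp
      rw [e, norm_neg]
      exact (hVA _ hs1).trans (mul_le_mul_of_nonneg_left hs2 (by positivity))
  choose F hF1 hF2 using h1
  have h2 : Tendsto F atTop (𝓝 A) := by
    rw [tendsto_iff_norm_sub_tendsto_zero]
    exact squeeze_zero (fun n => norm_nonneg _) hF2 tendsto_one_div_add_atTop_nhds_zero_nat
  exact isCompactOperator_of_tendsto h2 (Eventually.of_forall hF1)

theorem h400_orth_WN (u : ℕ → H0) (hu : Orthonormal ℂ u) : WN u := by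
  refine ⟨⟨1, fun k => (hu.1 k).le⟩, fun y => ?_⟩
  have h1 := (hu.inner_products_summable (x := y)).tendsto_atTop_zero
  have h2 : Tendsto (fun k => ‖inner ℂ (u k) y‖) atTop (𝓝 0) := by
    have h3 := h1.sqrt
    rw [Real.sqrt_zero] at h3
    refine h3.congr (fun k => ?_)
    exact Real.sqrt_sq (norm_nonneg _)
  rw [tendsto_zero_iff_norm_tendsto_zero]
  refine h2.congr (fun k => ?_)
  rw [norm_inner_symm]

/-- extremal weakly null sequences -/
theorem ess_exists (A : H0 →L[ℂ] H1) (hA : ¬ IsCompactOperator A) :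
    ∃ κ : ℝ, 0 < κ ∧ EssLe A κ ∧ ∃ u : ℕ → H0, WN u ∧ (∀ k, ‖u k‖ = 1) ∧
      Tendsto (fun k => ‖A (u k)‖) atTop (𝓝 κ) := by
  classical
  obtain ⟨S, hSdef⟩ : ∃ S : Set ℝ, S = {c : ℝ | 0 ≤ c ∧ ∃ V : Submodule ℂ H0, FiniteDimensional ℂ V ∧
    ∀ x ∈ Vᗮ, ‖A x‖ ≤ c * ‖x‖} := ⟨_, rfl⟩
  have hSne : S.Nonempty := by
    refine ⟨‖A‖, ?_⟩
    rw [hSdef]
    exact ⟨norm_nonneg _, ⊥, inferInstance, fun x _ => A.le_opNorm x⟩
  have hSbdd : BddBelow S := ⟨0, fun c hc => by rw [hSdef] at hc; exact hc.1⟩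
  obtain ⟨κ, hκdef⟩ : ∃ κ, κ = sInf S := ⟨_, rfl⟩
  have hκ0 : 0 ≤ κ := by
    rw [hκdef]
    apply Real.sInf_nonneg
    intro c hc
    rw [hSdef] at hc
    exact hc.1
  have hlt : ∀ c, κ < c → ∃ V : Submodule ℂ H0, FiniteDimensional ℂ V ∧ ∀ x ∈ Vᗮ, ‖A x‖ ≤ c * ‖x‖ := by
    intro c hc
    rw [hκdef] at hc
    obtain ⟨c', hc', hcc⟩ := exists_lt_of_csInf_lt hSne hc
    rw [hSdef] at hc'
    obtain ⟨h0, V, hV, hVA⟩ := hc'
    exact ⟨V, hV, fun x hx => (hVA x hx).trans (mul_le_mul_of_nonneg_right hcc.le (norm_nonneg _))⟩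
  have hnot : ∀ c, 0 ≤ c → c < κ → ∀ V : Submodule ℂ H0, FiniteDimensional ℂ V →
      ∃ x ∈ Vᗮ, c * ‖x‖ < ‖A x‖ := by
    intro c hc0 hc V hV
    by_contra hcon
    push Not at hcon
    have h1 : c ∈ S := by rw [hSdef]; exact ⟨hc0, V, hV, hcon⟩
    have h2 := csInf_le hSbdd h1
    rw [← hκdef] at h2
    linarith
  have hκ : 0 < κ := by
    rcases hκ0.lt_or_eq with h | h
    · exact h
    · exfalso
      apply hA
      apply h400_compact
      intro c hc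
      exact hlt c (by rw [← h]; exact hc)
  refine ⟨κ, hκ, h400_essLe A κ hκ0 hlt, ?_⟩
  have hV : ∀ k : ℕ, ∃ V : Submodule ℂ H0, FiniteDimensional ℂ V ∧ ∀ x ∈ Vᗮ, ‖A x‖ ≤ (κ + 1 / ((k : ℝ) + 1)) * ‖x‖ := by
    intro k
    apply hlt
    have : (0 : ℝ) < 1 / ((k : ℝ) + 1) := by positivity
    linarith
  choose V hVf hVA using hV
  obtain ⟨f, hf1, hf2⟩ := exists_seq_of_forall_finset_exists
    (fun q : ℕ × H0 => ‖q.2‖ = 1 ∧ q.2 ∈ (V q.1)ᗮ ∧ κ - κ / ((q.1 : ℝ) + 2) ≤ ‖A q.2‖)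
    (fun q q' : ℕ × H0 => q.1 < q'.1 ∧ inner ℂ q.2 q'.2 = 0) (by
    intro s _
    obtain ⟨k', hk'⟩ : ∃ k', k' = s.sup Prod.fst + 1 := ⟨_, rfl⟩
    have hfs : FiniteDimensional ℂ (Submodule.span ℂ ((s.image Prod.snd : Finset H0) : Set H0)) :=
      FiniteDimensional.span_finset ℂ _
    haveI := hVf k'
    have hW : FiniteDimensional ℂ ↥(V k' ⊔ Submodule.span ℂ ((s.image Prod.snd : Finset H0) : Set H0)) :=
      Submodule.finiteDimensional_sup _ _
    have hc1 : 0 ≤ κ - κ / ((k' : ℝ) + 2) := by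
      rw [sub_nonneg, div_le_iff₀ (by positivity)]
      nlinarith [Nat.cast_nonneg (α := ℝ) k']
    have hc2 : κ - κ / ((k' : ℝ) + 2) < κ := by
      have : 0 < κ / ((k' : ℝ) + 2) := by positivity
      linarith
    obtain ⟨x, hx, hAx⟩ := hnot _ hc1 hc2 _ hW
    have hx0 : x ≠ 0 := by
      rintro rfl
      simp at hAx
    have hxn : 0 < ‖x‖ := norm_pos_iff.mpr hx0
    refine ⟨(k', ((‖x‖⁻¹ : ℝ) : ℂ) • x), ⟨?_, ?_, ?_⟩, ?_⟩
    · rw [norm_smul, Complex.norm_real, norm_inv, norm_norm, inv_mul_cancel₀ hxn.ne']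
    · apply Submodule.smul_mem
      exact Submodule.orthogonal_le le_sup_left hx
    · show κ - κ / ((k' : ℝ) + 2) ≤ ‖A (((‖x‖⁻¹ : ℝ) : ℂ) • x)‖
      rw [map_smul, norm_smul, Complex.norm_real, norm_inv, norm_norm, inv_mul_eq_div, le_div_iff₀ hxn]
      exact hAx.le
    · intro q hq
      refine ⟨?_, ?_⟩
      · show q.1 < k'
        have := Finset.le_sup (f := Prod.fst) hq
        omega
      · show inner ℂ q.2 (((‖x‖⁻¹ : ℝ) : ℂ) • x) = 0
        rw [inner_smul_right]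
        have h1 : q.2 ∈ V k' ⊔ Submodule.span ℂ ((s.image Prod.snd : Finset H0) : Set H0) := by
          apply Submodule.mem_sup_right
          apply Submodule.subset_span
          rw [Finset.mem_coe, Finset.mem_image]
          exact ⟨q, hq, rfl⟩
        rw [(Submodule.mem_orthogonal _ _).mp hx _ h1, mul_zero])
  have hmono : StrictMono (fun n => (f n).1) := fun m n hmn => (hf2 m n hmn).1
  have hge : ∀ n, n ≤ (f n).1 := fun n => hmono.le_apply
  have horth : Orthonormal ℂ (fun n => (f n).2) := by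
    refine ⟨fun n => (hf1 n).1, ?_⟩
    intro i j hij
    rcases lt_or_gt_of_ne hij with h | h
    · exact (hf2 i j h).2
    · exact inner_eq_zero_symm.mp (hf2 j i h).2
  refine ⟨fun n => (f n).2, h400_orth_WN _ horth, fun n => (hf1 n).1, ?_⟩
  have hup : ∀ n : ℕ, ‖A (f n).2‖ ≤ κ + 1 / ((n : ℝ) + 1) := by
    intro n
    have h1 := hVA (f n).1 (f n).2 (hf1 n).2.1
    rw [(hf1 n).1, mul_one] at h1
    have h2 : (n : ℝ) ≤ ((f n).1 : ℝ) := by exact_mod_cast hge n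
    have h3 : 1 / (((f n).1 : ℝ) + 1) ≤ 1 / ((n : ℝ) + 1) :=
      one_div_le_one_div_of_le (by positivity) (by linarith)
    linarith
  have hdn : ∀ n : ℕ, κ - κ * (1 / ((n : ℝ) + 1)) ≤ ‖A (f n).2‖ := by
    intro n
    have h1 := (hf1 n).2.2
    have h2 : (n : ℝ) ≤ ((f n).1 : ℝ) := by exact_mod_cast hge n
    have h3 : 1 / (((f n).1 : ℝ) + 2) ≤ 1 / ((n : ℝ) + 1) :=
      one_div_le_one_div_of_le (by positivity) (by linarith)
    have h4 : κ / (((f n).1 : ℝ) + 2) = κ * (1 / (((f n).1 : ℝ) + 2)) := by ring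
    rw [h4] at h1
    have h5 := mul_le_mul_of_nonneg_left h3 hκ0
    linarith
  have ht := tendsto_one_div_add_atTop_nhds_zero_nat (𝕜 := ℝ)
  have hu' : Tendsto (fun n : ℕ => κ + 1 / ((n : ℝ) + 1)) atTop (𝓝 κ) := by
    have := ht.const_add κ
    rwa [add_zero] at this
  have hd' : Tendsto (fun n : ℕ => κ - κ * (1 / ((n : ℝ) + 1))) atTop (𝓝 κ) := by
    have := (ht.const_mul κ).const_sub κ
    rwa [mul_zero, sub_zero] at this
  exact tendsto_of_tendsto_of_tendsto_of_le_of_le hd' hu' hdn hup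

theorem h400_WN_add (x y : ℕ → H0) (hx : WN x) (hy : WN y) : WN (fun k => x k + y k) := by
  obtain ⟨⟨C, hC⟩, hw⟩ := hx
  obtain ⟨⟨C', hC'⟩, hw'⟩ := hy
  refine ⟨⟨C + C', fun k => (norm_add_le _ _).trans (add_le_add (hC k) (hC' k))⟩, fun z => ?_⟩
  have h := (hw z).add (hw' z)
  rw [add_zero] at h
  refine h.congr (fun k => ?_)
  rw [inner_add_right]

theorem h400_WN_map (B : H0 →L[ℂ] H1) (x : ℕ → H0) (hx : WN x) : WN (fun k => B (x k)) := by
  obtain ⟨⟨C, hC⟩, hw⟩ := hx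
  refine ⟨⟨‖B‖ * C, fun k => (B.le_opNorm _).trans (mul_le_mul_of_nonneg_left (hC k) (norm_nonneg _))⟩, fun z => ?_⟩
  have h := hw (ContinuousLinearMap.adjoint B z)
  refine h.congr (fun k => ?_)
  rw [ContinuousLinearMap.adjoint_inner_left]

/-- extremal sequences are approximate eigenvectors -/
theorem ess_eigen (A : H0 →L[ℂ] H1) (κ : ℝ) (hκ : 0 < κ) (hE : EssLe A κ) (x : ℕ → H0)
    (hx : WN x) (h : Tendsto (fun k => ‖A (x k)‖ ^ 2 - κ ^ 2 * ‖x k‖ ^ 2) atTop (𝓝 0)) :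
    Nl (fun k => ContinuousLinearMap.adjoint A (A (x k)) - ((κ ^ 2 : ℝ) : ℂ) • x k) := by
  obtain ⟨B, hB⟩ : ∃ B : H0 →L[ℂ] H0, B = (ContinuousLinearMap.adjoint A).comp A - ((κ ^ 2 : ℝ) : ℂ) • ContinuousLinearMap.id ℂ H0 :=
    ⟨_, rfl⟩
  have hBx : ∀ v, B v = ContinuousLinearMap.adjoint A (A v) - ((κ ^ 2 : ℝ) : ℂ) • v := by
    intro v
    rw [hB]
    simp
  have hfun : (fun k => ContinuousLinearMap.adjoint A (A (x k)) - ((κ ^ 2 : ℝ) : ℂ) • x k) = fun k => B (x k) := by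
    funext k
    rw [hBx]
  rw [hfun]
  obtain ⟨t, ht⟩ : ∃ t : ℝ, t = (κ ^ 2)⁻¹ := ⟨_, rfl⟩
  have ht0 : 0 < t := by rw [ht]; positivity
  have htκ : κ ^ 2 * t = 1 := by rw [ht]; field_simp
  have hw : WN (fun k => x k + (((t : ℝ) : ℂ) • B) (x k)) :=
    h400_WN_add _ _ hx (h400_WN_map _ x hx)
  have key : ∀ v : H0, ‖A (v + (((t : ℝ) : ℂ) • B) v)‖ ^ 2 - κ ^ 2 * ‖v + (((t : ℝ) : ℂ) • B) v‖ ^ 2 =
      (‖A v‖ ^ 2 - κ ^ 2 * ‖v‖ ^ 2) + t * ‖B v‖ ^ 2 + t ^ 2 * ‖A (B v)‖ ^ 2 := by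
    intro v
    have e1 : A (v + (((t : ℝ) : ℂ) • B) v) = A v + ((t : ℝ) : ℂ) • A (B v) := by
      rw [map_add]
      congr 1
      show A (((t : ℝ) : ℂ) • B v) = _
      rw [map_smul]
    have e2 : v + (((t : ℝ) : ℂ) • B) v = v + ((t : ℝ) : ℂ) • B v := rfl
    rw [e1, e2, @norm_add_sq ℂ _ _ _ _ (A v), @norm_add_sq ℂ _ _ _ _ v, inner_smul_right, inner_smul_right, norm_smul, norm_smul,
      Complex.norm_real, Real.norm_of_nonneg ht0.le]
    have e3 : RCLike.re (((t : ℝ) : ℂ) * inner ℂ (A v) (A (B v))) = t * RCLike.re (inner ℂ (A v) (A (B v))) := by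
      simp
    have e4 : RCLike.re (((t : ℝ) : ℂ) * inner ℂ v (B v)) = t * RCLike.re (inner ℂ v (B v)) := by
      simp
    have e5 : RCLike.re (inner ℂ (A v) (A (B v))) = ‖B v‖ ^ 2 + κ ^ 2 * RCLike.re (inner ℂ v (B v)) := by
      rw [← ContinuousLinearMap.adjoint_inner_left]
      have e6 : ContinuousLinearMap.adjoint A (A v) = B v + ((κ ^ 2 : ℝ) : ℂ) • v := by
        rw [hBx]; abel
      rw [e6, inner_add_left, inner_smul_left, inner_self_eq_norm_sq_to_K]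
      rw [map_add]
      congr 1
      · norm_cast
      · simp only [Complex.conj_ofReal]
        simp [← Complex.ofReal_pow]
    rw [e3, e4, e5]
    have e7 : κ ^ 2 * (t * ‖B v‖) ^ 2 = t * ‖B v‖ ^ 2 := by
      calc κ ^ 2 * (t * ‖B v‖) ^ 2 = (κ ^ 2 * t) * (t * ‖B v‖ ^ 2) := by ring
        _ = _ := by rw [htκ, one_mul]
    linear_combination -e7
  have hsq : Tendsto (fun k => ‖B (x k)‖ ^ 2) atTop (𝓝 0) := by
    rw [Metric.tendsto_atTop]
    intro ε hε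
    have h1 := hE _ hw (t * ε / 2) (by positivity)
    have h2 := h.eventually (lt_mem_nhds (show -(t * ε / 2) < 0 by
      have : 0 < t * ε / 2 := by positivity
      linarith))
    obtain ⟨N, hN⟩ := (h1.and h2).exists_forall_of_atTop
    refine ⟨N, fun n hn => ?_⟩
    obtain ⟨h3, h4⟩ := hN n hn
    have h5 := key (x n)
    have h6 : 0 ≤ t ^ 2 * ‖A (B (x n))‖ ^ 2 := by positivity
    have h7 : t * ‖B (x n)‖ ^ 2 < t * ε := by linarith
    have h8 : ‖B (x n)‖ ^ 2 < ε := lt_of_mul_lt_mul_left h7 ht0.le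
    rw [Real.dist_eq, sub_zero, abs_of_nonneg (by positivity)]
    exact h8
  have h9 := hsq.sqrt
  rw [Real.sqrt_zero] at h9
  refine h9.congr (fun k => ?_)
  exact Real.sqrt_sq (norm_nonneg _)

end

end BK.JA1
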