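import Pool.Agent.H314.BK.Ab

set_option autoImplicit false

open Filter Topology
open scoped InnerProductSpace

namespace BK.JA2

/-- generalised inverse of a closed relation -/
theorem ginv27625 {H K : Type*} [NormedAddCommGroup H] [InnerProductSpace ℂ H] [CompleteSpace H]
    [NormedAddCommGroup K] [InnerProductSpace ℂ K] [CompleteSpace K]
    (T : Submodule ℂ (H × K)) (hTc : IsClosed (T : Set (H × K)))
    (M : Submodule ℂ K) (hMc : IsClosed (M : Set K)) (C : ℝ)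
    (h : ∀ g ∈ M, ∃ f, (f, g) ∈ T ∧ ‖f‖ ≤ C * ‖g‖) :
    ∃ A : K →L[ℂ] H, (∀ g ∈ M, (A g, g) ∈ T) ∧
      (∀ g, ∀ h, (h, (0 : K)) ∈ T → inner ℂ h (A g) = 0) ∧
      (∀ g, (∀ m ∈ M, inner ℂ m g = 0) → A g = 0) := by
  classical
  let N0 : Submodule ℂ H := T.comap (LinearMap.inl ℂ H K)
  have hN0mem : ∀ x, x ∈ N0 ↔ (x, (0 : K)) ∈ T := fun x => by
    simp [N0, Submodule.mem_comap]
  have hN0c : IsClosed (N0 : Set H) := by
    have : (N0 : Set H) = (fun x : H => (x, (0 : K))) ⁻¹' (T : Set (H × K)) := by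
      ext x; exact hN0mem x
    rw [this]
    exact hTc.preimage (by fun_prop)
  have : CompleteSpace N0 := hN0c.completeSpace_coe
  have : CompleteSpace M := hMc.completeSpace_coe
  have hex : ∀ g : M, ∃ f, (f, (g : K)) ∈ T ∧ (∀ x ∈ N0, inner ℂ x f = 0) ∧ ‖f‖ ≤ C * ‖g‖ := by
    intro g
    obtain ⟨f, hf, hfn⟩ := h g g.2
    refine ⟨f - N0.starProjection f, ?_, ?_, ?_⟩
    · have h1 : (N0.starProjection f, (0 : K)) ∈ T := (hN0mem _).1 (N0.starProjection_apply_mem f)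
      have := T.sub_mem hf h1
      simpa using this
    · intro x hx
      rw [← inner_conj_symm, N0.starProjection_inner_eq_zero f x hx, map_zero]
    · have h2 : ‖f - N0.starProjection f‖ ≤ ‖f‖ := by
        rw [← N0.starProjection_orthogonal_val f]
        exact Submodule.norm_starProjection_apply_le _ _
      exact h2.trans hfn
  choose F hF1 hF2 hF3 using hex
  have huniq : ∀ (g : K) (f1 f2 : H), (f1, g) ∈ T → (f2, g) ∈ T →
      (∀ x ∈ N0, inner ℂ x f1 = 0) → (∀ x ∈ N0, inner ℂ x f2 = 0) → f1 = f2 := by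
    intro g f1 f2 a1 a2 b1 b2
    have hd : f1 - f2 ∈ N0 := by
      rw [hN0mem]
      have := T.sub_mem a1 a2
      simpa using this
    have : inner ℂ (f1 - f2) (f1 - f2) = 0 := by
      rw [inner_sub_right, b1 _ hd, b2 _ hd, sub_zero]
    exact sub_eq_zero.1 (inner_self_eq_zero.1 this)
  let L : M →ₗ[ℂ] H :=
    { toFun := F
      map_add' := by
        intro x y
        refine huniq ((x + y : M) : K) _ _ (hF1 _) ?_ (hF2 _) ?_
        · have := T.add_mem (hF1 x) (hF1 y)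
          simpa using this
        · intro z hz
          rw [inner_add_right, hF2 _ _ hz, hF2 _ _ hz, add_zero]
      map_smul' := by
        intro c x
        refine huniq ((c • x : M) : K) _ _ (hF1 _) ?_ (hF2 _) ?_
        · have := T.smul_mem c (hF1 x)
          simpa using this
        · intro z hz
          simp [inner_smul_right, hF2 _ _ hz] }
  let Lc : M →L[ℂ] H := L.mkContinuous C (fun x => hF3 x)
  have hLc : ∀ x, Lc x = F x := fun x => rfl
  refine ⟨Lc.comp M.orthogonalProjectionOnto, ?_, ?_, ?_⟩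
  · intro g hg
    have : M.orthogonalProjectionOnto g = ⟨g, hg⟩ :=
      Submodule.orthogonalProjectionOnto_mem_subspace_eq_self (⟨g, hg⟩ : M)
    rw [ContinuousLinearMap.comp_apply, this, hLc]
    exact hF1 ⟨g, hg⟩
  · intro g x hx
    rw [ContinuousLinearMap.comp_apply, hLc]
    exact hF2 _ x ((hN0mem x).2 hx)
  · intro g hg
    have : M.orthogonalProjectionOnto g = 0 := by
      rw [Submodule.orthogonalProjectionOnto_eq_zero_iff, Submodule.mem_orthogonal]
      exact hg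
    rw [ContinuousLinearMap.comp_apply, this, map_zero]

section
variable {n : ℕ} {H H2 : Type*} [NormedAddCommGroup H] [InnerProductSpace ℂ H] [CompleteSpace H]
  [NormedAddCommGroup H2] [InnerProductSpace ℂ H2] [CompleteSpace H2]

theorem can_exists (T : Submodule ℂ (H × FH n H)) (S : Submodule ℂ (FH n H × H2))
    (hTc : IsClosed (T : Set (H × FH n H))) (hSc : IsClosed (S : Set (FH n H × H2)))
    (C : ℝ) (hex : ∀ u, (u, (0 : H2)) ∈ S → ∃ f, (f, u) ∈ T ∧ ‖f‖ ≤ C * ‖u‖) :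
    ∃ K : FH n H →L[ℂ] H, Can T S K := by
  let KS : Submodule ℂ (FH n H) := S.comap (LinearMap.inl ℂ (FH n H) H2)
  have hKS : ∀ x, x ∈ KS ↔ (x, (0 : H2)) ∈ S := fun x => by
    simp [KS, Submodule.mem_comap]
  have hKSc : IsClosed (KS : Set (FH n H)) := by
    have : (KS : Set (FH n H)) = (fun x : FH n H => (x, (0 : H2))) ⁻¹' (S : Set (FH n H × H2)) := by
      ext x; exact hKS x
    rw [this]
    exact hSc.preimage (by fun_prop)
  obtain ⟨K, hK1, hK2, hK3⟩ := ginv27625 T hTc KS hKSc C (fun g hg => hex g ((hKS g).1 hg))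
  exact ⟨K, fun u hu => hK1 u ((hKS u).2 hu), fun u h hh => hK2 u h hh,
    fun u hu => hK3 u (fun m hm => hu m ((hKS m).1 hm))⟩

/-- exactness from the Neumann operator -/
theorem exact_of_N (T : Submodule ℂ (H × FH n H)) (S : Submodule ℂ (FH n H × H2))
    (hTS : ∀ f g, (f, g) ∈ T → (g, (0 : H2)) ∈ S)
    (N : FH n H →L[ℂ] FH n H) (hN1 : ∀ v, BoxR T S (N v) v) :
    ∃ C : ℝ, 0 ≤ C ∧ ∀ u, (u, (0 : H2)) ∈ S → ∃ f, (f, u) ∈ T ∧ ‖f‖ ≤ C * ‖u‖ := by
  refine ⟨Real.sqrt ‖N‖, Real.sqrt_nonneg _, ?_⟩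
  intro u hu
  obtain ⟨f, c, g₁, g₂, h1, h2, h3, h4, h5⟩ := hN1 u
  have hg1 : (g₁, (0 : H2)) ∈ S := hTS f g₁ h3
  have hg2 : (g₂, (0 : H2)) ∈ S := by
    have h6 := S.sub_mem hu hg1
    have h7 : ((u, (0 : H2)) - (g₁, (0 : H2)) : FH n H × H2) = (g₂, (0 : H2)) := by
      rw [Prod.mk_sub_mk, h5, sub_zero]
      congr 1
      abel
    rwa [h7] at h6
  have h8 : inner ℂ (0 : H2) c = inner ℂ g₂ g₂ := h4 (g₂, 0) hg2
  rw [inner_zero_left] at h8
  have h9 : g₂ = 0 := inner_self_eq_zero.mp h8.symm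
  rw [h9, add_zero] at h5
  refine ⟨f, by rw [h5]; exact h3, ?_⟩
  have h10 : inner ℂ g₁ (N u) = inner ℂ f f := h1 (f, g₁) h3
  rw [← h5] at h10
  have h11 : ‖f‖ ^ 2 ≤ ‖N‖ * ‖u‖ ^ 2 := by
    have h12 : ‖(inner ℂ f f : ℂ)‖ = ‖f‖ ^ 2 := by
      rw [inner_self_eq_norm_sq_to_K, norm_pow]
      simp
    rw [← h12, ← h10]
    calc ‖(inner ℂ u (N u) : ℂ)‖ ≤ ‖u‖ * ‖N u‖ := norm_inner_le_norm _ _
      _ ≤ ‖u‖ * (‖N‖ * ‖u‖) := by
        gcongr
        exact N.le_opNorm u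
      _ = ‖N‖ * ‖u‖ ^ 2 := by ring
  refine (sq_le_sq₀ (norm_nonneg _) (by positivity)).1 ?_
  rw [mul_pow, Real.sq_sqrt (norm_nonneg _)]
  exact h11

end

end BK.JA2
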