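import Pool.Agent.H314.BK.Ab

set_option autoImplicit false

open Filter Topology
open scoped InnerProductSpace

namespace BK.JA3

section gs
variable {E F : Type*} [NormedAddCommGroup E] [InnerProductSpace ℂ E]
  [NormedAddCommGroup F] [InnerProductSpace ℂ F]

theorem gs_nl_iff (x : ℕ → E) : Nl x ↔ Tendsto x atTop (𝓝 0) :=
  tendsto_zero_iff_norm_tendsto_zero.symm

theorem gs_nl_clm (A : E →L[ℂ] F) {x : ℕ → E} (h : Nl x) : Nl (fun k => A (x k)) := by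
  rw [gs_nl_iff] at *
  have h1 := (A.continuous.tendsto 0).comp h
  rw [map_zero] at h1
  exact h1

theorem gs_nl_add {x y : ℕ → E} (hx : Nl x) (hy : Nl y) : Nl (fun k => x k + y k) := by
  rw [gs_nl_iff] at *
  have h1 := hx.add hy
  rw [add_zero] at h1
  exact h1

theorem gs_nl_sub {x y : ℕ → E} (hx : Nl x) (hy : Nl y) : Nl (fun k => x k - y k) := by
  rw [gs_nl_iff] at *
  have h1 := hx.sub hy
  rw [sub_zero] at h1
  exact h1

theorem gs_nl_smul (c : ℂ) {x : ℕ → E} (hx : Nl x) : Nl (fun k => c • x k) := by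
  rw [gs_nl_iff] at *
  have h1 := hx.const_smul c
  rw [smul_zero] at h1
  exact h1

theorem gs_nl_congr {x y : ℕ → E} (hx : Nl x) (h : ∀ k, y k = x k) : Nl y := by
  have : y = x := funext h
  rw [this]
  exact hx

theorem gs_nl_bdd {x : ℕ → E} (hx : Nl x) : ∃ C : ℝ, ∀ k, ‖x k‖ ≤ C := by
  obtain ⟨C, hC⟩ := Filter.Tendsto.bddAbove_range hx
  exact ⟨C, fun k => hC ⟨k, rfl⟩⟩

theorem gs_wn_clm [CompleteSpace E] [CompleteSpace F] (A : E →L[ℂ] F) {x : ℕ → E} (h : WN x) :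
    WN (fun k => A (x k)) := by
  obtain ⟨⟨C, hC⟩, h2⟩ := h
  refine ⟨⟨‖A‖ * C, fun k => (A.le_opNorm _).trans
    (mul_le_mul_of_nonneg_left (hC k) (norm_nonneg _))⟩, ?_⟩
  intro y
  have h3 := h2 (ContinuousLinearMap.adjoint A y)
  simp only [ContinuousLinearMap.adjoint_inner_left] at h3
  exact h3

theorem gs_wn_congr {x y : ℕ → E} (h : WN x) (hxy : Nl (fun k => y k - x k)) : WN y := by
  obtain ⟨⟨C, hC⟩, h2⟩ := h
  obtain ⟨D, hD⟩ := gs_nl_bdd hxy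
  refine ⟨⟨C + D, fun k => ?_⟩, ?_⟩
  · have h3 : y k = x k + (y k - x k) := by abel
    rw [h3]
    exact (norm_add_le _ _).trans (add_le_add (hC k) (hD k))
  · intro z
    have h3 : ∀ k, inner ℂ z (y k) = inner ℂ z (x k) + inner ℂ z (y k - x k) := by
      intro k
      rw [← inner_add_right]
      congr 1
      abel
    simp only [h3]
    have h4 : Tendsto (fun k => inner ℂ z (y k - x k)) atTop (𝓝 0) := by
      have h5 := (tendsto_const_nhds (x := z)).inner (𝕜 := ℂ) ((gs_nl_iff _).mp hxy)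
      rw [inner_zero_right] at h5
      exact h5
    have h6 := (h2 z).add h4
    rw [add_zero] at h6
    exact h6

theorem gs_sqdiff {x y : ℕ → E} (hx : ∃ C : ℝ, ∀ k, ‖x k‖ ≤ C) (hxy : Nl (fun k => x k - y k)) :
    Tendsto (fun k => ‖x k‖ ^ 2 - ‖y k‖ ^ 2) atTop (𝓝 0) := by
  obtain ⟨C, hC⟩ := hx
  have hb : ∀ k, ‖‖x k‖ ^ 2 - ‖y k‖ ^ 2‖ ≤ ‖x k - y k‖ * (2 * C + ‖x k - y k‖) := by
    intro k
    have h1 : ‖x k‖ ^ 2 - ‖y k‖ ^ 2 = (‖x k‖ - ‖y k‖) * (‖x k‖ + ‖y k‖) := by ring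
    have h2 := abs_norm_sub_norm_le (x k) (y k)
    have h3 : ‖y k‖ ≤ ‖x k‖ + ‖x k - y k‖ := by
      have h4 : y k = x k - (x k - y k) := by abel
      calc ‖y k‖ = ‖x k - (x k - y k)‖ := by rw [← h4]
        _ ≤ ‖x k‖ + ‖x k - y k‖ := norm_sub_le _ _
    rw [h1, Real.norm_eq_abs, abs_mul]
    apply mul_le_mul h2 _ (abs_nonneg _) (norm_nonneg _)
    rw [abs_of_nonneg (by positivity)]
    linarith [hC k]
  apply squeeze_zero_norm hb
  have h5 : Tendsto (fun k => ‖x k - y k‖) atTop (𝓝 0) := hxy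
  have h6 := h5.mul ((tendsto_const_nhds (x := 2 * C)).add h5)
  rw [zero_mul] at h6
  exact h6

theorem gs_wn_dense [CompleteSpace E] (M : Submodule ℂ E) {x : ℕ → E} (C : ℝ)
    (hC : ∀ k, ‖x k‖ ≤ C) (hx : ∀ k, x k ∈ M.topologicalClosure)
    (hM : ∀ m ∈ M, Tendsto (fun k => inner ℂ m (x k)) atTop (𝓝 0)) : WN x := by
  refine ⟨⟨C, hC⟩, ?_⟩
  intro y
  have hcl : IsClosed (M.topologicalClosure : Set E) := M.isClosed_topologicalClosure
  have hcomp : CompleteSpace M.topologicalClosure := hcl.completeSpace_coe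
  obtain ⟨p, hp, z, hz, rfl⟩ := M.topologicalClosure.exists_add_mem_mem_orthogonal y
  have h1 : ∀ k, inner ℂ (p + z) (x k) = inner ℂ p (x k) := by
    intro k
    rw [inner_add_left]
    have h2 : inner ℂ z (x k) = 0 := by
      have h3 := hz (x k) (hx k)
      rw [← inner_conj_symm, h3, map_zero]
    rw [h2, add_zero]
  simp only [h1]
  have hC0 : 0 ≤ C := (norm_nonneg _).trans (hC 0)
  rw [Metric.tendsto_atTop]
  intro ε hε
  have hp' : p ∈ closure (M : Set E) := hp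
  obtain ⟨m, hm, hmp⟩ := Metric.mem_closure_iff.mp hp' (ε / (2 * (C + 1))) (by positivity)
  obtain ⟨N, hN⟩ := Metric.tendsto_atTop.mp (hM m hm) (ε / 2) (by positivity)
  refine ⟨N, fun k hk => ?_⟩
  have h4 := hN k hk
  rw [dist_zero_right] at h4 ⊢
  have h5 : inner ℂ p (x k) = inner ℂ m (x k) + inner ℂ (p - m) (x k) := by
    rw [← inner_add_left]
    congr 1
    abel
  rw [h5]
  have h6 : ‖inner ℂ (p - m) (x k)‖ ≤ ε / (2 * (C + 1)) * C := by
    refine (norm_inner_le_norm _ _).trans ?_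
    rw [dist_eq_norm] at hmp
    exact mul_le_mul hmp.le (hC k) (norm_nonneg _) (by positivity)
  have h7 : ε / (2 * (C + 1)) * C ≤ ε / 2 := by
    rw [div_mul_eq_mul_div, div_le_div_iff₀ (by positivity) (by positivity)]
    nlinarith
  calc ‖inner ℂ m (x k) + inner ℂ (p - m) (x k)‖
      ≤ ‖inner ℂ m (x k)‖ + ‖inner ℂ (p - m) (x k)‖ := norm_add_le _ _
    _ < ε := by linarith

end gs

theorem gs_sum {n : ℕ} (x : Fin n → ℕ → ℝ) (s : ℕ → ℝ) (hs : Tendsto s atTop (𝓝 0))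
    (hx : ∀ j, ∀ ε : ℝ, 0 < ε → ∀ᶠ k in atTop, -ε ≤ x j k)
    (hsum : ∀ k, ∑ j, x j k ≤ s k) (j : Fin n) : Tendsto (x j) atTop (𝓝 0) := by
  rw [Metric.tendsto_atTop]
  intro ε hε
  obtain ⟨δ, hδ⟩ : ∃ δ, δ = ε / (2 * (n + 1)) := ⟨_, rfl⟩
  have hδ0 : 0 < δ := by rw [hδ]; positivity
  have hδ1 : (n + 1) * δ = ε / 2 := by
    rw [hδ]
    field_simp
  have h1 : ∀ᶠ k in atTop, ∀ i, -δ ≤ x i k := by
    rw [Filter.eventually_all]
    intro i
    exact hx i δ hδ0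
  have h2 : ∀ᶠ k in atTop, s k ≤ δ := by
    have := (tendsto_order.mp hs).2 δ hδ0
    filter_upwards [this] with k hk
    exact hk.le
  obtain ⟨N, hN⟩ := Filter.eventually_atTop.mp (h1.and h2)
  refine ⟨N, fun k hk => ?_⟩
  obtain ⟨h3, h4⟩ := hN k hk
  have h5 : ∑ i ∈ Finset.univ.erase j, (-δ) ≤ ∑ i ∈ Finset.univ.erase j, x i k :=
    Finset.sum_le_sum fun i _ => h3 i
  have h6 : ∑ i ∈ Finset.univ.erase j, x i k + x j k = ∑ i, x i k :=
    Finset.sum_erase_add _ _ (Finset.mem_univ j)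
  rw [Finset.sum_const, Finset.card_erase_of_mem (Finset.mem_univ j), Finset.card_univ,
    Fintype.card_fin, nsmul_eq_mul] at h5
  have hn : 1 ≤ n := by
    have := j.pos
    omega
  have h7 : ((n - 1 : ℕ) : ℝ) = (n : ℝ) - 1 := by
    rw [Nat.cast_sub hn, Nat.cast_one]
  rw [h7] at h5
  have h8 := hsum k
  have h9 := h3 j
  rw [Real.dist_eq, sub_zero, abs_lt]
  have hn' : (1 : ℝ) ≤ n := by exact_mod_cast hn
  constructor
  · nlinarith
  · nlinarith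

section
variable {n : ℕ} {H H2 : Type*} [NormedAddCommGroup H] [InnerProductSpace ℂ H] [CompleteSpace H]
  [NormedAddCommGroup H2] [InnerProductSpace ℂ H2] [CompleteSpace H2]

theorem gs_ker (T : Submodule ℂ (H × FH n H)) (S : Submodule ℂ (FH n H × H2))
    (Z : Fin n → H →L[ℂ] H) (B : H →L[ℂ] H) (hS : Stp T S Z B) (K : FH n H →L[ℂ] H)
    (hK : Can T S K) (h : H) : (ContinuousLinearMap.adjoint K h, (0 : H2)) ∈ S := by
  obtain ⟨kS, hkS⟩ : ∃ kS : Submodule ℂ (FH n H), ∀ u, u ∈ kS ↔ (u, (0 : H2)) ∈ S :=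
    ⟨S.comap (LinearMap.inl ℂ (FH n H) H2), fun u => Iff.rfl⟩
  have hcl : IsClosed (kS : Set (FH n H)) := by
    have h1 : (kS : Set (FH n H)) = (fun u => (u, (0 : H2))) ⁻¹' (S : Set (FH n H × H2)) := by
      ext u
      exact hkS u
    rw [h1]
    exact hS.Sc.preimage (by fun_prop)
  have hcomp : CompleteSpace kS := hcl.completeSpace_coe
  rw [← hkS, ← kS.orthogonal_orthogonal, Submodule.mem_orthogonal]
  intro u hu
  have h2 : K u = 0 := hK.k3 u (fun v hv => hu v ((hkS v).mpr hv))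
  rw [ContinuousLinearMap.adjoint_inner_right, h2, inner_zero_left]

theorem gs_Bfix (T : Submodule ℂ (H × FH n H)) (S : Submodule ℂ (FH n H × H2))
    (Z : Fin n → H →L[ℂ] H) (B : H →L[ℂ] H) (hS : Stp T S Z B) (h : H)
    (hh : (h, (0 : FH n H)) ∈ T) : B h = h := by
  have h1 : (h - B h, (0 : FH n H)) ∈ T := by
    have h2 := T.sub_mem hh (hS.B1 h)
    simpa using h2
  have h3 := hS.B2 h (h - B h) h1
  exact (sub_eq_zero.mp (inner_self_eq_zero.mp h3)).symm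

theorem gs_dec (T : Submodule ℂ (H × FH n H)) (S : Submodule ℂ (FH n H × H2))
    (Z : Fin n → H →L[ℂ] H) (B : H →L[ℂ] H) (hS : Stp T S Z B) (K : FH n H →L[ℂ] H)
    (hK : Can T S K) (p : H) (q : FH n H) (hpq : (p, q) ∈ T) : p - B p = K q := by
  have h1 : (K q, q) ∈ T := hK.k1 q (hS.TS p q hpq)
  have h2 : (p - B p, q) ∈ T := by
    have h3 := T.sub_mem hpq (hS.B1 p)
    simpa using h3
  have h3 : (p - B p - K q, (0 : FH n H)) ∈ T := by
    have h4 := T.sub_mem h2 h1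
    simpa using h4
  have h4 : inner ℂ (p - B p - K q) (p - B p - K q) = 0 := by
    rw [inner_sub_right, hS.B2 p _ h3, hK.k2 q _ h3, sub_zero]
  exact sub_eq_zero.mp (inner_self_eq_zero.mp h4)

theorem gs_BK (T : Submodule ℂ (H × FH n H)) (S : Submodule ℂ (FH n H × H2))
    (Z : Fin n → H →L[ℂ] H) (B : H →L[ℂ] H) (hS : Stp T S Z B) (K : FH n H →L[ℂ] H)
    (hK : Can T S K) (u : FH n H) : B (K u) = 0 := by
  have h1 := hS.B1 (K u)
  have h2 := hS.B2 (K u) (B (K u)) h1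
  have h3 := hK.k2 u (B (K u)) h1
  rw [inner_sub_right, h3, zero_sub, neg_eq_zero, inner_self_eq_zero] at h2
  exact h2

theorem gs_adj (T : Submodule ℂ (H × FH n H)) (S : Submodule ℂ (FH n H × H2))
    (Z : Fin n → H →L[ℂ] H) (B : H →L[ℂ] H) (hS : Stp T S Z B) (K : FH n H →L[ℂ] H)
    (hK : Can T S K) (h : H) (hh : ∀ h', (h', (0 : FH n H)) ∈ T → inner ℂ h' h = 0) :
    AdjR T (ContinuousLinearMap.adjoint K h) h := by
  intro p hp
  rw [ContinuousLinearMap.adjoint_inner_right, ← gs_dec T S Z B hS K hK p.1 p.2 hp,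
    inner_sub_left, hh (B p.1) (hS.B1 _), sub_zero]

/-- the coordinate embedding -/
noncomputable def gs_e (j : Fin n) (h : H) : FH n H :=
  WithLp.toLp 2 (fun k => if k = j then h else 0)

theorem gs_e_inner (j : Fin n) (h : H) (w : FH n H) :
    inner ℂ (gs_e j h) w = inner ℂ h (w j) := by
  rw [PiLp.inner_apply, Finset.sum_eq_single j]
  · simp [gs_e]
  · intro k _ hk
    simp [gs_e, hk]
  · intro h
    exact absurd (Finset.mem_univ j) h

theorem gs_proj (j : Fin n) : ∃ A : FH n H →L[ℂ] H, ∀ w, A w = w j :=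
  ⟨PiLp.proj 2 (fun _ : Fin n => H) j, fun w => rfl⟩

theorem gs_A (T : Submodule ℂ (H × FH n H)) (S : Submodule ℂ (FH n H × H2))
    (Z : Fin n → H →L[ℂ] H) (B : H →L[ℂ] H) (hS : Stp T S Z B) (K : FH n H →L[ℂ] H)
    (hK : Can T S K) (κ : ℝ) (hκ : 0 < κ)
    (f : ℕ → H) (hf : Good K κ f) :
    ∃ (u w : ℕ → FH n H) (α : ℕ → Fin n → FH n H),
      (∀ k, u k = ((κ ^ 2 : ℝ) : ℂ)⁻¹ • ContinuousLinearMap.adjoint K (f k)) ∧
      (∀ k, w k = ((κ ^ 2 : ℝ) : ℂ)⁻¹ • ContinuousLinearMap.adjoint K (K (u k))) ∧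
      WN u ∧ WN w ∧ Nl (fun k => w k - u k) ∧ (∀ k, (u k, (0 : H2)) ∈ S) ∧
      (∀ k, (w k, (0 : H2)) ∈ S) ∧ (∀ k j, (w k j, α k j) ∈ T) ∧
      (∀ k, κ ^ 2 * ∑ j, ‖α k j‖ ^ 2 ≤ (κ ^ 2)⁻¹ * ‖K (u k)‖ ^ 2) ∧
      Tendsto (fun k => ‖K (u k)‖ ^ 2 - κ ^ 2 * ‖u k‖ ^ 2) atTop (𝓝 0) := by
  obtain ⟨c, hc⟩ : ∃ c : ℂ, c = ((κ ^ 2 : ℝ) : ℂ)⁻¹ := ⟨_, rfl⟩
  rw [← hc]
  have hκ2 : ((κ ^ 2 : ℝ) : ℂ) ≠ 0 := by
    rw [Ne, Complex.ofReal_eq_zero]
    positivity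
  have hcκ : c * ((κ ^ 2 : ℝ) : ℂ) = 1 := by rw [hc, inv_mul_cancel₀ hκ2]
  have hcr : c = (((κ ^ 2)⁻¹ : ℝ) : ℂ) := by rw [hc, Complex.ofReal_inv]
  obtain ⟨hfWN, hfN⟩ := hf
  obtain ⟨u, hu⟩ : ∃ u : ℕ → FH n H, ∀ k, u k = c • ContinuousLinearMap.adjoint K (f k) :=
    ⟨_, fun k => rfl⟩
  obtain ⟨w, hw⟩ : ∃ w : ℕ → FH n H, ∀ k, w k = c • ContinuousLinearMap.adjoint K (K (u k)) :=
    ⟨_, fun k => rfl⟩
  have huWN : WN u := by
    have h1 := gs_wn_clm (c • ContinuousLinearMap.adjoint K) hfWN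
    have h2 : u = fun k => (c • ContinuousLinearMap.adjoint K) (f k) := funext hu
    rw [h2]
    exact h1
  have hn2 : Nl (fun k => ContinuousLinearMap.adjoint K (K (u k)) - ((κ ^ 2 : ℝ) : ℂ) • u k) := by
    apply gs_nl_congr (gs_nl_clm (c • ContinuousLinearMap.adjoint K) hfN)
    intro k
    show _ = c • ContinuousLinearMap.adjoint K (K (ContinuousLinearMap.adjoint K (f k)) -
      ((κ ^ 2 : ℝ) : ℂ) • f k)
    rw [hu k]
    simp only [map_smul, map_sub, smul_sub]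
    rw [smul_comm c ((κ ^ 2 : ℝ) : ℂ)]
  have hwu : Nl (fun k => w k - u k) := by
    apply gs_nl_congr (gs_nl_smul c hn2)
    intro k
    rw [smul_sub, ← hw k, smul_smul, hcκ, one_smul]
  have hwWN : WN w := gs_wn_congr huWN hwu
  have huS : ∀ k, (u k, (0 : H2)) ∈ S := by
    intro k
    have h1 := S.smul_mem c (gs_ker T S Z B hS K hK (f k))
    rw [Prod.smul_mk, smul_zero, ← hu k] at h1
    exact h1
  have hwS : ∀ k, (w k, (0 : H2)) ∈ S := by
    intro k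
    have h1 := S.smul_mem c (gs_ker T S Z B hS K hK (K (u k)))
    rw [Prod.smul_mk, smul_zero, ← hw k] at h1
    exact h1
  have hadj : ∀ k, AdjR T (w k) (c • K (u k)) := by
    intro k p hp
    have h1 := gs_adj T S Z B hS K hK (K (u k)) (fun h' hh' => hK.k2 (u k) h' hh') p hp
    rw [hw k, inner_smul_right, inner_smul_right, h1]
  have hkm : ∀ k, ∃ α : Fin n → FH n H, (∀ j, (w k j, α j) ∈ T) ∧
      ∑ j, ‖α j‖ ^ 2 ≤ ‖c • K (u k)‖ ^ 2 := fun k => hS.km1 (w k) _ (hwS k) (hadj k)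
  choose α hα1 hα2 using hkm
  refine ⟨u, w, α, hu, hw, huWN, hwWN, hwu, huS, hwS, hα1, ?_, ?_⟩
  · intro k
    have h1 := hα2 k
    rw [norm_smul, hcr, Complex.norm_real, Real.norm_eq_abs, abs_of_pos (by positivity),
      mul_pow] at h1
    calc κ ^ 2 * ∑ j, ‖α k j‖ ^ 2 ≤ κ ^ 2 * (((κ ^ 2)⁻¹) ^ 2 * ‖K (u k)‖ ^ 2) :=
          mul_le_mul_of_nonneg_left h1 (by positivity)
      _ = (κ ^ 2)⁻¹ * ‖K (u k)‖ ^ 2 := by
          field_simp
  · obtain ⟨C, hC⟩ := huWN.1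
    have hb : ∀ k, ‖‖K (u k)‖ ^ 2 - κ ^ 2 * ‖u k‖ ^ 2‖ ≤
        C * ‖ContinuousLinearMap.adjoint K (K (u k)) - ((κ ^ 2 : ℝ) : ℂ) • u k‖ := by
      intro k
      have h1 : ((‖K (u k)‖ ^ 2 - κ ^ 2 * ‖u k‖ ^ 2 : ℝ) : ℂ) =
          inner ℂ (u k) (ContinuousLinearMap.adjoint K (K (u k)) - ((κ ^ 2 : ℝ) : ℂ) • u k) := by
        rw [inner_sub_right, ContinuousLinearMap.adjoint_inner_right, inner_smul_right,
          inner_self_eq_norm_sq_to_K, inner_self_eq_norm_sq_to_K]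
        push_cast
        rfl
      rw [← Complex.norm_real, h1]
      refine (norm_inner_le_norm _ _).trans ?_
      exact mul_le_mul_of_nonneg_right (hC k) (norm_nonneg _)
    apply squeeze_zero_norm hb
    have h2 := (tendsto_const_nhds (x := C)).mul hn2
    rw [mul_zero] at h2
    exact h2

theorem gs_B (T : Submodule ℂ (H × FH n H)) (S : Submodule ℂ (FH n H × H2))
    (Z : Fin n → H →L[ℂ] H) (B : H →L[ℂ] H) (hS : Stp T S Z B) (K : FH n H →L[ℂ] H)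
    (hK : Can T S K) (c : ℂ)
    (hcn : ∀ A : H →L[ℂ] H, IsCompactOperator A → ∀ x : ℕ → H, WN x → Nl (fun k => A (x k)))
    (u w : ℕ → FH n H)
    (hw : ∀ k, w k = c • ContinuousLinearMap.adjoint K (K (u k))) (hu : WN u) (hwWN : WN w)
    (j : Fin n) : Nl (fun k => B (w k j)) := by
  obtain ⟨A, hA⟩ := gs_proj (n := n) (H := H) j
  have hWNh : WN (fun k => B (w k j)) := by
    have h1 := gs_wn_clm (B ∘L A) hwWN
    have h2 : (fun k => B (w k j)) = fun k => (B ∘L A) (w k) := by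
      funext k
      show B (w k j) = B (A (w k))
      rw [hA]
    rw [h2]
    exact h1
  have hcomp := hcn _ (hS.cmp j) _ hWNh
  have hKe : ∀ k, K (gs_e j (B (w k j))) = - ((B ∘L Z j - Z j ∘L B) (B (w k j))) := by
    intro k
    have h1 : (B (w k j), (0 : FH n H)) ∈ T := hS.B1 _
    have h2 := hS.leib j _ _ h1
    have h3 : (WithLp.toLp 2 (fun i => Z j ((0 : FH n H) i) +
        if i = j then B (w k j) else 0) : FH n H) = gs_e j (B (w k j)) := by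
      unfold gs_e
      congr 1
      funext i
      simp
    rw [h3] at h2
    have h4 := gs_dec T S Z B hS K hK _ _ h2
    rw [← h4]
    show _ = -(B (Z j (B (w k j))) - Z j (B (B (w k j))))
    rw [gs_Bfix T S Z B hS _ h1]
    abel
  have hKeN : Nl (fun k => K (gs_e j (B (w k j)))) := by
    have h1 : Nl (fun k => (-1 : ℂ) • ((B ∘L Z j - Z j ∘L B) (B (w k j)))) := gs_nl_smul _ hcomp
    apply gs_nl_congr h1
    intro k
    rw [hKe k, neg_one_smul]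
  obtain ⟨C, hC⟩ := hu.1
  have hb : ∀ k, ‖‖B (w k j)‖ ^ 2‖ ≤ ‖K (gs_e j (B (w k j)))‖ * (‖c‖ * (‖K‖ * C)) := by
    intro k
    have h1 : ((‖B (w k j)‖ ^ 2 : ℝ) : ℂ) = inner ℂ (B (w k j)) (w k j) := by
      have h2 := hS.B2 (w k j) (B (w k j)) (hS.B1 _)
      rw [inner_sub_right, sub_eq_zero] at h2
      rw [h2, inner_self_eq_norm_sq_to_K]
      push_cast
      rfl
    rw [← Complex.norm_real, h1, ← gs_e_inner, hw k, inner_smul_right,
      ContinuousLinearMap.adjoint_inner_right, norm_mul]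
    rw [← hw k]
    have h3 : ‖K (u k)‖ ≤ ‖K‖ * C :=
      (K.le_opNorm _).trans (mul_le_mul_of_nonneg_left (hC k) (norm_nonneg _))
    have h4 := norm_inner_le_norm (𝕜 := ℂ) (K (gs_e j (B (w k j)))) (K (u k))
    calc ‖c‖ * ‖inner ℂ (K (gs_e j (B (w k j)))) (K (u k))‖
        ≤ ‖c‖ * (‖K (gs_e j (B (w k j)))‖ * (‖K‖ * C)) := by
          apply mul_le_mul_of_nonneg_left _ (norm_nonneg _)
          exact h4.trans (mul_le_mul_of_nonneg_left h3 (norm_nonneg _))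
      _ = ‖K (gs_e j (B (w k j)))‖ * (‖c‖ * (‖K‖ * C)) := by ring
  have h5 : Tendsto (fun k => ‖B (w k j)‖ ^ 2) atTop (𝓝 0) := by
    apply squeeze_zero_norm hb
    have h6 := (show Tendsto (fun k => ‖K (gs_e j (B (w k j)))‖) atTop (𝓝 0) from hKeN).mul
      (tendsto_const_nhds (x := ‖c‖ * (‖K‖ * C)))
    rw [zero_mul] at h6
    exact h6
  have h7 := h5.sqrt
  rw [Real.sqrt_zero] at h7
  have h8 : (fun k => √(‖B (w k j)‖ ^ 2)) = fun k => ‖B (w k j)‖ := by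
    funext k
    exact Real.sqrt_sq (norm_nonneg _)
  rw [h8] at h7
  exact h7

end

section
variable {n : ℕ} {H H2 : Type*} [NormedAddCommGroup H] [InnerProductSpace ℂ H] [CompleteSpace H]
  [NormedAddCommGroup H2] [InnerProductSpace ℂ H2] [CompleteSpace H2]

theorem gs_nl_of_sq {E : Type*} [NormedAddCommGroup E] (κ : ℝ) (hκ : 0 < κ) {x : ℕ → E}
    (h : Tendsto (fun k => κ ^ 2 * ‖x k‖ ^ 2) atTop (𝓝 0)) : Tendsto (fun k => ‖x k‖) atTop (𝓝 0) := by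
  have h1 := (h.const_mul ((κ ^ 2)⁻¹)).sqrt
  rw [mul_zero, Real.sqrt_zero] at h1
  have h2 : (fun k => √((κ ^ 2)⁻¹ * (κ ^ 2 * ‖x k‖ ^ 2))) = fun k => ‖x k‖ := by
    funext k
    rw [← mul_assoc, inv_mul_cancel₀ (by positivity), one_mul, Real.sqrt_sq (norm_nonneg _)]
  rw [h2] at h1
  exact h1

theorem gs_C (T : Submodule ℂ (H × FH n H)) (S : Submodule ℂ (FH n H × H2))
    (Z : Fin n → H →L[ℂ] H) (B : H →L[ℂ] H) (hS : Stp T S Z B) (K : FH n H →L[ℂ] H)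
    (hK : Can T S K) (κ : ℝ) (hκ : 0 < κ) (hE : EssLe K κ)
    (hX : ∀ x : ℕ → FH n H, WN x →
      Tendsto (fun k => ‖K (x k)‖ ^ 2 - κ ^ 2 * ‖x k‖ ^ 2) atTop (𝓝 0) →
      Nl (fun k => ContinuousLinearMap.adjoint K (K (x k)) - ((κ ^ 2 : ℝ) : ℂ) • x k))
    (u w : ℕ → FH n H) (α : ℕ → Fin n → FH n H) (hu : WN u) (hw : WN w)
    (hwu : Nl (fun k => w k - u k)) (hα : ∀ k j, (w k j, α k j) ∈ T)
    (hsum : ∀ k, κ ^ 2 * ∑ j, ‖α k j‖ ^ 2 ≤ (κ ^ 2)⁻¹ * ‖K (u k)‖ ^ 2)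
    (hlim : Tendsto (fun k => ‖K (u k)‖ ^ 2 - κ ^ 2 * ‖u k‖ ^ 2) atTop (𝓝 0))
    (hB : ∀ j, Nl (fun k => B (w k j))) (j : Fin n) :
    Nl (fun k => ContinuousLinearMap.adjoint K (K (α k j)) - ((κ ^ 2 : ℝ) : ℂ) • α k j) := by
  have hKα : ∀ k j, K (α k j) = w k j - B (w k j) := fun k j =>
    (gs_dec T S Z B hS K hK _ _ (hα k j)).symm
  obtain ⟨M, hM⟩ : ∃ M : Submodule ℂ (FH n H),
      M = LinearMap.range (ContinuousLinearMap.adjoint K).toLinearMap := ⟨_, rfl⟩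
  have hMm : ∀ h, ContinuousLinearMap.adjoint K h ∈ M := by
    intro h
    rw [hM]
    exact ⟨h, rfl⟩
  have hcl : IsClosed (M.topologicalClosure : Set (FH n H)) := M.isClosed_topologicalClosure
  have hcomp : CompleteSpace M.topologicalClosure := hcl.completeSpace_coe
  have hdec : ∀ k j, ∃ y ∈ M.topologicalClosure, ∃ z ∈ M.topologicalClosureᗮ, α k j = y + z :=
    fun k j => M.topologicalClosure.exists_add_mem_mem_orthogonal _
  choose y hy z hz hyz using hdec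
  have hKz : ∀ k j, K (z k j) = 0 := by
    intro k j
    have h1 := hz k j _ (M.le_topologicalClosure (hMm (K (z k j))))
    rw [ContinuousLinearMap.adjoint_inner_left] at h1
    exact inner_self_eq_zero.mp h1
  have hKy : ∀ k j, K (α k j) = K (y k j) := by
    intro k j
    rw [hyz k j, map_add, hKz, add_zero]
  have hnorm : ∀ k j, ‖α k j‖ ^ 2 = ‖y k j‖ ^ 2 + ‖z k j‖ ^ 2 := by
    intro k j
    have h1 := norm_add_sq_eq_norm_sq_add_norm_sq_of_inner_eq_zero (𝕜 := ℂ) (y k j) (z k j)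
      (hz k j _ (hy k j))
    rw [hyz k j]
    nlinarith [h1]
  obtain ⟨C, hC⟩ := hu.1
  have hC0 : 0 ≤ C := (norm_nonneg _).trans (hC 0)
  have hbd : ∀ k j, ‖y k j‖ ≤ √((κ ^ 2)⁻¹ * ((κ ^ 2)⁻¹ * (‖K‖ * C) ^ 2)) := by
    intro k j
    apply Real.le_sqrt_of_sq_le
    have h1 : ‖K (u k)‖ ≤ ‖K‖ * C :=
      (K.le_opNorm _).trans (mul_le_mul_of_nonneg_left (hC k) (norm_nonneg _))
    have h2 : ‖K (u k)‖ ^ 2 ≤ (‖K‖ * C) ^ 2 := pow_le_pow_left₀ (norm_nonneg _) h1 2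
    have h3 : ‖α k j‖ ^ 2 ≤ ∑ j, ‖α k j‖ ^ 2 :=
      Finset.single_le_sum (f := fun j => ‖α k j‖ ^ 2) (fun i _ => by positivity)
        (Finset.mem_univ j)
    have h4 : ‖y k j‖ ^ 2 ≤ ‖α k j‖ ^ 2 := by
      rw [hnorm k j]
      nlinarith [sq_nonneg ‖z k j‖]
    have h5 : κ ^ 2 * ‖y k j‖ ^ 2 ≤ (κ ^ 2)⁻¹ * (‖K‖ * C) ^ 2 := by
      calc κ ^ 2 * ‖y k j‖ ^ 2 ≤ κ ^ 2 * ∑ j, ‖α k j‖ ^ 2 :=
            mul_le_mul_of_nonneg_left (h4.trans h3) (by positivity)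
        _ ≤ (κ ^ 2)⁻¹ * ‖K (u k)‖ ^ 2 := hsum k
        _ ≤ (κ ^ 2)⁻¹ * (‖K‖ * C) ^ 2 := mul_le_mul_of_nonneg_left h2 (by positivity)
    calc ‖y k j‖ ^ 2 = (κ ^ 2)⁻¹ * (κ ^ 2 * ‖y k j‖ ^ 2) := by
          rw [← mul_assoc, inv_mul_cancel₀ (by positivity), one_mul]
      _ ≤ (κ ^ 2)⁻¹ * ((κ ^ 2)⁻¹ * (‖K‖ * C) ^ 2) :=
          mul_le_mul_of_nonneg_left h5 (by positivity)
  have hwj : ∀ j, WN (fun k => w k j) := by
    intro j
    obtain ⟨A, hA⟩ := gs_proj (n := n) (H := H) j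
    have h1 := gs_wn_clm A hw
    have h2 : (fun k => w k j) = fun k => A (w k) := by
      funext k
      rw [hA]
    rw [h2]
    exact h1
  have hvj : ∀ j, WN (fun k => K (α k j)) := by
    intro j
    apply gs_wn_congr (hwj j)
    apply gs_nl_congr (gs_nl_smul (-1 : ℂ) (hB j))
    intro k
    rw [hKα k j, neg_one_smul]
    abel
  have hyWN : ∀ j, WN (fun k => y k j) := by
    intro j
    apply gs_wn_dense M _ (fun k => hbd k j) (fun k => hy k j)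
    intro m hm
    rw [hM] at hm
    obtain ⟨h, rfl⟩ := hm
    have h1 : (fun k => inner ℂ ((ContinuousLinearMap.adjoint K).toLinearMap h) (y k j)) =
        fun k => inner ℂ h (K (α k j)) := by
      funext k
      show inner ℂ (ContinuousLinearMap.adjoint K h) (y k j) = _
      rw [ContinuousLinearMap.adjoint_inner_left, hKy]
    rw [h1]
    exact (hvj j).2 h
  obtain ⟨s, hs⟩ : ∃ s : ℕ → ℝ, ∀ k, s k = (κ ^ 2)⁻¹ * ‖K (u k)‖ ^ 2 - ∑ j, ‖K (α k j)‖ ^ 2 :=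
    ⟨_, fun k => rfl⟩
  have hslim : Tendsto s atTop (𝓝 0) := by
    have h1 : s = fun k => (κ ^ 2)⁻¹ * (‖K (u k)‖ ^ 2 - κ ^ 2 * ‖u k‖ ^ 2) +
        (-(‖w k‖ ^ 2 - ‖u k‖ ^ 2)) + ∑ j, (‖w k j‖ ^ 2 - ‖K (α k j)‖ ^ 2) := by
      funext k
      rw [hs k, Finset.sum_sub_distrib, ← PiLp.norm_sq_eq_of_L2, mul_sub, ← mul_assoc,
        inv_mul_cancel₀ (by positivity), one_mul]
      ring
    rw [h1]
    have h2 := hlim.const_mul ((κ ^ 2)⁻¹)
    have h3 := (gs_sqdiff hw.1 hwu).neg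
    have h4 : Tendsto (fun k => ∑ j, (‖w k j‖ ^ 2 - ‖K (α k j)‖ ^ 2)) atTop
        (𝓝 (∑ j : Fin n, (0 : ℝ))) := by
      apply tendsto_finset_sum
      intro j _
      apply gs_sqdiff (hwj j).1
      apply gs_nl_congr (hB j)
      intro k
      rw [hKα k j]
      abel
    rw [Finset.sum_const_zero] at h4
    have h5 := (h2.add h3).add h4
    rw [mul_zero, neg_zero, add_zero, add_zero] at h5
    exact h5
  have hdlow : ∀ j, ∀ ε : ℝ, 0 < ε → ∀ᶠ k in atTop, -ε ≤ κ ^ 2 * ‖y k j‖ ^ 2 - ‖K (α k j)‖ ^ 2 := by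
    intro j ε hε
    filter_upwards [hE (fun k => y k j) (hyWN j) ε hε] with k hk
    rw [hKy k j]
    linarith
  have hxlim := gs_sum (fun j k => κ ^ 2 * ‖α k j‖ ^ 2 - ‖K (α k j)‖ ^ 2) s hslim
    (by
      intro j ε hε
      filter_upwards [hdlow j ε hε] with k hk
      have h1 : κ ^ 2 * ‖α k j‖ ^ 2 = κ ^ 2 * ‖y k j‖ ^ 2 + κ ^ 2 * ‖z k j‖ ^ 2 := by
        rw [hnorm k j]
        ring
      have h2 : 0 ≤ κ ^ 2 * ‖z k j‖ ^ 2 := by positivity
      show -ε ≤ κ ^ 2 * ‖α k j‖ ^ 2 - ‖K (α k j)‖ ^ 2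
      linarith)
    (by
      intro k
      show ∑ j, (κ ^ 2 * ‖α k j‖ ^ 2 - ‖K (α k j)‖ ^ 2) ≤ s k
      rw [Finset.sum_sub_distrib, ← Finset.mul_sum, hs k]
      linarith [hsum k]) j
  have hde := gs_sum (n := 2) ![fun k => κ ^ 2 * ‖y k j‖ ^ 2 - ‖K (α k j)‖ ^ 2,
      fun k => κ ^ 2 * ‖z k j‖ ^ 2] _ hxlim
    (by
      intro i
      refine Fin.cases ?_ (fun i => ?_) i
      · exact hdlow j
      · intro ε hε
        apply Filter.Eventually.of_forall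
        intro k
        have h0 : i = 0 := Subsingleton.elim _ _
        subst h0
        show -ε ≤ κ ^ 2 * ‖z k j‖ ^ 2
        have h2 : 0 ≤ κ ^ 2 * ‖z k j‖ ^ 2 := by positivity
        linarith)
    (by
      intro k
      rw [Fin.sum_univ_two]
      show κ ^ 2 * ‖y k j‖ ^ 2 - ‖K (α k j)‖ ^ 2 + κ ^ 2 * ‖z k j‖ ^ 2 ≤
        κ ^ 2 * ‖α k j‖ ^ 2 - ‖K (α k j)‖ ^ 2
      rw [hnorm k j]
      linarith)
  have hd0 : Tendsto (fun k => κ ^ 2 * ‖y k j‖ ^ 2 - ‖K (α k j)‖ ^ 2) atTop (𝓝 0) := hde 0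
  have he0 : Tendsto (fun k => κ ^ 2 * ‖z k j‖ ^ 2) atTop (𝓝 0) := hde 1
  have hzN : Nl (fun k => z k j) := gs_nl_of_sq κ hκ he0
  have hyN := hX (fun k => y k j) (hyWN j) (by
    have h1 := hd0.neg
    rw [neg_zero] at h1
    have h2 : (fun k => ‖K (y k j)‖ ^ 2 - κ ^ 2 * ‖y k j‖ ^ 2) =
        fun k => -(κ ^ 2 * ‖y k j‖ ^ 2 - ‖K (α k j)‖ ^ 2) := by
      funext k
      rw [hKy k j]
      ring
    rw [h2]
    exact h1)
  apply gs_nl_congr (gs_nl_sub hyN (gs_nl_smul ((κ ^ 2 : ℝ) : ℂ) hzN))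
  intro k
  rw [hKy k j, hyz k j, smul_add]
  abel

end

section
variable {n : ℕ} {H H2 : Type*} [NormedAddCommGroup H] [InnerProductSpace ℂ H] [CompleteSpace H]
  [NormedAddCommGroup H2] [InnerProductSpace ℂ H2] [CompleteSpace H2]

theorem good_step (T : Submodule ℂ (H × FH n H)) (S : Submodule ℂ (FH n H × H2))
    (Z : Fin n → H →L[ℂ] H) (B : H →L[ℂ] H) (hS : Stp T S Z B) (K : FH n H →L[ℂ] H)
    (hK : Can T S K) (κ : ℝ) (hκ : 0 < κ) (hE : EssLe K κ)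
    (hcn : ∀ A : H →L[ℂ] H, IsCompactOperator A → ∀ x : ℕ → H, WN x → Nl (fun k => A (x k)))
    (hX : ∀ x : ℕ → FH n H, WN x →
      Tendsto (fun k => ‖K (x k)‖ ^ 2 - κ ^ 2 * ‖x k‖ ^ 2) atTop (𝓝 0) →
      Nl (fun k => ContinuousLinearMap.adjoint K (K (x k)) - ((κ ^ 2 : ℝ) : ℂ) • x k))
    (f : ℕ → H) (hf : Good K κ f) :
    (∀ j, Good K κ (fun k => Dop K κ j (f k))) ∧
    (∀ j l, Nl (fun k => Dop K κ j (Dop K κ l (f k)) - Dop K κ l (Dop K κ j (f k)))) ∧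
    ADom T f (fun k => WithLp.toLp 2 (fun j => Dop K κ j (f k))) ∧
    Nl (fun k => B (f k)) := by
  obtain ⟨u, w, α, hu, hw, huWN, hwWN, hwu, huS, hwS, hα, hsum, hlim⟩ :=
    gs_A T S Z B hS K hK κ hκ f hf
  have hB : ∀ j, Nl (fun k => B (w k j)) := fun j =>
    gs_B T S Z B hS K hK _ hcn u w hw huWN hwWN j
  have hC := gs_C T S Z B hS K hK κ hκ hE hX u w α huWN hwWN hwu hα hsum hlim hB
  have hKα : ∀ k j, K (α k j) = w k j - B (w k j) := fun k j =>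
    (gs_dec T S Z B hS K hK _ _ (hα k j)).symm
  have hDop : ∀ k j, Dop K κ j (f k) = u k j := by
    intro k j
    rw [hu k]
    rfl
  have huv : ∀ j, Nl (fun k => u k j - K (α k j)) := by
    intro j
    obtain ⟨A, hA⟩ := gs_proj (n := n) (H := H) j
    have h1 := gs_nl_smul (-1 : ℂ) (gs_nl_clm A hwu)
    apply gs_nl_congr (gs_nl_add h1 (hB j))
    intro k
    rw [hA, hKα k j, neg_one_smul]
    show _ = -(w k j - u k j) + B (w k j)
    abel
  have hκ2 : ((κ ^ 2 : ℝ) : ℂ) ≠ 0 := by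
    rw [Ne, Complex.ofReal_eq_zero]
    positivity
  refine ⟨?_, ?_, ?_, ?_⟩
  · intro j
    have h0 : (fun k => Dop K κ j (f k)) = fun k => u k j := funext fun k => hDop k j
    rw [h0]
    constructor
    · obtain ⟨A, hA⟩ := gs_proj (n := n) (H := H) j
      have h1 := gs_wn_clm A huWN
      have h2 : (fun k => u k j) = fun k => A (u k) := by
        funext k
        rw [hA]
      rw [h2]
      exact h1
    · have h1 := gs_nl_clm K (hC j)
      have h2 := gs_nl_clm (K ∘L ContinuousLinearMap.adjoint K) (huv j)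
      have h3 := gs_nl_smul (-((κ ^ 2 : ℝ) : ℂ)) (huv j)
      apply gs_nl_congr (gs_nl_add (gs_nl_add h1 h2) h3)
      intro k
      show _ = K (ContinuousLinearMap.adjoint K (K (α k j)) - ((κ ^ 2 : ℝ) : ℂ) • α k j) +
        K (ContinuousLinearMap.adjoint K (u k j - K (α k j))) +
        (-((κ ^ 2 : ℝ) : ℂ)) • (u k j - K (α k j))
      simp only [map_sub, map_smul, neg_smul, smul_sub]
      abel
  · have hkey : ∀ j l, Nl (fun k => Dop K κ l (Dop K κ j (f k)) - α k j l) := by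
      intro j l
      obtain ⟨A, hA⟩ := gs_proj (n := n) (H := H) l
      have h1 := gs_nl_clm (A ∘L ContinuousLinearMap.adjoint K) (huv j)
      have h2 := gs_nl_smul (((κ ^ 2 : ℝ) : ℂ)⁻¹) h1
      have h3 := gs_nl_smul (((κ ^ 2 : ℝ) : ℂ)⁻¹) (gs_nl_clm A (hC j))
      apply gs_nl_congr (gs_nl_add h2 h3)
      intro k
      rw [hDop k j]
      show ((κ ^ 2 : ℝ) : ℂ)⁻¹ • (ContinuousLinearMap.adjoint K (u k j)) l - α k j l =
        ((κ ^ 2 : ℝ) : ℂ)⁻¹ • A (ContinuousLinearMap.adjoint K (u k j - K (α k j))) +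
        ((κ ^ 2 : ℝ) : ℂ)⁻¹ • A (ContinuousLinearMap.adjoint K (K (α k j)) -
          ((κ ^ 2 : ℝ) : ℂ) • α k j)
      simp only [map_sub, map_smul, smul_sub, smul_smul]
      rw [inv_mul_cancel₀ hκ2, one_smul]
      simp only [hA]
      abel
    intro j l
    apply gs_nl_congr (gs_nl_sub (hkey l j) (hkey j l))
    intro k
    have hsym := hS.sym (w k) (α k) (hwS k) (hα k) l j
    rw [hsym]
    abel
  · refine ⟨fun k => K (u k), u, fun k => hK.k1 (u k) (huS k), ?_, ?_⟩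
    · apply gs_nl_congr (gs_nl_smul (-((κ ^ 2 : ℝ) : ℂ)⁻¹) hf.2)
      intro k
      show f k - K (u k) = _
      rw [hu k, map_smul, neg_smul, smul_sub, smul_smul, inv_mul_cancel₀ hκ2, one_smul]
      abel
    · have h1 : ∀ k, (WithLp.toLp 2 (fun j => Dop K κ j (f k)) : FH n H) - u k = 0 := by
        intro k
        rw [sub_eq_zero]
        ext j
        exact hDop k j
      unfold Nl
      simp only [h1, norm_zero]
      exact tendsto_const_nhds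
  · have h1 : Nl (fun k => f k - K (u k)) := by
      apply gs_nl_congr (gs_nl_smul (-((κ ^ 2 : ℝ) : ℂ)⁻¹) hf.2)
      intro k
      rw [hu k, map_smul, neg_smul, smul_sub, smul_smul, inv_mul_cancel₀ hκ2, one_smul]
      abel
    apply gs_nl_congr (gs_nl_clm B h1)
    intro k
    rw [map_sub, gs_BK T S Z B hS K hK, sub_zero]

end

end BK.JA3
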