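import Pool.Agent.H314.BK.Ab

set_option autoImplicit false

open Filter Topology
open scoped InnerProductSpace

namespace BK.JA4

section aux1
variable {H0 H1 : Type*} [NormedAddCommGroup H0] [InnerProductSpace ℂ H0]
  [NormedAddCommGroup H1] [InnerProductSpace ℂ H1]

theorem nl_iff {x : ℕ → H0} : Nl x ↔ Tendsto x atTop (𝓝 0) :=
  tendsto_zero_iff_norm_tendsto_zero.symm

theorem nl_add {x y : ℕ → H0} (hx : Nl x) (hy : Nl y) : Nl (fun k => x k + y k) := by
  rw [nl_iff] at *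
  simpa using hx.add hy

theorem nl_clm (A : H0 →L[ℂ] H1) {x : ℕ → H0} (hx : Nl x) : Nl (fun k => A (x k)) := by
  rw [nl_iff] at *
  have h := (A.continuous.tendsto 0).comp hx
  rw [map_zero] at h
  exact h

theorem nl_zero : Nl (fun _ : ℕ => (0 : H0)) := by
  rw [nl_iff]
  exact tendsto_const_nhds

theorem nl_sum {ι : Type*} (s : Finset ι) (x : ι → ℕ → H0) (h : ∀ i ∈ s, Nl (x i)) :
    Nl (fun k => ∑ i ∈ s, x i k) := by
  classical
  induction s using Finset.induction_on with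
  | empty => simpa using nl_zero
  | insert a s ha ih =>
    have h1 := ih (fun i hi => h i (Finset.mem_insert_of_mem hi))
    have h2 := nl_add (h a (Finset.mem_insert_self _ _)) h1
    simpa [Finset.sum_insert ha] using h2

theorem fh_norm_le {n : ℕ} (x : FH n H0) : ‖x‖ ≤ ∑ j, ‖x j‖ := by
  rw [PiLp.norm_eq_of_L2]
  apply Real.sqrt_le_iff.2
  refine ⟨Finset.sum_nonneg fun j _ => norm_nonneg _, ?_⟩
  rw [sq (∑ j, ‖x j‖), Finset.sum_mul]
  apply Finset.sum_le_sum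
  intro i _
  rw [sq]
  exact mul_le_mul_of_nonneg_left (Finset.single_le_sum (f := fun j => ‖x j‖)
    (fun j _ => norm_nonneg _) (Finset.mem_univ i)) (norm_nonneg _)

theorem nl_fh {n : ℕ} {x : ℕ → FH n H0} (h : ∀ j, Nl (fun k => x k j)) : Nl x := by
  unfold Nl at *
  refine squeeze_zero (fun k => norm_nonneg _) (fun k => fh_norm_le (x k)) ?_
  have := tendsto_finsetSum (Finset.univ : Finset (Fin n)) (fun j _ => h j)
  simpa using this

theorem fh_nl {n : ℕ} {x : ℕ → FH n H0} (h : Nl x) (j : Fin n) : Nl (fun k => x k j) := by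
  unfold Nl at *
  exact squeeze_zero (fun k => norm_nonneg _) (fun k => PiLp.norm_apply_le (x k) j) h

theorem wn_clm [CompleteSpace H0] [CompleteSpace H1] (A : H0 →L[ℂ] H1) {x : ℕ → H0} (hx : WN x) :
    WN (fun k => A (x k)) := by
  obtain ⟨⟨C, hC⟩, hw⟩ := hx
  refine ⟨⟨‖A‖ * C, fun k => (A.le_opNorm _).trans (mul_le_mul_of_nonneg_left (hC k) (norm_nonneg _))⟩,
    fun y => ?_⟩
  have h := hw (ContinuousLinearMap.adjoint A y)
  refine h.congr fun k => ?_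
  rw [ContinuousLinearMap.adjoint_inner_left]

end aux1

section aux2
variable {n : ℕ} {H : Type*} [NormedAddCommGroup H] [InnerProductSpace ℂ H] [CompleteSpace H]

/-- operators that send good sequences to null sequences -/
def NS (G : (ℕ → H) → Prop) : Submodule ℂ (H →L[ℂ] H) where
  carrier := {X | ∀ f, G f → Nl (fun k => X (f k))}
  add_mem' := fun ha hb f hf => nl_add (ha f hf) (hb f hf)
  zero_mem' := fun f _ => nl_zero
  smul_mem' := fun c X hX f hf => nl_clm (c • ContinuousLinearMap.id ℂ H) (hX f hf)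

theorem mem_NS {G : (ℕ → H) → Prop} {X : H →L[ℂ] H} :
    X ∈ NS G ↔ ∀ f, G f → Nl (fun k => X (f k)) := Iff.rfl

theorem NS_closed (G : (ℕ → H) → Prop) (hG0 : ∀ f, G f → WN f) :
    IsClosed (NS G : Set (H →L[ℂ] H)) := by
  refine isClosed_of_closure_subset fun A hA => ?_
  intro f hf
  obtain ⟨⟨C, hC⟩, _⟩ := hG0 f hf
  have hC0 : 0 ≤ C := (norm_nonneg _).trans (hC 0)
  unfold Nl
  rw [Metric.tendsto_atTop]
  intro ε hε
  obtain ⟨A', hA', hd⟩ := Metric.mem_closure_iff.1 hA (ε / (2 * (C + 1))) (by positivity)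
  obtain ⟨N, hN⟩ := (Metric.tendsto_atTop.1 (hA' f hf)) (ε / 2) (by positivity)
  refine ⟨N, fun k hk => ?_⟩
  have h1 := hN k hk
  rw [dist_zero_right, norm_norm] at h1 ⊢
  have h2 : ‖A (f k)‖ ≤ ‖A' (f k)‖ + ‖(A - A') (f k)‖ := by
    have : A (f k) = A' (f k) + (A - A') (f k) := by
      rw [sub_apply]; abel
    rw [this]
    exact norm_add_le _ _
  have h3 : ‖(A - A') (f k)‖ ≤ ‖A - A'‖ * ‖f k‖ := ContinuousLinearMap.le_opNorm _ _
  rw [dist_eq_norm] at hd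
  have h4 : ‖A - A'‖ * ‖f k‖ ≤ (ε / (2 * (C + 1))) * C :=
    mul_le_mul hd.le (hC k) (norm_nonneg _) (by positivity)
  have h5 : (ε / (2 * (C + 1))) * C < ε / 2 := by
    rw [div_mul_eq_mul_div, div_lt_div_iff₀ (by positivity) (by norm_num)]
    nlinarith
  linarith

theorem NS_left {G : (ℕ → H) → Prop} (A : H →L[ℂ] H) {X : H →L[ℂ] H} (hX : X ∈ NS G) :
    A * X ∈ NS G := fun f hf => nl_clm A (hX f hf)

theorem NS_right {G : (ℕ → H) → Prop} {D : H →L[ℂ] H} (hG1 : ∀ f, G f → G (fun k => D (f k)))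
    {X : H →L[ℂ] H} (hX : X ∈ NS G) : X * D ∈ NS G := fun f hf => hX _ (hG1 f hf)

/-- pairs of operators which are approximately in the graph on good sequences -/
def DD (T : Submodule ℂ (H × FH n H)) (G : (ℕ → H) → Prop) (X : H →L[ℂ] H)
    (Y : Fin n → H →L[ℂ] H) : Prop :=
  ∀ f, G f → ADom T (fun k => X (f k)) (fun k => WithLp.toLp 2 (fun j => Y j (f k)))

theorem DD_congr {T : Submodule ℂ (H × FH n H)} {G : (ℕ → H) → Prop} {X : H →L[ℂ] H}
    {Y Y' : Fin n → H →L[ℂ] H} (h : DD T G X Y) (hY : ∀ j, Y' j - Y j ∈ NS G) : DD T G X Y' := by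
  intro f hf
  obtain ⟨x', y', h1, h2, h3⟩ := h f hf
  refine ⟨x', y', h1, h2, nl_fh fun j => ?_⟩
  have h4 := nl_add (hY j f hf) (fh_nl h3 j)
  refine h4.congr fun k => ?_
  simp

theorem DD_add {T : Submodule ℂ (H × FH n H)} {G : (ℕ → H) → Prop} {X X' : H →L[ℂ] H}
    {Y Y' : Fin n → H →L[ℂ] H} (h : DD T G X Y) (h' : DD T G X' Y') :
    DD T G (X + X') (fun j => Y j + Y' j) := by
  intro f hf
  obtain ⟨x, y, h1, h2, h3⟩ := h f hf
  obtain ⟨x', y', h1', h2', h3'⟩ := h' f hf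
  refine ⟨fun k => x k + x' k, fun k => y k + y' k, fun k => T.add_mem (h1 k) (h1' k), ?_, ?_⟩
  · refine (nl_add h2 h2').congr fun k => ?_
    simp only [add_apply]
    congr 1
    abel
  · refine (nl_add h3 h3').congr fun k => ?_
    congr 1
    ext j
    simp only [PiLp.sub_apply, PiLp.add_apply, add_apply]
    abel

theorem DD_smul {T : Submodule ℂ (H × FH n H)} {G : (ℕ → H) → Prop} {X : H →L[ℂ] H}
    {Y : Fin n → H →L[ℂ] H} (c : ℂ) (h : DD T G X Y) :
    DD T G (c • X) (fun j => c • Y j) := by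
  intro f hf
  obtain ⟨x, y, h1, h2, h3⟩ := h f hf
  refine ⟨fun k => c • x k, fun k => c • y k, fun k => T.smul_mem c (h1 k), ?_, ?_⟩
  · refine (nl_clm (c • ContinuousLinearMap.id ℂ H) h2).congr fun k => ?_
    simp [smul_sub]
  · refine (nl_clm (c • ContinuousLinearMap.id ℂ (FH n H)) h3).congr fun k => ?_
    congr 1
    ext j
    simp [smul_sub]

theorem DD_zero (T : Submodule ℂ (H × FH n H)) (G : (ℕ → H) → Prop) :
    DD T G 0 (fun _ => 0) := by
  intro f hf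
  refine ⟨fun _ => 0, fun _ => 0, fun k => T.zero_mem, ?_, ?_⟩
  · refine (nl_zero (H0 := H)).congr fun k => ?_
    simp
  · refine (nl_zero (H0 := FH n H)).congr fun k => ?_
    congr 1
    ext j
    simp

theorem DD_sum {T : Submodule ℂ (H × FH n H)} {G : (ℕ → H) → Prop} {ι : Type*} (s : Finset ι)
    (X : ι → H →L[ℂ] H) (Y : ι → Fin n → H →L[ℂ] H) (h : ∀ i ∈ s, DD T G (X i) (Y i)) :
    DD T G (∑ i ∈ s, X i) (fun j => ∑ i ∈ s, Y i j) := by
  classical
  induction s using Finset.induction_on with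
  | empty => simpa using DD_zero T G
  | insert a s ha ih =>
    have h1 := ih (fun i hi => h i (Finset.mem_insert_of_mem hi))
    have h2 := DD_add (h a (Finset.mem_insert_self _ _)) h1
    simpa [Finset.sum_insert ha] using h2

theorem DD_leib {T : Submodule ℂ (H × FH n H)} {Z D : Fin n → H →L[ℂ] H}
    (leib : ∀ (j : Fin n) f g, (f, g) ∈ T →
      (Z j f, (WithLp.toLp 2 (fun k => Z j (g k) + if k = j then f else 0) : FH n H)) ∈ T)
    {G : (ℕ → H) → Prop} (hG1 : ∀ f, G f → ∀ j, G (fun k => D j (f k)))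
    {X : H →L[ℂ] H} {Y : Fin n → H →L[ℂ] H} (h : DD T G X Y) (i : Fin n) :
    DD T G (Z i * X * D i) (fun j => Z i * Y j * D i + if j = i then X * D i else 0) := by
  intro f hf
  obtain ⟨x, y, h1, h2, h3⟩ := h _ (hG1 f hf i)
  refine ⟨fun k => Z i (x k), fun k => WithLp.toLp 2 (fun j => Z i (y k j) + if j = i then x k else 0),
    fun k => leib i _ _ (h1 k), ?_, ?_⟩
  · refine (nl_clm (Z i) h2).congr fun k => ?_
    simp
  · refine nl_fh fun j => ?_
    have h4 := nl_clm (Z i) (fh_nl h3 j)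
    by_cases hji : j = i
    · refine (nl_add h4 h2).congr fun k => ?_
      simp only [PiLp.sub_apply, hji, if_true, add_apply,
        mul_apply_eq_comp, map_sub]
      congr 1
      abel
    · refine h4.congr fun k => ?_
      simp only [PiLp.sub_apply, hji, if_false, add_apply,
        mul_apply_eq_comp, map_sub, zero_apply, add_zero]

/-- the basic operator -/
noncomputable def Psi (Z D : Fin n → H →L[ℂ] H) : (H →L[ℂ] H) →L[ℂ] (H →L[ℂ] H) :=
  ∑ k, ContinuousLinearMap.mulLeftRight ℂ (H →L[ℂ] H) (Z k) (D k)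

theorem Psi_apply (Z D : Fin n → H →L[ℂ] H) (X : H →L[ℂ] H) :
    Psi Z D X = ∑ k, Z k * X * D k := by
  unfold Psi
  rw [sum_apply]
  rfl

theorem DD_Psi {T : Submodule ℂ (H × FH n H)} {Z D : Fin n → H →L[ℂ] H}
    (leib : ∀ (j : Fin n) f g, (f, g) ∈ T →
      (Z j f, (WithLp.toLp 2 (fun k => Z j (g k) + if k = j then f else 0) : FH n H)) ∈ T)
    {G : (ℕ → H) → Prop} (hG1 : ∀ f, G f → ∀ j, G (fun k => D j (f k)))
    {X : H →L[ℂ] H} {Y : Fin n → H →L[ℂ] H} (h : DD T G X Y) :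
    DD T G (Psi Z D X) (fun j => Psi Z D (Y j) + X * D j) := by
  have h1 := DD_sum Finset.univ _ _ (fun i _ => DD_leib leib hG1 h i)
  rw [Psi_apply]
  convert h1 using 2 with j
  rw [Psi_apply, Finset.sum_add_distrib]
  simp

theorem NS_Psi {Z D : Fin n → H →L[ℂ] H} {G : (ℕ → H) → Prop}
    (hG1 : ∀ f, G f → ∀ j, G (fun k => D j (f k)))
    (hG2 : ∀ f, G f → ∀ j l, Nl (fun k => D j (D l (f k)) - D l (D j (f k))))
    (X : H →L[ℂ] H) (l : Fin n) :
    Psi Z D X * D l - Psi Z D (X * D l) ∈ NS G := by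
  rw [Psi_apply, Psi_apply, Finset.sum_mul, ← Finset.sum_sub_distrib]
  refine Submodule.sum_mem _ fun k _ => ?_
  have h1 : Z k * X * D k * D l - Z k * (X * D l) * D k = (Z k * X) * (D k * D l - D l * D k) := by
    noncomm_ring
  rw [h1]
  refine NS_left _ fun f hf => ?_
  exact hG2 f hf k l


/-- the powers -/
noncomputable def sg (Z D : Fin n → H →L[ℂ] H) (m : ℕ) : H →L[ℂ] H := ((-(Psi Z D)) ^ m) 1

theorem sg_zero (Z D : Fin n → H →L[ℂ] H) : sg Z D 0 = 1 := by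
  unfold sg
  rw [pow_zero]
  rfl

theorem sg_succ (Z D : Fin n → H →L[ℂ] H) (m : ℕ) : sg Z D (m + 1) = -(Psi Z D (sg Z D m)) := by
  unfold sg
  rw [pow_succ']
  rfl

theorem DD_step {T : Submodule ℂ (H × FH n H)} {Z D : Fin n → H →L[ℂ] H}
    (leib : ∀ (j : Fin n) f g, (f, g) ∈ T →
      (Z j f, (WithLp.toLp 2 (fun k => Z j (g k) + if k = j then f else 0) : FH n H)) ∈ T)
    {G : (ℕ → H) → Prop} (hG1 : ∀ f, G f → ∀ j, G (fun k => D j (f k)))
    (hG2 : ∀ f, G f → ∀ j l, Nl (fun k => D j (D l (f k)) - D l (D j (f k))))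
    {X A : H →L[ℂ] H} (h : DD T G X (fun j => A * D j)) :
    DD T G (-(Psi Z D X)) (fun j => (-(Psi Z D A) - X) * D j) := by
  have h1 := DD_smul (-1 : ℂ) (DD_Psi leib hG1 h)
  rw [neg_one_smul] at h1
  refine DD_congr h1 fun j => ?_
  have h2 := NS_Psi (Z := Z) hG1 hG2 A j
  have h3 : (-(Psi Z D A) - X) * D j - (-1 : ℂ) • (Psi Z D (A * D j) + X * D j)
      = -(Psi Z D A * D j - Psi Z D (A * D j)) := by
    rw [neg_one_smul, sub_mul, neg_mul]
    abel
  rw [h3]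
  exact Submodule.neg_mem _ h2

theorem DD_sg {T : Submodule ℂ (H × FH n H)} {Z D : Fin n → H →L[ℂ] H}
    (leib : ∀ (j : Fin n) f g, (f, g) ∈ T →
      (Z j f, (WithLp.toLp 2 (fun k => Z j (g k) + if k = j then f else 0) : FH n H)) ∈ T)
    {G : (ℕ → H) → Prop} (hG1 : ∀ f, G f → ∀ j, G (fun k => D j (f k)))
    (hG2 : ∀ f, G f → ∀ j l, Nl (fun k => D j (D l (f k)) - D l (D j (f k))))
    (hG3 : ∀ f, G f → ADom T f (fun k => WithLp.toLp 2 (fun j => D j (f k)))) (m : ℕ) :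
    DD T G (sg Z D (m + 1)) (fun j => (sg Z D (m + 1) - ((m + 1 : ℕ) : ℂ) • sg Z D m) * D j) := by
  induction m with
  | zero =>
    have h0 : DD T G (1 : H →L[ℂ] H) (fun j => 1 * D j) := by
      intro f hf
      simpa using hG3 f hf
    have h1 := DD_step leib hG1 hG2 h0
    rw [sg_succ, sg_zero]
    simpa using h1
  | succ m ih =>
    have h1 := DD_step leib hG1 hG2 ih
    rw [sg_succ Z D (m + 1)]
    convert h1 using 3 with j
    rw [map_sub, map_smul]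
    have h2 : Psi Z D (sg Z D m) = - sg Z D (m + 1) := by rw [sg_succ, neg_neg]
    rw [h2]
    push_cast
    module

/-- finite sums -/
noncomputable def PN (Z D : Fin n → H →L[ℂ] H) (N : ℕ) : H →L[ℂ] H :=
  ∑ m ∈ Finset.range N, ((m.factorial : ℂ)⁻¹) • sg Z D m

theorem DD_PN {T : Submodule ℂ (H × FH n H)} {Z D : Fin n → H →L[ℂ] H}
    (leib : ∀ (j : Fin n) f g, (f, g) ∈ T →
      (Z j f, (WithLp.toLp 2 (fun k => Z j (g k) + if k = j then f else 0) : FH n H)) ∈ T)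
    {G : (ℕ → H) → Prop} (hG1 : ∀ f, G f → ∀ j, G (fun k => D j (f k)))
    (hG2 : ∀ f, G f → ∀ j l, Nl (fun k => D j (D l (f k)) - D l (D j (f k))))
    (hG3 : ∀ f, G f → ADom T f (fun k => WithLp.toLp 2 (fun j => D j (f k)))) (N : ℕ) :
    DD T G (PN Z D (N + 1)) (fun j => (((N.factorial : ℂ)⁻¹) • sg Z D N) * D j) := by
  induction N with
  | zero =>
    have h0 : DD T G (1 : H →L[ℂ] H) (fun j => 1 * D j) := by
      intro f hf
      simpa using hG3 f hf
    unfold PN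
    simpa [sg_zero] using h0
  | succ N ih =>
    have h1 := DD_smul (((N + 1).factorial : ℂ)⁻¹) (DD_sg leib hG1 hG2 hG3 N)
    have h2 := DD_add ih h1
    have h3 : PN Z D (N + 1 + 1) = PN Z D (N + 1) + (((N + 1).factorial : ℂ)⁻¹) • sg Z D (N + 1) := by
      unfold PN
      rw [Finset.sum_range_succ]
    rw [h3]
    convert h2 using 2 with j
    have h4 : ((N.factorial : ℂ)⁻¹) = (((N + 1).factorial : ℂ)⁻¹) * ((N + 1 : ℕ) : ℂ) := by
      rw [Nat.factorial_succ]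
      have h5 : (N.factorial : ℂ) ≠ 0 := by exact_mod_cast N.factorial_ne_zero
      have h6 : ((N + 1 : ℕ) : ℂ) ≠ 0 := by exact_mod_cast N.succ_ne_zero
      push_cast at h6 ⊢
      field_simp
    rw [h4, sub_mul, smul_sub, smul_mul_assoc, smul_mul_assoc, smul_mul_assoc, mul_smul]
    abel

theorem DD_est {T : Submodule ℂ (H × FH n H)} {B : H →L[ℂ] H}
    {C : ℝ} (hC : ∀ f g, (f, g) ∈ T → ‖f - B f‖ ≤ C * ‖g‖)
    {G : (ℕ → H) → Prop} {X : H →L[ℂ] H} {Y : Fin n → H →L[ℂ] H} (h : DD T G X Y)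
    {f : ℕ → H} (hf : G f) {Cf : ℝ} (hCf : ∀ k, ‖f k‖ ≤ Cf) {ε : ℝ} (hε : 0 < ε) :
    ∀ᶠ k in atTop, ‖(1 - B) (X (f k))‖ ≤ |C| * ((∑ j, ‖Y j‖) * Cf) + ε := by
  obtain ⟨x, y, h1, h2, h3⟩ := h f hf
  have h4 : Tendsto (fun k => ‖(1 - B : H →L[ℂ] H)‖ * ‖X (f k) - x k‖
      + |C| * ‖(WithLp.toLp 2 (fun j => Y j (f k)) : FH n H) - y k‖) atTop (𝓝 0) := by
    have h5 := (h2.const_mul ‖(1 - B : H →L[ℂ] H)‖).add (h3.const_mul |C|)
    simpa using h5
  filter_upwards [h4.eventually (gt_mem_nhds hε)] with k hk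
  have e1 : (1 - B) (X (f k)) = (1 - B) (X (f k) - x k) + (x k - B (x k)) := by
    rw [map_sub]
    simp only [sub_apply, one_apply_eq_self]
    abel
  have e2 : ‖(1 - B) (X (f k) - x k)‖ ≤ ‖(1 - B : H →L[ℂ] H)‖ * ‖X (f k) - x k‖ :=
    ContinuousLinearMap.le_opNorm _ _
  have e3 := hC _ _ (h1 k)
  have e4 : C * ‖y k‖ ≤ |C| * ‖y k‖ := mul_le_mul_of_nonneg_right (le_abs_self C) (norm_nonneg _)
  have e5 : ‖y k‖ ≤ ‖(WithLp.toLp 2 (fun j => Y j (f k)) : FH n H)‖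
      + ‖(WithLp.toLp 2 (fun j => Y j (f k)) : FH n H) - y k‖ := by
    have := norm_sub_le (WithLp.toLp 2 (fun j => Y j (f k)) : FH n H)
      ((WithLp.toLp 2 (fun j => Y j (f k)) : FH n H) - y k)
    simpa using this
  have e6 : ‖(WithLp.toLp 2 (fun j => Y j (f k)) : FH n H)‖ ≤ (∑ j, ‖Y j‖) * Cf := by
    refine (fh_norm_le _).trans ?_
    rw [Finset.sum_mul]
    refine Finset.sum_le_sum fun j _ => ?_
    exact ((Y j).le_opNorm _).trans (mul_le_mul_of_nonneg_left (hCf k) (norm_nonneg _))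
  have e7 : |C| * ‖y k‖ ≤ |C| * ((∑ j, ‖Y j‖) * Cf)
      + |C| * ‖(WithLp.toLp 2 (fun j => Y j (f k)) : FH n H) - y k‖ := by
    rw [← mul_add]
    exact mul_le_mul_of_nonneg_left (e5.trans (by linarith)) (abs_nonneg _)
  have e8 : ‖(1 - B) (X (f k))‖ ≤ ‖(1 - B) (X (f k) - x k)‖ + ‖x k - B (x k)‖ := by
    rw [e1]
    exact norm_add_le _ _
  linarith

theorem exp_cancel (Φ : (H →L[ℂ] H) →L[ℂ] (H →L[ℂ] H)) :
    NormedSpace.exp Φ * NormedSpace.exp (-Φ) = 1 := by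
  let _ : NormedAlgebra ℚ ((H →L[ℂ] H) →L[ℂ] (H →L[ℂ] H)) :=
    NormedAlgebra.restrictScalars ℚ ℂ ((H →L[ℂ] H) →L[ℂ] (H →L[ℂ] H))
  rw [← NormedSpace.exp_add_of_commute (Commute.neg_right (Commute.refl Φ))]
  simp

theorem exp_app (Φ : (H →L[ℂ] H) →L[ℂ] (H →L[ℂ] H)) (X : H →L[ℂ] H) :
    HasSum (fun m : ℕ => ((m.factorial : ℂ)⁻¹) • ((Φ ^ m) X)) (NormedSpace.exp Φ X) := by
  have h1 : HasSum (fun n : ℕ => ((n.factorial : ℂ)⁻¹) • Φ ^ n) (NormedSpace.exp Φ) :=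
    NormedSpace.exp_series_hasSum_exp' Φ
  exact h1.mapL (ContinuousLinearMap.apply ℂ (H →L[ℂ] H) X)

end aux2

section
variable {n : ℕ} {H : Type*} [NormedAddCommGroup H] [InnerProductSpace ℂ H] [CompleteSpace H]

/-- Taylor expansion in `z̄` -/
theorem taylor (T : Submodule ℂ (H × FH n H)) (Z D : Fin n → H →L[ℂ] H) (B : H →L[ℂ] H)
    (leib : ∀ (j : Fin n) f g, (f, g) ∈ T →
      (Z j f, (WithLp.toLp 2 (fun k => Z j (g k) + if k = j then f else 0) : FH n H)) ∈ T)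
    (C : ℝ) (hC : ∀ f g, (f, g) ∈ T → ‖f - B f‖ ≤ C * ‖g‖)
    (hZ : ∀ (j : Fin n) (x : ℕ → H), WN x → Nl (fun k => x k - B (x k)) →
      Nl (fun k => Z j (x k) - B (Z j (x k))))
    (G : (ℕ → H) → Prop) (hG0 : ∀ f, G f → WN f) (hG1 : ∀ f, G f → ∀ j, G (fun k => D j (f k)))
    (hG2 : ∀ f, G f → ∀ j l, Nl (fun k => D j (D l (f k)) - D l (D j (f k))))
    (hG3 : ∀ f, G f → ADom T f (fun k => WithLp.toLp 2 (fun j => D j (f k))))
    (hG4 : ∀ f, G f → Nl (fun k => B (f k))) :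
    ∀ f, G f → Nl f := by
  have hsum : HasSum (fun m : ℕ => ((m.factorial : ℂ)⁻¹) • sg Z D m)
      (NormedSpace.exp (-(Psi Z D)) 1) := exp_app (-(Psi Z D)) 1
  obtain ⟨P, hP⟩ : ∃ P, P = NormedSpace.exp (-(Psi Z D)) (1 : H →L[ℂ] H) := ⟨_, rfl⟩
  rw [← hP] at hsum
  -- claim 1
  have hP1 : (1 - B) * P ∈ NS G := by
    intro f hf
    obtain ⟨⟨Cf, hCf⟩, _⟩ := hG0 f hf
    have hCf0 : 0 ≤ Cf := (norm_nonneg _).trans (hCf 0)
    unfold Nl
    rw [Metric.tendsto_atTop]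
    intro ε hε
    have l1 : Tendsto (fun N => ‖P - PN Z D (N + 1)‖) atTop (𝓝 0) := by
      have := (hsum.tendsto_sum_nat.comp (tendsto_add_atTop_nat 1)).const_sub P
      rw [sub_self] at this
      exact tendsto_zero_iff_norm_tendsto_zero.1 this
    have l2 : Tendsto (fun N : ℕ => ‖((N.factorial : ℂ)⁻¹) • sg Z D N‖) atTop (𝓝 0) :=
      tendsto_zero_iff_norm_tendsto_zero.1 hsum.summable.tendsto_atTop_zero
    have l3 : Tendsto (fun N : ℕ => ‖(1 - B : H →L[ℂ] H)‖ * (‖P - PN Z D (N + 1)‖ * Cf)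
        + |C| * (((‖((N.factorial : ℂ)⁻¹) • sg Z D N‖) * ∑ j, ‖D j‖) * Cf)) atTop (𝓝 0) := by
      have := ((l1.mul_const Cf).const_mul ‖(1 - B : H →L[ℂ] H)‖).add
        (((l2.mul_const (∑ j, ‖D j‖)).mul_const Cf).const_mul |C|)
      simpa using this
    obtain ⟨N, hN⟩ := (l3.eventually (gt_mem_nhds (half_pos hε))).exists
    have hest := DD_est hC (DD_PN leib hG1 hG2 hG3 N) hf hCf (half_pos hε)
    obtain ⟨K, hK⟩ := eventually_atTop.1 hest
    refine ⟨K, fun k hk => ?_⟩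
    have h1 := hK k hk
    rw [dist_zero_right, norm_norm]
    have h2 : ((1 - B) * P) (f k) = (1 - B) ((P - PN Z D (N + 1)) (f k))
        + (1 - B) (PN Z D (N + 1) (f k)) := by
      have e0 : (P - PN Z D (N + 1)) (f k) + PN Z D (N + 1) (f k) = P (f k) := by
        rw [sub_apply (P) (PN Z D (N + 1)) (f k), sub_add_cancel]
      rw [← map_add, e0]
      rfl
    have h3 : ‖(1 - B) ((P - PN Z D (N + 1)) (f k))‖
        ≤ ‖(1 - B : H →L[ℂ] H)‖ * (‖P - PN Z D (N + 1)‖ * Cf) := by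
      refine (ContinuousLinearMap.le_opNorm _ _).trans (mul_le_mul_of_nonneg_left ?_ (norm_nonneg _))
      exact (ContinuousLinearMap.le_opNorm _ _).trans
        (mul_le_mul_of_nonneg_left (hCf k) (norm_nonneg _))
    have h4 : (∑ j, ‖(((N.factorial : ℂ)⁻¹) • sg Z D N) * D j‖)
        ≤ ‖((N.factorial : ℂ)⁻¹) • sg Z D N‖ * ∑ j, ‖D j‖ := by
      rw [Finset.mul_sum]
      exact Finset.sum_le_sum fun j _ => norm_mul_le _ _
    have h5 : |C| * ((∑ j, ‖(((N.factorial : ℂ)⁻¹) • sg Z D N) * D j‖) * Cf)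
        ≤ |C| * ((‖((N.factorial : ℂ)⁻¹) • sg Z D N‖ * ∑ j, ‖D j‖) * Cf) :=
      mul_le_mul_of_nonneg_left (mul_le_mul_of_nonneg_right h4 hCf0) (abs_nonneg _)
    have h6 : ‖((1 - B) * P) (f k)‖ ≤ ‖(1 - B) ((P - PN Z D (N + 1)) (f k))‖
        + ‖(1 - B) (PN Z D (N + 1) (f k))‖ := by
      rw [h2]
      exact norm_add_le _ _
    linarith
  -- claim 2
  have hinv : ∀ X : H →L[ℂ] H, (1 - B) * X ∈ NS G → (1 - B) * (Psi Z D X) ∈ NS G := by
    intro X hX
    rw [Psi_apply, Finset.mul_sum]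
    refine Submodule.sum_mem _ fun j _ => ?_
    intro f hf
    have h1 := hX _ (hG1 f hf j)
    have h2 := wn_clm X (hG0 _ (hG1 f hf j))
    have h3 := hZ j _ h2 (by
      refine h1.congr fun k => ?_
      simp only [mul_apply_eq_comp, sub_apply, one_apply_eq_self])
    refine h3.congr fun k => ?_
    simp only [mul_apply_eq_comp, sub_apply, one_apply_eq_self]
  have hpow : ∀ m : ℕ, (1 - B) * ((Psi Z D ^ m) P) ∈ NS G := by
    intro m
    induction m with
    | zero => simpa using hP1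
    | succ m ih =>
      have := hinv _ ih
      rw [pow_succ']
      exact this
  -- claim 3
  have hone : NormedSpace.exp (Psi Z D) P = 1 := by
    rw [hP]
    have h1 := exp_cancel (Psi Z D)
    have h2 := congrArg (fun F : (H →L[ℂ] H) →L[ℂ] (H →L[ℂ] H) => F 1) h1
    exact h2
  have hsum2 := exp_app (Psi Z D) P
  rw [hone] at hsum2
  have h7 : (1 - B) * (1 : H →L[ℂ] H) ∈ NS G := by
    have h8 : Tendsto (fun N : ℕ => (1 - B) * ∑ m ∈ Finset.range N,
        ((m.factorial : ℂ)⁻¹) • ((Psi Z D ^ m) P)) atTop (𝓝 ((1 - B) * (1 : H →L[ℂ] H))) :=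
      (hsum2.tendsto_sum_nat).const_mul (1 - B)
    refine (NS_closed G hG0).mem_of_tendsto h8 (Eventually.of_forall fun N => ?_)
    show (1 - B) * ∑ m ∈ Finset.range N, ((m.factorial : ℂ)⁻¹) • ((Psi Z D ^ m) P) ∈ NS G
    rw [Finset.mul_sum]
    refine Submodule.sum_mem _ fun m _ => ?_
    rw [mul_smul_comm]
    exact Submodule.smul_mem _ _ (hpow m)
  intro f hf
  refine (nl_add (h7 f hf) (hG4 f hf)).congr fun k => ?_
  simp

end

end BK.JA4
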