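import Pool.Agent.H314.BK.Ab

set_option autoImplicit false

open Filter Topology
open scoped InnerProductSpace

namespace BK.JA5

section
variable {n : ℕ} {H H2 : Type*} [NormedAddCommGroup H] [InnerProductSpace ℂ H] [CompleteSpace H]
  [NormedAddCommGroup H2] [InnerProductSpace ℂ H2] [CompleteSpace H2]

theorem N_null_aux {E F : Type*} [NormedAddCommGroup E] [InnerProductSpace ℂ E] [CompleteSpace E]
    [NormedAddCommGroup F] [InnerProductSpace ℂ F] [CompleteSpace F] (K : E →L[ℂ] F)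
    (hKn : ∀ x : ℕ → E, WN x → Nl (fun k => K (x k))) (α : ℕ → E) (C : ℝ)
    (hC : ∀ k, ‖α k‖ ≤ C)
    (hw : ∀ h : F, Tendsto (fun k => inner ℂ h (K (α k))) atTop (𝓝 0)) :
    Nl (fun k => K (α k)) := by
  have hC0 : 0 ≤ C := (norm_nonneg _).trans (hC 0)
  choose y hy z hz hyz using fun k => K.ker.exists_add_mem_mem_orthogonal (α k)
  have hKz : ∀ k, K (z k) = K (α k) := by
    intro k
    rw [hyz k, map_add]
    have h1 : K (y k) = 0 := hy k
    rw [h1, zero_add]
  have hzn : ∀ k, ‖z k‖ ≤ C := by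
    intro k
    have h1 : inner ℂ (y k) (z k) = 0 := Submodule.inner_right_of_mem_orthogonal (hy k) (hz k)
    have h2 : ‖α k‖ ^ 2 = ‖y k‖ ^ 2 + ‖z k‖ ^ 2 := by
      rw [hyz k, norm_add_sq (𝕜 := ℂ), h1]
      simp
    have h3 : ‖z k‖ ^ 2 ≤ ‖α k‖ ^ 2 := by
      rw [h2]
      have := sq_nonneg ‖y k‖
      linarith
    exact (pow_le_pow_iff_left₀ (norm_nonneg _) (norm_nonneg _) two_ne_zero).mp h3 |>.trans (hC k)
  have hwn : WN z := by
    refine ⟨⟨C, hzn⟩, fun w => ?_⟩
    obtain ⟨y', hy', z', hz', hw'⟩ := K.ker.exists_add_mem_mem_orthogonal w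
    have h1 : ∀ k, inner ℂ w (z k) = inner ℂ z' (α k) := by
      intro k
      have e1 : inner ℂ y' (z k) = 0 := Submodule.inner_right_of_mem_orthogonal hy' (hz k)
      have e2 : inner ℂ z' (y k) = 0 := Submodule.inner_left_of_mem_orthogonal (hy k) hz'
      rw [hw', inner_add_left, e1, zero_add, hyz k, inner_add_right, e2, zero_add]
    simp only [h1]
    rw [K.orthogonal_ker] at hz'
    have hz2 : z' ∈ closure ((ContinuousLinearMap.adjoint K).range : Set E) := hz'
    rw [Metric.mem_closure_iff] at hz2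
    rw [Metric.tendsto_atTop]
    intro ε hε
    obtain ⟨v, ⟨h, rfl⟩, hv⟩ := hz2 (ε / (2 * (C + 1))) (by positivity)
    have h2 := hw h
    rw [Metric.tendsto_atTop] at h2
    obtain ⟨N0, hN0⟩ := h2 (ε / 2) (by positivity)
    refine ⟨N0, fun k hk => ?_⟩
    have h3 := hN0 k hk
    rw [dist_zero_right] at h3 ⊢
    have h4 : inner ℂ z' (α k) = inner ℂ (z' - ContinuousLinearMap.adjoint K h) (α k) +
        inner ℂ h (K (α k)) := by
      rw [inner_sub_left, ContinuousLinearMap.adjoint_inner_left]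
      ring
    rw [h4]
    have hv' : ‖z' - ContinuousLinearMap.adjoint K h‖ < ε / (2 * (C + 1)) := by
      rw [← dist_eq_norm]; exact hv
    have h5 : ‖inner ℂ (z' - ContinuousLinearMap.adjoint K h) (α k)‖ ≤
        ε / (2 * (C + 1)) * C :=
      (norm_inner_le_norm _ _).trans
        (mul_le_mul hv'.le (hC k) (norm_nonneg _) (by positivity))
    have h6 : ε / (2 * (C + 1)) * C ≤ ε / 2 := by
      rw [div_mul_eq_mul_div, div_le_div_iff₀ (by positivity) (by positivity)]
      nlinarith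
    calc _ ≤ ‖inner ℂ (z' - ContinuousLinearMap.adjoint K h) (α k)‖ +
          ‖inner ℂ h (K (α k))‖ := norm_add_le _ _
      _ < ε / 2 + ε / 2 := add_lt_add_of_le_of_lt (h5.trans h6) h3
      _ = ε := by ring
  have h7 := hKn z hwn
  simp only [hKz] at h7
  exact h7

omit [CompleteSpace H] in
theorem N_null_uniq (T : Submodule ℂ (H × FH n H)) {f1 f2 : H} {g : FH n H}
    (h1 : (f1, g) ∈ T) (h2 : (f2, g) ∈ T)
    (o1 : ∀ h, (h, (0 : FH n H)) ∈ T → inner ℂ h f1 = 0)
    (o2 : ∀ h, (h, (0 : FH n H)) ∈ T → inner ℂ h f2 = 0) : f1 = f2 := by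
  have h3 : (f1 - f2, (0 : FH n H)) ∈ T := by
    have := T.sub_mem h1 h2
    rwa [Prod.mk_sub_mk, sub_self] at this
  have h4 : inner ℂ (f1 - f2) (f1 - f2) = 0 := by
    rw [inner_sub_right, o1 _ h3, o2 _ h3, sub_zero]
  exact sub_eq_zero.mp (inner_self_eq_zero.mp h4)

omit [CompleteSpace H] in
theorem N_null_single (j : Fin n) (h : H) (b : FH n H) :
    inner ℂ (WithLp.toLp 2 (fun k => if k = j then h else 0) : FH n H) b = inner ℂ h (b j) := by
  rw [PiLp.inner_apply, Finset.sum_eq_single j]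
  · simp
  · intro i _ hi
    simp [hi]
  · intro h
    exact absurd (Finset.mem_univ j) h

/-- the Neumann operator maps weakly null sequences to null sequences if `K` does -/
theorem N_null (T : Submodule ℂ (H × FH n H)) (S : Submodule ℂ (FH n H × H2))
    (Z : Fin n → H →L[ℂ] H) (B : H →L[ℂ] H) (hS : Stp T S Z B) (K : FH n H →L[ℂ] H)
    (hK : Can T S K) (hKn : ∀ x : ℕ → FH n H, WN x → Nl (fun k => K (x k)))
    (N : FH n H →L[ℂ] FH n H) (hN1 : ∀ v, BoxR T S (N v) v) (x : ℕ → FH n H) (hx : WN x) :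
    Nl (fun k => N (x k)) := by
  have hKx := hKn x hx
  obtain ⟨⟨C0, hC0⟩, hw0⟩ := hx
  have hC00 : 0 ≤ C0 := (norm_nonneg _).trans (hC0 0)
  choose f c g1 g2 h1 h2 h3 h4 h5 using fun k => hN1 (x k)
  -- orthogonality
  have of : ∀ k, ∀ h, (h, (0 : FH n H)) ∈ T → inner ℂ h (f k) = 0 := by
    intro k h hh
    have e := h1 k _ hh
    simp only [inner_zero_left] at e
    exact e.symm
  have og2 : ∀ k, ∀ v, (v, (0 : H2)) ∈ S → inner ℂ v (g2 k) = 0 := by
    intro k v hv
    have e := h4 k _ hv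
    simp only [inner_zero_left] at e
    exact e.symm
  have hg1 : ∀ k, (g1 k, (0 : H2)) ∈ S := fun k => hS.TS _ _ (h3 k)
  have hf : ∀ k, f k = K (x k) := by
    intro k
    have e1 : K (x k) = K (g1 k) := by
      rw [h5 k, map_add, hK.k3 (g2 k) (og2 k), add_zero]
    rw [e1]
    exact N_null_uniq T (h3 k) (hK.k1 _ (hg1 k)) (of k) (fun h hh => hK.k2 _ h hh)
  have hfn : Tendsto (fun k => ‖f k‖) atTop (𝓝 0) := by
    simp only [hf]
    exact hKx
  -- projection on the kernel of `S`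
  let KS : Submodule ℂ (FH n H) := S.comap (LinearMap.inl ℂ (FH n H) H2)
  have hKS : ∀ v, v ∈ KS ↔ (v, (0 : H2)) ∈ S := fun v => Iff.rfl
  have hcl : IsClosed (KS : Set (FH n H)) :=
    hS.Sc.preimage (by fun_prop : Continuous fun v : FH n H => (v, (0 : H2)))
  have : CompleteSpace KS := hcl.completeSpace_coe
  choose a ha b hb hab using fun k => KS.exists_add_mem_mem_orthogonal (N (x k))
  have hab0 : ∀ k, inner ℂ (a k) (b k) = 0 := fun k =>
    Submodule.inner_right_of_mem_orthogonal (ha k) (hb k)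
  have han : ∀ k, ‖a k‖ ≤ ‖K‖ * ‖f k‖ := by
    intro k
    have e1 : inner ℂ (a k) (a k) = inner ℂ (K (a k)) (f k) := by
      have e2 := h1 k _ (hK.k1 _ ((hKS _).mp (ha k)))
      simp only at e2
      rw [← e2, hab k, inner_add_right, hab0 k, add_zero]
    have e3 : ‖a k‖ ^ 2 ≤ ‖K‖ * ‖a k‖ * ‖f k‖ := by
      have e4 : ‖a k‖ ^ 2 = ‖inner ℂ (a k) (a k)‖ := by
        rw [inner_self_eq_norm_sq_to_K, norm_pow]
        simp
      rw [e4, e1]
      exact (norm_inner_le_norm _ _).trans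
        (mul_le_mul_of_nonneg_right (K.le_opNorm _) (norm_nonneg _))
    rcases (norm_nonneg (a k)).eq_or_lt with h0 | h0
    · rw [← h0]; positivity
    · have e5 : ‖a k‖ * ‖a k‖ ≤ ‖a k‖ * (‖K‖ * ‖f k‖) := by nlinarith
      exact le_of_mul_le_mul_left e5 h0
  have ha0 : Tendsto (fun k => ‖a k‖) atTop (𝓝 0) := by
    refine squeeze_zero (fun k => norm_nonneg _) han ?_
    simpa using hfn.const_mul ‖K‖
  -- the orthogonal part
  have hbS : ∀ k, (b k, c k) ∈ S := by
    intro k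
    have e1 := S.sub_mem (h2 k) ((hKS _).mp (ha k))
    rw [Prod.mk_sub_mk, sub_zero, hab k, add_sub_cancel_left] at e1
    exact e1
  have hbo : ∀ k, ∀ v, (v, (0 : H2)) ∈ S → inner ℂ v (b k) = 0 := fun k v hv =>
    Submodule.inner_right_of_mem_orthogonal ((hKS v).mpr hv) (hb k)
  choose α hα hαn using fun k => hS.km2 (b k) (c k) (hbS k) (hbo k)
  have hg2n : ∀ k, ‖g2 k‖ ≤ ‖x k‖ := by
    intro k
    have e1 : inner ℂ (g1 k) (g2 k) = 0 := og2 k _ (hg1 k)
    have e2 : ‖x k‖ ^ 2 = ‖g1 k‖ ^ 2 + ‖g2 k‖ ^ 2 := by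
      rw [h5 k, norm_add_sq (𝕜 := ℂ), e1]
      simp
    have e3 : ‖g2 k‖ ^ 2 ≤ ‖x k‖ ^ 2 := by
      rw [e2]
      have := sq_nonneg ‖g1 k‖
      linarith
    exact (pow_le_pow_iff_left₀ (norm_nonneg _) (norm_nonneg _) two_ne_zero).mp e3
  have hcn : ∀ k, ‖c k‖ ^ 2 ≤ ‖N‖ * C0 * C0 := by
    intro k
    have e1 := h4 k _ (h2 k)
    simp only at e1
    have e4 : ‖c k‖ ^ 2 = ‖inner ℂ (c k) (c k)‖ := by
      rw [inner_self_eq_norm_sq_to_K, norm_pow]
      simp
    rw [e4, e1]
    refine (norm_inner_le_norm _ _).trans ?_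
    refine mul_le_mul ?_ ((hg2n k).trans (hC0 k)) (norm_nonneg _) (by positivity)
    exact (N.le_opNorm _).trans (mul_le_mul_of_nonneg_left (hC0 k) (norm_nonneg _))
  have hαb : ∀ k j, ‖α k j‖ ≤ Real.sqrt (‖N‖ * C0 * C0) := by
    intro k j
    apply Real.le_sqrt_of_sq_le
    refine le_trans ?_ ((hαn k).trans (hcn k))
    exact Finset.single_le_sum (f := fun j => ‖α k j‖ ^ 2) (fun i _ => by positivity)
      (Finset.mem_univ j)
  have hbK : ∀ k j, b k j = K (α k j) := by
    intro k j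
    refine N_null_uniq T (hα k j) (hK.k1 _ (hS.TS _ _ (hα k j))) ?_ (fun h hh => hK.k2 _ h hh)
    intro h hh
    have e1 := hbo k _ (hS.hol j h hh)
    rw [N_null_single] at e1
    exact e1
  have hbj : ∀ j, Tendsto (fun k => ‖b k j‖) atTop (𝓝 0) := by
    intro j
    have key := N_null_aux K hKn (fun k => α k j) (Real.sqrt (‖N‖ * C0 * C0))
      (fun k => hαb k j) (fun h => by
        simp only [← hbK]
        set e : FH n H := WithLp.toLp 2 (fun k => if k = j then h else 0) with he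
        have e1 : ∀ k, inner ℂ h (b k j) =
            inner ℂ (ContinuousLinearMap.adjoint N e) (x k) - inner ℂ e (a k) := by
          intro k
          rw [ContinuousLinearMap.adjoint_inner_left, hab k, inner_add_right,
            add_sub_cancel_left, he, N_null_single]
        simp only [e1]
        have e2 : Tendsto (fun k => inner ℂ e (a k)) atTop (𝓝 0) := by
          rw [tendsto_zero_iff_norm_tendsto_zero]
          refine squeeze_zero (fun k => norm_nonneg _) (fun k => norm_inner_le_norm e (a k)) ?_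
          simpa using ha0.const_mul ‖e‖
        simpa using (hw0 (ContinuousLinearMap.adjoint N e)).sub e2)
    simp only [hbK]
    exact key
  have hb0 : Tendsto (fun k => ‖b k‖) atTop (𝓝 0) := by
    have e1 : ∀ k, ‖b k‖ = Real.sqrt (∑ j, ‖b k j‖ ^ 2) := fun k => PiLp.norm_eq_of_L2 _
    simp only [e1]
    have e2 : Tendsto (fun k => ∑ j, ‖b k j‖ ^ 2) atTop (𝓝 (∑ j : Fin n, (0 : ℝ) ^ 2)) :=
      tendsto_finsetSum _ (fun j _ => (hbj j).pow 2)
    have e3 := (Real.continuous_sqrt.tendsto _).comp e2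
    have e4 : Real.sqrt (∑ j : Fin n, (0 : ℝ) ^ 2) = 0 := by simp
    rw [e4] at e3
    exact e3
  have hfin := ha0.add hb0
  rw [add_zero] at hfin
  refine squeeze_zero (fun k => norm_nonneg _) (fun k => ?_) hfin
  show ‖N (x k)‖ ≤ ‖a k‖ + ‖b k‖
  rw [hab k]
  exact norm_add_le _ _

end

end BK.JA5
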