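import Mathlib

set_option autoImplicit false

open Filter Topology
open scoped InnerProductSpace

namespace BK

section
variable {H0 H1 H2 : Type*} [NormedAddCommGroup H0] [InnerProductSpace ℂ H0]
  [NormedAddCommGroup H1] [InnerProductSpace ℂ H1]
  [NormedAddCommGroup H2] [InnerProductSpace ℂ H2]

/-- Adjoint relation of a graph. -/
def AdjR (T : Submodule ℂ (H0 × H1)) (u : H1) (f : H0) : Prop :=
  ∀ p ∈ T, inner ℂ p.2 u = inner ℂ p.1 f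

/-- The Laplacian relation `T T* + S* S`. -/
def BoxR (T : Submodule ℂ (H0 × H1)) (S : Submodule ℂ (H1 × H2)) (u w : H1) : Prop :=
  ∃ (f : H0) (c : H2) (g₁ g₂ : H1), AdjR T u f ∧ (u, c) ∈ S ∧ (f, g₁) ∈ T ∧ AdjR S c g₂ ∧
    w = g₁ + g₂

/-- bounded weakly null sequences -/
def WN (x : ℕ → H0) : Prop := (∃ C : ℝ, ∀ k, ‖x k‖ ≤ C) ∧
  ∀ y : H0, Tendsto (fun k => inner ℂ y (x k)) atTop (𝓝 0)

/-- norm null sequences -/
def Nl (x : ℕ → H0) : Prop := Tendsto (fun k => ‖x k‖) atTop (𝓝 0)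

/-- the essential norm of `A` is at most `κ`, in terms of weakly null sequences -/
def EssLe (A : H0 →L[ℂ] H1) (κ : ℝ) : Prop := ∀ x : ℕ → H0, WN x → ∀ ε : ℝ, 0 < ε →
  ∀ᶠ k in atTop, ‖A (x k)‖ ^ 2 ≤ κ ^ 2 * ‖x k‖ ^ 2 + ε

end

/-- `n`-tuples in a Hilbert space -/
abbrev FH (n : ℕ) (H : Type*) [NormedAddCommGroup H] := PiLp 2 (fun _ : Fin n => H)

section
variable {n : ℕ} {H H2 : Type*} [NormedAddCommGroup H] [InnerProductSpace ℂ H] [CompleteSpace H]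
  [NormedAddCommGroup H2] [InnerProductSpace ℂ H2] [CompleteSpace H2]

/-- the abstract situation: `T = ∂̄` on functions, `S = ∂̄` on `(0,1)`-forms, `Z j` is
multiplication by `z̄_j`, `B` the Bergman projection -/
structure Stp (T : Submodule ℂ (H × FH n H)) (S : Submodule ℂ (FH n H × H2))
    (Z : Fin n → H →L[ℂ] H) (B : H →L[ℂ] H) : Prop where
  Tc : IsClosed (T : Set (H × FH n H))
  Sc : IsClosed (S : Set (FH n H × H2))
  TS : ∀ f g, (f, g) ∈ T → (g, (0 : H2)) ∈ S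
  leib : ∀ (j : Fin n) f g, (f, g) ∈ T →
    (Z j f, (WithLp.toLp 2 (fun k => Z j (g k) + if k = j then f else 0) : FH n H)) ∈ T
  sym : ∀ (g : FH n H) (α : Fin n → FH n H), (g, (0 : H2)) ∈ S → (∀ j, (g j, α j) ∈ T) →
    ∀ j k, α j k = α k j
  hol : ∀ (j : Fin n) f, (f, (0 : FH n H)) ∈ T →
    ((WithLp.toLp 2 (fun k => if k = j then f else 0) : FH n H), (0 : H2)) ∈ S
  km1 : ∀ u f, (u, (0 : H2)) ∈ S → AdjR T u f →
    ∃ α : Fin n → FH n H, (∀ j, (u j, α j) ∈ T) ∧ ∑ j, ‖α j‖ ^ 2 ≤ ‖f‖ ^ 2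
  km2 : ∀ u c, (u, c) ∈ S → (∀ v, (v, (0 : H2)) ∈ S → inner ℂ v u = 0) →
    ∃ α : Fin n → FH n H, (∀ j, (u j, α j) ∈ T) ∧ ∑ j, ‖α j‖ ^ 2 ≤ ‖c‖ ^ 2
  B1 : ∀ f, (B f, (0 : FH n H)) ∈ T
  B2 : ∀ f h, (h, (0 : FH n H)) ∈ T → inner ℂ h (f - B f) = 0
  cmp : ∀ j, IsCompactOperator (B ∘L Z j - Z j ∘L B)

/-- canonical solution operator -/
structure Can (T : Submodule ℂ (H × FH n H)) (S : Submodule ℂ (FH n H × H2))
    (K : FH n H →L[ℂ] H) : Prop where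
  k1 : ∀ u, (u, (0 : H2)) ∈ S → (K u, u) ∈ T
  k2 : ∀ u h, (h, (0 : FH n H)) ∈ T → inner ℂ h (K u) = 0
  k3 : ∀ u, (∀ v, (v, (0 : H2)) ∈ S → inner ℂ v u = 0) → K u = 0

/-- `D_j = κ⁻² (K* ·)_j` -/
noncomputable def Dop (K : FH n H →L[ℂ] H) (κ : ℝ) (j : Fin n) (f : H) : H :=
  ((κ ^ 2 : ℝ) : ℂ)⁻¹ • (ContinuousLinearMap.adjoint K f) j

/-- good sequences: approximate eigenvectors of `K K*` -/
def Good (K : FH n H →L[ℂ] H) (κ : ℝ) (f : ℕ → H) : Prop :=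
  WN f ∧ Nl (fun k => K (ContinuousLinearMap.adjoint K (f k)) - ((κ ^ 2 : ℝ) : ℂ) • f k)

/-- approximate membership of a pair of sequences in `T` -/
def ADom (T : Submodule ℂ (H × FH n H)) (x : ℕ → H) (y : ℕ → FH n H) : Prop :=
  ∃ (x' : ℕ → H) (y' : ℕ → FH n H), (∀ k, (x' k, y' k) ∈ T) ∧ Nl (fun k => x k - x' k) ∧
    Nl (fun k => y k - y' k)

end

end BK
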