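import Pool.Agent.H314.BK.A1
import Pool.Agent.H314.BK.A2
import Pool.Agent.H314.BK.A4
import Pool.Agent.H314.BK.A5

set_option autoImplicit false

open Filter Topology
open scoped InnerProductSpace

namespace BK

variable {n : ℕ} {H H2 : Type*} [NormedAddCommGroup H] [InnerProductSpace ℂ H] [CompleteSpace H]
  [NormedAddCommGroup H2] [InnerProductSpace ℂ H2] [CompleteSpace H2]

theorem nl_clm {E F : Type*} [NormedAddCommGroup E] [InnerProductSpace ℂ E]
    [NormedAddCommGroup F] [InnerProductSpace ℂ F] (A : E →L[ℂ] F) (x : ℕ → E) (hx : Nl x) :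
    Nl (fun k => A (x k)) := by
  unfold Nl at *
  refine squeeze_zero (fun k => norm_nonneg _) (fun k => A.le_opNorm (x k)) ?_
  simpa using hx.const_mul ‖A‖

theorem nl_congr {E : Type*} [NormedAddCommGroup E] {x y : ℕ → E} (hx : Nl x)
    (h : ∀ k, x k = y k) : Nl y := by
  have : x = y := funext h
  rwa [this] at hx

theorem nl_add {E : Type*} [NormedAddCommGroup E] {x y : ℕ → E} (hx : Nl x)
    (hy : Nl y) : Nl (fun k => x k + y k) := by
  unfold Nl at *
  refine squeeze_zero (fun k => norm_nonneg _) (fun k => norm_add_le (x k) (y k)) ?_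
  simpa using hx.add hy

theorem nl_neg {E : Type*} [NormedAddCommGroup E] {x : ℕ → E} (hx : Nl x) :
    Nl (fun k => - x k) := by
  unfold Nl at *
  simpa using hx

theorem ab_main (T : Submodule ℂ (H × FH n H)) (S : Submodule ℂ (FH n H × H2))
    (Z : Fin n → H →L[ℂ] H) (B : H →L[ℂ] H) (hS : Stp T S Z B)
    (hGS : ∀ K : FH n H →L[ℂ] H, Can T S K → ∀ κ : ℝ, 0 < κ → EssLe K κ →
      ∀ f, Good K κ f → (∀ j, Good K κ (fun k => Dop K κ j (f k))) ∧
        (∀ j l, Nl (fun k => Dop K κ j (Dop K κ l (f k)) - Dop K κ l (Dop K κ j (f k)))) ∧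
        ADom T f (fun k => WithLp.toLp 2 (fun j => Dop K κ j (f k))) ∧
        Nl (fun k => B (f k)))
    (N : FH n H →L[ℂ] FH n H) (hN1 : ∀ v, BoxR T S (N v) v) : IsCompactOperator N := by
  obtain ⟨C, hC0, hC⟩ := JA2.exact_of_N T S hS.TS N hN1
  obtain ⟨K, hK⟩ := JA2.can_exists T S hS.Tc hS.Sc C hC
  have hKc : IsCompactOperator K := by
    by_contra hnc
    obtain ⟨κ, hκ, hE, u, hu, hu1, hlim⟩ := JA1.ess_exists K hnc
    have hG : Good K κ (fun k => K (u k)) := by
      refine ⟨⟨⟨‖K‖, fun k => ?_⟩, fun y => ?_⟩, ?_⟩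
      · have := K.le_opNorm (u k)
        rwa [hu1, mul_one] at this
      · have := hu.2 (ContinuousLinearMap.adjoint K y)
        refine this.congr fun k => ?_
        rw [ContinuousLinearMap.adjoint_inner_left]
      · have h1 := JA1.ess_eigen K κ hκ hE u hu (by
          have h2 : Tendsto (fun k => ‖K (u k)‖ ^ 2 - κ ^ 2 * ‖u k‖ ^ 2) atTop
              (𝓝 (κ ^ 2 - κ ^ 2 * 1)) := by
            refine (hlim.pow 2).sub ?_
            simp only [hu1]
            simp
          simpa using h2)
        refine nl_congr (nl_clm K _ h1) fun k => ?_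
        simp only [map_sub, map_smul]
    have hN0 : Nl (fun k => K (u k)) := by
      refine JA4.taylor T Z
        (fun j => ((κ ^ 2 : ℝ) : ℂ)⁻¹ • ((PiLp.proj 2 (fun _ : Fin n => H) j :
          FH n H →L[ℂ] H).comp (ContinuousLinearMap.adjoint K))) B hS.leib ‖K‖ ?_ ?_ (Good K κ) ?_ ?_ ?_ ?_ ?_ _ hG
      · intro f g hfg
        have h1 : (K g, g) ∈ T := hK.k1 g (hS.TS f g hfg)
        have h2 : (f - K g, (0 : FH n H)) ∈ T := by
          have := T.sub_mem hfg h1
          simpa using this
        have h3 : (f - B f - K g, (0 : FH n H)) ∈ T := by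
          have := T.sub_mem h2 (hS.B1 f)
          have e : f - B f - K g = f - K g - B f := by abel
          rw [e]
          simpa using this
        have h4 : inner ℂ (f - B f - K g) (f - B f - K g) = 0 := by
          rw [inner_sub_right, hS.B2 f _ h3, hK.k2 g _ h3, sub_zero]
        have h5 : f - B f = K g := sub_eq_zero.mp (inner_self_eq_zero.mp h4)
        rw [h5]
        exact K.le_opNorm g
      · intro j x hx hxB
        have h1 := nl_clm (Z j) _ hxB
        have h2 := nl_neg (JA1.cpt_null _ (hS.cmp j) x hx)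
        refine nl_congr (nl_add h1 h2) fun k => ?_
        simp only [ContinuousLinearMap.comp_apply, _root_.sub_apply, map_sub]
        abel
      · exact fun f hf => hf.1
      · exact fun f hf j => (hGS K hK κ hκ hE f hf).1 j
      · exact fun f hf j l => (hGS K hK κ hκ hE f hf).2.1 j l
      · exact fun f hf => (hGS K hK κ hκ hE f hf).2.2.1
      · exact fun f hf => (hGS K hK κ hκ hE f hf).2.2.2
    exact hκ.ne' (tendsto_nhds_unique hlim hN0)
  by_contra hnc
  obtain ⟨κ, hκ, hE, u, hu, hu1, hlim⟩ := JA1.ess_exists N hnc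
  have hKn : ∀ x : ℕ → FH n H, WN x → Nl (fun k => K (x k)) := fun x hx =>
    JA1.cpt_null K hKc x hx
  exact hκ.ne' (tendsto_nhds_unique hlim (JA5.N_null T S Z B hS K hK hKn N hN1 u hu))

end BK
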