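import Pool.Agent.H314.BK.St

set_option autoImplicit false

open MeasureTheory Complex Filter Topology
open scoped ContDiff InnerProductSpace ENNReal ComplexConjugate

namespace BK.JB1

variable {n : ℕ}

namespace JKI

/-- directional derivative -/
noncomputable def Dv (w : En n) (v : En n → ℂ) (x : En n) : ℂ := fderiv ℝ v x w

theorem Dv_smooth {v : En n → ℂ} (hv : ContDiff ℝ ∞ v) (w : En n) : ContDiff ℝ ∞ (Dv w v) := by
  unfold Dv
  exact (hv.fderiv_right (m := ∞) (by norm_num)).clm_apply contDiff_const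

theorem Dv_compact {v : En n → ℂ} (hv : HasCompactSupport v) (w : En n) :
    HasCompactSupport (Dv w v) := by
  unfold Dv
  exact hv.fderiv_apply ℝ w

theorem smooth_diff {v : En n → ℂ} (hv : ContDiff ℝ ∞ v) : Differentiable ℝ v :=
  hv.differentiable (by norm_num)

theorem Dv_lin {a b : En n → ℂ} (ha : ContDiff ℝ ∞ a) (hb : ContDiff ℝ ∞ b) (c d : ℂ) (w x : En n) :
    Dv w (fun x => c * (a x + d * b x)) x = c * (Dv w a x + d * Dv w b x) := by
  unfold Dv
  have h1 : HasFDerivAt (fun x => c * (a x + d * b x))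
      (c • (fderiv ℝ a x + d • fderiv ℝ b x)) x :=
    (((smooth_diff ha) x).hasFDerivAt.add (((smooth_diff hb) x).hasFDerivAt.const_mul d)).const_mul c
  rw [h1.fderiv]
  simp
  ring

theorem Dv_mul {a b : En n → ℂ} (ha : ContDiff ℝ ∞ a) (hb : ContDiff ℝ ∞ b) (w x : En n) :
    Dv w (fun x => a x * b x) x = Dv w a x * b x + a x * Dv w b x := by
  unfold Dv
  have h1 : HasFDerivAt (fun x => a x * b x) (a x • fderiv ℝ b x + b x • fderiv ℝ a x) x :=
    ((smooth_diff ha) x).hasFDerivAt.mul ((smooth_diff hb) x).hasFDerivAt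
  rw [h1.fderiv]
  simp
  ring

theorem Dv_add {a b : En n → ℂ} (ha : ContDiff ℝ ∞ a) (hb : ContDiff ℝ ∞ b) (w x : En n) :
    Dv w (fun x => a x + b x) x = Dv w a x + Dv w b x := by
  unfold Dv
  have h1 : HasFDerivAt (fun x => a x + b x) (fderiv ℝ a x + fderiv ℝ b x) x :=
    ((smooth_diff ha) x).hasFDerivAt.add ((smooth_diff hb) x).hasFDerivAt
  rw [h1.fderiv]
  simp

theorem Dv_conj {a : En n → ℂ} (ha : ContDiff ℝ ∞ a) (w x : En n) :
    Dv w (fun x => conj (a x)) x = conj (Dv w a x) := by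
  unfold Dv
  have h1 : HasFDerivAt (fun x => conj (a x))
      ((Complex.conjCLE : ℂ →L[ℝ] ℂ).comp (fderiv ℝ a x)) x :=
    (Complex.conjCLE : ℂ →L[ℝ] ℂ).hasFDerivAt.comp x ((smooth_diff ha) x).hasFDerivAt
  rw [h1.fderiv]
  simp

theorem Dv_comm {a : En n → ℂ} (ha : ContDiff ℝ ∞ a) (w u x : En n) :
    Dv w (Dv u a) x = Dv u (Dv w a) x := by
  have h0 : Differentiable ℝ (fderiv ℝ a) :=
    (ha.fderiv_right (m := ∞) (by norm_num)).differentiable (by norm_num)
  have h1 : ∀ w u : En n, Dv w (Dv u a) x = fderiv ℝ (fderiv ℝ a) x w u := by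
    intro w u
    unfold Dv
    have h2 : HasFDerivAt (fun x => fderiv ℝ a x u)
        ((ContinuousLinearMap.apply ℝ ℂ u).comp (fderiv ℝ (fderiv ℝ a) x)) x :=
      (ContinuousLinearMap.apply ℝ ℂ u).hasFDerivAt.comp x (h0 x).hasFDerivAt
    rw [h2.fderiv]
    simp
  rw [h1, h1]
  have h3 : IsSymmSndFDerivAt ℝ a x := by
    apply ContDiffAt.isSymmSndFDerivAt (n := ∞) ha.contDiffAt
    rw [minSmoothness_of_isRCLikeNormedField]
    exact WithTop.coe_le_coe.2 le_top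
  exact h3 w u

theorem dbar_eq (j : Fin n) (v : En n → ℂ) :
    dbar j v = fun x => (1 / 2) * (Dv (Pi.single j 1) v x + I * Dv (Pi.single j I) v x) := rfl

theorem dz_eq (j : Fin n) (v : En n → ℂ) :
    dz j v = fun x => (1 / 2) * (Dv (Pi.single j 1) v x + (-I) * Dv (Pi.single j I) v x) := by
  funext x
  unfold dz Dv
  ring

theorem dbar_smooth {v : En n → ℂ} (hv : ContDiff ℝ ∞ v) (j : Fin n) : ContDiff ℝ ∞ (dbar j v) := by
  rw [dbar_eq]
  exact contDiff_const.mul ((Dv_smooth hv _).add (contDiff_const.mul (Dv_smooth hv _)))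

theorem dz_smooth {v : En n → ℂ} (hv : ContDiff ℝ ∞ v) (j : Fin n) : ContDiff ℝ ∞ (dz j v) := by
  rw [dz_eq]
  exact contDiff_const.mul ((Dv_smooth hv _).add (contDiff_const.mul (Dv_smooth hv _)))

theorem dbar_dz_comm {v : En n → ℂ} (hv : ContDiff ℝ ∞ v) (j k : Fin n) (x : En n) :
    dbar k (dz j v) x = dz j (dbar k v) x := by
  have h1 : dbar k (dz j v) x = (1 / 2) * (Dv (Pi.single k 1) (dz j v) x
      + I * Dv (Pi.single k I) (dz j v) x) := rfl
  have h2 : dz j (dbar k v) x = (1 / 2) * (Dv (Pi.single j 1) (dbar k v) x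
      + (-I) * Dv (Pi.single j I) (dbar k v) x) := by rw [dz_eq]
  rw [h1, h2, dz_eq, dbar_eq]
  rw [Dv_lin (Dv_smooth hv _) (Dv_smooth hv _), Dv_lin (Dv_smooth hv _) (Dv_smooth hv _),
    Dv_lin (Dv_smooth hv _) (Dv_smooth hv _), Dv_lin (Dv_smooth hv _) (Dv_smooth hv _)]
  rw [Dv_comm hv (Pi.single k 1) (Pi.single j 1), Dv_comm hv (Pi.single k 1) (Pi.single j I),
    Dv_comm hv (Pi.single k I) (Pi.single j 1), Dv_comm hv (Pi.single k I) (Pi.single j I)]
  ring

theorem dbar_mul {a b : En n → ℂ} (ha : ContDiff ℝ ∞ a) (hb : ContDiff ℝ ∞ b) (j : Fin n) (x : En n) :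
    dbar j (fun x => a x * b x) x = dbar j a x * b x + a x * dbar j b x := by
  simp only [dbar_eq]
  rw [Dv_mul ha hb, Dv_mul ha hb]
  ring

theorem dz_mul {a b : En n → ℂ} (ha : ContDiff ℝ ∞ a) (hb : ContDiff ℝ ∞ b) (j : Fin n) (x : En n) :
    dz j (fun x => a x * b x) x = dz j a x * b x + a x * dz j b x := by
  simp only [dz_eq]
  rw [Dv_mul ha hb, Dv_mul ha hb]
  ring

theorem dbar_lin {a b : En n → ℂ} (ha : ContDiff ℝ ∞ a) (hb : ContDiff ℝ ∞ b) (c d : ℂ) (j : Fin n)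
    (x : En n) : dbar j (fun x => c * (a x + d * b x)) x = c * (dbar j a x + d * dbar j b x) := by
  simp only [dbar_eq]
  rw [Dv_lin ha hb, Dv_lin ha hb]
  ring

theorem dz_lin {a b : En n → ℂ} (ha : ContDiff ℝ ∞ a) (hb : ContDiff ℝ ∞ b) (c d : ℂ) (j : Fin n)
    (x : En n) : dz j (fun x => c * (a x + d * b x)) x = c * (dz j a x + d * dz j b x) := by
  simp only [dz_eq]
  rw [Dv_lin ha hb, Dv_lin ha hb]
  ring

theorem conj_smooth {a : En n → ℂ} (ha : ContDiff ℝ ∞ a) : ContDiff ℝ ∞ (fun x => conj (a x)) :=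
  (Complex.conjCLE : ℂ →L[ℝ] ℂ).contDiff.comp ha

theorem dbar_conj {a : En n → ℂ} (ha : ContDiff ℝ ∞ a) (j : Fin n) (x : En n) :
    dbar j (fun x => conj (a x)) x = conj (dz j a x) := by
  simp only [dbar_eq, dz_eq]
  have h2 : (starRingEnd ℂ) (1 / 2 : ℂ) = 1 / 2 := by
    rw [map_div₀, map_one, map_ofNat]
  rw [Dv_conj ha, Dv_conj ha, map_mul, h2, map_add, map_mul, map_neg, conj_I, neg_neg]

/-- smooth with compact support -/
structure TT (a : En n → ℂ) : Prop where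
  sm : ContDiff ℝ ∞ a
  cp : HasCompactSupport a

theorem TT.dbar {a : En n → ℂ} (h : TT a) (j : Fin n) : TT (dbar j a) := by
  refine ⟨dbar_smooth h.sm j, ?_⟩
  rw [dbar_eq]
  have h1 : HasCompactSupport (fun x => Dv (Pi.single j 1) a x + I * Dv (Pi.single j I) a x) :=
    (Dv_compact h.cp _).add ((Dv_compact h.cp _).mul_left (f := fun _ => I))
  exact h1.mul_left (f := fun _ => (1 / 2 : ℂ))

theorem TT.dz {a : En n → ℂ} (h : TT a) (j : Fin n) : TT (dz j a) := by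
  refine ⟨dz_smooth h.sm j, ?_⟩
  rw [dz_eq]
  have h1 : HasCompactSupport (fun x => Dv (Pi.single j 1) a x + (-I) * Dv (Pi.single j I) a x) :=
    (Dv_compact h.cp _).add ((Dv_compact h.cp _).mul_left (f := fun _ => -I))
  exact h1.mul_left (f := fun _ => (1 / 2 : ℂ))

theorem TT.mulL {a f : En n → ℂ} (h : TT a) (hf : ContDiff ℝ ∞ f) : TT (fun x => f x * a x) :=
  ⟨hf.mul h.sm, h.cp.mul_left⟩

theorem TT.add {a b : En n → ℂ} (h : TT a) (h' : TT b) : TT (fun x => a x + b x) :=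
  ⟨h.sm.add h'.sm, h.cp.add h'.cp⟩

theorem TT.neg {a : En n → ℂ} (h : TT a) : TT (fun x => - a x) :=
  ⟨h.sm.neg, h.cp.neg⟩

theorem TT.conj {a : En n → ℂ} (h : TT a) : TT (fun x => conj (a x)) :=
  ⟨conj_smooth h.sm, h.cp.comp_left (g := fun z : ℂ => (starRingEnd ℂ) z) (map_zero _)⟩

theorem TT.integrable {a b : En n → ℂ} (h : TT a) (hb : Continuous b) :
    Integrable (fun x => a x * b x) :=
  (h.sm.continuous.mul hb).integrable_of_hasCompactSupport h.cp.mul_right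

theorem TT.integrable' {a b : En n → ℂ} (h : TT a) (hb : Continuous b) :
    Integrable (fun x => b x * a x) :=
  (hb.mul h.sm.continuous).integrable_of_hasCompactSupport h.cp.mul_left

/-- integration by parts for the directional derivatives -/
theorem Dv_ibp {a b : En n → ℂ} (ha : TT a) (hb : TT b) (w : En n) :
    ∫ x, a x * Dv w b x = - ∫ x, Dv w a x * b x := by
  unfold Dv
  apply integral_mul_fderiv_eq_neg_fderiv_mul_of_integrable
  · exact hb.integrable' (Dv_smooth ha.sm w).continuous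
  · exact ha.integrable (Dv_smooth hb.sm w).continuous
  · exact ha.integrable hb.sm.continuous
  · intro x _
    exact (smooth_diff ha.sm) x
  · intro x _
    exact (smooth_diff hb.sm) x

theorem TT.Dv {a : En n → ℂ} (h : TT a) (w : En n) : TT (Dv w a) :=
  ⟨Dv_smooth h.sm w, Dv_compact h.cp w⟩

/-- integration by parts for `∂̄_j` -/
theorem dbar_ibp {a b : En n → ℂ} (ha : TT a) (hb : TT b) (j : Fin n) :
    ∫ x, dbar j a x * b x = - ∫ x, a x * dbar j b x := by
  have h1 : ∀ w, ∫ x, Dv w a x * b x = - ∫ x, a x * Dv w b x := by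
    intro w
    rw [Dv_ibp ha hb w, neg_neg]
  have e1 : ∫ x, dbar j a x * b x = (1 / 2) * ((∫ x, Dv (Pi.single j 1) a x * b x)
      + I * ∫ x, Dv (Pi.single j I) a x * b x) := by
    rw [← integral_const_mul, ← integral_add, ← integral_const_mul]
    · congr 1
      funext x
      rw [dbar_eq]
      ring
    · exact (ha.Dv _).integrable hb.sm.continuous
    · exact ((ha.Dv _).integrable hb.sm.continuous).const_mul I
  have e2 : ∫ x, a x * dbar j b x = (1 / 2) * ((∫ x, a x * Dv (Pi.single j 1) b x)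
      + I * ∫ x, a x * Dv (Pi.single j I) b x) := by
    rw [← integral_const_mul, ← integral_add, ← integral_const_mul]
    · congr 1
      funext x
      rw [dbar_eq]
      ring
    · exact ha.integrable (hb.Dv _).sm.continuous
    · exact (ha.integrable (hb.Dv _).sm.continuous).const_mul I
  rw [e1, e2, h1, h1]
  ring



/-! ### the weight -/

/-- complex valued weight -/
noncomputable def Ph (Φ : En n → ℝ) (x : En n) : ℂ := (Φ x : ℂ)

/-- the weight `e^{-Φ}` -/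
noncomputable def WW (Φ : En n → ℝ) (x : En n) : ℂ := ((Real.exp (-Φ x) : ℝ) : ℂ)

theorem Ph_smooth {Φ : En n → ℝ} (hΦ : ContDiff ℝ ∞ Φ) : ContDiff ℝ ∞ (Ph Φ) :=
  Complex.ofRealCLM.contDiff.comp hΦ

theorem WW_smooth {Φ : En n → ℝ} (hΦ : ContDiff ℝ ∞ Φ) : ContDiff ℝ ∞ (WW Φ) :=
  Complex.ofRealCLM.contDiff.comp (Real.contDiff_exp.comp hΦ.neg)

theorem WW_conj (Φ : En n → ℝ) (x : En n) : conj (WW Φ x) = WW Φ x := by
  unfold WW
  rw [Complex.conj_ofReal]

theorem dbar_Ph {Φ : En n → ℝ} (hΦ : ContDiff ℝ ∞ Φ) (j : Fin n) (x : En n) :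
    dbar j (Ph Φ) x = conj (dz j (Ph Φ) x) := by
  rw [← dbar_conj (Ph_smooth hΦ)]
  congr 1
  funext y
  simp [Ph]

theorem Dv_Ph {Φ : En n → ℝ} (hΦ : ContDiff ℝ ∞ Φ) (w x : En n) :
    Dv w (Ph Φ) x = ((fderiv ℝ Φ x w : ℝ) : ℂ) := by
  unfold Dv
  have h1 : HasFDerivAt (Ph Φ) (Complex.ofRealCLM.comp (fderiv ℝ Φ x)) x :=
    Complex.ofRealCLM.hasFDerivAt.comp x ((hΦ.differentiable (by norm_num)) x).hasFDerivAt
  rw [h1.fderiv]
  simp

theorem Dv_WW {Φ : En n → ℝ} (hΦ : ContDiff ℝ ∞ Φ) (w x : En n) :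
    Dv w (WW Φ) x = - Dv w (Ph Φ) x * WW Φ x := by
  rw [Dv_Ph hΦ]
  have h0 : HasFDerivAt (fun y => Real.exp (-Φ y)) (Real.exp (-Φ x) • (-fderiv ℝ Φ x)) x :=
    (((hΦ.differentiable (by norm_num)) x).hasFDerivAt.neg).exp
  have h1 : HasFDerivAt (WW Φ) (Complex.ofRealCLM.comp (Real.exp (-Φ x) • (-fderiv ℝ Φ x))) x :=
    Complex.ofRealCLM.hasFDerivAt.comp x h0
  unfold Dv
  rw [h1.fderiv]
  unfold WW
  simp
  ring

theorem dbar_WW {Φ : En n → ℝ} (hΦ : ContDiff ℝ ∞ Φ) (j : Fin n) (x : En n) :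
    dbar j (WW Φ) x = - dbar j (Ph Φ) x * WW Φ x := by
  simp only [dbar_eq]
  rw [Dv_WW hΦ, Dv_WW hΦ]
  ring

/-- the twisted derivative -/
noncomputable def dl (Φ : En n → ℝ) (j : Fin n) (v : En n → ℂ) (x : En n) : ℂ :=
  dz j v x - dz j (Ph Φ) x * v x

theorem dl_eq (Φ : En n → ℝ) (j : Fin n) (v : En n → ℂ) :
    dl Φ j v = fun x => dz j v x + (-1) * (dz j (Ph Φ) x * v x) := by
  funext x; unfold dl; ring

theorem TT.dl {Φ : En n → ℝ} (hΦ : ContDiff ℝ ∞ Φ) {a : En n → ℂ} (h : TT a) (j : Fin n) :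
    TT (dl Φ j a) := by
  rw [dl_eq]
  refine (h.dz j).add ?_
  exact (h.mulL (dz_smooth (Ph_smooth hΦ) j)).mulL (f := fun _ => (-1 : ℂ)) contDiff_const

theorem adj {Φ : En n → ℝ} (hΦ : ContDiff ℝ ∞ Φ) {a b : En n → ℂ} (ha : TT a) (hb : TT b)
    (j : Fin n) : ∫ x, dbar j a x * conj (b x) * WW Φ x = - ∫ x, a x * conj (dl Φ j b x) * WW Φ x := by
  have hb' : TT (fun x => WW Φ x * conj (b x)) := hb.conj.mulL (WW_smooth hΦ)
  have h1 := dbar_ibp ha hb' j
  have h2 : ∀ x, dbar j (fun x => WW Φ x * conj (b x)) x = conj (dl Φ j b x) * WW Φ x := by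
    intro x
    rw [dbar_mul (WW_smooth hΦ) hb.conj.sm, dbar_WW hΦ, dbar_conj hb.sm]
    unfold dl
    rw [map_sub, map_mul, ← dbar_Ph hΦ]
    ring
  simp only [h2] at h1
  have h3 : ∀ x, dbar j a x * conj (b x) * WW Φ x = dbar j a x * (WW Φ x * conj (b x)) := by
    intro x; ring
  have h4 : ∀ x, a x * conj (dl Φ j b x) * WW Φ x = a x * (conj (dl Φ j b x) * WW Φ x) := by
    intro x; ring
  simp only [h3, h4]
  exact h1

/-- the complex Hessian -/
noncomputable def HH (Φ : En n → ℝ) (j k : Fin n) (x : En n) : ℂ := dbar k (dz j (Ph Φ)) x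

theorem HH_smooth {Φ : En n → ℝ} (hΦ : ContDiff ℝ ∞ Φ) (j k : Fin n) : ContDiff ℝ ∞ (HH Φ j k) :=
  dbar_smooth (dz_smooth (Ph_smooth hΦ) j) k

theorem comm {Φ : En n → ℝ} (hΦ : ContDiff ℝ ∞ Φ) {a : En n → ℂ} (ha : ContDiff ℝ ∞ a)
    (j k : Fin n) (x : En n) :
    dl Φ j (dbar k a) x = dbar k (dl Φ j a) x + HH Φ j k x * a x := by
  have e1 : dl Φ j a = fun x => 1 * (dz j a x + (-1) * (dz j (Ph Φ) x * a x)) := by
    funext x; unfold dl; ring
  rw [e1, dbar_lin (dz_smooth ha j) ((dz_smooth (Ph_smooth hΦ) j).mul ha),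
    dbar_mul (dz_smooth (Ph_smooth hΦ) j) ha, dbar_dz_comm ha]
  unfold dl HH
  ring

theorem int_conj (f : En n → ℂ) : conj (∫ x, f x) = ∫ x, conj (f x) := integral_conj.symm

/-- the basic identity -/
theorem basic {Φ : En n → ℝ} (hΦ : ContDiff ℝ ∞ Φ) {a b : En n → ℂ} (ha : TT a) (hb : TT b)
    (j k : Fin n) : ∫ x, dbar k a x * conj (dbar j b x) * WW Φ x =
      (∫ x, dl Φ j a x * conj (dl Φ k b x) * WW Φ x) -
        ∫ x, HH Φ j k x * a x * conj (b x) * WW Φ x := by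
  have h1 : ∫ x, dbar k a x * conj (dbar j b x) * WW Φ x =
      conj (∫ x, dbar j b x * conj (dbar k a x) * WW Φ x) := by
    rw [int_conj]
    congr 1
    funext x
    rw [map_mul, map_mul, conj_conj, WW_conj]
    ring
  rw [h1, adj hΦ hb (ha.dbar k) j, map_neg, int_conj]
  have h2 : ∀ x, conj (b x * conj (dl Φ j (dbar k a) x) * WW Φ x) =
      dbar k (dl Φ j a) x * conj (b x) * WW Φ x + HH Φ j k x * a x * conj (b x) * WW Φ x := by
    intro x
    rw [map_mul, map_mul, conj_conj, WW_conj, comm hΦ ha.sm]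
    ring
  simp only [h2]
  rw [integral_add, adj hΦ (ha.dl hΦ j) hb k]
  · ring
  · exact ((((ha.dl hΦ j).dbar k).sm.continuous.mul hb.conj.sm.continuous).mul
      (WW_smooth hΦ).continuous).integrable_of_hasCompactSupport
        ((((ha.dl hΦ j).dbar k).cp.mul_right).mul_right)
  · exact ((((HH_smooth hΦ j k).continuous.mul ha.sm.continuous).mul hb.conj.sm.continuous).mul
      (WW_smooth hΦ).continuous).integrable_of_hasCompactSupport
        (((ha.cp.mul_left).mul_right).mul_right)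



/-! ### the Levi form -/

theorem decomp (a : En n) : a = ∑ j, ((a j).re • (Pi.single j (1 : ℂ) : En n) +
    (a j).im • (Pi.single j I : En n)) := by
  funext i
  rw [Finset.sum_apply, Finset.sum_eq_single i]
  · simp
  · intro b _ hb
    simp [Pi.single_apply, hb.symm]
  · intro h
    exact absurd (Finset.mem_univ i) h

theorem clm_decomp (L : En n →L[ℝ] ℂ) (a : En n) :
    L a = ∑ j, (((a j).re : ℂ) * L (Pi.single j 1) + ((a j).im : ℂ) * L (Pi.single j I)) := by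
  conv_lhs => rw [decomp a]
  rw [map_sum]
  apply Finset.sum_congr rfl
  intro j _
  rw [map_add, map_smul, map_smul]
  simp

theorem lin_part (L : En n →L[ℝ] ℂ) (a : En n) :
    L a - I * L (I • a) = ∑ j, a j * (L (Pi.single j 1) - I * L (Pi.single j I)) := by
  rw [clm_decomp L a, clm_decomp L (I • a), Finset.mul_sum, ← Finset.sum_sub_distrib]
  apply Finset.sum_congr rfl
  intro j _
  have h1 : ((I • a) j).re = - (a j).im := by simp
  have h2 : ((I • a) j).im = (a j).re := by simp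
  have h3 : a j = ((a j).re : ℂ) + ((a j).im : ℂ) * I := (Complex.re_add_im (a j)).symm
  rw [h1, h2]
  conv_rhs => rw [h3]
  push_cast
  linear_combination ((a j).im * L (Pi.single j I)) * Complex.I_sq

theorem anti_part (L : En n →L[ℝ] ℂ) (a : En n) :
    L a + I * L (I • a) = ∑ j, conj (a j) * (L (Pi.single j 1) + I * L (Pi.single j I)) := by
  rw [clm_decomp L a, clm_decomp L (I • a), Finset.mul_sum, ← Finset.sum_add_distrib]
  apply Finset.sum_congr rfl
  intro j _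
  have h1 : ((I • a) j).re = - (a j).im := by simp
  have h2 : ((I • a) j).im = (a j).re := by simp
  have h3 : conj (a j) = ((a j).re : ℂ) - ((a j).im : ℂ) * I := by
    apply Complex.ext <;> simp
  rw [h1, h2, h3]
  push_cast
  linear_combination ((a j).im * L (Pi.single j I)) * Complex.I_sq

theorem Dv_Dv {a : En n → ℂ} (ha : ContDiff ℝ ∞ a) (w u x : En n) :
    Dv w (Dv u a) x = fderiv ℝ (fderiv ℝ a) x w u := by
  have h0 : Differentiable ℝ (fderiv ℝ a) :=
    (ha.fderiv_right (m := ∞) (by norm_num)).differentiable (by norm_num)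
  unfold Dv
  have h2 : HasFDerivAt (fun x => fderiv ℝ a x u)
      ((ContinuousLinearMap.apply ℝ ℂ u).comp (fderiv ℝ (fderiv ℝ a) x)) x :=
    (ContinuousLinearMap.apply ℝ ℂ u).hasFDerivAt.comp x (h0 x).hasFDerivAt
  rw [h2.fderiv]
  simp

theorem Lv_eq {Φ : En n → ℝ} (hΦ : ContDiff ℝ ∞ Φ) (x a : En n) :
    ((Lv Φ x a : ℝ) : ℂ) = (1 / 4) * (fderiv ℝ (fderiv ℝ (Ph Φ)) x a a +
      fderiv ℝ (fderiv ℝ (Ph Φ)) x (I • a) (I • a)) := by
  have h1 : ∀ u : En n, ContDiff ℝ ∞ (fun y => fderiv ℝ Φ y u) := fun u =>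
    (hΦ.fderiv_right (m := ∞) (by norm_num)).clm_apply contDiff_const
  have h2 : ∀ u : En n, Dv u (Ph Φ) = Ph (fun y => fderiv ℝ Φ y u) := by
    intro u
    funext y
    rw [Dv_Ph hΦ]
    rfl
  have h3 : ∀ u : En n, fderiv ℝ (fderiv ℝ (Ph Φ)) x u u =
      ((fderiv ℝ (fun y => fderiv ℝ Φ y u) x u : ℝ) : ℂ) := by
    intro u
    rw [← Dv_Dv (Ph_smooth hΦ), h2, Dv_Ph (h1 u)]
  rw [h3, h3]
  unfold Lv
  push_cast
  ring

theorem HH_eq {Φ : En n → ℝ} (hΦ : ContDiff ℝ ∞ Φ) (j k : Fin n) (x : En n) :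
    HH Φ j k x = (1 / 4) * ((fderiv ℝ (fderiv ℝ (Ph Φ)) x (Pi.single k 1) (Pi.single j 1) -
      I * fderiv ℝ (fderiv ℝ (Ph Φ)) x (Pi.single k 1) (Pi.single j I)) +
      I * (fderiv ℝ (fderiv ℝ (Ph Φ)) x (Pi.single k I) (Pi.single j 1) -
      I * fderiv ℝ (fderiv ℝ (Ph Φ)) x (Pi.single k I) (Pi.single j I))) := by
  have hP := Ph_smooth hΦ
  unfold HH
  rw [dbar_eq]
  simp only [dz_eq]
  rw [Dv_lin (Dv_smooth hP _) (Dv_smooth hP _), Dv_lin (Dv_smooth hP _) (Dv_smooth hP _)]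
  rw [Dv_Dv hP, Dv_Dv hP, Dv_Dv hP, Dv_Dv hP]
  ring

theorem levi {Φ : En n → ℝ} (hΦ : ContDiff ℝ ∞ Φ) (x a : En n) :
    ((Lv Φ x a : ℝ) : ℂ) = ∑ j, ∑ k, HH Φ j k x * a j * conj (a k) := by
  have hP := Ph_smooth hΦ
  set B := fderiv ℝ (fderiv ℝ (Ph Φ)) x with hB
  have hsym : ∀ u w, B u w = B w u := by
    intro u w
    rw [hB, ← Dv_Dv hP, ← Dv_Dv hP, Dv_comm hP]
  let G : En n →L[ℝ] ℂ := B.flip a - I • (B.flip (I • a))
  have hG : ∀ b, G b = B b a - I * B b (I • a) := by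
    intro b
    simp [G]
  have hG2 : ∀ b, G b = ∑ j, a j * (B b (Pi.single j 1) - I * B b (Pi.single j I)) := by
    intro b
    rw [hG, lin_part (B b) a]
  have h1 : G a + I * G (I • a) = B a a + B (I • a) (I • a) := by
    rw [hG, hG, hsym (I • a) a]
    linear_combination (- B (I • a) (I • a)) * Complex.I_sq
  rw [Lv_eq hΦ, ← hB, ← h1, anti_part G a, Finset.mul_sum, Finset.sum_comm]
  apply Finset.sum_congr rfl
  intro k _
  rw [hG2, hG2, Finset.mul_sum, ← Finset.sum_add_distrib, Finset.mul_sum, Finset.mul_sum]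
  apply Finset.sum_congr rfl
  intro j _
  rw [HH_eq hΦ, ← hB]
  ring

/-! ### the sum over pairs -/

theorem sum_pr (f : Fin n → Fin n → ℂ) (h : ∀ j, f j j = 0) :
    ∑ p : Pr n, (f p.1.1 p.1.2 + f p.1.2 p.1.1) = ∑ j, ∑ k, f j k := by
  rw [← Finset.sum_product', Finset.univ_product_univ]
  have e1 : ∑ p : Pr n, (f p.1.1 p.1.2 + f p.1.2 p.1.1) =
      ∑ p ∈ (Finset.univ : Finset (Fin n × Fin n)).filter (fun p => p.1 < p.2),
        (f p.1 p.2 + f p.2 p.1) := by
    symm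
    apply Finset.sum_subtype
    intro x
    simp
  rw [e1, Finset.sum_filter]
  have e2 : ∑ p : Fin n × Fin n, f p.1 p.2 = ∑ p : Fin n × Fin n,
      ((if p.1 < p.2 then f p.1 p.2 else 0) + (if p.2 < p.1 then f p.1 p.2 else 0)) := by
    apply Finset.sum_congr rfl
    rintro ⟨j, k⟩ _
    rcases lt_trichotomy j k with hjk | hjk | hjk
    · simp [hjk, hjk.le, not_lt.2 hjk.le]
    · subst hjk
      simp [h]
    · simp [hjk, not_lt.2 hjk.le]
  rw [e2, Finset.sum_add_distrib]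
  have e3 : ∑ p : Fin n × Fin n, (if p.2 < p.1 then f p.1 p.2 else 0) =
      ∑ p : Fin n × Fin n, (if p.1 < p.2 then f p.2 p.1 else 0) :=
    Fintype.sum_equiv (Equiv.prodComm _ _) _ _ (fun p => rfl)
  rw [e3, ← Finset.sum_add_distrib]
  apply Finset.sum_congr rfl
  rintro ⟨j, k⟩ _
  by_cases hjk : j < k
  · simp [hjk]
  · simp [hjk]

theorem hsq (z : ℂ) : ((‖z‖ ^ 2 : ℝ) : ℂ) = z * conj z := by
  rw [Complex.mul_conj, Complex.normSq_eq_norm_sq]

theorem ti {a b : En n → ℂ} (ha : TT a) (hb : TT b) {Φ : En n → ℝ} (hΦ : ContDiff ℝ ∞ Φ) :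
    Integrable (fun x => a x * conj (b x) * WW Φ x) :=
  ((ha.sm.continuous.mul hb.conj.sm.continuous).mul
      (WW_smooth hΦ).continuous).integrable_of_hasCompactSupport ((ha.cp.mul_right).mul_right)

theorem ti2 {a b : En n → ℂ} (ha : TT a) (hb : TT b) {Φ : En n → ℝ} (hΦ : ContDiff ℝ ∞ Φ)
    (j k : Fin n) :
    Integrable (fun x => HH Φ j k x * a x * conj (b x) * WW Φ x) :=
  ((((HH_smooth hΦ j k).continuous.mul ha.sm.continuous).mul hb.conj.sm.continuous).mul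
      (WW_smooth hΦ).continuous).integrable_of_hasCompactSupport
        (((ha.cp.mul_left).mul_right).mul_right)

theorem global (Φ : En n → ℝ) (hΦ : ContDiff ℝ ∞ Φ) (u : Fin n → En n → ℂ) (hu : ∀ j, TT (u j)) :
    (∑ j, ∑ k, ∫ x, ‖dbar k (u j) x‖ ^ 2 * Real.exp (-Φ x)) +
      ∫ x, Lv Φ x (fun j => u j x) * Real.exp (-Φ x) =
    (∑ p, ∫ x, ‖Sst u p x‖ ^ 2 * Real.exp (-Φ x)) +
      ∫ x, ‖∑ j, dl Φ j (u j) x‖ ^ 2 * Real.exp (-Φ x) := by
  have c1 : ∀ (f : En n → ℂ), ((∫ x, ‖f x‖ ^ 2 * Real.exp (-Φ x) : ℝ) : ℂ) =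
      ∫ x, f x * conj (f x) * WW Φ x := by
    intro f
    rw [← integral_complex_ofReal]
    congr 1
    funext x
    rw [Complex.ofReal_mul, hsq]
    rfl
  have E1 : (((∑ j, ∑ k, ∫ x, ‖dbar k (u j) x‖ ^ 2 * Real.exp (-Φ x) : ℝ)) : ℂ) =
      ∑ j, ∑ k, ∫ x, dbar k (u j) x * conj (dbar k (u j) x) * WW Φ x := by
    push_cast
    apply Finset.sum_congr rfl
    intro j _
    apply Finset.sum_congr rfl
    intro k _
    have := c1 (dbar k (u j))
    push_cast at this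
    exact this
  have E2 : ((∫ x, Lv Φ x (fun j => u j x) * Real.exp (-Φ x) : ℝ) : ℂ) =
      ∑ j, ∑ k, ∫ x, HH Φ j k x * u j x * conj (u k x) * WW Φ x := by
    rw [← integral_complex_ofReal]
    have h1 : ∀ x, ((Lv Φ x (fun j => u j x) * Real.exp (-Φ x) : ℝ) : ℂ) =
        ∑ j, ∑ k, HH Φ j k x * u j x * conj (u k x) * WW Φ x := by
      intro x
      rw [Complex.ofReal_mul, levi hΦ, Finset.sum_mul]
      apply Finset.sum_congr rfl
      intro j _
      rw [Finset.sum_mul]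
      rfl
    simp only [h1]
    rw [integral_finsetSum]
    · apply Finset.sum_congr rfl
      intro j _
      rw [integral_finsetSum]
      intro k _
      exact ti2 (hu j) (hu k) hΦ j k
    · intro j _
      apply integrable_finsetSum
      intro k _
      exact ti2 (hu j) (hu k) hΦ j k
  have E3 : ((∫ x, ‖∑ j, dl Φ j (u j) x‖ ^ 2 * Real.exp (-Φ x) : ℝ) : ℂ) =
      ∑ j, ∑ k, ∫ x, dl Φ j (u j) x * conj (dl Φ k (u k) x) * WW Φ x := by
    rw [c1 (fun x => ∑ j, dl Φ j (u j) x)]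
    have h1 : ∀ x, (∑ j, dl Φ j (u j) x) * conj (∑ j, dl Φ j (u j) x) * WW Φ x =
        ∑ j, ∑ k, dl Φ j (u j) x * conj (dl Φ k (u k) x) * WW Φ x := by
      intro x
      rw [map_sum, Finset.sum_mul_sum, Finset.sum_mul]
      apply Finset.sum_congr rfl
      intro j _
      rw [Finset.sum_mul]
    simp only [h1]
    rw [integral_finsetSum]
    · apply Finset.sum_congr rfl
      intro j _
      rw [integral_finsetSum]
      intro k _
      exact ti ((hu j).dl hΦ j) ((hu k).dl hΦ k) hΦ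
    · intro j _
      apply integrable_finsetSum
      intro k _
      exact ti ((hu j).dl hΦ j) ((hu k).dl hΦ k) hΦ
  have E4 : (((∑ p, ∫ x, ‖Sst u p x‖ ^ 2 * Real.exp (-Φ x) : ℝ)) : ℂ) =
      ∑ j, ∑ k, ((∫ x, dbar j (u k) x * conj (dbar j (u k) x) * WW Φ x) -
        ∫ x, dbar j (u k) x * conj (dbar k (u j) x) * WW Φ x) := by
    rw [← sum_pr (fun j k => (∫ x, dbar j (u k) x * conj (dbar j (u k) x) * WW Φ x) -
        ∫ x, dbar j (u k) x * conj (dbar k (u j) x) * WW Φ x) (fun j => sub_self _),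
      Complex.ofReal_sum]
    apply Finset.sum_congr rfl
    rintro ⟨⟨j, k⟩, hjk⟩ _
    rw [c1]
    have h1 : ∀ x, Sst u ⟨(j, k), hjk⟩ x * conj (Sst u ⟨(j, k), hjk⟩ x) * WW Φ x =
        ((dbar j (u k) x * conj (dbar j (u k) x) * WW Φ x -
          dbar j (u k) x * conj (dbar k (u j) x) * WW Φ x) +
        (dbar k (u j) x * conj (dbar k (u j) x) * WW Φ x -
          dbar k (u j) x * conj (dbar j (u k) x) * WW Φ x)) := by
      intro x
      unfold Sst
      simp only [map_sub]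
      ring
    simp only [h1]
    have i1 := ti ((hu k).dbar j) ((hu k).dbar j) hΦ
    have i2 := ti ((hu k).dbar j) ((hu j).dbar k) hΦ
    have i3 := ti ((hu j).dbar k) ((hu j).dbar k) hΦ
    have i4 := ti ((hu j).dbar k) ((hu k).dbar j) hΦ
    have i5 : Integrable (fun x => dbar j (u k) x * conj (dbar j (u k) x) * WW Φ x -
          dbar j (u k) x * conj (dbar k (u j) x) * WW Φ x) := i1.sub i2
    have i6 : Integrable (fun x => dbar k (u j) x * conj (dbar k (u j) x) * WW Φ x -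
          dbar k (u j) x * conj (dbar j (u k) x) * WW Φ x) := i3.sub i4
    rw [integral_add i5 i6, integral_sub i1 i2, integral_sub i3 i4]
  have E5 : ∑ j, ∑ k, ∫ x, dbar j (u k) x * conj (dbar k (u j) x) * WW Φ x =
      (∑ j, ∑ k, ∫ x, dl Φ j (u j) x * conj (dl Φ k (u k) x) * WW Φ x) -
      ∑ j, ∑ k, ∫ x, HH Φ j k x * u j x * conj (u k x) * WW Φ x := by
    rw [Finset.sum_comm, ← Finset.sum_sub_distrib]
    apply Finset.sum_congr rfl
    intro j _
    rw [← Finset.sum_sub_distrib]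
    apply Finset.sum_congr rfl
    intro k _
    exact basic hΦ (hu j) (hu k) j k
  apply Complex.ofReal_injective
  rw [Complex.ofReal_add, Complex.ofReal_add, E1, E2, E3, E4]
  simp only [Finset.sum_sub_distrib]
  rw [E5]
  have E6 : ∑ j, ∑ k, ∫ x, dbar k (u j) x * conj (dbar k (u j) x) * WW Φ x =
      ∑ j, ∑ k, ∫ x, dbar j (u k) x * conj (dbar j (u k) x) * WW Φ x := Finset.sum_comm
  rw [E6]
  ring

end JKI

open JKI in
theorem ki (Ω : Set (En n)) (ho : IsOpen Ω) : KI Ω := by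
  intro φ hφ u hu
  have hT : ∀ j, TT (u j) := fun j => ⟨(hu j).smooth, (hu j).compact⟩
  obtain ⟨K, hKdef⟩ : ∃ K : Set (En n), K = ⋃ j, tsupport (u j) := ⟨_, rfl⟩
  have hK : IsClosed K := by
    rw [hKdef]
    exact isClosed_iUnion_of_finite (fun j => isClosed_tsupport _)
  have hKΩ : K ⊆ Ω := by
    rw [hKdef]
    exact Set.iUnion_subset (fun j => (hu j).supp)
  have hdisj : Disjoint Ωᶜ K := by
    rw [Set.disjoint_left]
    intro x hx hxK
    exact hx (hKΩ hxK)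
  obtain ⟨f, hf0, hf1, -⟩ := exists_contMDiffMap_zero_one_nhds_of_isClosed (n := ⊤)
    (modelWithCornersSelf ℝ (En n)) ho.isClosed_compl hK hdisj
  have hf : ContDiff ℝ ∞ f := f.contMDiff.contDiff
  obtain ⟨Φ, hΦdef⟩ : ∃ Φ : En n → ℝ, Φ = fun x => f x * φ x := ⟨_, rfl⟩
  have hΦ : ContDiff ℝ ∞ Φ := by
    rw [contDiff_iff_contDiffAt]
    intro x
    by_cases hx : x ∈ Ω
    · rw [hΦdef]
      exact hf.contDiffAt.mul ((hφ x hx).contDiffAt (ho.mem_nhds hx))
    · have h1 : Φ =ᶠ[𝓝 x] fun _ => 0 := by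
        filter_upwards [(eventually_nhdsSet_iff_forall.1 hf0) x hx] with y hy
        rw [hΦdef]
        simp [hy]
      exact contDiffAt_const.congr_of_eventuallyEq h1
  have hE : ∀ x ∈ K, φ =ᶠ[𝓝 x] Φ := by
    intro x hx
    filter_upwards [(eventually_nhdsSet_iff_forall.1 hf1) x hx] with y hy
    rw [hΦdef]
    simp [hy]
  have hloc : ∀ F F' : En n → ℝ, (∀ x ∈ K, F x = F' x) → (∀ x ∉ K, F x = 0) →
      (∀ x ∉ K, F' x = 0) → ∫ x in Ω, F x = ∫ x, F' x := by
    intro F F' h1 h2 h3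
    have h4 : F = F' := by
      funext x
      by_cases hx : x ∈ K
      · exact h1 x hx
      · rw [h2 x hx, h3 x hx]
    rw [h4]
    apply setIntegral_eq_integral_of_forall_compl_eq_zero
    intro x hx
    exact h3 x (fun h => hx (hKΩ h))
  have hu0 : ∀ x ∉ K, ∀ j, u j x = 0 := by
    intro x hx j
    apply image_eq_zero_of_notMem_tsupport
    intro h
    apply hx
    rw [hKdef]
    exact Set.mem_iUnion.2 ⟨j, h⟩
  have hfu : ∀ x ∉ K, ∀ j, fderiv ℝ (u j) x = 0 := by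
    intro x hx j
    apply fderiv_of_notMem_tsupport
    intro h
    apply hx
    rw [hKdef]
    exact Set.mem_iUnion.2 ⟨j, h⟩
  have hdb : ∀ x ∉ K, ∀ j k, dbar k (u j) x = 0 := by
    intro x hx j k
    unfold dbar
    rw [hfu x hx j]
    simp
  have hdz : ∀ x ∉ K, ∀ j k, dz k (u j) x = 0 := by
    intro x hx j k
    unfold dz
    rw [hfu x hx j]
    simp
  have hval : ∀ x ∈ K, φ x = Φ x := fun x hx => (hE x hx).eq_of_nhds
  have hLv0 : ∀ (φ : En n → ℝ), ∀ x ∉ K, Lv φ x (fun j => u j x) = 0 := by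
    intro φ x hx
    have h1 : (fun j => u j x) = (0 : En n) := by
      funext j
      exact hu0 x hx j
    rw [h1]
    unfold Lv
    simp
  have hLv : ∀ x ∈ K, ∀ a, Lv φ x a = Lv Φ x a := by
    intro x hx a
    have h1 := (hE x hx).fderiv (𝕜 := ℝ)
    have h2 : ∀ b : En n, fderiv ℝ (fun y => fderiv ℝ φ y b) x = fderiv ℝ (fun y => fderiv ℝ Φ y b) x := by
      intro b
      apply Filter.EventuallyEq.fderiv_eq
      filter_upwards [h1] with y hy
      rw [hy]
    unfold Lv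
    rw [h2, h2]
  have hdzφ : ∀ x ∈ K, ∀ j, dz j (fun y => (φ y : ℂ)) x = dz j (Ph Φ) x := by
    intro x hx j
    have h1 : (fun y => (φ y : ℂ)) =ᶠ[𝓝 x] Ph Φ := by
      filter_upwards [hE x hx] with y hy
      show (φ y : ℂ) = (Φ y : ℂ)
      rw [hy]
    unfold dz
    rw [h1.fderiv_eq]
  have h := JKI.global Φ hΦ u hT
  have e1 : ∀ j k, ∫ x in Ω, ‖dbar k (u j) x‖ ^ 2 * Real.exp (-φ x) =
      ∫ x, ‖dbar k (u j) x‖ ^ 2 * Real.exp (-Φ x) := by
    intro j k
    apply hloc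
    · intro x hx
      rw [hval x hx]
    · intro x hx
      rw [hdb x hx]; simp
    · intro x hx
      rw [hdb x hx]; simp
  have e2 : ∫ x in Ω, Lv φ x (fun j => u j x) * Real.exp (-φ x) =
      ∫ x, Lv Φ x (fun j => u j x) * Real.exp (-Φ x) := by
    apply hloc
    · intro x hx
      rw [hval x hx, hLv x hx]
    · intro x hx
      rw [hLv0 φ x hx]; simp
    · intro x hx
      rw [hLv0 Φ x hx]; simp
  have e3 : ∀ p : Pr n, ∫ x in Ω, ‖Sst u p x‖ ^ 2 * Real.exp (-φ x) =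
      ∫ x, ‖Sst u p x‖ ^ 2 * Real.exp (-Φ x) := by
    intro p
    apply hloc
    · intro x hx
      rw [hval x hx]
    · intro x hx
      unfold Sst
      rw [hdb x hx, hdb x hx]; simp
    · intro x hx
      unfold Sst
      rw [hdb x hx, hdb x hx]; simp
  have e4 : ∫ x in Ω, ‖∑ j, (dz j (u j) x - dz j (fun y => (φ y : ℂ)) x * u j x)‖ ^ 2 *
        Real.exp (-φ x) = ∫ x, ‖∑ j, dl Φ j (u j) x‖ ^ 2 * Real.exp (-Φ x) := by
    apply hloc
    · intro x hx
      rw [hval x hx]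
      unfold dl
      simp only [hdzφ x hx]
    · intro x hx
      simp [hu0 x hx, hdz x hx]
    · intro x hx
      unfold dl
      simp [hu0 x hx, hdz x hx]
  simp only [e1, e3]
  rw [e2, e4]
  exact h

end BK.JB1
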