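import Pool.Agent.H314.BK.St

set_option autoImplicit false

open MeasureTheory Complex Filter Topology
open scoped ContDiff InnerProductSpace ENNReal ComplexConjugate

namespace BK.JB2

variable {n : ℕ}

theorem dz_cont352 {Ω : Set (En n)} (ho : IsOpen Ω) {f : En n → ℂ} (hf : ContDiffOn ℝ ∞ f Ω)
    (j : Fin n) : ContinuousOn (dz j f) Ω := by
  have h1 : ContinuousOn (fderiv ℝ f) Ω :=
    (hf.fderiv_of_isOpen ho (m := 0) (by simp)).continuousOn
  unfold dz
  exact continuousOn_const.mul ((h1.clm_apply continuousOn_const).sub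
    (continuousOn_const.mul (h1.clm_apply continuousOn_const)))

theorem dz_sub352 {Ω : Set (En n)} (ho : IsOpen Ω) {φ ψ : En n → ℝ} (hφ : ContDiffOn ℝ ∞ φ Ω)
    (hψ : ContDiffOn ℝ ∞ ψ Ω) {x : En n} (hx : x ∈ Ω) (j : Fin n) :
    dz j (fun y => ((φ y - ψ y : ℝ) : ℂ)) x =
      dz j (fun y => (φ y : ℂ)) x - dz j (fun y => (ψ y : ℂ)) x := by
  have e : (fun y => ((φ y - ψ y : ℝ) : ℂ)) = fun y => (φ y : ℂ) - (ψ y : ℂ) := by
    funext y; push_cast; rfl
  have h1 : DifferentiableAt ℝ (fun y => (φ y : ℂ)) x :=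
    Complex.ofRealCLM.differentiableAt.comp x
      ((hφ.differentiableOn (by simp)).differentiableAt (ho.mem_nhds hx))
  have h2 : DifferentiableAt ℝ (fun y => (ψ y : ℂ)) x :=
    Complex.ofRealCLM.differentiableAt.comp x
      ((hψ.differentiableOn (by simp)).differentiableAt (ho.mem_nhds hx))
  unfold dz
  rw [e, fderiv_fun_sub h1 h2]
  simp only [sub_apply]
  ring

theorem Lv_eq352 {Ω : Set (En n)} (ho : IsOpen Ω) {φ : En n → ℝ} (hφ : ContDiffOn ℝ ∞ φ Ω)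
    {x : En n} (hx : x ∈ Ω) (a : En n) :
    Lv φ x a = (1 / 4) * (fderiv ℝ (fderiv ℝ φ) x a a +
      fderiv ℝ (fderiv ℝ φ) x (I • a) (I • a)) := by
  have h1 : DifferentiableAt ℝ (fderiv ℝ φ) x :=
    ((hφ.fderiv_of_isOpen ho (m := ∞) le_rfl).differentiableOn (by simp)).differentiableAt
      (ho.mem_nhds hx)
  have h2 : ∀ b c : En n, fderiv ℝ (fun y => fderiv ℝ φ y b) x c = fderiv ℝ (fderiv ℝ φ) x c b := by
    intro b c
    rw [(h1.hasFDerivAt.clm_apply (hasFDerivAt_const b x)).fderiv]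
    simp
  unfold Lv
  rw [h2, h2]

theorem Lv_cont352 {Ω : Set (En n)} (ho : IsOpen Ω) {φ : En n → ℝ} (hφ : ContDiffOn ℝ ∞ φ Ω)
    {u : Fin n → En n → ℂ} (hu : ∀ j, Continuous (u j)) :
    ContinuousOn (fun x => Lv φ x (fun j => u j x)) Ω := by
  have h2 : ContinuousOn (fderiv ℝ (fderiv ℝ φ)) Ω :=
    ((hφ.fderiv_of_isOpen ho (m := ∞) le_rfl).fderiv_of_isOpen ho (m := 0)
      (by simp)).continuousOn
  have hv : ContinuousOn (fun x => (fun j => u j x : En n)) Ω :=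
    (continuous_pi hu).continuousOn
  have hv2 : ContinuousOn (fun x => I • (fun j => u j x : En n)) Ω := hv.const_smul I
  have h3 : ContinuousOn (fun x => (1 / 4) * (fderiv ℝ (fderiv ℝ φ) x (fun j => u j x)
      (fun j => u j x) + fderiv ℝ (fderiv ℝ φ) x (I • (fun j => u j x : En n))
        (I • (fun j => u j x : En n)))) Ω :=
    continuousOn_const.mul (((h2.clm_apply hv).clm_apply hv).add
      ((h2.clm_apply hv2).clm_apply hv2))
  exact h3.congr fun x hx => Lv_eq352 ho hφ hx _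

theorem Lv_zero352 (φ : En n → ℝ) (x : En n) : Lv φ x (fun _ => (0 : ℂ)) = 0 := by
  have : (fun _ => (0 : ℂ) : En n) = 0 := rfl
  unfold Lv
  rw [this]
  simp

theorem int352 {Ω K : Set (En n)} (ho : IsOpen Ω) (hK : IsCompact K) (hKΩ : K ⊆ Ω)
    {f : En n → ℝ} (hf : ContinuousOn f Ω) (h0 : ∀ x, x ∉ K → f x = 0) :
    Integrable f (volume.restrict Ω) := by
  have h1 : IntegrableOn f K volume := (hf.mono hKΩ).integrableOn_compact hK
  exact h1.of_forall_sdiff_eq_zero ho.measurableSet fun x hx => h0 x hx.2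

theorem pt352 {ε : ℝ} (hε : 0 < ε) (A B T : ℂ) (s Lw : ℝ)
    (hT : T = (Real.exp (-s) : ℂ) * (-(A + B))) (hB : (1 + 1 / ε) * ‖B‖ ^ 2 ≤ Lw) :
    ‖A‖ ^ 2 ≤ (1 + ε) * (‖T‖ ^ 2 * Real.exp (2 * s)) + Lw := by
  have h1 : ‖T‖ = Real.exp (-s) * ‖A + B‖ := by
    rw [hT, norm_mul, norm_neg, Complex.norm_real, Real.norm_of_nonneg (Real.exp_pos _).le]
  have h2 : ‖T‖ ^ 2 * Real.exp (2 * s) = ‖A + B‖ ^ 2 := by
    rw [h1, mul_pow, ← Real.exp_nat_mul]
    have : Real.exp (((2 : ℕ) : ℝ) * -s) * Real.exp (2 * s) = 1 := by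
      rw [← Real.exp_add]; simp
    linear_combination ‖A + B‖ ^ 2 * this
  rw [h2]
  have h3 : ‖A‖ ≤ ‖A + B‖ + ‖B‖ := by
    calc ‖A‖ = ‖(A + B) - B‖ := by congr 1; ring
      _ ≤ ‖A + B‖ + ‖B‖ := norm_sub_le _ _
  have h4 : ‖A‖ ^ 2 ≤ (‖A + B‖ + ‖B‖) ^ 2 := by
    have := norm_nonneg A
    gcongr
  have h5 : 2 * (‖A + B‖ * ‖B‖) ≤ ε * ‖A + B‖ ^ 2 + 1 / ε * ‖B‖ ^ 2 := by
    have h6 := sq_nonneg (ε * ‖A + B‖ - ‖B‖)
    have h7 : ε * (2 * (‖A + B‖ * ‖B‖)) ≤ ε * (ε * ‖A + B‖ ^ 2 + 1 / ε * ‖B‖ ^ 2) := by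
      have h8 : ε * (ε * ‖A + B‖ ^ 2 + 1 / ε * ‖B‖ ^ 2) = ε ^ 2 * ‖A + B‖ ^ 2 + ‖B‖ ^ 2 := by
        field_simp
      rw [h8]
      nlinarith
    exact le_of_mul_le_mul_left h7 hε
  nlinarith

theorem ti (Ω : Set (En n)) (ho : IsOpen Ω) (hK : KI Ω) : TI Ω := by
  intro L ε φ ψ η hε W u hu
  have h := hK φ W.sφ u hu
  -- the compact set
  have hKc : IsCompact (⋃ j, tsupport (u j)) := isCompact_iUnion fun j => (hu j).compact
  have hKs : (⋃ j, tsupport (u j)) ⊆ Ω := Set.iUnion_subset fun j => (hu j).supp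
  have hu0 : ∀ x, x ∉ (⋃ j, tsupport (u j)) → ∀ j, u j x = 0 := fun x hx j =>
    image_eq_zero_of_notMem_tsupport fun hx' => hx (Set.mem_iUnion.2 ⟨j, hx'⟩)
  have hdz0 : ∀ x, x ∉ (⋃ j, tsupport (u j)) → ∀ j, dz j (u j) x = 0 := by
    intro x hx j
    have h1 : fderiv ℝ (u j) x = 0 :=
      fderiv_of_notMem_tsupport ℝ fun hx' => hx (Set.mem_iUnion.2 ⟨j, hx'⟩)
    unfold dz
    rw [h1]
    simp
  have hφψ : ContDiffOn ℝ ∞ (fun y => ((φ y - ψ y : ℝ) : ℂ)) Ω :=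
    Complex.ofRealCLM.contDiff.comp_contDiffOn (W.sφ.sub W.sψ)
  have hTc : ContinuousOn (Tst φ ψ u) Ω := by
    unfold Tst
    refine ContinuousOn.mul ?_ (ContinuousOn.neg (continuousOn_finsetSum _ fun j _ =>
      (dz_cont352 ho (hu j).smooth.contDiffOn j).sub
        ((dz_cont352 ho hφψ j).mul (hu j).smooth.continuous.continuousOn)))
    exact Complex.continuous_ofReal.comp_continuousOn
      (Real.continuous_exp.comp_continuousOn W.sψ.continuousOn.neg)
  have hT : Integrable (fun x => ‖Tst φ ψ u x‖ ^ 2 * Real.exp (-(φ x - 2 * ψ x)))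
      (volume.restrict Ω) := by
    refine int352 ho hKc hKs ?_ ?_
    · refine (hTc.norm.pow 2).mul (Real.continuous_exp.comp_continuousOn ?_)
      exact (W.sφ.continuousOn.sub (continuousOn_const.mul W.sψ.continuousOn)).neg
    · intro x hx
      have : Tst φ ψ u x = 0 := by
        unfold Tst
        rw [Finset.sum_eq_zero fun j _ => by rw [hdz0 x hx j, hu0 x hx j, mul_zero, sub_zero]]
        simp
      simp [this]
  have hL : Integrable (fun x => Lv φ x (fun j => u j x) * Real.exp (-φ x))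
      (volume.restrict Ω) := by
    refine int352 ho hKc hKs ?_ ?_
    · refine (Lv_cont352 ho W.sφ fun j => (hu j).smooth.continuous).mul
        (Real.continuous_exp.comp_continuousOn W.sφ.continuousOn.neg)
    · intro x hx
      have : (fun j => u j x) = fun _ => (0 : ℂ) := funext fun j => hu0 x hx j
      rw [this, Lv_zero352, zero_mul]
  have key : ∫ x in Ω, ‖∑ j, (dz j (u j) x - dz j (fun y => (φ y : ℂ)) x * u j x)‖ ^ 2 *
        Real.exp (-φ x) ≤
      (1 + ε) * (∫ x in Ω, ‖Tst φ ψ u x‖ ^ 2 * Real.exp (-(φ x - 2 * ψ x))) +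
        ∫ x in Ω, Lv φ x (fun j => u j x) * Real.exp (-φ x) := by
    rw [← integral_const_mul, ← integral_add (hT.const_mul _) hL]
    refine integral_mono_of_nonneg (Eventually.of_forall fun x => by positivity)
      ((hT.const_mul _).add hL) ?_
    refine ae_restrict_of_forall_mem ho.measurableSet fun x hx => ?_
    have hTx : Tst φ ψ u x = (Real.exp (-ψ x) : ℂ) *
        (-((∑ j, (dz j (u j) x - dz j (fun y => (φ y : ℂ)) x * u j x)) +
          ∑ j, dz j (fun y => (ψ y : ℂ)) x * u j x)) := by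
      unfold Tst
      rw [← Finset.sum_add_distrib]
      congr 2
      refine Finset.sum_congr rfl fun j _ => ?_
      rw [dz_sub352 ho W.sφ W.sψ hx j]
      ring
    have hB : (1 + 1 / ε) * ‖∑ j, dz j (fun y => (ψ y : ℂ)) x * u j x‖ ^ 2 ≤
        Lv φ x (fun j => u j x) := by
      refine le_trans ?_ (W.curv x hx fun j => u j x)
      have h1 : ‖∑ j, dz j (fun y => (ψ y : ℂ)) x * u j x‖ ≤
          ∑ j, ‖dz j (fun y => (ψ y : ℂ)) x‖ * ‖u j x‖ := by
        refine (norm_sum_le _ _).trans (le_of_eq ?_)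
        exact Finset.sum_congr rfl fun j _ => norm_mul _ _
      have h2 : ‖∑ j, dz j (fun y => (ψ y : ℂ)) x * u j x‖ ^ 2 ≤
          (∑ j, ‖dz j (fun y => (ψ y : ℂ)) x‖ ^ 2) * ∑ j, ‖u j x‖ ^ 2 :=
        (by gcongr : _ ≤ (∑ j, ‖dz j (fun y => (ψ y : ℂ)) x‖ * ‖u j x‖) ^ 2).trans
          (Finset.sum_mul_sq_le_sq_mul_sq _ _ _)
      have h3 : 0 ≤ 1 + 1 / ε := by positivity
      exact mul_le_mul_of_nonneg_left h2 h3
    have hp := pt352 hε _ _ _ _ _ hTx hB
    have he : Real.exp (2 * ψ x) * Real.exp (-φ x) = Real.exp (-(φ x - 2 * ψ x)) := by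
      rw [← Real.exp_add]; congr 1; ring
    have hm := mul_le_mul_of_nonneg_right hp (Real.exp_pos (-φ x)).le
    refine hm.trans (le_of_eq ?_)
    simp only [Pi.add_apply]
    rw [← he]
    ring
  linarith

end BK.JB2
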