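import Pool.Agent.H314.BK.St

set_option autoImplicit false

open MeasureTheory Complex Filter Topology
open scoped ContDiff InnerProductSpace ENNReal ComplexConjugate

namespace BK.JB3

variable {n : ℕ}

/-- the cut off form `η u` -/
noncomputable def wF (η : En n → ℝ) (u : Fin n → En n → ℂ) (j : Fin n) (x : En n) : ℂ :=
  (η x : ℂ) * u j x

/-- `S (η u)` -/
noncomputable def cF (η : En n → ℝ) (u : Fin n → En n → ℂ) (c : Pr n → En n → ℂ) (p : Pr n)
    (x : En n) : ℂ :=
  (η x : ℂ) * c p x + (dbar p.1.1 (fun y => (η y : ℂ)) x * u p.1.2 x -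
    dbar p.1.2 (fun y => (η y : ℂ)) x * u p.1.1 x)

/-- the divergence `∑ ∂_j (η u_j)` -/
noncomputable def gF (φ ψ η : En n → ℝ) (u : Fin n → En n → ℂ) (f : En n → ℂ) (x : En n) : ℂ :=
  -((Real.exp (ψ x) : ℂ) * (η x : ℂ) * f x) + ∑ j, (dz j (fun y => (η y : ℂ)) x +
    (η x : ℂ) * dz j (fun y => ((φ y - ψ y : ℝ) : ℂ)) x) * u j x

/-- `T* (η u)` -/
noncomputable def fF (ψ η : En n → ℝ) (u : Fin n → En n → ℂ) (f : En n → ℂ) (x : En n) : ℂ :=
  (η x : ℂ) * f x - (Real.exp (-ψ x) : ℂ) * ∑ j, dz j (fun y => (η y : ℂ)) x * u j x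


section PartM

/-! TARGET: prove this -/


theorem aux_fd0 {η : En n → ℝ} {x : En n} (hx : x ∉ tsupport η) :
    fderiv ℝ (fun y => (η y : ℂ)) x = 0 := by
  have h1 : η =ᶠ[𝓝 x] 0 := notMem_tsupport_iff_eventuallyEq.1 hx
  have h2 : (fun y => (η y : ℂ)) =ᶠ[𝓝 x] fun _ => (0 : ℂ) := by
    filter_upwards [h1] with y hy
    rw [hy]
    simp
  rw [h2.fderiv_eq]
  simp

theorem aux_dbar0 {η : En n → ℝ} {x : En n} (hx : x ∉ tsupport η) (j : Fin n) :
    dbar j (fun y => (η y : ℂ)) x = 0 := by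
  unfold dbar
  rw [aux_fd0 hx]
  simp

theorem aux_dz0 {η : En n → ℝ} {x : En n} (hx : x ∉ tsupport η) (j : Fin n) :
    dz j (fun y => (η y : ℂ)) x = 0 := by
  unfold dz
  rw [aux_fd0 hx]
  simp

theorem aux_fdcont {Ω : Set (En n)} (ho : IsOpen Ω) {g : En n → ℝ} (sg : ContDiffOn ℝ ∞ g Ω)
    (v : En n) : ContinuousOn (fun x => fderiv ℝ (fun y => (g y : ℂ)) x v) Ω := by
  have h1 : ContDiffOn ℝ ∞ (fun y => (g y : ℂ)) Ω :=
    Complex.ofRealCLM.contDiff.comp_contDiffOn sg
  have h2 : ContinuousOn (fderiv ℝ (fun y => (g y : ℂ))) Ω :=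
    h1.continuousOn_fderiv_of_isOpen ho (by norm_num)
  exact h2.clm_apply continuousOn_const

theorem aux_dbarcont {Ω : Set (En n)} (ho : IsOpen Ω) {g : En n → ℝ} (sg : ContDiffOn ℝ ∞ g Ω)
    (j : Fin n) : ContinuousOn (fun x => dbar j (fun y => (g y : ℂ)) x) Ω := by
  unfold dbar
  exact continuousOn_const.mul ((aux_fdcont ho sg _).add
    (continuousOn_const.mul (aux_fdcont ho sg _)))

theorem aux_dzcont {Ω : Set (En n)} (ho : IsOpen Ω) {g : En n → ℝ} (sg : ContDiffOn ℝ ∞ g Ω)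
    (j : Fin n) : ContinuousOn (fun x => dz j (fun y => (g y : ℂ)) x) Ω := by
  unfold dz
  exact continuousOn_const.mul ((aux_fdcont ho sg _).sub
    (continuousOn_const.mul (aux_fdcont ho sg _)))

/-- multiplication by a function vanishing off a compact set brings weighted `L²` to `L²` -/
theorem cut_mem {Ω : Set (En n)} (ho : IsOpen Ω) {K : Set (En n)} (hK : IsCompact K) (hKΩ : K ⊆ Ω)
    {θ : En n → ℝ} (hθ : ContinuousOn θ Ω) {h : En n → ℂ}
    (hh : MemLp (fun x => h x * (Real.exp (-θ x / 2) : ℝ)) 2 (volume.restrict Ω))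
    {a : En n → ℂ} (ha : ContinuousOn a Ω) (ha0 : ∀ x, x ∉ K → a x = 0) :
    MemLp (fun x => a x * h x) 2 volume := by
  obtain ⟨b, hb⟩ : ∃ b : En n → ℂ, ∀ x, b x = a x * ((Real.exp (θ x / 2) : ℝ) : ℂ) :=
    ⟨_, fun _ => rfl⟩
  have hbe : b = fun x => a x * ((Real.exp (θ x / 2) : ℝ) : ℂ) := funext hb
  have hbc : ContinuousOn b Ω := by
    rw [hbe]
    refine ha.mul ?_
    exact Complex.continuous_ofReal.comp_continuousOn
      (Real.continuous_exp.comp_continuousOn (hθ.div_const 2))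
  obtain ⟨M, hM⟩ := hK.exists_bound_of_continuousOn (hbc.mono hKΩ)
  have hM' : ∀ x, ‖b x‖ ≤ max M 0 := by
    intro x
    by_cases hx : x ∈ K
    · exact (hM x hx).trans (le_max_left _ _)
    · rw [hb, ha0 x hx]
      simp
  have hfe : (fun x => a x * h x) = fun x => b x * (h x * ((Real.exp (-θ x / 2) : ℝ) : ℂ)) := by
    funext x
    have e : ((Real.exp (θ x / 2) : ℝ) : ℂ) * ((Real.exp (-θ x / 2) : ℝ) : ℂ) = 1 := by
      rw [← Complex.ofReal_mul, ← Real.exp_add]
      have : θ x / 2 + -θ x / 2 = 0 := by ring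
      rw [this]
      simp
    rw [hb]
    calc a x * h x = a x * h x * 1 := by ring
      _ = _ := by rw [← e]; ring
  have hmem : MemLp (fun x => a x * h x) 2 (volume.restrict Ω) := by
    rw [hfe]
    refine MemLp.of_le_mul (c := max M 0) hh
      ((hbc.aestronglyMeasurable ho.measurableSet).mul hh.1) (ae_of_all _ fun x => ?_)
    rw [norm_mul]
    exact mul_le_mul_of_nonneg_right (hM' x) (norm_nonneg _)
  have hind : (fun x => a x * h x) = Ω.indicator (fun x => a x * h x) := by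
    funext x
    by_cases hx : x ∈ Ω
    · rw [Set.indicator_of_mem hx]
    · rw [Set.indicator_of_notMem hx, ha0 x (fun hk => hx (hKΩ hk)), zero_mul]
  rw [hind]
  exact (memLp_indicator_iff_restrict ho.measurableSet).2 hmem

theorem wF_mem {Ω : Set (En n)} (ho : IsOpen Ω) {φ ψ η : En n → ℝ} (sφ : ContDiffOn ℝ ∞ φ Ω)
    (sψ : ContDiffOn ℝ ∞ ψ Ω) (sη : ContDiff ℝ ∞ η) (cη : HasCompactSupport η)
    (tη : tsupport η ⊆ Ω) {u : Fin n → En n → ℂ} {f : En n → ℂ} {c : Pr n → En n → ℂ}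
    (h : LRel Ω φ ψ u f c) (j : Fin n) : MemLp (wF η u j) 2 volume := by
  have h1 : ContinuousOn (fun x => φ x - ψ x) Ω := sφ.continuousOn.sub sψ.continuousOn
  refine cut_mem ho (K := tsupport η) cη tη h1 (h := u j) (h.mu j) (a := fun x => (η x : ℂ)) ?_ ?_
  · exact (Complex.continuous_ofReal.comp sη.continuous).continuousOn
  · intro x hx
    have : η x = 0 := image_eq_zero_of_notMem_tsupport hx
    rw [this]
    simp

theorem cF_mem {Ω : Set (En n)} (ho : IsOpen Ω) {φ ψ η : En n → ℝ} (sφ : ContDiffOn ℝ ∞ φ Ω)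
    (sψ : ContDiffOn ℝ ∞ ψ Ω) (sη : ContDiff ℝ ∞ η) (cη : HasCompactSupport η)
    (tη : tsupport η ⊆ Ω) {u : Fin n → En n → ℂ} {f : En n → ℂ} {c : Pr n → En n → ℂ}
    (h : LRel Ω φ ψ u f c) (p : Pr n) : MemLp (cF η u c p) 2 volume := by
  have h1 : ContinuousOn (fun x => φ x - ψ x) Ω := sφ.continuousOn.sub sψ.continuousOn
  have e1 : MemLp (fun x => (η x : ℂ) * c p x) 2 volume := by
    refine cut_mem ho (K := tsupport η) cη tη sφ.continuousOn (h := c p) (h.mc p)
      (a := fun x => (η x : ℂ)) ?_ ?_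
    · exact (Complex.continuous_ofReal.comp sη.continuous).continuousOn
    · intro x hx
      have : η x = 0 := image_eq_zero_of_notMem_tsupport hx
      rw [this]
      simp
  have e2 : ∀ i j : Fin n, MemLp (fun x => dbar i (fun y => (η y : ℂ)) x * u j x) 2 volume := by
    intro i j
    exact cut_mem ho (K := tsupport η) cη tη h1 (h := u j) (h.mu j)
      (aux_dbarcont ho sη.contDiffOn i) (fun x hx => aux_dbar0 hx i)
  exact e1.add ((e2 p.1.1 p.1.2).sub (e2 p.1.2 p.1.1))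

theorem gF_mem {Ω : Set (En n)} (ho : IsOpen Ω) {φ ψ η : En n → ℝ} (sφ : ContDiffOn ℝ ∞ φ Ω)
    (sψ : ContDiffOn ℝ ∞ ψ Ω) (sη : ContDiff ℝ ∞ η) (cη : HasCompactSupport η)
    (tη : tsupport η ⊆ Ω) {u : Fin n → En n → ℂ} {f : En n → ℂ} {c : Pr n → En n → ℂ}
    (h : LRel Ω φ ψ u f c) : MemLp (gF φ ψ η u f) 2 volume := by
  have h1 : ContinuousOn (fun x => φ x - ψ x) Ω := sφ.continuousOn.sub sψ.continuousOn
  have h2 : ContinuousOn (fun x => φ x - 2 * ψ x) Ω :=
    sφ.continuousOn.sub (continuousOn_const.mul sψ.continuousOn)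
  have hη : ContinuousOn (fun x => (η x : ℂ)) Ω :=
    (Complex.continuous_ofReal.comp sη.continuous).continuousOn
  have hη0 : ∀ x, x ∉ tsupport η → (η x : ℂ) = 0 := by
    intro x hx
    have : η x = 0 := image_eq_zero_of_notMem_tsupport hx
    rw [this]
    simp
  have e1 : MemLp (fun x => ((Real.exp (ψ x) : ℂ) * (η x : ℂ)) * f x) 2 volume := by
    refine cut_mem ho (K := tsupport η) cη tη h2 (h := f) h.mf
      (a := fun x => (Real.exp (ψ x) : ℂ) * (η x : ℂ)) ?_ ?_
    · exact (Complex.continuous_ofReal.comp_continuousOn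
        (Real.continuous_exp.comp_continuousOn sψ.continuousOn)).mul hη
    · intro x hx
      show (Real.exp (ψ x) : ℂ) * (η x : ℂ) = 0
      rw [hη0 x hx, mul_zero]
  have sd : ContDiffOn ℝ ∞ (fun y => φ y - ψ y) Ω := sφ.sub sψ
  have e2 : ∀ j : Fin n, MemLp (fun x => (dz j (fun y => (η y : ℂ)) x +
      (η x : ℂ) * dz j (fun y => ((φ y - ψ y : ℝ) : ℂ)) x) * u j x) 2 volume := by
    intro j
    refine cut_mem ho (K := tsupport η) cη tη h1 (h := u j) (h.mu j)
      (a := fun x => (dz j (fun y => (η y : ℂ)) x +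
      (η x : ℂ) * dz j (fun y => ((φ y - ψ y : ℝ) : ℂ)) x)) ?_ ?_
    · exact (aux_dzcont ho sη.contDiffOn j).add (hη.mul (aux_dzcont ho sd j))
    · intro x hx
      show dz j (fun y => (η y : ℂ)) x + (η x : ℂ) * dz j (fun y => ((φ y - ψ y : ℝ) : ℂ)) x = 0
      rw [aux_dz0 hx, hη0 x hx]
      simp
  have e3 : MemLp (fun x => ∑ j : Fin n, (dz j (fun y => (η y : ℂ)) x +
      (η x : ℂ) * dz j (fun y => ((φ y - ψ y : ℝ) : ℂ)) x) * u j x) 2 volume :=
    memLp_finset_sum _ fun j _ => e2 j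
  exact e1.neg.add e3


end PartM

section PartS

/-! TARGET: prove this -/

/-- weak `S` relation of the cut off form against all test functions of `ℂⁿ` -/
theorem cut_S {Ω : Set (En n)} (ho : IsOpen Ω) {φ ψ η : En n → ℝ} (sφ : ContDiffOn ℝ ∞ φ Ω)
    (sψ : ContDiffOn ℝ ∞ ψ Ω) (sη : ContDiff ℝ ∞ η) (cη : HasCompactSupport η)
    (tη : tsupport η ⊆ Ω) {u : Fin n → En n → ℂ} {f : En n → ℂ} {c : Pr n → En n → ℂ}
    (h : LRel Ω φ ψ u f c) (p : Pr n) (σ : En n → ℂ) (hσ : IsTest Set.univ σ) :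
    ∫ x, (wF η u p.1.2 x * dbar p.1.1 σ x - wF η u p.1.1 x * dbar p.1.2 σ x) =
      - ∫ x, cF η u c p x * σ x := by
  let ηc : En n → ℂ := fun y => (η y : ℂ)
  have hηc : ContDiff ℝ ∞ ηc := Complex.ofRealCLM.contDiff.comp sη
  have hcs : HasCompactSupport ηc := cη.comp_left (g := fun r : ℝ => (r : ℂ)) (by simp)
  have hts : tsupport ηc ⊆ tsupport η := by
    apply closure_mono
    intro x hx hx0
    apply hx
    simp [ηc, hx0]
  have hd : ∀ x, DifferentiableAt ℝ ηc x := fun x =>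
    (hηc.differentiable (by simp)).differentiableAt
  have hd2 : ∀ x, DifferentiableAt ℝ σ x := fun x =>
    (hσ.smooth.differentiable (by simp)).differentiableAt
  have hprod : ∀ i x, dbar i (fun y => ηc y * σ y) x = ηc x * dbar i σ x + σ x * dbar i ηc x := by
    intro i x
    have hf : ∀ v, fderiv ℝ (fun y => ηc y * σ y) x v =
        ηc x * fderiv ℝ σ x v + σ x * fderiv ℝ ηc x v := by
      intro v
      rw [fderiv_fun_mul (hd x) (hd2 x)]
      simp
    unfold dbar
    rw [hf, hf]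
    ring
  have hdc : ∀ i, Continuous (dbar i σ) := by
    intro i
    have h1 : Continuous (fderiv ℝ σ) := hσ.smooth.continuous_fderiv (by simp)
    unfold dbar
    exact continuous_const.mul ((h1.clm_apply continuous_const).add
      (continuous_const.mul (h1.clm_apply continuous_const)))
  have hdcs : ∀ i, HasCompactSupport (dbar i σ) := by
    intro i
    have h1 : HasCompactSupport (fderiv ℝ σ) := hσ.compact.fderiv ℝ
    exact h1.comp_left (g := fun L : En n →L[ℝ] ℂ => (1 / 2) *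
      (L (Pi.single i 1) + I * L (Pi.single i I))) (by simp)
  have hint : ∀ (w φ' : En n → ℂ), MemLp w 2 volume → Continuous φ' → HasCompactSupport φ' →
      Integrable (fun y => w y * φ' y) volume := by
    intro w φ' hw hφ' hc'
    have h2 : MemLp φ' 2 volume := hφ'.memLp_of_hasCompactSupport hc'
    exact hw.integrable_mul h2
  have h1 := h.hS p (fun y => ηc y * σ y) ⟨hηc.mul hσ.smooth, hcs.mul_right,
    (tsupport_mul_subset_left).trans (hts.trans tη)⟩
  -- vanishing off `Ω`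
  have z1 : ∀ x, x ∉ Ω → ηc x = 0 := fun x hx =>
    image_eq_zero_of_notMem_tsupport fun h' => hx (tη (hts h'))
  have z2 : ∀ i x, x ∉ Ω → dbar i ηc x = 0 := by
    intro i x hx
    have : fderiv ℝ ηc x = 0 := fderiv_of_notMem_tsupport (𝕜 := ℝ) fun h' => hx (tη (hts h'))
    unfold dbar
    rw [this]
    simp
  have hC2 : MemLp (fun x => ηc x * c p x) 2 volume := by
    refine cut_mem ho cη.isCompact tη sφ.continuousOn (h.mc p) hηc.continuous.continuousOn ?_
    intro x hx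
    exact image_eq_zero_of_notMem_tsupport fun h' => hx (hts h')
  have hCi : Integrable (fun x => (ηc x * c p x) * σ x) volume :=
    hint _ _ hC2 hσ.smooth.continuous hσ.compact
  have hcFi : Integrable (fun x => cF η u c p x * σ x) volume :=
    hint _ _ (cF_mem ho sφ sψ sη cη tη h p) hσ.smooth.continuous hσ.compact
  have hAi : Integrable (fun x => wF η u p.1.2 x * dbar p.1.1 σ x -
      wF η u p.1.1 x * dbar p.1.2 σ x) volume :=
    (hint _ _ (wF_mem ho sφ sψ sη cη tη h _) (hdc _) (hdcs _)).sub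
      (hint _ _ (wF_mem ho sφ sψ sη cη tη h _) (hdc _) (hdcs _))
  have hBi : Integrable (fun x => (dbar p.1.1 ηc x * u p.1.2 x - dbar p.1.2 ηc x * u p.1.1 x) * σ x)
      volume := by
    refine (hcFi.sub hCi).congr (Filter.Eventually.of_forall fun x => ?_)
    simp only [cF, Pi.sub_apply]
    ring
  rw [setIntegral_eq_integral_of_forall_compl_eq_zero,
    setIntegral_eq_integral_of_forall_compl_eq_zero] at h1
  · have e1 : (∫ x, (u p.1.2 x * dbar p.1.1 (fun y => ηc y * σ y) x -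
        u p.1.1 x * dbar p.1.2 (fun y => ηc y * σ y) x)) =
        (∫ x, (wF η u p.1.2 x * dbar p.1.1 σ x - wF η u p.1.1 x * dbar p.1.2 σ x)) +
        ∫ x, (dbar p.1.1 ηc x * u p.1.2 x - dbar p.1.2 ηc x * u p.1.1 x) * σ x := by
      rw [← integral_add hAi hBi]
      refine integral_congr_ae (Filter.Eventually.of_forall fun x => ?_)
      simp only [hprod, wF]
      ring
    have e2 : (∫ x, cF η u c p x * σ x) = (∫ x, (ηc x * c p x) * σ x) +
        ∫ x, (dbar p.1.1 ηc x * u p.1.2 x - dbar p.1.2 ηc x * u p.1.1 x) * σ x := by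
      rw [← integral_add hCi hBi]
      refine integral_congr_ae (Filter.Eventually.of_forall fun x => ?_)
      simp only [cF]
      ring
    have e3 : (∫ x, c p x * (ηc x * σ x)) = ∫ x, (ηc x * c p x) * σ x :=
      integral_congr_ae (Filter.Eventually.of_forall fun x => by simp only; ring)
    rw [e1, e3] at h1
    rw [e2]
    linear_combination h1
  · intro x hx
    simp only [z1 x hx, zero_mul, mul_zero]
  · intro x hx
    simp only [hprod, z1 x hx, z2 _ x hx, zero_mul, mul_zero, add_zero, sub_zero]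


end PartS

section PartT

theorem ct_dz_mul {a b : En n → ℂ} {x : En n} (ha : DifferentiableAt ℝ a x)
    (hb : DifferentiableAt ℝ b x) (j : Fin n) :
    dz j (fun y => a y * b y) x = dz j a x * b x + a x * dz j b x := by
  unfold dz
  have h : fderiv ℝ (fun y => a y * b y) x = a x • fderiv ℝ b x + b x • fderiv ℝ a x :=
    (ha.hasFDerivAt.mul hb.hasFDerivAt).fderiv
  rw [h]
  simp only [add_apply, smul_apply, smul_eq_mul]
  ring

theorem ct_dz_exp {g : En n → ℂ} {x : En n} (hg : DifferentiableAt ℝ g x) (j : Fin n) :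
    dz j (fun y => Complex.exp (g y)) x = Complex.exp (g x) * dz j g x := by
  unfold dz
  have h : fderiv ℝ (fun y => Complex.exp (g y)) x = Complex.exp (g x) • fderiv ℝ g x :=
    hg.hasFDerivAt.cexp.fderiv
  rw [h]
  simp only [smul_apply, smul_eq_mul]
  ring

theorem ct_dbar_conj {τ : En n → ℂ} {x : En n} (hτ : DifferentiableAt ℝ τ x) (j : Fin n) :
    conj (dbar j (fun y => conj (τ y)) x) = dz j τ x := by
  have h : HasFDerivAt (fun y => conj (τ y))
      ((Complex.conjCLE : ℂ →L[ℝ] ℂ).comp (fderiv ℝ τ x)) x :=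
    (Complex.conjCLE : ℂ →L[ℝ] ℂ).hasFDerivAt.comp x hτ.hasFDerivAt
  unfold dbar dz
  rw [h.fderiv]
  simp only [ContinuousLinearMap.comp_apply, ContinuousLinearEquiv.coe_coe, Complex.conjCLE_apply,
    map_mul, map_add, Complex.conj_I, Complex.conj_conj, map_div₀, map_one, map_ofNat]
  ring

theorem ct_dz_cont {σ : En n → ℂ} (hσ : ContDiff ℝ ∞ σ) (j : Fin n) : Continuous (dz j σ) := by
  have h : Continuous (fderiv ℝ σ) := hσ.continuous_fderiv (by simp)
  unfold dz
  exact continuous_const.mul ((h.clm_apply continuous_const).sub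
    (continuous_const.mul (h.clm_apply continuous_const)))

theorem ct_dz_cs {σ : En n → ℂ} (hσ : HasCompactSupport σ) (j : Fin n) :
    HasCompactSupport (dz j σ) := by
  have h := hσ.fderiv (𝕜 := ℝ)
  refine h.mono' ?_
  intro x hx
  by_contra hx'
  have h0 : fderiv ℝ σ x = 0 := image_eq_zero_of_notMem_tsupport hx'
  apply hx
  unfold dz
  rw [h0]
  simp

theorem ct_dz_zero {η : En n → ℝ} {x : En n} (hx : x ∉ tsupport η) (j : Fin n) :
    dz j (fun y => (η y : ℂ)) x = 0 := by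
  have h : (fun y => (η y : ℂ)) =ᶠ[𝓝 x] fun _ => (0 : ℂ) := by
    have := notMem_tsupport_iff_eventuallyEq.1 hx
    filter_upwards [this] with y hy
    rw [hy]
    simp
  unfold dz
  rw [h.fderiv_eq]
  simp

/-! TARGET: prove this -/

/-- weak divergence relation of the cut off form against all test functions of `ℂⁿ` -/
theorem cut_T {Ω : Set (En n)} (ho : IsOpen Ω) {φ ψ η : En n → ℝ} (sφ : ContDiffOn ℝ ∞ φ Ω)
    (sψ : ContDiffOn ℝ ∞ ψ Ω) (sη : ContDiff ℝ ∞ η) (cη : HasCompactSupport η)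
    (tη : tsupport η ⊆ Ω) {u : Fin n → En n → ℂ} {f : En n → ℂ} {c : Pr n → En n → ℂ}
    (h : LRel Ω φ ψ u f c) (σ : En n → ℂ) (hσ : IsTest Set.univ σ) :
    ∫ x, ∑ j, wF η u j x * dz j σ x = - ∫ x, gF φ ψ η u f x * σ x := by
  have hη0 : ∀ x, x ∉ Ω → η x = 0 := fun x hx =>
    image_eq_zero_of_notMem_tsupport (fun h' => hx (tη h'))
  have hηz : ∀ x, x ∉ Ω → ∀ j, dz j (fun y => (η y : ℂ)) x = 0 := fun x hx j =>
    ct_dz_zero (fun h' => hx (tη h')) j
  obtain ⟨g, hg⟩ : ∃ g : En n → ℂ, g = fun y => ((φ y - ψ y : ℝ) : ℂ) := ⟨_, rfl⟩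
  obtain ⟨τ, hτ⟩ : ∃ τ : En n → ℂ, τ = fun y => (η y : ℂ) * Complex.exp (g y) * σ y := ⟨_, rfl⟩
  have hgC : ∀ x ∈ Ω, ContDiffAt ℝ ∞ g x := by
    intro x hx
    rw [hg]
    exact Complex.ofRealCLM.contDiff.contDiffAt.comp x
      ((sφ.contDiffAt (ho.mem_nhds hx)).sub (sψ.contDiffAt (ho.mem_nhds hx)))
  have hηC : ContDiff ℝ ∞ (fun y => (η y : ℂ)) := Complex.ofRealCLM.contDiff.comp sη
  have hτC : ContDiff ℝ ∞ τ := by
    rw [contDiff_iff_contDiffAt]
    intro x
    by_cases hx : x ∈ Ω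
    · rw [hτ]
      exact (hηC.contDiffAt.mul (hgC x hx).cexp).mul hσ.smooth.contDiffAt
    · have hx' : x ∉ tsupport η := fun h' => hx (tη h')
      have h1 := notMem_tsupport_iff_eventuallyEq.1 hx'
      have h2 : τ =ᶠ[𝓝 x] fun _ => (0 : ℂ) := by
        filter_upwards [h1] with y hy
        rw [hτ]
        simp only []
        rw [hy]
        simp
      exact contDiffAt_const.congr_of_eventuallyEq h2
  have hsupp : Function.support (fun y => conj (τ y)) ⊆ Function.support η := by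
    intro y hy
    rw [Function.mem_support] at hy ⊢
    intro h0
    apply hy
    rw [hτ]
    simp [h0]
  have htest : IsTest Ω (fun y => conj (τ y)) := by
    refine ⟨?_, ?_, ?_⟩
    · exact (Complex.conjCLE : ℂ →L[ℝ] ℂ).contDiff.comp hτC
    · exact cη.mono hsupp
    · exact (closure_mono hsupp).trans tη
  have hT := h.hT _ htest
  obtain ⟨L, hL⟩ : ∃ L : En n → ℂ, L = fun x => ∑ j, u j x *
      (dz j (fun y => (η y : ℂ)) x * σ x + (η x : ℂ) * dz j g x * σ x + (η x : ℂ) * dz j σ x) :=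
    ⟨_, rfl⟩
  obtain ⟨R, hR⟩ : ∃ R : En n → ℂ, R = fun x => ((Real.exp (ψ x) : ℂ) * (η x : ℂ)) * f x * σ x :=
    ⟨_, rfl⟩
  have hL1 : ∫ x in Ω, (∑ j, u j x * conj (dbar j (fun y => conj (τ y)) x)) *
      (Real.exp (-(φ x - ψ x)) : ℝ) = ∫ x in Ω, L x := by
    apply setIntegral_congr_fun ho.measurableSet
    intro x hx
    have hdη : DifferentiableAt ℝ (fun y => (η y : ℂ)) x := hηC.contDiffAt.differentiableAt (by simp)
    have hdg : DifferentiableAt ℝ g x := (hgC x hx).differentiableAt (by simp)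
    have hdσ : DifferentiableAt ℝ σ x := hσ.smooth.contDiffAt.differentiableAt (by simp)
    have hdE : DifferentiableAt ℝ (fun y => Complex.exp (g y)) x := hdg.cexp
    have hdz : ∀ j, dz j τ x = Complex.exp (g x) *
        (dz j (fun y => (η y : ℂ)) x * σ x + (η x : ℂ) * dz j g x * σ x +
          (η x : ℂ) * dz j σ x) := by
      intro j
      rw [hτ, ct_dz_mul (a := fun y => (η y : ℂ) * Complex.exp (g y)) (hdη.mul hdE) hdσ,
        ct_dz_mul hdη hdE, ct_dz_exp hdg]
      ring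
    have hee : Complex.exp (g x) * ((Real.exp (-(φ x - ψ x)) : ℝ) : ℂ) = 1 := by
      rw [hg, Complex.ofReal_exp, ← Complex.exp_add]
      simp
    rw [hL]
    simp only []
    rw [Finset.sum_mul]
    refine Finset.sum_congr rfl fun j _ => ?_
    rw [ct_dbar_conj (hτC.contDiffAt.differentiableAt (by simp)), hdz]
    linear_combination (u j x * (dz j (fun y => (η y : ℂ)) x * σ x + (η x : ℂ) * dz j g x * σ x +
          (η x : ℂ) * dz j σ x)) * hee
  have hR1 : ∫ x in Ω, f x * conj (conj (τ x)) * (Real.exp (-(φ x - 2 * ψ x)) : ℝ) =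
      ∫ x in Ω, R x := by
    apply setIntegral_congr_fun ho.measurableSet
    intro x hx
    have hee : Complex.exp (g x) * ((Real.exp (-(φ x - 2 * ψ x)) : ℝ) : ℂ) =
        (Real.exp (ψ x) : ℂ) := by
      rw [hg, Complex.ofReal_exp, Complex.ofReal_exp, ← Complex.exp_add]
      congr 1
      push_cast
      ring
    simp only []
    rw [Complex.conj_conj, hR, hτ]
    simp only []
    linear_combination (f x * (η x : ℂ) * σ x) * hee
  rw [hL1, hR1] at hT
  have hL2 : ∫ x in Ω, L x = ∫ x, L x := by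
    apply setIntegral_eq_integral_of_forall_compl_eq_zero
    intro x hx
    rw [hL]
    simp only []
    apply Finset.sum_eq_zero
    intro j _
    rw [hηz x hx, hη0 x hx]
    simp
  have hR2 : ∫ x in Ω, R x = ∫ x, R x := by
    apply setIntegral_eq_integral_of_forall_compl_eq_zero
    intro x hx
    rw [hR]
    simp only []
    rw [hη0 x hx]
    simp
  have hσ2 : MemLp σ 2 volume := hσ.smooth.continuous.memLp_of_hasCompactSupport hσ.compact
  have hA : Integrable (fun x => ∑ j, wF η u j x * dz j σ x) volume := by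
    apply integrable_finsetSum
    intro j _
    have hz : MemLp (dz j σ) 2 volume :=
      (ct_dz_cont hσ.smooth j).memLp_of_hasCompactSupport (ct_dz_cs hσ.compact j)
    exact (wF_mem ho sφ sψ sη cη tη h j).integrable_mul hz
  have hB : Integrable (fun x => gF φ ψ η u f x * σ x) volume :=
    (gF_mem ho sφ sψ sη cη tη h).integrable_mul hσ2
  have hRi : Integrable R volume := by
    have h1 : MemLp (fun x => ((Real.exp (ψ x) : ℂ) * (η x : ℂ)) * f x) 2 volume := by
      refine cut_mem (K := tsupport η) ho cη tη (θ := fun x => φ x - 2 * ψ x) ?_ h.mf ?_ ?_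
      · exact sφ.continuousOn.sub (continuousOn_const.mul sψ.continuousOn)
      · refine ContinuousOn.mul ?_ (Complex.continuous_ofReal.comp sη.continuous).continuousOn
        exact Complex.continuous_ofReal.comp_continuousOn
          (Real.continuous_exp.comp_continuousOn sψ.continuousOn)
      · intro x hx
        rw [image_eq_zero_of_notMem_tsupport hx]
        simp
    rw [hR]
    exact h1.integrable_mul hσ2
  have hLe : L = fun x => ((∑ j, wF η u j x * dz j σ x) + gF φ ψ η u f x * σ x) + R x := by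
    funext x
    rw [hL, hR, hg]
    unfold wF gF
    simp only []
    have hs : ∑ j, u j x * (dz j (fun y => (η y : ℂ)) x * σ x +
        (η x : ℂ) * dz j (fun y => ((φ y - ψ y : ℝ) : ℂ)) x * σ x + (η x : ℂ) * dz j σ x) =
        ∑ j, (η x : ℂ) * u j x * dz j σ x + (∑ j, (dz j (fun y => (η y : ℂ)) x +
          (η x : ℂ) * dz j (fun y => ((φ y - ψ y : ℝ) : ℂ)) x) * u j x) * σ x := by
      rw [Finset.sum_mul, ← Finset.sum_add_distrib]
      refine Finset.sum_congr rfl fun j _ => ?_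
      ring
    rw [hs]
    ring
  have hLi : ∫ x, L x = ((∫ x, ∑ j, wF η u j x * dz j σ x) + ∫ x, gF φ ψ η u f x * σ x) +
      ∫ x, R x := by
    calc ∫ x, L x = ∫ x, (((∑ j, wF η u j x * dz j σ x) + gF φ ψ η u f x * σ x) + R x) := by
          rw [hLe]
      _ = (∫ x, ((∑ j, wF η u j x * dz j σ x) + gF φ ψ η u f x * σ x)) + ∫ x, R x :=
          integral_add (hA.add hB) hRi
      _ = _ := by rw [integral_add hA hB]
  rw [hL2, hR2, hLi] at hT
  linear_combination hT


end PartT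

section PartE

theorem dct_zero' {Ω : Set (En n)} (ho : IsOpen Ω) (F : ℕ → En n → ℝ) (b : En n → ℝ)
    (hb : Integrable b (volume.restrict Ω))
    (hm : ∀ ν, AEStronglyMeasurable (F ν) (volume.restrict Ω))
    (h1 : ∀ ν, ∀ x ∈ Ω, ‖F ν x‖ ≤ b x) (h2 : ∀ x ∈ Ω, ∀ᶠ ν in atTop, F ν x = 0) :
    Tendsto (fun ν => ∫ x in Ω, F ν x) atTop (𝓝 0) := by
  have h := tendsto_integral_of_dominated_convergence (μ := volume.restrict Ω) (F := F)
    (f := fun _ => (0:ℝ)) b hm hb (fun ν => by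
      filter_upwards [ae_restrict_mem ho.measurableSet] with x hx
      exact h1 ν x hx) (by
      filter_upwards [ae_restrict_mem ho.measurableSet] with x hx
      refine tendsto_const_nhds.congr' ?_
      filter_upwards [h2 x hx] with ν hν
      exact hν.symm)
  simpa using h

theorem fderiv_ofReal' (η : En n → ℝ) (hη : ContDiff ℝ ∞ η) (x v : En n) :
    fderiv ℝ (fun y => (η y : ℂ)) x v = ((fderiv ℝ η x v : ℝ) : ℂ) := by
  have h1 : HasFDerivAt η (fderiv ℝ η x) x :=
    ((hη.differentiable (by simp)).differentiableAt).hasFDerivAt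
  have h2 := (Complex.ofRealCLM.hasFDerivAt (x := η x)).comp x h1
  have h3 : HasFDerivAt (fun y => (η y : ℂ)) (Complex.ofRealCLM.comp (fderiv ℝ η x)) x := h2
  rw [h3.fderiv]
  simp

theorem norm_dbar_eq' (η : En n → ℝ) (hη : ContDiff ℝ ∞ η) (j : Fin n) (x : En n) :
    ‖dbar j (fun y => (η y : ℂ)) x‖ = ‖dz j (fun y => (η y : ℂ)) x‖ := by
  have : dbar j (fun y => (η y : ℂ)) x = conj (dz j (fun y => (η y : ℂ)) x) := by
    unfold dz dbar
    rw [fderiv_ofReal' η hη, fderiv_ofReal' η hη]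
    simp only [map_mul, map_sub, map_div₀, map_one, map_ofNat, Complex.conj_I, Complex.conj_ofReal]
    ring
  rw [this, RCLike.norm_conj]

theorem cont_ofReal' (η : En n → ℝ) (hη : ContDiff ℝ ∞ η) : ContDiff ℝ ∞ (fun y => (η y : ℂ)) :=
  Complex.ofRealCLM.contDiff.comp hη

theorem cont_dz' (η : En n → ℝ) (hη : ContDiff ℝ ∞ η) (j : Fin n) :
    Continuous (dz j (fun y => (η y : ℂ))) := by
  have h := (cont_ofReal' η hη).continuous_fderiv (by simp)
  unfold dz
  exact continuous_const.mul ((h.clm_apply continuous_const).sub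
    (continuous_const.mul (h.clm_apply continuous_const)))

theorem cont_dbar' (η : En n → ℝ) (hη : ContDiff ℝ ∞ η) (j : Fin n) :
    Continuous (dbar j (fun y => (η y : ℂ))) := by
  have h := (cont_ofReal' η hη).continuous_fderiv (by simp)
  unfold dbar
  exact continuous_const.mul ((h.clm_apply continuous_const).add
    (continuous_const.mul (h.clm_apply continuous_const)))

/-- the derivatives vanish where `η = 1` nearby -/
theorem der_zero' (η : En n → ℝ) (x : En n) (h : ∀ᶠ y in 𝓝 x, η y = 1) (j : Fin n) :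
    dz j (fun y => (η y : ℂ)) x = 0 ∧ dbar j (fun y => (η y : ℂ)) x = 0 := by
  have h1 : (fun y => (η y : ℂ)) =ᶠ[𝓝 x] fun _ => (1 : ℂ) := by
    filter_upwards [h] with y hy
    rw [hy]; simp
  have h2 : fderiv ℝ (fun y => (η y : ℂ)) x = 0 := by
    rw [h1.fderiv_eq]
    simp
  unfold dz dbar
  rw [h2]
  simp

/-- measurability of a function from its weighted version -/
theorem aesm_of_weight' {μ : Measure (En n)} {u : En n → ℂ} {g : En n → ℝ}
    (hg : AEStronglyMeasurable g μ)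
    (hu : MemLp (fun x => u x * (Real.exp (g x) : ℝ)) 2 μ) : AEStronglyMeasurable u μ := by
  have h1 : AEStronglyMeasurable (fun x => ((Real.exp (-g x) : ℝ) : ℂ)) μ :=
    (Complex.continuous_ofReal.comp Real.continuous_exp).comp_aestronglyMeasurable hg.neg
  have h2 := hu.aestronglyMeasurable.mul h1
  refine h2.congr (Filter.Eventually.of_forall fun x => ?_)
  simp only [Pi.mul_apply]
  rw [mul_assoc, ← Complex.ofReal_mul, ← Real.exp_add, add_neg_cancel, Real.exp_zero,
    Complex.ofReal_one, mul_one]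

theorem int_of_weight' {μ : Measure (En n)} {u : En n → ℂ} {g g2 : En n → ℝ}
    (hu : MemLp (fun x => u x * (Real.exp (g x) : ℝ)) 2 μ) (hgg : ∀ x, g2 x = 2 * g x) :
    Integrable (fun x => ‖u x‖ ^ 2 * Real.exp (g2 x)) μ := by
  have h1 := (memLp_two_iff_integrable_sq_norm hu.1).1 hu
  refine h1.congr (Filter.Eventually.of_forall fun x => ?_)
  simp only
  rw [norm_mul, mul_pow, Complex.norm_real, Real.norm_eq_abs, abs_of_pos (Real.exp_pos _), hgg,
    ← Real.exp_nat_mul]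
  norm_num

theorem sq_le_of_add3 (a b c : ℂ) : ‖a + b + c‖ ^ 2 ≤ 3 * ‖a‖ ^ 2 + 3 * ‖b‖ ^ 2 + 3 * ‖c‖ ^ 2 := by
  have h1 : ‖a + b + c‖ ≤ ‖a‖ + ‖b‖ + ‖c‖ := (norm_add_le _ _).trans
    (add_le_add (norm_add_le _ _) le_rfl)
  have h2 : ‖a + b + c‖ ^ 2 ≤ (‖a‖ + ‖b‖ + ‖c‖) ^ 2 := pow_le_pow_left₀ (norm_nonneg _) h1 2
  nlinarith [sq_nonneg (‖a‖ - ‖b‖), sq_nonneg (‖b‖ - ‖c‖), sq_nonneg (‖a‖ - ‖c‖)]

theorem sq_le_of_add2 (a b : ℂ) : ‖a + b‖ ^ 2 ≤ 2 * ‖a‖ ^ 2 + 2 * ‖b‖ ^ 2 := by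
  have h1 : ‖a + b‖ ≤ ‖a‖ + ‖b‖ := norm_add_le _ _
  have h2 : ‖a + b‖ ^ 2 ≤ (‖a‖ + ‖b‖) ^ 2 := pow_le_pow_left₀ (norm_nonneg _) h1 2
  nlinarith [sq_nonneg (‖a‖ - ‖b‖)]

theorem one_sub_sq_le (t : ℝ) (h0 : 0 ≤ t) (h1 : t ≤ 1) (z : ℂ) : ‖(1 - (t:ℂ)) * z‖ ^ 2 ≤ ‖z‖ ^ 2 := by
  rw [norm_mul, mul_pow]
  have : ‖(1 - (t:ℂ))‖ = 1 - t := by
    rw [← Complex.ofReal_one, ← Complex.ofReal_sub, Complex.norm_real, Real.norm_eq_abs,
      abs_of_nonneg (by linarith)]
  rw [this]
  have h2 : (1 - t) ^ 2 ≤ 1 := by nlinarith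
  nlinarith [sq_nonneg ‖z‖]

/-! TARGET: prove this -/

/-- the cut off forms converge in the weighted graph norm -/
theorem cut_err {Ω L : Set (En n)} (ho : IsOpen Ω) {ε : ℝ} {φ ψ : En n → ℝ} {η : ℕ → En n → ℝ}
    (hW : Wts Ω L ε φ ψ η) {u : Fin n → En n → ℂ} {f : En n → ℂ} {c : Pr n → En n → ℂ}
    (h : LRel Ω φ ψ u f c) :
    (∀ j, Tendsto (fun ν => ∫ x in Ω, ‖u j x - wF (η ν) u j x‖ ^ 2 * Real.exp (-(φ x - ψ x)))
      atTop (𝓝 0)) ∧
    Tendsto (fun ν => ∫ x in Ω, ‖f x - fF ψ (η ν) u f x‖ ^ 2 * Real.exp (-(φ x - 2 * ψ x)))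
      atTop (𝓝 0) ∧
    ∀ p, Tendsto (fun ν => ∫ x in Ω, ‖c p x - cF (η ν) u c p x‖ ^ 2 * Real.exp (-φ x))
      atTop (𝓝 0) := by
  have mφ : AEStronglyMeasurable φ (volume.restrict Ω) :=
    hW.sφ.continuousOn.aestronglyMeasurable ho.measurableSet
  have mψ : AEStronglyMeasurable ψ (volume.restrict Ω) :=
    hW.sψ.continuousOn.aestronglyMeasurable ho.measurableSet
  have mψ2 : AEStronglyMeasurable (fun x => 2 * ψ x) (volume.restrict Ω) := mψ.const_mul 2
  have mg1 : AEStronglyMeasurable (fun x => -(φ x - ψ x)) (volume.restrict Ω) := (mφ.sub mψ).neg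
  have mg0 : AEStronglyMeasurable (fun x => -(φ x - 2 * ψ x)) (volume.restrict Ω) :=
    (mφ.sub mψ2).neg
  have mg1' : AEStronglyMeasurable (fun x => -(φ x - ψ x) / 2) (volume.restrict Ω) := by
    simpa only [div_eq_mul_inv] using mg1.mul_const 2⁻¹
  have mg0' : AEStronglyMeasurable (fun x => -(φ x - 2 * ψ x) / 2) (volume.restrict Ω) := by
    simpa only [div_eq_mul_inv] using mg0.mul_const 2⁻¹
  have mg2' : AEStronglyMeasurable (fun x => -φ x / 2) (volume.restrict Ω) := by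
    simpa only [div_eq_mul_inv, Pi.neg_apply] using mφ.neg.mul_const 2⁻¹
  have mE1 : AEStronglyMeasurable (fun x => Real.exp (-(φ x - ψ x))) (volume.restrict Ω) :=
    Real.continuous_exp.comp_aestronglyMeasurable mg1
  have mE0 : AEStronglyMeasurable (fun x => Real.exp (-(φ x - 2 * ψ x))) (volume.restrict Ω) :=
    Real.continuous_exp.comp_aestronglyMeasurable mg0
  have mE2 : AEStronglyMeasurable (fun x => Real.exp (-φ x)) (volume.restrict Ω) :=
    Real.continuous_exp.comp_aestronglyMeasurable mφ.neg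
  have mEψ : AEStronglyMeasurable (fun x => (Real.exp (-ψ x) : ℂ)) (volume.restrict Ω) := by
    have := (Complex.continuous_ofReal.comp Real.continuous_exp).comp_aestronglyMeasurable mψ.neg
    simpa [Function.comp_def] using this
  have mu : ∀ j, AEStronglyMeasurable (u j) (volume.restrict Ω) := fun j =>
    aesm_of_weight' mg1' (h.mu j)
  have mf : AEStronglyMeasurable f (volume.restrict Ω) := aesm_of_weight' mg0' h.mf
  have mc : ∀ p, AEStronglyMeasurable (c p) (volume.restrict Ω) := fun p =>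
    aesm_of_weight' mg2' (h.mc p)
  have iu : ∀ j, Integrable (fun x => ‖u j x‖ ^ 2 * Real.exp (-(φ x - ψ x))) (volume.restrict Ω) :=
    fun j => int_of_weight' (h.mu j) (fun x => by ring)
  have if' : Integrable (fun x => ‖f x‖ ^ 2 * Real.exp (-(φ x - 2 * ψ x))) (volume.restrict Ω) :=
    int_of_weight' h.mf (fun x => by ring)
  have ic : ∀ p, Integrable (fun x => ‖c p x‖ ^ 2 * Real.exp (-φ x)) (volume.restrict Ω) :=
    fun p => int_of_weight' (h.mc p) (fun x => by ring)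
  have mη : ∀ ν, AEStronglyMeasurable (fun x => (η ν x : ℂ)) (volume.restrict Ω) := fun ν =>
    (cont_ofReal' _ (hW.sη ν)).continuous.aestronglyMeasurable
  have mdz : ∀ ν j, AEStronglyMeasurable (dz j (fun y => (η ν y : ℂ))) (volume.restrict Ω) :=
    fun ν j => (cont_dz' _ (hW.sη ν) j).aestronglyMeasurable
  have mdb : ∀ ν j, AEStronglyMeasurable (dbar j (fun y => (η ν y : ℂ))) (volume.restrict Ω) :=
    fun ν j => (cont_dbar' _ (hW.sη ν) j).aestronglyMeasurable
  have hdz : ∀ ν, ∀ x ∈ Ω, ∀ j, ‖dz j (fun y => (η ν y : ℂ)) x‖ ^ 2 ≤ Real.exp (ψ x) := by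
    intro ν x hx j
    refine le_trans ?_ (hW.gη ν x hx)
    exact Finset.single_le_sum (f := fun j => ‖dz j (fun y => (η ν y : ℂ)) x‖ ^ 2)
      (fun i _ => sq_nonneg _) (Finset.mem_univ j)
  refine ⟨fun j => ?_, ?_, fun p => ?_⟩
  · -- (1)
    refine dct_zero' ho _ (fun x => ‖u j x‖ ^ 2 * Real.exp (-(φ x - ψ x))) (iu j) (fun ν => ?_)
      (fun ν x hx => ?_) (fun x hx => ?_)
    · have h1 : AEStronglyMeasurable (fun x => u j x - wF (η ν) u j x) (volume.restrict Ω) :=
        (mu j).sub ((mη ν).mul (mu j))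
      exact (h1.norm.pow 2).mul mE1
    · rw [Real.norm_eq_abs, abs_of_nonneg (by positivity)]
      refine mul_le_mul_of_nonneg_right ?_ (Real.exp_pos _).le
      have e1 : u j x - wF (η ν) u j x = (1 - ((η ν x : ℝ) : ℂ)) * u j x := by
        unfold wF; ring
      rw [e1]
      exact one_sub_sq_le _ (hW.η01 ν x).1 (hW.η01 ν x).2 _
    · filter_upwards [hW.η1 x hx] with ν hν
      have h1 : η ν x = 1 := hν.self_of_nhds
      unfold wF
      rw [h1]
      simp
  · -- (2)
    refine dct_zero' ho _ (fun x => 2 * (‖f x‖ ^ 2 * Real.exp (-(φ x - 2 * ψ x))) +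
      2 * ∑ j, ‖u j x‖ ^ 2 * Real.exp (-(φ x - ψ x))) ?_ (fun ν => ?_)
      (fun ν x hx => ?_) (fun x hx => ?_)
    · exact (if'.const_mul 2).add ((integrable_finsetSum _ fun j _ => iu j).const_mul 2)
    · have h0 : AEStronglyMeasurable (fun x => ∑ j, dz j (fun y => (η ν y : ℂ)) x * u j x)
          (volume.restrict Ω) :=
        Finset.aestronglyMeasurable_fun_sum _ fun j _ => (mdz ν j).mul (mu j)
      have h1 : AEStronglyMeasurable (fun x => f x - fF ψ (η ν) u f x) (volume.restrict Ω) :=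
        mf.sub (((mη ν).mul mf).sub (mEψ.mul h0))
      exact (h1.norm.pow 2).mul mE0
    · rw [Real.norm_eq_abs, abs_of_nonneg (by positivity)]
      have e1 : f x - fF ψ (η ν) u f x = (1 - ((η ν x : ℝ) : ℂ)) * f x +
          (Real.exp (-ψ x) : ℂ) * ∑ j, dz j (fun y => (η ν y : ℂ)) x * u j x := by
        unfold fF; ring
      have e2 : ‖f x - fF ψ (η ν) u f x‖ ^ 2 ≤ 2 * ‖f x‖ ^ 2 +
          2 * (Real.exp (-ψ x) ^ 2 * (Real.exp (ψ x) * ∑ j, ‖u j x‖ ^ 2)) := by
        rw [e1]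
        refine (sq_le_of_add2 _ _).trans (add_le_add ?_ ?_)
        · exact mul_le_mul_of_nonneg_left (one_sub_sq_le _ (hW.η01 ν x).1 (hW.η01 ν x).2 _)
            (by norm_num)
        · refine mul_le_mul_of_nonneg_left ?_ (by norm_num)
          rw [norm_mul, mul_pow]
          have e3 : ‖(Real.exp (-ψ x) : ℂ)‖ = Real.exp (-ψ x) := by
            rw [Complex.norm_real, Real.norm_eq_abs, abs_of_pos (Real.exp_pos _)]
          rw [e3]
          refine mul_le_mul_of_nonneg_left ?_ (by positivity)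
          have e4 : ‖∑ j, dz j (fun y => (η ν y : ℂ)) x * u j x‖ ≤
              ∑ j, ‖dz j (fun y => (η ν y : ℂ)) x‖ * ‖u j x‖ := by
            refine (norm_sum_le _ _).trans (le_of_eq ?_)
            exact Finset.sum_congr rfl fun j _ => norm_mul _ _
          calc ‖∑ j, dz j (fun y => (η ν y : ℂ)) x * u j x‖ ^ 2 ≤
                (∑ j, ‖dz j (fun y => (η ν y : ℂ)) x‖ * ‖u j x‖) ^ 2 :=
                pow_le_pow_left₀ (norm_nonneg _) e4 2
            _ ≤ (∑ j, ‖dz j (fun y => (η ν y : ℂ)) x‖ ^ 2) * ∑ j, ‖u j x‖ ^ 2 :=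
                Finset.sum_mul_sq_le_sq_mul_sq _ _ _
            _ ≤ Real.exp (ψ x) * ∑ j, ‖u j x‖ ^ 2 :=
                mul_le_mul_of_nonneg_right (hW.gη ν x hx)
                  (Finset.sum_nonneg fun j _ => sq_nonneg _)
      refine (mul_le_mul_of_nonneg_right e2 (Real.exp_pos _).le).trans (le_of_eq ?_)
      have e5 : Real.exp (-(φ x - ψ x)) = Real.exp (-ψ x) ^ 2 * Real.exp (ψ x) *
          Real.exp (-(φ x - 2 * ψ x)) := by
        rw [← Real.exp_nat_mul, ← Real.exp_add, ← Real.exp_add]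
        congr 1
        push_cast
        ring
      rw [← Finset.sum_mul, e5]
      ring
    · filter_upwards [hW.η1 x hx] with ν hν
      have h1 : η ν x = 1 := hν.self_of_nhds
      unfold fF
      have h2 : ∑ j, dz j (fun y => (η ν y : ℂ)) x * u j x = 0 :=
        Finset.sum_eq_zero fun j _ => by rw [(der_zero' _ x hν j).1, zero_mul]
      rw [h1, h2]
      simp
  · -- (3)
    refine dct_zero' ho _ (fun x => 3 * (‖c p x‖ ^ 2 * Real.exp (-φ x)) +
      3 * (‖u p.1.2 x‖ ^ 2 * Real.exp (-(φ x - ψ x))) +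
      3 * (‖u p.1.1 x‖ ^ 2 * Real.exp (-(φ x - ψ x)))) ?_ (fun ν => ?_)
      (fun ν x hx => ?_) (fun x hx => ?_)
    · exact (((ic p).const_mul 3).add ((iu _).const_mul 3)).add ((iu _).const_mul 3)
    · have h1 : AEStronglyMeasurable (fun x => c p x - cF (η ν) u c p x) (volume.restrict Ω) :=
        (mc p).sub (((mη ν).mul (mc p)).add (((mdb ν _).mul (mu _)).sub ((mdb ν _).mul (mu _))))
      exact (h1.norm.pow 2).mul mE2
    · rw [Real.norm_eq_abs, abs_of_nonneg (by positivity)]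
      have e1 : c p x - cF (η ν) u c p x = (1 - ((η ν x : ℝ) : ℂ)) * c p x +
          -(dbar p.1.1 (fun y => (η ν y : ℂ)) x * u p.1.2 x) +
          dbar p.1.2 (fun y => (η ν y : ℂ)) x * u p.1.1 x := by
        unfold cF; ring
      have hb : ∀ j, ‖dbar j (fun y => (η ν y : ℂ)) x‖ ^ 2 ≤ Real.exp (ψ x) := by
        intro j
        rw [norm_dbar_eq' _ (hW.sη ν)]
        exact hdz ν x hx j
      have e2 : ‖c p x - cF (η ν) u c p x‖ ^ 2 ≤ 3 * ‖c p x‖ ^ 2 +
          3 * (Real.exp (ψ x) * ‖u p.1.2 x‖ ^ 2) + 3 * (Real.exp (ψ x) * ‖u p.1.1 x‖ ^ 2) := by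
        rw [e1]
        refine (sq_le_of_add3 _ _ _).trans (add_le_add (add_le_add ?_ ?_) ?_)
        · exact mul_le_mul_of_nonneg_left (one_sub_sq_le _ (hW.η01 ν x).1 (hW.η01 ν x).2 _)
            (by norm_num)
        · rw [norm_neg, norm_mul, mul_pow]
          exact mul_le_mul_of_nonneg_left (mul_le_mul_of_nonneg_right (hb _) (sq_nonneg _))
            (by norm_num)
        · rw [norm_mul, mul_pow]
          exact mul_le_mul_of_nonneg_left (mul_le_mul_of_nonneg_right (hb _) (sq_nonneg _))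
            (by norm_num)
      refine (mul_le_mul_of_nonneg_right e2 (Real.exp_pos _).le).trans (le_of_eq ?_)
      have e5 : Real.exp (-(φ x - ψ x)) = Real.exp (ψ x) * Real.exp (-φ x) := by
        rw [← Real.exp_add]
        congr 1
        ring
      rw [e5]
      ring
    · filter_upwards [hW.η1 x hx] with ν hν
      have h1 : η ν x = 1 := hν.self_of_nhds
      unfold cF
      rw [h1, (der_zero' _ x hν _).2, (der_zero' _ x hν _).2]
      simp


end PartE

section Mol

open ContinuousLinearMap Convolution Metric Set Filter Topology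

/-- Jensen / Hölder on a probability measure. -/
theorem lint_sq_le_bk {α : Type*} [MeasurableSpace α] (ν : Measure α) (hν : ν univ = 1)
    {h : α → ℝ≥0∞} (hh : AEMeasurable h ν) :
    (∫⁻ a, h a ∂ν) ^ (2 : ℝ) ≤ ∫⁻ a, h a ^ (2 : ℝ) ∂ν := by
  have hpq : (2 : ℝ).HolderConjugate 2 := Real.HolderConjugate.two_two
  have := ENNReal.lintegral_mul_le_Lp_mul_Lq ν hpq hh (g := fun _ => 1) aemeasurable_const
  simp only [Pi.mul_apply, mul_one, ENNReal.one_rpow, lintegral_const, hν] at this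
  calc (∫⁻ a, h a ∂ν) ^ (2 : ℝ) ≤ ((∫⁻ a, h a ^ (2 : ℝ) ∂ν) ^ (1 / (2 : ℝ))) ^ (2 : ℝ) :=
        ENNReal.rpow_le_rpow this (by norm_num)
    _ = _ := by
        rw [← ENNReal.rpow_mul]
        norm_num

/-- continuity of translations in `L²`. -/
theorem transl_cont_bk (g : (En n) → ℂ) (hg : MemLp g 2 volume) (η : ℝ≥0∞) (hη : 0 < η) :
    ∃ ε : ℝ, 0 < ε ∧ ∀ t : (En n), ‖t‖ < ε → eLpNorm (fun z => g (z - t) - g z) 2 volume ≤ η := by
  have : Fact ((1 : ENNReal) ≤ 2) := ⟨by norm_num⟩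
  let G : (En n) → C(En n, En n) := fun t => ⟨fun z => z - t, by fun_prop⟩
  have hG : Continuous G := ContinuousMap.continuous_of_continuous_uncurry _ (by
    show Continuous fun p : (En n) × (En n) => p.2 - p.1
    fun_prop)
  have hmp : ∀ t, MeasurePreserving (G t) volume volume := fun t =>
    measurePreserving_sub_right volume t
  have hc : Continuous fun t => Lp.compMeasurePreserving (G t) (hmp t) (hg.toLp g) :=
    Continuous.compMeasurePreservingLp continuous_const hG hmp (by norm_num)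
  have h0 := hc.tendsto 0
  rw [EMetric.tendsto_nhds] at h0
  have h1 := h0 η hη
  rw [Metric.eventually_nhds_iff] at h1
  obtain ⟨ε, hε, h2⟩ := h1
  refine ⟨ε, hε, fun t ht => ?_⟩
  have h3 := h2 (y := t) (by simpa [dist_eq_norm] using ht)
  rw [Lp.edist_def] at h3
  have hcoe : ∀ s : (En n), (Lp.compMeasurePreserving (G s) (hmp s) (hg.toLp g) : (En n) → ℂ) =ᵐ[volume]
      fun z => g (z - s) := by
    intro s
    have e1 := Lp.coeFn_compMeasurePreserving (hg.toLp g) (hmp s)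
    have e2 : (fun z => (hg.toLp g : (En n) → ℂ) (G s z)) =ᵐ[volume] fun z => g (G s z) :=
      (hmp s).quasiMeasurePreserving.ae_eq_comp hg.coeFn_toLp
    exact e1.trans e2
  have h4 : eLpNorm (fun z => g (z - t) - g z) 2 volume =
      eLpNorm ((Lp.compMeasurePreserving (G t) (hmp t) (hg.toLp g) : (En n) → ℂ) -
        (Lp.compMeasurePreserving (G 0) (hmp 0) (hg.toLp g) : (En n) → ℂ)) 2 volume := by
    apply eLpNorm_congr_ae
    filter_upwards [hcoe t, hcoe 0] with z h5 h6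
    rw [Pi.sub_apply, h5, h6, sub_zero]
  rw [h4]
  exact h3.le

theorem mollify_L2_bk (g : (En n) → ℂ) (hgm : Measurable g) (hg : MemLp g 2 volume) (ρ : (En n) → ℝ)
    (hρc : Continuous ρ) (hρs : HasCompactSupport ρ) (hρ0 : ∀ t, 0 ≤ ρ t) (hρ1 : ∫ t, ρ t = 1)
    (ε : ℝ) (hρε : ∀ t, ρ t ≠ 0 → ‖t‖ < ε) (η : ℝ≥0∞)
    (h : ∀ t : (En n), ‖t‖ < ε → eLpNorm (fun z => g (z - t) - g z) 2 volume ≤ η) :
    eLpNorm (fun z => (∫ t, ρ t • g (z - t)) - g z) 2 volume ≤ η := by
  have hρint : Integrable ρ := hρc.integrable_of_hasCompactSupport hρs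
  have hloc : LocallyIntegrable g volume := hg.locallyIntegrable (by norm_num)
  have hρm : Measurable fun t => ‖ρ t‖ₑ := hρc.measurable.enorm
  set ν : Measure (En n) := volume.withDensity fun t => ‖ρ t‖ₑ with hν
  have hρ1' : ∫⁻ t, ‖ρ t‖ₑ = 1 := by
    rw [← ofReal_integral_norm_eq_lintegral_enorm hρint]
    have : ∫ x, ‖ρ x‖ = 1 := by
      rw [← hρ1]
      refine integral_congr_ae (Filter.Eventually.of_forall fun w => ?_)
      exact Real.norm_of_nonneg (hρ0 w)
    rw [this, ENNReal.ofReal_one]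
  have hν1 : ν univ = 1 := by
    rw [hν, withDensity_apply _ MeasurableSet.univ, Measure.restrict_univ, hρ1']
  have hpt : ∀ z, ‖(∫ t, ρ t • g (z - t)) - g z‖ₑ ^ (2 : ℝ) ≤
      ∫⁻ t, ‖ρ t‖ₑ * ‖g (z - t) - g z‖ₑ ^ (2 : ℝ) := by
    intro z
    have hi1 : Integrable fun t => ρ t • g (z - t) :=
      hρs.convolutionExists_left (lsmul ℝ ℝ) hρc hloc z
    have hi2 : Integrable fun t => ρ t • g z := hρint.smul_const _
    have e1 : (∫ t, ρ t • g (z - t)) - g z = ∫ t, ρ t • (g (z - t) - g z) := by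
      have : ∫ t, ρ t • g z = g z := by rw [integral_smul_const, hρ1, one_smul]
      calc (∫ t, ρ t • g (z - t)) - g z = (∫ t, ρ t • g (z - t)) - ∫ t, ρ t • g z := by rw [this]
        _ = ∫ t, (ρ t • g (z - t) - ρ t • g z) := (integral_sub hi1 hi2).symm
        _ = _ := by simp only [smul_sub]
    have hm1 : Measurable fun t => ‖g (z - t) - g z‖ₑ :=
      ((hgm.comp (measurable_const.sub measurable_id)).sub measurable_const).enorm
    have h1 : ‖∫ t, ρ t • (g (z - t) - g z)‖ₑ ≤ ∫⁻ t, ‖g (z - t) - g z‖ₑ ∂ν := by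
      refine (enorm_integral_le_lintegral_enorm _).trans (le_of_eq ?_)
      rw [hν, lintegral_withDensity_eq_lintegral_mul _ hρm hm1]
      refine lintegral_congr fun t => ?_
      rw [enorm_smul]
      rfl
    rw [e1]
    calc ‖∫ t, ρ t • (g (z - t) - g z)‖ₑ ^ (2 : ℝ) ≤ (∫⁻ t, ‖g (z - t) - g z‖ₑ ∂ν) ^ (2 : ℝ) :=
          ENNReal.rpow_le_rpow h1 (by norm_num)
      _ ≤ ∫⁻ t, ‖g (z - t) - g z‖ₑ ^ (2 : ℝ) ∂ν := lint_sq_le_bk ν hν1 hm1.aemeasurable
      _ = _ := by
          rw [hν, lintegral_withDensity_eq_lintegral_mul _ hρm (hm1.pow_const _)]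
          rfl
  have hmm : Measurable fun q : (En n) × (En n) => ‖ρ q.2‖ₑ * ‖g (q.1 - q.2) - g q.1‖ₑ ^ (2 : ℝ) :=
    (hρm.comp measurable_snd).mul ((((hgm.comp (measurable_fst.sub measurable_snd)).sub
      (hgm.comp measurable_fst)).enorm).pow_const _)
  have key : ∫⁻ z, ‖(∫ t, ρ t • g (z - t)) - g z‖ₑ ^ (2 : ℝ) ≤ η ^ (2 : ℝ) := by
    calc ∫⁻ z, ‖(∫ t, ρ t • g (z - t)) - g z‖ₑ ^ (2 : ℝ)
        ≤ ∫⁻ z, ∫⁻ t, ‖ρ t‖ₑ * ‖g (z - t) - g z‖ₑ ^ (2 : ℝ) := lintegral_mono hpt
      _ = ∫⁻ t, ∫⁻ z, ‖ρ t‖ₑ * ‖g (z - t) - g z‖ₑ ^ (2 : ℝ) :=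
          lintegral_lintegral_swap hmm.aemeasurable
      _ ≤ ∫⁻ t, ‖ρ t‖ₑ * η ^ (2 : ℝ) := by
          refine lintegral_mono fun t => ?_
          simp only
          have hmt : Measurable fun z => ‖g (z - t) - g z‖ₑ ^ (2 : ℝ) :=
            (((hgm.comp (measurable_id.sub_const t)).sub hgm).enorm).pow_const _
          rw [lintegral_const_mul _ hmt]
          by_cases ht : ρ t = 0
          · rw [ht]; simp
          · gcongr
            have h1 := h t (hρε t ht)
            rw [eLpNorm_eq_lintegral_rpow_enorm_toReal (by norm_num) (by norm_num)] at h1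
            simp only [ENNReal.toReal_ofNat] at h1
            have h2 := ENNReal.rpow_le_rpow h1 (show (0 : ℝ) ≤ 2 by norm_num)
            rw [← ENNReal.rpow_mul] at h2
            norm_num at h2
            norm_num
            exact h2
      _ = η ^ (2 : ℝ) := by rw [lintegral_mul_const _ hρm, hρ1', one_mul]
  rw [eLpNorm_eq_lintegral_rpow_enorm_toReal (by norm_num) (by norm_num)]
  simp only [ENNReal.toReal_ofNat]
  calc (∫⁻ z, ‖(∫ t, ρ t • g (z - t)) - g z‖ₑ ^ (2 : ℝ)) ^ (1 / (2 : ℝ))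
      ≤ (η ^ (2 : ℝ)) ^ (1 / (2 : ℝ)) := ENNReal.rpow_le_rpow key (by norm_num)
    _ = η := by rw [← ENNReal.rpow_mul]; norm_num

/-- the bumps -/
noncomputable def chi_bk (n m : ℕ) : ContDiffBump (0 : (En n)) :=
  ⟨1 / ((m : ℝ) + 1), 2 / ((m : ℝ) + 1), by positivity, by
    apply div_lt_div_of_pos_right (by norm_num) (by positivity)⟩

noncomputable def rho_bk (n m : ℕ) : (En n) → ℝ := (chi_bk n m).normed volume

noncomputable def mo_bk (m : ℕ) (w : (En n) → ℂ) : (En n) → ℂ :=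
  rho_bk n m ⋆[lsmul ℝ ℝ, volume] w

theorem rho_smooth_bk (m : ℕ) : ContDiff ℝ ∞ (rho_bk n m) := (chi_bk n m).contDiff_normed
theorem rho_cs_bk (m : ℕ) : HasCompactSupport (rho_bk n m) :=
  (chi_bk n m).hasCompactSupport_normed
theorem rho_nonneg_bk (m : ℕ) (x : (En n)) : 0 ≤ rho_bk n m x := (chi_bk n m).nonneg_normed x
theorem rho_int_bk (m : ℕ) : ∫ x, rho_bk n m x = 1 := (chi_bk n m).integral_normed
theorem rho_supp_bk (m : ℕ) (x : (En n)) (hx : rho_bk n m x ≠ 0) : ‖x‖ < 2 / ((m : ℝ) + 1) := by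
  have h : x ∈ Function.support (rho_bk n m) := hx
  rw [rho_bk, (chi_bk n m).support_normed_eq] at h
  simpa [chi_bk] using h

theorem mo_apply_bk (m : ℕ) (w : (En n) → ℂ) (x : (En n)) :
    mo_bk m w x = ∫ t, rho_bk n m t • w (x - t) := rfl

theorem mo_apply'_bk (m : ℕ) (w : (En n) → ℂ) (x : (En n)) :
    mo_bk m w x = ∫ y, w y * (rho_bk n m (x - y) : ℂ) := by
  rw [mo_apply_bk, ← integral_sub_left_eq_self (fun t => rho_bk n m t • w (x - t)) volume x]
  refine integral_congr_ae (Filter.Eventually.of_forall fun y => ?_)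
  simp only [sub_sub_cancel, Complex.real_smul]
  ring

theorem mo_smooth_bk (m : ℕ) (w : (En n) → ℂ) (hw : MemLp w 2 volume) :
    ContDiff ℝ ∞ (mo_bk m w) :=
  (rho_cs_bk m).contDiff_convolution_left (lsmul ℝ ℝ) (rho_smooth_bk m)
    (hw.locallyIntegrable (by norm_num))

theorem mo_cs_bk (m : ℕ) (w : (En n) → ℂ) (hw : HasCompactSupport w) :
    HasCompactSupport (mo_bk m w) :=
  HasCompactSupport.convolution _ (rho_cs_bk m) hw

theorem mo_zero_bk (m : ℕ) (w : (En n) → ℂ) (R : ℝ) (hw : ∀ x, R ≤ ‖x‖ → w x = 0) (x : (En n))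
    (hx : R + 2 ≤ ‖x‖) : mo_bk m w x = 0 := by
  rw [mo_apply_bk]
  have : (fun t => rho_bk n m t • w (x - t)) = fun _ => 0 := by
    funext t
    by_cases ht : rho_bk n m t = 0
    · rw [ht, zero_smul]
    · have h1 := rho_supp_bk m t ht
      have h2 : 2 / ((m : ℝ) + 1) ≤ 2 := by
        rw [div_le_iff₀ (by positivity)]
        have : (0:ℝ) ≤ m := Nat.cast_nonneg m
        linarith
      have h3 : ‖x‖ ≤ ‖x - t‖ + ‖t‖ := by
        have := norm_add_le (x - t) t
        rwa [sub_add_cancel] at this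
      rw [hw (x - t) (by linarith), smul_zero]
  rw [this, integral_zero]

theorem mo_tendsto_bk (w : (En n) → ℂ) (hw : MemLp w 2 volume) :
    Tendsto (fun m => eLpNorm (fun x => mo_bk m w x - w x) 2 volume) atTop (𝓝 0) := by
  set g : (En n) → ℂ := hw.aestronglyMeasurable.mk _ with hg
  have hgae : w =ᵐ[volume] g := hw.aestronglyMeasurable.ae_eq_mk
  have hgm : Measurable g := hw.aestronglyMeasurable.stronglyMeasurable_mk.measurable
  have hgL : MemLp g 2 volume := hw.ae_eq hgae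
  have hmo : ∀ m, mo_bk m w = mo_bk m g := by
    intro m
    funext x
    rw [mo_apply'_bk, mo_apply'_bk]
    apply integral_congr_ae
    filter_upwards [hgae] with y hy
    rw [hy]
  rw [ENNReal.tendsto_nhds_zero]
  intro η hη
  obtain ⟨ε, hε, hε'⟩ := transl_cont_bk g hgL η hη
  have hlim : Tendsto (fun m : ℕ => 2 / ((m : ℝ) + 1)) atTop (𝓝 0) := by
    apply Tendsto.div_atTop tendsto_const_nhds
    exact tendsto_atTop_add_const_right _ _ tendsto_natCast_atTop_atTop
  have hev : ∀ᶠ m : ℕ in atTop, 2 / ((m : ℝ) + 1) < ε := hlim.eventually (gt_mem_nhds hε)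
  filter_upwards [hev] with m hn
  have h1 := mollify_L2_bk g hgm hgL (rho_bk n m) (rho_smooth_bk m).continuous
    (rho_cs_bk m) (rho_nonneg_bk m) (rho_int_bk m)
    (2 / ((m : ℝ) + 1)) (rho_supp_bk m) η (fun t ht => hε' t (ht.trans hn))
  have h2 : eLpNorm (fun x => mo_bk m w x - w x) 2 volume =
      eLpNorm (fun z => (∫ t, rho_bk n m t • g (z - t)) - g z) 2 volume := by
    apply eLpNorm_congr_ae
    filter_upwards [hgae] with x hx
    rw [hmo m, mo_apply_bk, hx]
  rw [h2]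
  exact h1

/-- the derivative of a mollification -/
theorem mo_fderiv_bk (m : ℕ) (w : (En n) → ℂ) (hw : MemLp w 2 volume) (x v : (En n)) :
    fderiv ℝ (mo_bk m w) x v =
      - ∫ y, w y * fderiv ℝ (fun y => (rho_bk n m (x - y) : ℂ)) y v := by
  have hρs1 : ContDiff ℝ 1 (rho_bk n m) := (rho_smooth_bk m).of_le (by norm_cast)
  have hFl : LocallyIntegrable w volume := hw.locallyIntegrable (by norm_num)
  have h1 := (rho_cs_bk m).hasFDerivAt_convolution_left (lsmul ℝ ℝ) hρs1 hFl x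
  have h2 : fderiv ℝ (mo_bk m w) x =
      (fderiv ℝ (rho_bk n m) ⋆[(lsmul ℝ ℝ).precompL (En n), volume] w) x := h1.fderiv
  rw [h2]
  have hex : ConvolutionExistsAt (fderiv ℝ (rho_bk n m)) w x
      ((lsmul ℝ ℝ : ℝ →L[ℝ] ℂ →L[ℝ] ℂ).precompL (En n)) volume :=
    ((rho_cs_bk m).fderiv ℝ).convolutionExists_left _ (hρs1.continuous_fderiv one_ne_zero) hFl x
  have h3 : (fderiv ℝ (rho_bk n m) ⋆[(lsmul ℝ ℝ).precompL (En n), volume] w) x v =
      ∫ t, fderiv ℝ (rho_bk n m) t v • w (x - t) := by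
    rw [convolution_def, ContinuousLinearMap.integral_apply hex]
    rfl
  rw [h3, ← integral_sub_left_eq_self (fun t => fderiv ℝ (rho_bk n m) t v • w (x - t)) volume x,
    ← integral_neg]
  refine integral_congr_ae (Filter.Eventually.of_forall fun y => ?_)
  simp only [sub_sub_cancel]
  have ha : HasFDerivAt (fun y : (En n) => x - y) (-(ContinuousLinearMap.id ℝ (En n))) y :=
    (hasFDerivAt_id y).const_sub x
  have hb : HasFDerivAt (fun y => rho_bk n m (x - y)) ((fderiv ℝ (rho_bk n m) (x - y)).comp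
      (-(ContinuousLinearMap.id ℝ (En n)))) y :=
    ((hρs1.differentiable one_ne_zero (x - y)).hasFDerivAt).comp y ha
  have hc : HasFDerivAt (fun y => (rho_bk n m (x - y) : ℂ))
      (Complex.ofRealCLM.comp ((fderiv ℝ (rho_bk n m) (x - y)).comp
      (-(ContinuousLinearMap.id ℝ (En n))))) y :=
    Complex.ofRealCLM.hasFDerivAt.comp y hb
  rw [hc.fderiv]
  simp only [ContinuousLinearMap.comp_neg, ContinuousLinearMap.comp_id,
    neg_apply, ContinuousLinearMap.comp_apply, Complex.ofRealCLM_apply,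
    Complex.real_smul]
  ring

theorem test_rho_bk (m : ℕ) (x : (En n)) :
    IsTest Set.univ (fun y => (rho_bk n m (x - y) : ℂ)) := by
  refine ⟨?_, ?_, Set.subset_univ _⟩
  · exact Complex.ofRealCLM.contDiff.comp
      ((rho_smooth_bk m).comp (contDiff_const.sub contDiff_id))
  · apply HasCompactSupport.intro (isCompact_closedBall x (2 / ((m : ℝ) + 1)))
    intro y hy
    have : rho_bk n m (x - y) = 0 := by
      by_contra hne
      apply hy
      rw [mem_closedBall, dist_comm, dist_eq_norm]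
      exact (rho_supp_bk m _ hne).le
    rw [this, Complex.ofReal_zero]

theorem int_mul_bk (w φ : (En n) → ℂ) (hw : MemLp w 2 volume) (hφ : Continuous φ)
    (hc : HasCompactSupport φ) : Integrable (fun y => w y * φ y) volume := by
  have h : MemLp φ 2 volume := hφ.memLp_of_hasCompactSupport hc
  exact hw.integrable_mul h

theorem fd_cont_bk (φ : (En n) → ℂ) (hφ : ContDiff ℝ ∞ φ) (v : (En n)) :
    Continuous (fun y => fderiv ℝ φ y v) := by
  have h1 : Continuous (fderiv ℝ φ) := hφ.continuous_fderiv (by simp)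
  exact h1.clm_apply continuous_const

theorem fd_cs_bk (φ : (En n) → ℂ) (hφ : HasCompactSupport φ) (v : (En n)) :
    HasCompactSupport (fun y => fderiv ℝ φ y v) := by
  have h1 : HasCompactSupport (fderiv ℝ φ) := hφ.fderiv ℝ
  exact h1.comp_left (g := fun L : (En n) →L[ℝ] ℂ => L v) (by simp)


theorem w_dbar_int_bk (w σ : En n → ℂ) (hw : MemLp w 2 volume) (hσ : IsTest Set.univ σ) (j : Fin n) :
    Integrable (fun y => w y * dbar j σ y) volume := by
  have hint : ∀ v, Integrable (fun y => w y * fderiv ℝ σ y v) volume := fun v =>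
    int_mul_bk w _ hw (fd_cont_bk σ hσ.smooth v) (fd_cs_bk σ hσ.compact v)
  have : (fun y => w y * dbar j σ y) = fun y => (1 / 2) * (w y * fderiv ℝ σ y (Pi.single j 1))
      + (1 / 2 * I) * (w y * fderiv ℝ σ y (Pi.single j I)) := by
    funext y; unfold dbar; ring
  rw [this]
  exact ((hint _).const_mul _).add ((hint _).const_mul _)

theorem w_dz_int_bk (w σ : En n → ℂ) (hw : MemLp w 2 volume) (hσ : IsTest Set.univ σ) (j : Fin n) :
    Integrable (fun y => w y * dz j σ y) volume := by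
  have hint : ∀ v, Integrable (fun y => w y * fderiv ℝ σ y v) volume := fun v =>
    int_mul_bk w _ hw (fd_cont_bk σ hσ.smooth v) (fd_cs_bk σ hσ.compact v)
  have : (fun y => w y * dz j σ y) = fun y => (1 / 2) * (w y * fderiv ℝ σ y (Pi.single j 1))
      - (1 / 2 * I) * (w y * fderiv ℝ σ y (Pi.single j I)) := by
    funext y; unfold dz; ring
  rw [this]
  exact ((hint _).const_mul _).sub ((hint _).const_mul _)

theorem dbar_mo_bk (m : ℕ) (w : En n → ℂ) (hw : MemLp w 2 volume) (j : Fin n) (x : En n) :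
    dbar j (mo_bk m w) x = - ∫ y, w y * dbar j (fun y => (rho_bk n m (x - y) : ℂ)) y := by
  set φ : En n → ℂ := fun y => (rho_bk n m (x - y) : ℂ) with hφ
  have hT := test_rho_bk m x
  have hint : ∀ v, Integrable (fun y => w y * fderiv ℝ φ y v) volume := fun v =>
    int_mul_bk w _ hw (fd_cont_bk φ hT.smooth v) (fd_cs_bk φ hT.compact v)
  unfold dbar
  rw [mo_fderiv_bk m w hw, mo_fderiv_bk m w hw]
  have : (fun y => w y * ((1 / 2) * (fderiv ℝ φ y (Pi.single j 1) +
      I * fderiv ℝ φ y (Pi.single j I)))) = fun y => (1 / 2) * (w y * fderiv ℝ φ y (Pi.single j 1))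
      + (1 / 2 * I) * (w y * fderiv ℝ φ y (Pi.single j I)) := by
    funext y; ring
  rw [this, integral_add ((hint _).const_mul _) ((hint _).const_mul _), integral_const_mul,
    integral_const_mul]
  ring

theorem dz_mo_bk (m : ℕ) (w : En n → ℂ) (hw : MemLp w 2 volume) (j : Fin n) (x : En n) :
    dz j (mo_bk m w) x = - ∫ y, w y * dz j (fun y => (rho_bk n m (x - y) : ℂ)) y := by
  set φ : En n → ℂ := fun y => (rho_bk n m (x - y) : ℂ) with hφ
  have hT := test_rho_bk m x
  have hint : ∀ v, Integrable (fun y => w y * fderiv ℝ φ y v) volume := fun v =>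
    int_mul_bk w _ hw (fd_cont_bk φ hT.smooth v) (fd_cs_bk φ hT.compact v)
  unfold dz
  rw [mo_fderiv_bk m w hw, mo_fderiv_bk m w hw]
  have : (fun y => w y * ((1 / 2) * (fderiv ℝ φ y (Pi.single j 1) -
      I * fderiv ℝ φ y (Pi.single j I)))) = fun y => (1 / 2) * (w y * fderiv ℝ φ y (Pi.single j 1))
      - (1 / 2 * I) * (w y * fderiv ℝ φ y (Pi.single j I)) := by
    funext y; ring
  rw [this, integral_sub ((hint _).const_mul _) ((hint _).const_mul _), integral_const_mul,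
    integral_const_mul]
  ring

theorem mo_S_bk (m : ℕ) (a1 a2 b : En n → ℂ) (h1 : MemLp a1 2 volume) (h2 : MemLp a2 2 volume)
    (j1 j2 : Fin n) (h : ∀ σ, IsTest Set.univ σ →
      ∫ x, (a2 x * dbar j1 σ x - a1 x * dbar j2 σ x) = - ∫ x, b x * σ x) (x : En n) :
    dbar j1 (mo_bk m a2) x - dbar j2 (mo_bk m a1) x = mo_bk m b x := by
  have hT := test_rho_bk m x
  have h3 := h _ hT
  rw [integral_sub (w_dbar_int_bk _ _ h2 hT j1) (w_dbar_int_bk _ _ h1 hT j2)] at h3
  rw [dbar_mo_bk m a2 h2, dbar_mo_bk m a1 h1, mo_apply'_bk]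
  linear_combination -h3

theorem mo_T_bk (m : ℕ) (a : Fin n → En n → ℂ) (b : En n → ℂ) (ha : ∀ j, MemLp (a j) 2 volume)
    (h : ∀ σ, IsTest Set.univ σ → ∫ x, ∑ j, a j x * dz j σ x = - ∫ x, b x * σ x) (x : En n) :
    ∑ j, dz j (mo_bk m (a j)) x = mo_bk m b x := by
  have hT := test_rho_bk m x
  have h3 := h _ hT
  rw [integral_finsetSum _ (fun j _ => w_dz_int_bk _ _ (ha j) hT j)] at h3
  rw [mo_apply'_bk, Finset.sum_congr rfl (fun j _ => dz_mo_bk m (a j) (ha j) j x),
    Finset.sum_neg_distrib, h3, neg_neg]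

theorem mo_supp_bk (m : ℕ) (w : En n → ℂ) (K : Set (En n)) (hw : ∀ x, x ∉ K → w x = 0) (x : En n)
    (hx : x ∉ cthickening (2 / ((m : ℝ) + 1)) K) : mo_bk m w x = 0 := by
  rw [mo_apply_bk]
  have : (fun t => rho_bk n m t • w (x - t)) = fun _ => 0 := by
    funext t
    by_cases ht : rho_bk n m t = 0
    · rw [ht, zero_smul]
    · have h1 := rho_supp_bk m t ht
      rw [hw (x - t), smul_zero]
      intro hK
      apply hx
      apply mem_cthickening_of_dist_le x (x - t) _ _ hK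
      rw [dist_eq_norm, sub_sub_cancel]
      exact h1.le
  rw [this, integral_zero]

theorem mo_test_bk (m : ℕ) (w : En n → ℂ) (hw : MemLp w 2 volume) {Ω K : Set (En n)}
    (hK : IsCompact K) (hw0 : ∀ x, x ∉ K → w x = 0) {δ : ℝ} (hδ : cthickening δ K ⊆ Ω)
    (hm : 2 / ((m : ℝ) + 1) ≤ δ) : IsTest Ω (mo_bk m w) := by
  have hz : ∀ x, x ∉ cthickening (2 / ((m : ℝ) + 1)) K → mo_bk m w x = 0 := mo_supp_bk m w K hw0
  have hsub : tsupport (mo_bk m w) ⊆ cthickening (2 / ((m : ℝ) + 1)) K := by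
    apply closure_minimal _ isClosed_cthickening
    intro x hx
    by_contra h
    exact hx (hz x h)
  refine ⟨mo_smooth_bk m w hw, ?_, hsub.trans ((cthickening_mono hm K).trans hδ)⟩
  exact (hK.cthickening).of_isClosed_subset (isClosed_tsupport _) hsub

theorem sq_int_bk (h : En n → ℂ) (hh : MemLp h 2 volume) :
    ∫ x, ‖h x‖ ^ 2 = (eLpNorm h 2 volume).toReal ^ 2 := by
  have h1 := hh.eLpNorm_eq_integral_rpow_norm (by norm_num) (by norm_num)
  rw [h1, ENNReal.toReal_ofReal (by positivity)]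
  simp only [ENNReal.toReal_ofNat]
  rw [← Real.rpow_natCast, ← Real.rpow_mul (by positivity)]
  norm_num

theorem mo_mem_bk (m : ℕ) (w : En n → ℂ) (hw : MemLp w 2 volume) {K : Set (En n)}
    (hK : IsCompact K) (hw0 : ∀ x, x ∉ K → w x = 0) : MemLp (mo_bk m w) 2 volume := by
  have hT := mo_test_bk (Ω := Set.univ) m w hw hK hw0 (δ := 2 / ((m : ℝ) + 1)) (subset_univ _) le_rfl
  exact hT.smooth.continuous.memLp_of_hasCompactSupport hT.compact

theorem mo_lim_bk (w : En n → ℂ) (hw : MemLp w 2 volume) {K : Set (En n)}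
    (hK : IsCompact K) (hw0 : ∀ x, x ∉ K → w x = 0) :
    Tendsto (fun m => ∫ x, ‖mo_bk m w x - w x‖ ^ 2) atTop (𝓝 0) := by
  have h1 := mo_tendsto_bk w hw
  have h2 : Tendsto (fun m => (eLpNorm (fun x => mo_bk m w x - w x) 2 volume).toReal) atTop
      (𝓝 (0 : ENNReal).toReal) := (ENNReal.tendsto_toReal (by norm_num)).comp h1
  have h3 := h2.pow 2
  simp only [ENNReal.toReal_zero] at h3
  norm_num at h3
  refine h3.congr fun m => ?_
  exact (sq_int_bk _ ((mo_mem_bk m w hw hK hw0).sub hw)).symm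

/-- weighted estimate from an unweighted one -/
theorem wt_bk {Ω : Set (En n)} (ho : IsOpen Ω) {θ : En n → ℝ} (hθ : ContinuousOn θ Ω)
    (hθ0 : ∀ x, 0 ≤ θ x) {F : En n → ℂ} (hF : AEStronglyMeasurable F (volume.restrict Ω))
    {G : En n → ℝ} (hG : MemLp G 2 volume) (hFG : ∀ x ∈ Ω, ‖F x‖ ≤ G x) :
    MemLp (fun x => F x * (Real.exp (-θ x / 2) : ℝ)) 2 (volume.restrict Ω) ∧
      ∫ x in Ω, ‖F x‖ ^ 2 * Real.exp (-θ x) ≤ ∫ x, G x ^ 2 := by
  have hmeas : AEStronglyMeasurable (fun x => F x * ((Real.exp (-θ x / 2) : ℝ) : ℂ))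
      (volume.restrict Ω) := by
    refine hF.mul ?_
    refine ContinuousOn.aestronglyMeasurable ?_ ho.measurableSet
    exact Complex.continuous_ofReal.comp_continuousOn
      (Real.continuous_exp.comp_continuousOn (hθ.neg.div_const 2))
  have hGr : MemLp G 2 (volume.restrict Ω) := hG.mono_measure Measure.restrict_le_self
  have hbound : ∀ x ∈ Ω, ‖F x * ((Real.exp (-θ x / 2) : ℝ) : ℂ)‖ ≤ G x := by
    intro x hx
    rw [norm_mul, Complex.norm_real, Real.norm_eq_abs, abs_of_pos (Real.exp_pos _)]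
    have h1 : Real.exp (-θ x / 2) ≤ 1 := by
      rw [Real.exp_le_one_iff]
      have := hθ0 x
      linarith
    have h2 := hFG x hx
    nlinarith [norm_nonneg (F x)]
  have hmem : MemLp (fun x => F x * ((Real.exp (-θ x / 2) : ℝ) : ℂ)) 2 (volume.restrict Ω) := by
    refine hGr.mono hmeas ?_
    rw [ae_restrict_iff' ho.measurableSet]
    refine Eventually.of_forall fun x hx => ?_
    rw [Real.norm_eq_abs]
    exact (hbound x hx).trans (le_abs_self _)
  refine ⟨hmem, ?_⟩
  have hGi : Integrable (fun x => G x ^ 2) volume := hG.integrable_sq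
  calc ∫ x in Ω, ‖F x‖ ^ 2 * Real.exp (-θ x) ≤ ∫ x in Ω, G x ^ 2 := by
        apply integral_mono_of_nonneg
        · exact Eventually.of_forall fun x => by positivity
        · exact hGi.restrict
        · rw [Filter.EventuallyLE, ae_restrict_iff' ho.measurableSet]
          refine Eventually.of_forall fun x hx => ?_
          have h1 : Real.exp (-θ x) ≤ 1 := by
            rw [Real.exp_le_one_iff]
            have := hθ0 x
            linarith
          have h2 := hFG x hx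
          have h3 : ‖F x‖ ^ 2 ≤ G x ^ 2 := pow_le_pow_left₀ (norm_nonneg _) h2 2
          have h4 : (0 : ℝ) ≤ ‖F x‖ ^ 2 := by positivity
          nlinarith [Real.exp_pos (-θ x)]
    _ ≤ ∫ x, G x ^ 2 := setIntegral_le_integral hGi (Eventually.of_forall fun x => by positivity)

theorem tri_bk {Ω : Set (En n)} {θ : En n → ℝ} {a b : En n → ℂ}
    (ha : MemLp (fun x => a x * (Real.exp (-θ x / 2) : ℝ)) 2 (volume.restrict Ω))
    (hb : MemLp (fun x => b x * (Real.exp (-θ x / 2) : ℝ)) 2 (volume.restrict Ω)) :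
    ∫ x in Ω, ‖a x + b x‖ ^ 2 * Real.exp (-θ x) ≤
      2 * (∫ x in Ω, ‖a x‖ ^ 2 * Real.exp (-θ x)) + 2 * ∫ x in Ω, ‖b x‖ ^ 2 * Real.exp (-θ x) := by
  have key : ∀ (h : En n → ℂ) x, ‖h x * ((Real.exp (-θ x / 2) : ℝ) : ℂ)‖ ^ 2 =
      ‖h x‖ ^ 2 * Real.exp (-θ x) := by
    intro h x
    rw [norm_mul, Complex.norm_real, Real.norm_eq_abs, abs_of_pos (Real.exp_pos _), mul_pow,
      ← Real.exp_nat_mul]
    congr 2
    push_cast
    ring
  have hia : Integrable (fun x => ‖a x‖ ^ 2 * Real.exp (-θ x)) (volume.restrict Ω) := by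
    have := ha.norm.integrable_sq
    simpa only [key] using this
  have hib : Integrable (fun x => ‖b x‖ ^ 2 * Real.exp (-θ x)) (volume.restrict Ω) := by
    have := hb.norm.integrable_sq
    simpa only [key] using this
  rw [← integral_const_mul, ← integral_const_mul, ← integral_add (hia.const_mul 2) (hib.const_mul 2)]
  apply integral_mono_of_nonneg
  · exact Eventually.of_forall fun x => by positivity
  · exact (hia.const_mul 2).add (hib.const_mul 2)
  · refine Eventually.of_forall fun x => ?_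
    have h1 := norm_add_le (a x) (b x)
    have h2 : ‖a x + b x‖ ^ 2 ≤ (‖a x‖ + ‖b x‖) ^ 2 := pow_le_pow_left₀ (norm_nonneg _) h1 2
    have h3 : (‖a x‖ + ‖b x‖) ^ 2 ≤ 2 * ‖a x‖ ^ 2 + 2 * ‖b x‖ ^ 2 := by
      nlinarith [sq_nonneg (‖a x‖ - ‖b x‖)]
    have h4 := mul_le_mul_of_nonneg_right (h2.trans h3) (Real.exp_pos (-θ x)).le
    simp only
    linarith

theorem dz_cont_on {Ω : Set (En n)} (ho : IsOpen Ω) {θ : En n → ℝ} (sθ : ContDiffOn ℝ ∞ θ Ω)
    (j : Fin n) : ContinuousOn (fun x => dz j (fun y => (θ y : ℂ)) x) Ω := by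
  have h1 : ContDiffOn ℝ ∞ (fun y => (θ y : ℂ)) Ω := Complex.ofRealCLM.contDiff.comp_contDiffOn sθ
  have h2 : ContinuousOn (fderiv ℝ (fun y => (θ y : ℂ))) Ω :=
    h1.continuousOn_fderiv_of_isOpen ho (by simp)
  unfold dz
  refine ContinuousOn.mul continuousOn_const (ContinuousOn.sub ?_ (ContinuousOn.mul continuousOn_const ?_))
  · exact h2.clm_apply continuousOn_const
  · exact h2.clm_apply continuousOn_const

theorem dz_eta_cont {η : En n → ℝ} (sη : ContDiff ℝ ∞ η) (j : Fin n) :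
    Continuous (fun x => dz j (fun y => (η y : ℂ)) x) := by
  rw [← continuousOn_univ]
  exact dz_cont_on isOpen_univ sη.contDiffOn j

theorem dz_eta_zero {η : En n → ℝ} (j : Fin n) (x : En n) (hx : x ∉ tsupport η) :
    dz j (fun y => (η y : ℂ)) x = 0 := by
  have h1 : (fun y => (η y : ℂ)) =ᶠ[𝓝 x] fun _ => 0 := by
    have h2 := (isClosed_tsupport η).isOpen_compl.mem_nhds hx
    filter_upwards [h2] with y hy
    rw [image_eq_zero_of_notMem_tsupport hy, Complex.ofReal_zero]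
  unfold dz
  rw [h1.fderiv_eq]
  simp

theorem fF_mem {Ω : Set (En n)} (ho : IsOpen Ω) {φ ψ η : En n → ℝ} (sφ : ContDiffOn ℝ ∞ φ Ω)
    (sψ : ContDiffOn ℝ ∞ ψ Ω) (sη : ContDiff ℝ ∞ η) (cη : HasCompactSupport η)
    (tη : tsupport η ⊆ Ω) {u : Fin n → En n → ℂ} {f : En n → ℂ} {c : Pr n → En n → ℂ}
    (h : LRel Ω φ ψ u f c) : MemLp (fF ψ η u f) 2 volume := by
  have e : fF ψ η u f = fun x => (η x : ℂ) * f x -
      ∑ j, ((Real.exp (-ψ x) : ℂ) * dz j (fun y => (η y : ℂ)) x) * u j x := by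
    funext x
    unfold fF
    rw [Finset.mul_sum]
    congr 1
    exact Finset.sum_congr rfl fun j _ => by ring
  rw [e]
  have cφ := sφ.continuousOn
  have cψ := sψ.continuousOn
  refine MemLp.sub ?_ ?_
  · refine cut_mem ho cη.isCompact tη (θ := fun x => φ x - 2 * ψ x)
      (cφ.sub (continuousOn_const.mul cψ)) h.mf (Complex.continuous_ofReal.comp
        sη.continuous).continuousOn ?_
    intro x hx
    show ((η x : ℝ) : ℂ) = 0
    rw [image_eq_zero_of_notMem_tsupport hx, Complex.ofReal_zero]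
  · refine memLp_finsetSum _ fun j _ => ?_
    refine cut_mem ho cη.isCompact tη (θ := fun x => φ x - ψ x) (cφ.sub cψ) (h.mu j) ?_ ?_
    · refine ContinuousOn.mul ?_ (dz_eta_cont sη j).continuousOn
      have : (fun x => ((Real.exp (-ψ x) : ℝ) : ℂ)) = fun x => Complex.ofReal (Real.exp (-ψ x)) := rfl
      exact Complex.continuous_ofReal.comp_continuousOn (Real.continuous_exp.comp_continuousOn cψ.neg)
    · intro x hx
      rw [dz_eta_zero j x hx, mul_zero]

/-- test forms approximate the cut off form -/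
theorem den_cut {Ω L : Set (En n)} (ho : IsOpen Ω) {ε : ℝ} {φ ψ : En n → ℝ} {η' : ℕ → En n → ℝ}
    (hW : Wts Ω L ε φ ψ η') {u : Fin n → En n → ℂ} {f : En n → ℂ} {c : Pr n → En n → ℂ}
    (h : LRel Ω φ ψ u f c) (η : En n → ℝ) (sη : ContDiff ℝ ∞ η) (cη : HasCompactSupport η)
    (tη : tsupport η ⊆ Ω) (δ : ℝ) (hδ : 0 < δ) :
    ∃ v : Fin n → En n → ℂ, (∀ j, IsTest Ω (v j)) ∧
    (∀ j, MemLp (fun x => (wF η u j x - v j x) * (Real.exp (-(φ x - ψ x) / 2) : ℝ)) 2
      (volume.restrict Ω)) ∧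
    MemLp (fun x => (fF ψ η u f x - Tst φ ψ v x) * (Real.exp (-(φ x - 2 * ψ x) / 2) : ℝ)) 2
      (volume.restrict Ω) ∧
    (∀ p, MemLp (fun x => (cF η u c p x - Sst v p x) * (Real.exp (-φ x / 2) : ℝ)) 2
      (volume.restrict Ω)) ∧
    (∑ j, ∫ x in Ω, ‖wF η u j x - v j x‖ ^ 2 * Real.exp (-(φ x - ψ x)) ≤ δ) ∧
    (∫ x in Ω, ‖fF ψ η u f x - Tst φ ψ v x‖ ^ 2 * Real.exp (-(φ x - 2 * ψ x)) ≤ δ) ∧
    ∑ p, ∫ x in Ω, ‖cF η u c p x - Sst v p x‖ ^ 2 * Real.exp (-φ x) ≤ δ := by
  have sφ := hW.sφ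
  have sψ := hW.sψ
  have cφ := sφ.continuousOn
  have cψ := sψ.continuousOn
  have hψ0 := hW.ψ0
  have hφ2 := hW.φ2
  have hK : IsCompact (tsupport η) := cη.isCompact
  have hw := wF_mem ho sφ sψ sη cη tη h
  have hc := cF_mem ho sφ sψ sη cη tη h
  have hg := gF_mem ho sφ sψ sη cη tη h
  have hw0 : ∀ j x, x ∉ tsupport η → wF η u j x = 0 := by
    intro j x hx
    unfold wF
    rw [image_eq_zero_of_notMem_tsupport hx, Complex.ofReal_zero, zero_mul]
  have hdz0 : ∀ j x, x ∉ tsupport η → dz j (fun y => (η y : ℂ)) x = 0 := fun j x hx =>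
    dz_eta_zero j x hx
  have hdb0 : ∀ j x, x ∉ tsupport η → dbar j (fun y => (η y : ℂ)) x = 0 := by
    intro j x hx
    have h1 : (fun y => (η y : ℂ)) =ᶠ[𝓝 x] fun _ => 0 := by
      have h2 := (isClosed_tsupport η).isOpen_compl.mem_nhds hx
      filter_upwards [h2] with y hy
      rw [image_eq_zero_of_notMem_tsupport hy, Complex.ofReal_zero]
    unfold dbar
    rw [h1.fderiv_eq]
    simp
  have hc0 : ∀ p x, x ∉ tsupport η → cF η u c p x = 0 := by
    intro p x hx
    unfold cF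
    rw [image_eq_zero_of_notMem_tsupport hx, Complex.ofReal_zero, hdb0 _ x hx, hdb0 _ x hx]
    ring
  have hg0 : ∀ x, x ∉ tsupport η → gF φ ψ η u f x = 0 := by
    intro x hx
    unfold gF
    rw [image_eq_zero_of_notMem_tsupport hx, Complex.ofReal_zero]
    simp [hdz0 _ x hx]
  obtain ⟨δ₀, hδ₀, hδΩ⟩ := hK.exists_cthickening_subset_open ho tη
  have hK' : IsCompact (cthickening δ₀ (tsupport η)) := hK.cthickening
  -- bound for the coefficients
  obtain ⟨M, hM0, hM⟩ : ∃ M : ℝ, 0 ≤ M ∧ ∀ j, ∀ x ∈ cthickening δ₀ (tsupport η),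
      ‖dz j (fun y => ((φ y - ψ y : ℝ) : ℂ)) x‖ ≤ M := by
    have hb : ∀ j : Fin n, ∃ C : ℝ, ∀ x ∈ cthickening δ₀ (tsupport η),
        ‖dz j (fun y => ((φ y - ψ y : ℝ) : ℂ)) x‖ ≤ C := fun j =>
      hK'.exists_bound_of_continuousOn ((dz_cont_on ho (sφ.sub sψ) j).mono hδΩ)
    choose C hC using hb
    refine ⟨∑ j, |C j|, Finset.sum_nonneg fun j _ => abs_nonneg _, fun j x hx => ?_⟩
    exact (hC j x hx).trans ((le_abs_self _).trans
      (Finset.single_le_sum (f := fun j => |C j|) (fun i _ => abs_nonneg _) (Finset.mem_univ j)))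
  -- limits
  have lw : ∀ j, Tendsto (fun m => ∫ x, ‖mo_bk m (wF η u j) x - wF η u j x‖ ^ 2) atTop (𝓝 0) :=
    fun j => mo_lim_bk _ (hw j) hK (hw0 j)
  have lc : ∀ p, Tendsto (fun m => ∫ x, ‖mo_bk m (cF η u c p) x - cF η u c p x‖ ^ 2) atTop (𝓝 0) :=
    fun p => mo_lim_bk _ (hc p) hK (hc0 p)
  have lg : Tendsto (fun m => ∫ x, ‖mo_bk m (gF φ ψ η u f) x - gF φ ψ η u f x‖ ^ 2) atTop (𝓝 0) :=
    mo_lim_bk _ hg hK hg0
  have lws : Tendsto (fun m => ∑ j, ∫ x, ‖mo_bk m (wF η u j) x - wF η u j x‖ ^ 2) atTop (𝓝 0) := by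
    have := tendsto_finsetSum Finset.univ fun j _ => lw j
    simpa using this
  have lcs : Tendsto (fun m => ∑ p, ∫ x, ‖mo_bk m (cF η u c p) x - cF η u c p x‖ ^ 2) atTop
      (𝓝 0) := by
    have := tendsto_finsetSum Finset.univ fun p _ => lc p
    simpa using this
  have lT : Tendsto (fun m => 2 * (∫ x, ‖mo_bk m (gF φ ψ η u f) x - gF φ ψ η u f x‖ ^ 2) +
      2 * M ^ 2 * n * ∑ j, ∫ x, ‖mo_bk m (wF η u j) x - wF η u j x‖ ^ 2) atTop (𝓝 0) := by
    have := (lg.const_mul 2).add (lws.const_mul (2 * M ^ 2 * n))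
    simpa using this
  have lδ : Tendsto (fun m : ℕ => 2 / ((m : ℝ) + 1)) atTop (𝓝 0) := by
    apply Tendsto.div_atTop tendsto_const_nhds
    exact tendsto_atTop_add_const_right _ _ tendsto_natCast_atTop_atTop
  obtain ⟨m, m1, m2, m3, m4⟩ := ((lws.eventually (ge_mem_nhds hδ)).and
    ((lcs.eventually (ge_mem_nhds hδ)).and ((lT.eventually (ge_mem_nhds hδ)).and
      (lδ.eventually (ge_mem_nhds hδ₀))))).exists
  have hvt : ∀ j, IsTest Ω (mo_bk m (wF η u j)) := fun j =>
    mo_test_bk m _ (hw j) hK (hw0 j) hδΩ m4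
  have hvm : ∀ j, MemLp (mo_bk m (wF η u j)) 2 volume := fun j => mo_mem_bk m _ (hw j) hK (hw0 j)
  have hgm : MemLp (mo_bk m (gF φ ψ η u f)) 2 volume := mo_mem_bk m _ hg hK hg0
  have hcm : ∀ p, MemLp (mo_bk m (cF η u c p)) 2 volume := fun p => mo_mem_bk m _ (hc p) hK (hc0 p)
  have hSst : ∀ p x, Sst (fun j => mo_bk m (wF η u j)) p x = mo_bk m (cF η u c p) x := by
    intro p x
    unfold Sst
    exact mo_S_bk m (wF η u p.1.1) (wF η u p.1.2) (cF η u c p) (hw _) (hw _) p.1.1 p.1.2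
      (fun σ hσ => cut_S ho sφ sψ sη cη tη h p σ hσ) x
  have hdiv : ∀ x, ∑ j, dz j (mo_bk m (wF η u j)) x = mo_bk m (gF φ ψ η u f) x := fun x =>
    mo_T_bk m (wF η u) (gF φ ψ η u f) hw (fun σ hσ => cut_T ho sφ sψ sη cη tη h σ hσ) x
  have hdiff : ∀ x, fF ψ η u f x - Tst φ ψ (fun j => mo_bk m (wF η u j)) x =
      (Real.exp (-ψ x) : ℂ) * ((mo_bk m (gF φ ψ η u f) x - gF φ ψ η u f x) +
        ∑ j, dz j (fun y => ((φ y - ψ y : ℝ) : ℂ)) x * (wF η u j x - mo_bk m (wF η u j) x)) := by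
    intro x
    have hexp : (Real.exp (-ψ x) : ℂ) * (Real.exp (ψ x) : ℂ) = 1 := by
      rw [← Complex.ofReal_mul, ← Real.exp_add]
      simp
    unfold Tst
    rw [Finset.sum_sub_distrib, hdiv x]
    simp only [mul_sub, Finset.sum_sub_distrib]
    have e1 : gF φ ψ η u f x = -((Real.exp (ψ x) : ℂ) * (η x : ℂ) * f x) +
        ((∑ j, dz j (fun y => (η y : ℂ)) x * u j x) +
        ∑ j, dz j (fun y => ((φ y - ψ y : ℝ) : ℂ)) x * wF η u j x) := by
      unfold gF wF
      rw [← Finset.sum_add_distrib]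
      congr 1
      exact Finset.sum_congr rfl fun j _ => by ring
    rw [e1]
    unfold fF
    linear_combination (-(η x : ℂ) * f x) * hexp
  have hSm : ∀ x ∈ Ω, ‖fF ψ η u f x - Tst φ ψ (fun j => mo_bk m (wF η u j)) x‖ ≤
      ‖mo_bk m (gF φ ψ η u f) x - gF φ ψ η u f x‖ +
        M * ∑ j, ‖mo_bk m (wF η u j) x - wF η u j x‖ := by
    intro x hx
    rw [hdiff x, norm_mul, Complex.norm_real, Real.norm_eq_abs, abs_of_pos (Real.exp_pos _)]
    have h1 : Real.exp (-ψ x) ≤ 1 := by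
      rw [Real.exp_le_one_iff]
      have := hψ0 x
      linarith
    have h2 : ‖(mo_bk m (gF φ ψ η u f) x - gF φ ψ η u f x) +
        ∑ j, dz j (fun y => ((φ y - ψ y : ℝ) : ℂ)) x * (wF η u j x - mo_bk m (wF η u j) x)‖ ≤
        ‖mo_bk m (gF φ ψ η u f) x - gF φ ψ η u f x‖ +
        M * ∑ j, ‖mo_bk m (wF η u j) x - wF η u j x‖ := by
      refine (norm_add_le _ _).trans (add_le_add le_rfl ?_)
      refine (norm_sum_le _ _).trans ?_
      rw [Finset.mul_sum]
      refine Finset.sum_le_sum fun j _ => ?_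
      rw [norm_mul, norm_sub_rev (wF η u j x)]
      by_cases hxK : x ∈ cthickening δ₀ (tsupport η)
      · exact mul_le_mul_of_nonneg_right (hM j x hxK) (norm_nonneg _)
      · have hz1 : mo_bk m (wF η u j) x = 0 :=
          mo_supp_bk m _ _ (hw0 j) x (fun hc => hxK (cthickening_mono m4 _ hc))
        have hz2 : wF η u j x = 0 := hw0 j x (fun hc => hxK (self_subset_cthickening _ hc))
        rw [hz1, hz2]
        simp
    have h3 := norm_nonneg ((mo_bk m (gF φ ψ η u f) x - gF φ ψ η u f x) +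
        ∑ j, dz j (fun y => ((φ y - ψ y : ℝ) : ℂ)) x * (wF η u j x - mo_bk m (wF η u j) x))
    nlinarith [Real.exp_pos (-ψ x)]
  have θ1 : ∀ x, 0 ≤ φ x - ψ x := fun x => by
    have := hψ0 x
    have := hφ2 x
    linarith
  have θ2 : ∀ x, 0 ≤ φ x - 2 * ψ x := fun x => by
    have := hφ2 x
    linarith
  have θ3 : ∀ x, 0 ≤ φ x := fun x => by
    have := hψ0 x
    have := hφ2 x
    linarith
  have w1 := fun j => wt_bk ho (cφ.sub cψ) θ1
    (((hw j).sub (hvm j)).aestronglyMeasurable.mono_measure Measure.restrict_le_self)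
    (G := fun x => ‖mo_bk m (wF η u j) x - wF η u j x‖) ((hvm j).sub (hw j)).norm
    (fun x _ => by
      simp only [Pi.sub_apply]
      rw [norm_sub_rev])
  have hGm : MemLp (fun x => ‖mo_bk m (gF φ ψ η u f) x - gF φ ψ η u f x‖ +
        M * ∑ j, ‖mo_bk m (wF η u j) x - wF η u j x‖) 2 volume := by
    refine (hgm.sub hg).norm.add (MemLp.const_mul ?_ M)
    exact memLp_finsetSum _ fun j _ => ((hvm j).sub (hw j)).norm
  have hFm : AEStronglyMeasurable (fun x => fF ψ η u f x - Tst φ ψ (fun j => mo_bk m (wF η u j)) x)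
      (volume.restrict Ω) := by
    have e : (fun x => fF ψ η u f x - Tst φ ψ (fun j => mo_bk m (wF η u j)) x) =
        fun x => (Real.exp (-ψ x) : ℂ) * ((mo_bk m (gF φ ψ η u f) x - gF φ ψ η u f x) +
        ∑ j, dz j (fun y => ((φ y - ψ y : ℝ) : ℂ)) x * (wF η u j x - mo_bk m (wF η u j) x)) :=
      funext hdiff
    rw [e]
    have a1 : AEStronglyMeasurable (fun x => ((Real.exp (-ψ x) : ℝ) : ℂ)) (volume.restrict Ω) :=
      (Complex.continuous_ofReal.comp_continuousOn
        (Real.continuous_exp.comp_continuousOn cψ.neg)).aestronglyMeasurable ho.measurableSet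
    have a2 : AEStronglyMeasurable (fun x => mo_bk m (gF φ ψ η u f) x - gF φ ψ η u f x)
      (volume.restrict Ω) := (hgm.sub hg).aestronglyMeasurable.mono_measure Measure.restrict_le_self
    have a3 : ∀ j, AEStronglyMeasurable (fun x => dz j (fun y => ((φ y - ψ y : ℝ) : ℂ)) x *
        (wF η u j x - mo_bk m (wF η u j) x)) (volume.restrict Ω) := fun j =>
      ((dz_cont_on ho (sφ.sub sψ) j).aestronglyMeasurable ho.measurableSet).mul
        (((hw j).sub (hvm j)).aestronglyMeasurable.mono_measure Measure.restrict_le_self)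
    exact a1.mul (a2.add (Finset.aestronglyMeasurable_fun_sum _ fun j _ => a3 j))
  have w2 := wt_bk ho (cφ.sub (continuousOn_const.mul cψ)) θ2 hFm hGm hSm
  have w3 := fun p => wt_bk ho cφ θ3
    (((hc p).sub (hcm p)).aestronglyMeasurable.mono_measure Measure.restrict_le_self)
    (G := fun x => ‖mo_bk m (cF η u c p) x - cF η u c p x‖) ((hcm p).sub (hc p)).norm
    (fun x _ => by
      simp only [Pi.sub_apply]
      rw [norm_sub_rev])
  refine ⟨fun j => mo_bk m (wF η u j), hvt, fun j => (w1 j).1, w2.1, fun p => ?_, ?_, ?_, ?_⟩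
  · simp only [hSst]
    exact (w3 p).1
  · exact (Finset.sum_le_sum fun j _ => (w1 j).2).trans m1
  · refine w2.2.trans (le_trans ?_ m3)
    have hi1 : Integrable (fun x => ‖mo_bk m (gF φ ψ η u f) x - gF φ ψ η u f x‖ ^ 2) volume :=
      (hgm.sub hg).norm.integrable_sq
    have hi2 : ∀ j, Integrable (fun x => ‖mo_bk m (wF η u j) x - wF η u j x‖ ^ 2) volume :=
      fun j => ((hvm j).sub (hw j)).norm.integrable_sq
    rw [← integral_finsetSum _ (fun j _ => hi2 j), ← integral_const_mul, ← integral_const_mul,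
      ← integral_add (hi1.const_mul 2) ((integrable_finsetSum _ fun j _ => hi2 j).const_mul _)]
    apply integral_mono_of_nonneg
    · exact Eventually.of_forall fun x => by positivity
    · exact (hi1.const_mul 2).add ((integrable_finsetSum _ fun j _ => hi2 j).const_mul _)
    · refine Eventually.of_forall fun x => ?_
      simp only
      have h1 : (∑ j, ‖mo_bk m (wF η u j) x - wF η u j x‖) ^ 2 ≤
          n * ∑ j, ‖mo_bk m (wF η u j) x - wF η u j x‖ ^ 2 := by
        have := sq_sum_le_card_mul_sum_sq (s := (Finset.univ : Finset (Fin n)))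
          (f := fun j => ‖mo_bk m (wF η u j) x - wF η u j x‖)
        simpa using this
      have h2 : (‖mo_bk m (gF φ ψ η u f) x - gF φ ψ η u f x‖ +
          M * ∑ j, ‖mo_bk m (wF η u j) x - wF η u j x‖) ^ 2 ≤
          2 * ‖mo_bk m (gF φ ψ η u f) x - gF φ ψ η u f x‖ ^ 2 +
          2 * (M * ∑ j, ‖mo_bk m (wF η u j) x - wF η u j x‖) ^ 2 := by
        nlinarith [sq_nonneg (‖mo_bk m (gF φ ψ η u f) x - gF φ ψ η u f x‖ -
          M * ∑ j, ‖mo_bk m (wF η u j) x - wF η u j x‖)]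
      refine h2.trans (add_le_add le_rfl ?_)
      rw [mul_pow]
      have h3 := mul_le_mul_of_nonneg_left h1 (show 0 ≤ 2 * M ^ 2 by positivity)
      linarith
  · simp only [hSst]
    exact (Finset.sum_le_sum fun p _ => (w3 p).2).trans m2

theorem den (Ω : Set (En n)) (ho : IsOpen Ω) (hb : Bornology.IsBounded Ω) : DEN Ω := by
  intro L ε φ ψ η hε hW u f c h δ hδ
  have sφ := hW.sφ
  have sψ := hW.sψ
  have cφ := sφ.continuousOn
  have cψ := sψ.continuousOn
  have hψ0 := hW.ψ0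
  have hφ2 := hW.φ2
  obtain ⟨e1, e2, e3⟩ := cut_err ho hW h
  have e1s : Tendsto (fun ν => ∑ j, ∫ x in Ω, ‖u j x - wF (η ν) u j x‖ ^ 2 *
      Real.exp (-(φ x - ψ x))) atTop (𝓝 0) := by
    have := tendsto_finsetSum Finset.univ fun j _ => e1 j
    simpa using this
  have e3s : Tendsto (fun ν => ∑ p, ∫ x in Ω, ‖c p x - cF (η ν) u c p x‖ ^ 2 *
      Real.exp (-φ x)) atTop (𝓝 0) := by
    have := tendsto_finsetSum Finset.univ fun p _ => e3 p
    simpa using this
  have hδ4 : 0 < δ / 4 := by linarith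
  obtain ⟨ν, n1, n2, n3⟩ := ((e1s.eventually (ge_mem_nhds hδ4)).and
    ((e2.eventually (ge_mem_nhds hδ4)).and (e3s.eventually (ge_mem_nhds hδ4)))).exists
  obtain ⟨v, hv, M1, M2, M3, b1, b2, b3⟩ := den_cut ho hW h (η ν) (hW.sη ν) (hW.cη ν) (hW.tη ν)
    (δ / 4) hδ4
  have θ1 : ∀ x, 0 ≤ φ x - ψ x := fun x => by
    have := hψ0 x
    have := hφ2 x
    linarith
  have θ2 : ∀ x, 0 ≤ φ x - 2 * ψ x := fun x => by
    have := hφ2 x
    linarith
  have θ3 : ∀ x, 0 ≤ φ x := fun x => by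
    have := hψ0 x
    have := hφ2 x
    linarith
  have hw := wF_mem ho sφ sψ (hW.sη ν) (hW.cη ν) (hW.tη ν) h
  have hc := cF_mem ho sφ sψ (hW.sη ν) (hW.cη ν) (hW.tη ν) h
  have hf := fF_mem ho sφ sψ (hW.sη ν) (hW.cη ν) (hW.tη ν) h
  have N1 : ∀ j, MemLp (fun x => (u j x - wF (η ν) u j x) *
      (Real.exp (-(φ x - ψ x) / 2) : ℝ)) 2 (volume.restrict Ω) := by
    intro j
    have h1 := (wt_bk ho (cφ.sub cψ) θ1 ((hw j).aestronglyMeasurable.mono_measure
      Measure.restrict_le_self) (G := fun x => ‖wF (η ν) u j x‖) (hw j).norm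
      (fun x _ => le_rfl)).1
    have h2 := (h.mu j).sub h1
    refine h2.ae_eq (Eventually.of_forall fun x => ?_)
    simp only [Pi.sub_apply]
    ring
  have N2 : MemLp (fun x => (f x - fF ψ (η ν) u f x) *
      (Real.exp (-(φ x - 2 * ψ x) / 2) : ℝ)) 2 (volume.restrict Ω) := by
    have h1 := (wt_bk (θ := fun x => φ x - 2 * ψ x) ho (cφ.sub (continuousOn_const.mul cψ)) θ2
      (hf.aestronglyMeasurable.mono_measure Measure.restrict_le_self)
      (G := fun x => ‖fF ψ (η ν) u f x‖) hf.norm (fun x _ => le_rfl)).1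
    have h2 := h.mf.sub h1
    refine h2.ae_eq (Eventually.of_forall fun x => ?_)
    simp only [Pi.sub_apply]
    ring
  have N3 : ∀ p, MemLp (fun x => (c p x - cF (η ν) u c p x) *
      (Real.exp (-φ x / 2) : ℝ)) 2 (volume.restrict Ω) := by
    intro p
    have h1 := (wt_bk ho cφ θ3 ((hc p).aestronglyMeasurable.mono_measure
      Measure.restrict_le_self) (G := fun x => ‖cF (η ν) u c p x‖) (hc p).norm
      (fun x _ => le_rfl)).1
    have h2 := (h.mc p).sub h1
    refine h2.ae_eq (Eventually.of_forall fun x => ?_)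
    simp only [Pi.sub_apply]
    ring
  refine ⟨v, hv, ?_, ?_, ?_⟩
  · have key : ∀ j, ∫ x in Ω, ‖u j x - v j x‖ ^ 2 * Real.exp (-(φ x - ψ x)) ≤
        2 * (∫ x in Ω, ‖u j x - wF (η ν) u j x‖ ^ 2 * Real.exp (-(φ x - ψ x))) +
        2 * ∫ x in Ω, ‖wF (η ν) u j x - v j x‖ ^ 2 * Real.exp (-(φ x - ψ x)) := by
      intro j
      have := tri_bk (θ := fun x => φ x - ψ x) (N1 j) (M1 j)
      simpa only [sub_add_sub_cancel] using this
    refine (Finset.sum_le_sum fun j _ => key j).trans ?_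
    rw [Finset.sum_add_distrib, ← Finset.mul_sum, ← Finset.mul_sum]
    linarith
  · have := tri_bk (θ := fun x => φ x - 2 * ψ x) N2 M2
    simp only [sub_add_sub_cancel] at this
    linarith
  · have key : ∀ p, ∫ x in Ω, ‖c p x - Sst v p x‖ ^ 2 * Real.exp (-φ x) ≤
        2 * (∫ x in Ω, ‖c p x - cF (η ν) u c p x‖ ^ 2 * Real.exp (-φ x)) +
        2 * ∫ x in Ω, ‖cF (η ν) u c p x - Sst v p x‖ ^ 2 * Real.exp (-φ x) := by
      intro p
      have := tri_bk (θ := fun x => φ x) (N3 p) (M3 p)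
      simpa only [sub_add_sub_cancel] using this
    refine (Finset.sum_le_sum fun p _ => key p).trans ?_
    rw [Finset.sum_add_distrib, ← Finset.mul_sum, ← Finset.mul_sum]
    linarith

end Mol

end BK.JB3
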