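import Pool.Agent.H314.BK.St

set_option autoImplicit false

open MeasureTheory Complex Filter Topology
open scoped ContDiff InnerProductSpace ENNReal ComplexConjugate

namespace BK.JB4

variable {n : ℕ}

theorem ap_cs {S P X : ℝ} (hX : 0 ≤ X) (hS : 0 ≤ S)
    (h : ∀ s : ℝ, 0 < s → 2 * S ≤ s * P + X / s) : S ^ 2 ≤ P * X := by
  rcases hS.eq_or_lt with h0 | hSp
  · have h1 := h (X + 1) (by linarith)
    subst h0
    rcases hX.eq_or_lt with hx | hx
    · subst hx; simp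
    · have hP : 0 ≤ P := by
        by_contra hP
        push Not at hP
        -- choose s large
        have h2 := h (X / (-P) + 1) (by have : 0 < X / (-P) := div_pos hx (by linarith)
                                        linarith)
        have h3 : h = h := rfl
        have key : ∀ s : ℝ, 0 < s → 0 ≤ s ^ 2 * P + X := by
          intro s hs
          have := h s hs
          have h4 : 0 ≤ (s * P + X / s) * s := by
            apply mul_nonneg _ hs.le
            linarith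
          have h5 : (s * P + X / s) * s = s ^ 2 * P + X := by field_simp
          linarith
        have h6 := key (Real.sqrt (X / (-P)) + 1) (by positivity)
        have h7 : X / (-P) < (Real.sqrt (X / (-P)) + 1) ^ 2 := by
          have hq : 0 ≤ X / (-P) := (div_pos hx (by linarith)).le
          nlinarith [Real.sq_sqrt hq, Real.sqrt_nonneg (X / (-P))]
        rw [div_lt_iff₀ (by linarith)] at h7
        nlinarith
      nlinarith [mul_nonneg hP hX]
  · have key : ∀ s : ℝ, 0 < s → 2 * S * s ≤ s ^ 2 * P + X := by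
      intro s hs
      have := h s hs
      have h4 : 2 * S * s ≤ (s * P + X / s) * s := mul_le_mul_of_nonneg_right this hs.le
      have h5 : (s * P + X / s) * s = s ^ 2 * P + X := by field_simp
      linarith
    rcases le_or_gt P 0 with hP | hP
    · exfalso
      have h1 := key ((X + 1) / (2 * S)) (by positivity)
      have h2 : 2 * S * ((X + 1) / (2 * S)) = X + 1 := by field_simp
      have h3 : ((X + 1) / (2 * S)) ^ 2 * P ≤ 0 := mul_nonpos_of_nonneg_of_nonpos (sq_nonneg _) hP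
      linarith
    · have h1 := key (S / P) (by positivity)
      have h2 : (S / P) ^ 2 * P = S ^ 2 / P := by field_simp
      have h3 : 2 * S * (S / P) = 2 * (S ^ 2 / P) := by ring
      have h4 : S ^ 2 / P ≤ X := by linarith
      rw [div_le_iff₀ hP] at h4
      linarith

theorem ap_memLp {Ω : Set (En n)} (ho : IsOpen Ω) {K : Set (En n)} (hK : IsCompact K)
    (hKΩ : K ⊆ Ω) {g : En n → ℂ} (hg : ContinuousOn g Ω) (h0 : ∀ x ∈ Ω, x ∉ K → g x = 0) :
    MemLp g 2 (volume.restrict Ω) := by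
  have hm : AEStronglyMeasurable g (volume.restrict Ω) :=
    hg.aestronglyMeasurable ho.measurableSet
  rw [memLp_two_iff_integrable_sq_norm hm]
  have h1 : IntegrableOn (fun x => ‖g x‖ ^ 2) K :=
    ((hg.mono hKΩ).norm.pow 2).integrableOn_compact hK
  exact h1.of_forall_sdiff_eq_zero ho.measurableSet (fun x hx => by simp [h0 x hx.1 hx.2])

/-- union of the supports -/
def Ksup (u : Fin n → En n → ℂ) : Set (En n) := ⋃ j, tsupport (u j)

theorem ap_Ksup {Ω : Set (En n)} {u : Fin n → En n → ℂ} (hu : ∀ j, IsTest Ω (u j)) :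
    IsCompact (Ksup u) ∧ Ksup u ⊆ Ω := by
  constructor
  · exact isCompact_iUnion (fun j => (hu j).compact)
  · exact Set.iUnion_subset (fun j => (hu j).supp)

theorem ap_dz_zero {φ : En n → ℂ} {x : En n} (h : x ∉ tsupport φ) (j : Fin n) : dz j φ x = 0 := by
  unfold dz
  rw [fderiv_of_notMem_tsupport ℝ h]
  simp

theorem ap_dbar_zero {φ : En n → ℂ} {x : En n} (h : x ∉ tsupport φ) (j : Fin n) :
    dbar j φ x = 0 := by
  unfold dbar
  rw [fderiv_of_notMem_tsupport ℝ h]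
  simp

theorem ap_zero {φ : En n → ℂ} {x : En n} (h : x ∉ tsupport φ) : φ x = 0 :=
  image_eq_zero_of_notMem_tsupport h

theorem ap_dz_cont {Ω : Set (En n)} (ho : IsOpen Ω) {φ : En n → ℂ} (h : ContDiffOn ℝ ∞ φ Ω)
    (j : Fin n) : ContinuousOn (dz j φ) Ω := by
  have h1 : ContinuousOn (fderiv ℝ φ) Ω := h.continuousOn_fderiv_of_isOpen ho (by simp)
  unfold dz
  exact continuousOn_const.mul ((h1.clm_apply continuousOn_const).sub
    (continuousOn_const.mul (h1.clm_apply continuousOn_const)))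

theorem ap_dbar_cont {Ω : Set (En n)} (ho : IsOpen Ω) {φ : En n → ℂ} (h : ContDiffOn ℝ ∞ φ Ω)
    (j : Fin n) : ContinuousOn (dbar j φ) Ω := by
  have h1 : ContinuousOn (fderiv ℝ φ) Ω := h.continuousOn_fderiv_of_isOpen ho (by simp)
  unfold dbar
  exact continuousOn_const.mul ((h1.clm_apply continuousOn_const).add
    (continuousOn_const.mul (h1.clm_apply continuousOn_const)))

theorem ap_ofReal {Ω : Set (En n)} {φ : En n → ℝ} (h : ContDiffOn ℝ ∞ φ Ω) :
    ContDiffOn ℝ ∞ (fun y => ((φ y : ℝ) : ℂ)) Ω :=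
  Complex.ofRealCLM.contDiff.comp_contDiffOn h

theorem ap_dbar_conj {φ : En n → ℂ} (h : Differentiable ℝ φ) (j : Fin n) (x : En n) :
    conj (dz j φ x) = dbar j (fun y => conj (φ y)) x := by
  have h1 : HasFDerivAt (fun y => conj (φ y))
      ((Complex.conjCLE : ℂ →L[ℝ] ℂ).comp (fderiv ℝ φ x)) x :=
    (Complex.conjCLE : ℂ →L[ℝ] ℂ).hasFDerivAt.comp x (h x).hasFDerivAt
  unfold dz dbar
  rw [h1.fderiv]
  simp
  left
  exact map_ofNat _ 2

theorem ap_test_conj {Ω : Set (En n)} {φ : En n → ℂ} (h : IsTest Ω φ) :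
    IsTest Ω (fun y => conj (φ y)) := by
  have hs : tsupport (fun y => conj (φ y)) = tsupport φ := by
    unfold tsupport
    congr 1
    ext y
    simp
  refine ⟨?_, ?_, ?_⟩
  · exact (Complex.conjCLE : ℂ →L[ℝ] ℂ).contDiff.comp h.smooth
  · unfold HasCompactSupport
    rw [hs]
    exact h.compact
  · rw [hs]
    exact h.supp

/-- integration by parts -/
theorem ap_ibp {Ω : Set (En n)} {v g : En n → ℂ} (hv : IsTest Ω v) (hg : IsTest Ω g) (k : Fin n) :
    ∫ x, v x * dbar k g x = - ∫ x, dbar k v x * g x := by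
  have cv : Continuous v := hv.smooth.continuous
  have cg : Continuous g := hg.smooth.continuous
  have cfv : Continuous (fderiv ℝ v) := hv.smooth.continuous_fderiv (by simp)
  have cfg : Continuous (fderiv ℝ g) := hg.smooth.continuous_fderiv (by simp)
  have key : ∀ w : En n, (∫ x, v x * fderiv ℝ g x w = - ∫ x, fderiv ℝ v x w * g x) ∧
      Integrable (fun x => v x * fderiv ℝ g x w) ∧ Integrable (fun x => fderiv ℝ v x w * g x) := by
    intro w
    have i1 : Integrable (fun x => fderiv ℝ v x w * g x) :=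
      ((cfv.clm_apply continuous_const).mul cg).integrable_of_hasCompactSupport
        (hg.compact.mul_left)
    have i2 : Integrable (fun x => v x * fderiv ℝ g x w) :=
      (cv.mul (cfg.clm_apply continuous_const)).integrable_of_hasCompactSupport
        (hv.compact.mul_right)
    have i3 : Integrable (fun x => v x * g x) :=
      (cv.mul cg).integrable_of_hasCompactSupport (hv.compact.mul_right)
    refine ⟨?_, i2, i1⟩
    exact integral_mul_fderiv_eq_neg_fderiv_mul_of_integrable i1 i2 i3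
      (fun x _ => (hv.smooth.differentiable (by simp)) x)
      (fun x _ => (hg.smooth.differentiable (by simp)) x)
  obtain ⟨a1, a2, a3⟩ := key (Pi.single k 1)
  obtain ⟨b1, b2, b3⟩ := key (Pi.single k I)
  have e1 : ∀ x, v x * dbar k g x = (1 / 2) * (v x * fderiv ℝ g x (Pi.single k 1)) +
      (1 / 2 * I) * (v x * fderiv ℝ g x (Pi.single k I)) := by
    intro x; unfold dbar; ring
  have e2 : ∀ x, dbar k v x * g x = (1 / 2) * (fderiv ℝ v x (Pi.single k 1) * g x) +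
      (1 / 2 * I) * (fderiv ℝ v x (Pi.single k I) * g x) := by
    intro x; unfold dbar; ring
  simp_rw [e1, e2]
  rw [integral_add (a2.const_mul _) (b2.const_mul _), integral_add (a3.const_mul _) (b3.const_mul _),
    integral_const_mul, integral_const_mul, integral_const_mul, integral_const_mul, a1, b1]
  ring

theorem ap_intOn {Ω : Set (En n)} (ho : IsOpen Ω) {K : Set (En n)} (hK : IsCompact K)
    (hKΩ : K ⊆ Ω) {g : En n → ℝ} (hg : ContinuousOn g Ω) (h0 : ∀ x ∈ Ω, x ∉ K → g x = 0) :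
    IntegrableOn g Ω := by
  have h1 : IntegrableOn g K := (hg.mono hKΩ).integrableOn_compact hK
  exact h1.of_forall_sdiff_eq_zero ho.measurableSet (fun x hx => by simp [h0 x hx.1 hx.2])

theorem ap_dbar_cont' {φ : En n → ℂ} (h : ContDiff ℝ ∞ φ) (j : Fin n) : Continuous (dbar j φ) := by
  have := ap_dbar_cont (Ω := Set.univ) isOpen_univ h.contDiffOn j
  rwa [continuousOn_univ] at this

theorem ap_dz_cont' {φ : En n → ℂ} (h : ContDiff ℝ ∞ φ) (j : Fin n) : Continuous (dz j φ) := by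
  have := ap_dz_cont (Ω := Set.univ) isOpen_univ h.contDiffOn j
  rwa [continuousOn_univ] at this

theorem ap_E1 {Ω : Set (En n)} {v : Fin n → En n → ℂ} (hv : ∀ j, IsTest Ω (v j))
    {χ : Fin n → Fin n → En n → ℂ} (hχ : ∀ j k, IsTest Ω (χ j k)) :
    ∫ x in Ω, ∑ j, v j x * conj (gf χ j x) =
      ∑ j, ∑ k, ∫ x in Ω, dbar k (v j) x * conj (χ j k x) := by
  have hc := fun j k => ap_test_conj (hχ j k)
  have e : ∀ x, ∑ j, v j x * conj (gf χ j x) =
      ∑ j, ∑ k, -(v j x * dbar k (fun y => conj (χ j k y)) x) := by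
    intro x
    refine Finset.sum_congr rfl fun j _ => ?_
    unfold gf
    rw [map_neg, map_sum, mul_neg, Finset.mul_sum, ← Finset.sum_neg_distrib]
    refine Finset.sum_congr rfl fun k _ => ?_
    rw [ap_dbar_conj ((hχ j k).smooth.differentiable (by simp))]
  have hint : ∀ j k, IntegrableOn (fun x => -(v j x * dbar k (fun y => conj (χ j k y)) x)) Ω := by
    intro j k
    have h1 : Integrable (fun x => (v j x * dbar k (fun y => conj (χ j k y)) x)) :=
      ((hv j).smooth.continuous.mul (ap_dbar_cont' (hc j k).smooth k)).integrable_of_hasCompactSupport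
      ((hv j).compact.mul_right)
    exact h1.neg.integrableOn
  simp_rw [e]
  rw [integral_finsetSum _ (fun j _ => integrable_finsetSum _ (fun k _ => hint j k))]
  refine Finset.sum_congr rfl fun j _ => ?_
  rw [integral_finsetSum _ (fun k _ => hint j k)]
  refine Finset.sum_congr rfl fun k _ => ?_
  rw [integral_neg]
  rw [setIntegral_eq_integral_of_forall_compl_eq_zero (fun x hx => by
    rw [ap_dbar_zero (fun h => hx ((hc j k).supp h)), mul_zero])]
  rw [ap_ibp (hv j) (hc j k) k, neg_neg]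
  rw [setIntegral_eq_integral_of_forall_compl_eq_zero (fun x hx => by
    rw [ap_dbar_zero (fun h => hx ((hv j).supp h)), zero_mul])]

/-- weighted Young inequality for one pair of functions -/
theorem ap_pair {α : Type*} [MeasurableSpace α] {μ : Measure α} {a b : α → ℂ} {w : α → ℝ}
    (i1 : Integrable (fun x => ‖a x‖ ^ 2 * w x) μ) (i2 : Integrable (fun x => ‖b x‖ ^ 2) μ)
    (hw0 : ∀ x, 0 ≤ w x) (hw : ∀ x, b x ≠ 0 → w x = 1) {s : ℝ} (hs : 0 < s) :
    2 * ∫ x, ‖a x‖ * ‖b x‖ ∂μ ≤ s * (∫ x, ‖a x‖ ^ 2 * w x ∂μ) + (∫ x, ‖b x‖ ^ 2 ∂μ) / s := by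
  have j1 := i1.const_mul s
  have j2 := i2.div_const s
  have e : s * (∫ x, ‖a x‖ ^ 2 * w x ∂μ) + (∫ x, ‖b x‖ ^ 2 ∂μ) / s =
      ∫ x, (s * (‖a x‖ ^ 2 * w x) + ‖b x‖ ^ 2 / s) ∂μ := by
    rw [integral_add j1 j2, integral_const_mul, integral_div]
  rw [e, ← integral_const_mul]
  refine integral_mono_of_nonneg (Eventually.of_forall fun x => by positivity)
    (j1.add j2) (Eventually.of_forall fun x => ?_)
  simp only []
  by_cases hx : b x = 0
  · have := hw0 x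
    rw [hx]
    simp only [norm_zero, mul_zero]
    positivity
  · rw [hw x hx, mul_one]
    have h1 : 0 ≤ (s * ‖a x‖ - ‖b x‖) ^ 2 / s := by positivity
    have h2 : (s * ‖a x‖ - ‖b x‖) ^ 2 / s = s * ‖a x‖ ^ 2 +
      ‖b x‖ ^ 2 / s - 2 * (‖a x‖ * ‖b x‖) := by field_simp; ring
    linarith

theorem ap_int2 {Ω : Set (En n)} {χ : En n → ℂ} (h : IsTest Ω χ) :
    Integrable (fun x => ‖χ x‖ ^ 2) := by
  have h1 : Continuous (fun x => ‖χ x‖ ^ 2) := h.smooth.continuous.norm.pow 2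
  refine h1.integrable_of_hasCompactSupport ?_
  refine h.compact.mono ?_
  intro x hx hx'
  apply hx
  simp only [hx', norm_zero]
  norm_num

theorem ap_e3 {Ω : Set (En n)} {χ : En n → ℂ} (h : IsTest Ω χ) :
    ∫ x in Ω, ‖χ x‖ ^ 2 = ∫ x, ‖χ x‖ ^ 2 := by
  apply setIntegral_eq_integral_of_forall_compl_eq_zero
  intro x hx
  have : χ x = 0 := ap_zero (fun h' => hx (h.supp h'))
  rw [this, norm_zero]
  norm_num

theorem ap_A (Ω : Set (En n)) (ho : IsOpen Ω) (hT : TI Ω)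
    (L : Set (En n)) (ε : ℝ) (hε : 0 < ε)
    (φ ψ : En n → ℝ) (η : ℕ → En n → ℝ) (hW : Wts Ω L ε φ ψ η)
    {v : Fin n → En n → ℂ} (hv : ∀ j, IsTest Ω (v j))
    {χ : Fin n → Fin n → En n → ℂ} (hχ : ∀ j k, IsTest Ω (χ j k))
    (hχL : ∀ j k, tsupport (χ j k) ⊆ L) :
    ‖∫ x in Ω, ∑ j, v j x * conj (gf χ j x)‖ ^ 2 ≤
      ((1 + ε) * (∫ x in Ω, ‖Tst φ ψ v x‖ ^ 2 * Real.exp (-(φ x - 2 * ψ x))) +
        ∑ p, ∫ x in Ω, ‖Sst v p x‖ ^ 2 * Real.exp (-φ x)) * ∑ j, ∑ k, ∫ x, ‖χ j k x‖ ^ 2 := by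
  have hTI := hT L ε φ ψ η hε hW v hv
  have hX : 0 ≤ ∑ j, ∑ k, ∫ x, ‖χ j k x‖ ^ 2 :=
    Finset.sum_nonneg fun j _ => Finset.sum_nonneg fun k _ => integral_nonneg fun x => by positivity
  have hS : 0 ≤ ∑ j, ∑ k, ∫ x in Ω, ‖dbar k (v j) x‖ * ‖χ j k x‖ :=
    Finset.sum_nonneg fun j _ => Finset.sum_nonneg fun k _ => integral_nonneg fun x => by positivity
  have hle : ‖∫ x in Ω, ∑ j, v j x * conj (gf χ j x)‖ ≤
      ∑ j, ∑ k, ∫ x in Ω, ‖dbar k (v j) x‖ * ‖χ j k x‖ := by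
    rw [ap_E1 hv hχ]
    refine (norm_sum_le _ _).trans (Finset.sum_le_sum fun j _ => ?_)
    refine (norm_sum_le _ _).trans (Finset.sum_le_sum fun k _ => ?_)
    refine (norm_integral_le_integral_norm _).trans (le_of_eq ?_)
    congr 1
    ext x
    rw [norm_mul, RCLike.norm_conj]
  have hjk : ∀ j k, ∀ s : ℝ, 0 < s → 2 * ∫ x in Ω, ‖dbar k (v j) x‖ * ‖χ j k x‖ ≤
      s * (∫ x in Ω, ‖dbar k (v j) x‖ ^ 2 * Real.exp (-φ x)) + (∫ x, ‖χ j k x‖ ^ 2) / s := by
    intro j k s hs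
    have i1 : IntegrableOn (fun x => ‖dbar k (v j) x‖ ^ 2 * Real.exp (-φ x)) Ω := by
      refine ap_intOn ho (hv j).compact (hv j).supp ?_ ?_
      · exact ((ap_dbar_cont' (hv j).smooth k).continuousOn.norm.pow 2).mul
          (Real.continuous_exp.comp_continuousOn hW.sφ.continuousOn.neg)
      · intro x _ hx
        rw [ap_dbar_zero hx]; simp
    have i2 : Integrable (fun x => ‖χ j k x‖ ^ 2) := ap_int2 (hχ j k)
    have e3 : ∫ x in Ω, ‖χ j k x‖ ^ 2 = ∫ x, ‖χ j k x‖ ^ 2 := ap_e3 (hχ j k)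
    rw [← e3]
    refine ap_pair i1 i2.integrableOn (fun x => (Real.exp_pos _).le) ?_ hs
    intro x hx
    have hxL : x ∈ L := by
      by_contra h
      exact hx (ap_zero (fun h' => h (hχL j k h')))
    rw [hW.zL x hxL]; simp
  have hcs : (∑ j, ∑ k, ∫ x in Ω, ‖dbar k (v j) x‖ * ‖χ j k x‖) ^ 2 ≤
      (∑ j, ∑ k, ∫ x in Ω, ‖dbar k (v j) x‖ ^ 2 * Real.exp (-φ x)) *
        ∑ j, ∑ k, ∫ x, ‖χ j k x‖ ^ 2 := by
    apply ap_cs hX hS
    intro s hs
    rw [Finset.mul_sum, Finset.mul_sum, Finset.sum_div, ← Finset.sum_add_distrib]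
    refine Finset.sum_le_sum fun j _ => ?_
    rw [Finset.mul_sum, Finset.mul_sum, Finset.sum_div, ← Finset.sum_add_distrib]
    exact Finset.sum_le_sum fun k _ => hjk j k s hs
  exact (pow_le_pow_left₀ (norm_nonneg _) hle 2).trans
    (hcs.trans (mul_le_mul_of_nonneg_right hTI hX))


theorem ap_wt (a : ℂ) (w : ℝ) :
    ‖a * ((Real.exp (-w / 2) : ℝ) : ℂ)‖ ^ 2 = ‖a‖ ^ 2 * Real.exp (-w) := by
  rw [norm_mul, mul_pow, Complex.norm_real, Real.norm_eq_abs, sq_abs, ← Real.exp_nat_mul]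
  congr 2
  push_cast
  ring

theorem ap_wint {α : Type*} [MeasurableSpace α] {μ : Measure α} {F : α → ℂ} {w : α → ℝ}
    (h : MemLp (fun x => F x * ((Real.exp (-(w x) / 2) : ℝ) : ℂ)) 2 μ) :
    Integrable (fun x => ‖F x‖ ^ 2 * Real.exp (-(w x))) μ := by
  have h1 := (memLp_two_iff_integrable_sq_norm h.1).1 h
  simpa only [ap_wt] using h1

theorem ap_wsub {α : Type*} [MeasurableSpace α] {μ : Measure α} {F H : α → ℂ} {w : α → ℝ}
    (h : MemLp (fun x => F x * ((Real.exp (-(w x) / 2) : ℝ) : ℂ)) 2 μ)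
    (h' : MemLp (fun x => H x * ((Real.exp (-(w x) / 2) : ℝ) : ℂ)) 2 μ) :
    MemLp (fun x => (F x - H x) * ((Real.exp (-(w x) / 2) : ℝ) : ℂ)) 2 μ := by
  have h1 := h.sub h'
  refine h1.ae_eq (Eventually.of_forall fun x => ?_)
  simp only [Pi.sub_apply]
  ring

theorem ap_young {α : Type*} [MeasurableSpace α] {μ : Measure α} {F H : α → ℂ} {w : α → ℝ}
    (hw : ∀ x, 0 ≤ w x) (iF : Integrable (fun x => ‖F x‖ ^ 2 * w x) μ)
    (iD : Integrable (fun x => ‖F x - H x‖ ^ 2 * w x) μ) {t : ℝ} (ht : 0 < t) :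
    ∫ x, ‖H x‖ ^ 2 * w x ∂μ ≤ (1 + t) * (∫ x, ‖F x‖ ^ 2 * w x ∂μ) +
      (1 + 1 / t) * ∫ x, ‖F x - H x‖ ^ 2 * w x ∂μ := by
  have j1 := iF.const_mul (1 + t)
  have j2 := iD.const_mul (1 + 1 / t)
  rw [← integral_const_mul, ← integral_const_mul, ← integral_add j1 j2]
  refine integral_mono_of_nonneg (Eventually.of_forall fun x => mul_nonneg (by positivity) (hw x))
    (j1.add j2) (Eventually.of_forall fun x => ?_)
  simp only []
  have h1 : ‖H x‖ ≤ ‖F x‖ + ‖F x - H x‖ := by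
    have : H x = F x - (F x - H x) := by ring
    calc ‖H x‖ = ‖F x - (F x - H x)‖ := by rw [← this]
      _ ≤ _ := norm_sub_le _ _
  have h2 : ‖H x‖ ^ 2 ≤ (1 + t) * ‖F x‖ ^ 2 + (1 + 1 / t) * ‖F x - H x‖ ^ 2 := by
    have h3 : ‖H x‖ ^ 2 ≤ (‖F x‖ + ‖F x - H x‖) ^ 2 := pow_le_pow_left₀ (norm_nonneg _) h1 2
    have h4 : 0 ≤ (t * ‖F x‖ - ‖F x - H x‖) ^ 2 / t := by positivity
    have h5 : (t * ‖F x‖ - ‖F x - H x‖) ^ 2 / t = t * ‖F x‖ ^ 2 + 1 / t * ‖F x - H x‖ ^ 2 -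
      2 * ‖F x‖ * ‖F x - H x‖ := by field_simp; ring
    nlinarith
  have h6 := mul_le_mul_of_nonneg_right h2 (hw x)
  linarith

theorem ap_lim {a b : ℝ} {K : ℝ → ℝ} (hb : 0 ≤ b)
    (h : ∀ t, 0 < t → ∀ δ, 0 < δ → a ≤ (1 + t) ^ 2 * b + δ * K t) : a ≤ b := by
  have h1 : ∀ t, 0 < t → a ≤ (1 + t) ^ 2 * b := by
    intro t ht
    apply le_of_forall_pos_le_add
    intro e he
    have h2 := h t ht (e / (|K t| + 1)) (by positivity)
    have h3 : e / (|K t| + 1) * K t ≤ e := by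
      rw [div_mul_eq_mul_div, div_le_iff₀ (by positivity)]
      have := le_abs_self (K t)
      nlinarith
    linarith
  apply le_of_forall_pos_le_add
  intro e he
  have ht : 0 < min 1 (e / (3 * b + 1)) := lt_min one_pos (by positivity)
  have h2 := h1 _ ht
  set t := min 1 (e / (3 * b + 1)) with htd
  have t1 : t ≤ 1 := min_le_left _ _
  have t2 : t ≤ e / (3 * b + 1) := min_le_right _ _
  rw [le_div_iff₀ (by positivity)] at t2
  have t3 : t ^ 2 ≤ t := by nlinarith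
  have t4 : t ^ 2 * b ≤ t * b := mul_le_mul_of_nonneg_right t3 hb
  nlinarith

theorem ap_Tst_cont {Ω : Set (En n)} (ho : IsOpen Ω) {φ ψ : En n → ℝ} (sφ : ContDiffOn ℝ ∞ φ Ω)
    (sψ : ContDiffOn ℝ ∞ ψ Ω) {v : Fin n → En n → ℂ} (hv : ∀ j, IsTest Ω (v j)) :
    ContinuousOn (Tst φ ψ v) Ω := by
  unfold Tst
  have h1 : ContinuousOn (fun x => ((Real.exp (-ψ x) : ℝ) : ℂ)) Ω :=
    Complex.continuous_ofReal.comp_continuousOn
      (Real.continuous_exp.comp_continuousOn sψ.continuousOn.neg)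
  refine h1.mul (ContinuousOn.neg ?_)
  refine continuousOn_finsetSum _ fun j _ => ?_
  refine (ap_dz_cont' (hv j).smooth j).continuousOn.sub ?_
  exact (ap_dz_cont ho (ap_ofReal (sφ.sub sψ)) j).mul (hv j).smooth.continuous.continuousOn

theorem ap_Tst_zero {φ ψ : En n → ℝ} {v : Fin n → En n → ℂ} {x : En n} (h : x ∉ Ksup v) :
    Tst φ ψ v x = 0 := by
  have h1 : ∀ j, x ∉ tsupport (v j) := fun j h' => h (Set.mem_iUnion.2 ⟨j, h'⟩)
  unfold Tst
  have : ∑ j, (dz j (v j) x - dz j (fun y => ((φ y - ψ y : ℝ) : ℂ)) x * v j x) = 0 := by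
    refine Finset.sum_eq_zero fun j _ => ?_
    rw [ap_dz_zero (h1 j), ap_zero (h1 j)]
    ring
  rw [this, neg_zero, mul_zero]

theorem ap_Sst_cont {Ω : Set (En n)} {v : Fin n → En n → ℂ} (hv : ∀ j, IsTest Ω (v j)) (p : Pr n) :
    ContinuousOn (Sst v p) Ω := by
  unfold Sst
  exact (ap_dbar_cont' (hv _).smooth _).continuousOn.sub (ap_dbar_cont' (hv _).smooth _).continuousOn

theorem ap_Sst_zero {v : Fin n → En n → ℂ} {x : En n} (h : x ∉ Ksup v) (p : Pr n) :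
    Sst v p x = 0 := by
  have h1 : ∀ j, x ∉ tsupport (v j) := fun j h' => h (Set.mem_iUnion.2 ⟨j, h'⟩)
  unfold Sst
  rw [ap_dbar_zero (h1 _), ap_dbar_zero (h1 _), sub_zero]

theorem ap_wmem {Ω : Set (En n)} (ho : IsOpen Ω) {K : Set (En n)} (hK : IsCompact K)
    (hKΩ : K ⊆ Ω) {g : En n → ℂ} (hg : ContinuousOn g Ω) (h0 : ∀ x, x ∉ K → g x = 0)
    {w : En n → ℝ} (hw : ContinuousOn w Ω) :
    MemLp (fun x => g x * ((Real.exp (-(w x) / 2) : ℝ) : ℂ)) 2 (volume.restrict Ω) := by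
  refine ap_memLp ho hK hKΩ (hg.mul ?_) ?_
  · exact Complex.continuous_ofReal.comp_continuousOn
      (Real.continuous_exp.comp_continuousOn (hw.neg.div_const 2))
  · intro x _ hx
    rw [h0 x hx, zero_mul]

theorem ap_gf_cont {χ : Fin n → Fin n → En n → ℂ} {Ω : Set (En n)} (hχ : ∀ j k, IsTest Ω (χ j k))
    (j : Fin n) : Continuous (gf χ j) := by
  unfold gf
  exact (continuous_finsetSum _ fun k _ => ap_dz_cont' (hχ j k).smooth k).neg

theorem ap_gf_zero {χ : Fin n → Fin n → En n → ℂ} {L : Set (En n)}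
    (hχL : ∀ j k, tsupport (χ j k) ⊆ L) (j : Fin n) {x : En n} (hx : x ∉ L) : gf χ j x = 0 := by
  unfold gf
  rw [Finset.sum_eq_zero, neg_zero]
  intro k _
  exact ap_dz_zero (fun h => hx (hχL j k h)) k


/-- the cross term -/
theorem ap_cross {Ω : Set (En n)} (ho : IsOpen Ω) {L : Set (En n)} (hL : IsCompact L)
    (hLΩ : L ⊆ Ω) {d : Fin n → En n → ℂ} {w : En n → ℝ}
    (hd : ∀ j, MemLp (fun x => d j x * ((Real.exp (-(w x) / 2) : ℝ) : ℂ)) 2 (volume.restrict Ω))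
    (hwL : ∀ x ∈ L, w x = 0)
    {χ : Fin n → Fin n → En n → ℂ} (hχ : ∀ j k, IsTest Ω (χ j k))
    (hχL : ∀ j k, tsupport (χ j k) ⊆ L) :
    (∀ j, IntegrableOn (fun x => d j x * conj (gf χ j x)) Ω) ∧
    ‖∫ x in Ω, ∑ j, d j x * conj (gf χ j x)‖ ^ 2 ≤
      (∑ j, ∫ x in Ω, ‖d j x‖ ^ 2 * Real.exp (-(w x))) * ∑ j, ∫ x in Ω, ‖gf χ j x‖ ^ 2 := by
  have hgm : ∀ j, MemLp (gf χ j) 2 (volume.restrict Ω) := fun j =>
    ap_memLp ho hL hLΩ (ap_gf_cont hχ j).continuousOn (fun x _ hx => ap_gf_zero hχL j hx)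
  have hgi : ∀ j, Integrable (fun x => ‖gf χ j x‖ ^ 2) (volume.restrict Ω) := fun j =>
    (memLp_two_iff_integrable_sq_norm (hgm j).1).1 (hgm j)
  have hcg : ∀ j, MemLp (fun x => conj (gf χ j x)) 2 (volume.restrict Ω) := fun j => by
    refine ap_memLp ho hL hLΩ ?_ ?_
    · exact (Complex.continuous_conj.comp (ap_gf_cont hχ j)).continuousOn
    · intro x _ hx
      rw [ap_gf_zero hχL j hx, map_zero]
  have hint : ∀ j, IntegrableOn (fun x => d j x * conj (gf χ j x)) Ω := by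
    intro j
    have h1 := MemLp.integrable_mul (hd j) (hcg j)
    refine h1.congr (Eventually.of_forall fun x => ?_)
    simp only [Pi.mul_apply]
    by_cases hx : x ∈ L
    · rw [hwL x hx]; simp
    · rw [ap_gf_zero hχL j hx]; simp
  refine ⟨hint, ?_⟩
  have hX : 0 ≤ ∑ j, ∫ x in Ω, ‖gf χ j x‖ ^ 2 :=
    Finset.sum_nonneg fun j _ => integral_nonneg fun x => by positivity
  have hS : 0 ≤ ∑ j, ∫ x in Ω, ‖d j x‖ * ‖gf χ j x‖ :=
    Finset.sum_nonneg fun j _ => integral_nonneg fun x => by positivity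
  have hle : ‖∫ x in Ω, ∑ j, d j x * conj (gf χ j x)‖ ≤
      ∑ j, ∫ x in Ω, ‖d j x‖ * ‖gf χ j x‖ := by
    rw [integral_finsetSum _ (fun j _ => hint j)]
    refine (norm_sum_le _ _).trans (Finset.sum_le_sum fun j _ => ?_)
    refine (norm_integral_le_integral_norm _).trans (le_of_eq ?_)
    congr 1
    ext x
    rw [norm_mul, RCLike.norm_conj]
  have hcs : (∑ j, ∫ x in Ω, ‖d j x‖ * ‖gf χ j x‖) ^ 2 ≤
      (∑ j, ∫ x in Ω, ‖d j x‖ ^ 2 * Real.exp (-(w x))) * ∑ j, ∫ x in Ω, ‖gf χ j x‖ ^ 2 := by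
    apply ap_cs hX hS
    intro s hs
    rw [Finset.mul_sum, Finset.mul_sum, Finset.sum_div, ← Finset.sum_add_distrib]
    refine Finset.sum_le_sum fun j _ => ?_
    refine ap_pair (ap_wint (hd j)) (hgi j) (fun x => (Real.exp_pos _).le) ?_ hs
    intro x hx
    have hxL : x ∈ L := by
      by_contra h
      exact hx (ap_gf_zero hχL j h)
    rw [hwL x hxL]; simp
  exact (pow_le_pow_left₀ (norm_nonneg _) hle 2).trans hcs

theorem ap (Ω : Set (En n)) (ho : IsOpen Ω) (hb : Bornology.IsBounded Ω) (hT : TI Ω)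
    (hD : DEN Ω) (L : Set (En n)) (hL : IsCompact L) (hLΩ : L ⊆ Ω) (ε : ℝ) (hε : 0 < ε)
    (φ ψ : En n → ℝ) (η : ℕ → En n → ℝ) (hW : Wts Ω L ε φ ψ η) : AP Ω L ε φ ψ := by
  intro u f c hR χ hχ hχL
  have hφψL : ∀ x ∈ L, φ x - ψ x = 0 := by
    intro x hx
    have h1 := hW.ψ0 x
    have h2 := hW.φ2 x
    have h3 := hW.zL x hx
    linarith
  have hX : 0 ≤ ∑ j, ∑ k, ∫ x, ‖χ j k x‖ ^ 2 :=
    Finset.sum_nonneg fun j _ => Finset.sum_nonneg fun k _ => integral_nonneg fun x => by positivity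
  have hA : 0 ≤ ∫ x in Ω, ‖f x‖ ^ 2 * Real.exp (-(φ x - 2 * ψ x)) :=
    integral_nonneg fun x => by positivity
  have hB : 0 ≤ ∑ p, ∫ x in Ω, ‖c p x‖ ^ 2 * Real.exp (-φ x) :=
    Finset.sum_nonneg fun p _ => integral_nonneg fun x => by positivity
  have cW1 : ContinuousOn (fun x => φ x - ψ x) Ω := hW.sφ.continuousOn.sub hW.sψ.continuousOn
  have cW2 : ContinuousOn (fun x => φ x - 2 * ψ x) Ω :=
    hW.sφ.continuousOn.sub (continuousOn_const.mul hW.sψ.continuousOn)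
  set X := ∑ j, ∑ k, ∫ x, ‖χ j k x‖ ^ 2 with hXd
  set A := ∫ x in Ω, ‖f x‖ ^ 2 * Real.exp (-(φ x - 2 * ψ x)) with hAd
  set B := ∑ p, ∫ x in Ω, ‖c p x‖ ^ 2 * Real.exp (-φ x) with hBd
  set G := ∑ j, ∫ x in Ω, ‖gf χ j x‖ ^ 2 with hGd
  have hG : 0 ≤ G := Finset.sum_nonneg fun j _ => integral_nonneg fun x => by positivity
  refine ap_lim (K := fun t => (1 + 1 / t) * ((1 + t) * (2 + ε) * X + G)) (by positivity) ?_
  intro t ht δ hδ
  obtain ⟨v, hv, d1, d2, d3⟩ := hD L ε φ ψ η hε hW u f c hR δ hδ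
  obtain ⟨hKc, hKΩ⟩ := ap_Ksup hv
  -- members
  have mv : ∀ j, MemLp (fun x => v j x * ((Real.exp (-(φ x - ψ x) / 2) : ℝ) : ℂ)) 2
      (volume.restrict Ω) := fun j =>
    ap_wmem ho (hv j).compact (hv j).supp (hv j).smooth.continuous.continuousOn
      (fun x hx => ap_zero hx) (w := fun x => φ x - ψ x) cW1
  have mT : MemLp (fun x => Tst φ ψ v x * ((Real.exp (-(φ x - 2 * ψ x) / 2) : ℝ) : ℂ)) 2
      (volume.restrict Ω) :=
    ap_wmem ho hKc hKΩ (ap_Tst_cont ho hW.sφ hW.sψ hv) (fun x hx => ap_Tst_zero hx)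
      (w := fun x => φ x - 2 * ψ x) cW2
  have mS : ∀ p, MemLp (fun x => Sst v p x * ((Real.exp (-φ x / 2) : ℝ) : ℂ)) 2
      (volume.restrict Ω) := fun p =>
    ap_wmem ho hKc hKΩ (ap_Sst_cont hv p) (fun x hx => ap_Sst_zero hx p)
      (w := fun x => φ x) hW.sφ.continuousOn
  have y1 : ∫ x in Ω, ‖Tst φ ψ v x‖ ^ 2 * Real.exp (-(φ x - 2 * ψ x)) ≤
      (1 + t) * A + (1 + 1 / t) * δ := by
    have h1 := ap_young (μ := volume.restrict Ω) (F := f) (H := Tst φ ψ v)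
      (w := fun x => Real.exp (-(φ x - 2 * ψ x))) (fun x => (Real.exp_pos _).le)
      (ap_wint (w := fun x => φ x - 2 * ψ x) hR.mf)
      (ap_wint (w := fun x => φ x - 2 * ψ x) (ap_wsub (w := fun x => φ x - 2 * ψ x) hR.mf mT)) ht
    refine h1.trans ?_
    have h2 := mul_le_mul_of_nonneg_left d2 (show (0 : ℝ) ≤ 1 + 1 / t by positivity)
    linarith
  have y2 : ∑ p, ∫ x in Ω, ‖Sst v p x‖ ^ 2 * Real.exp (-φ x) ≤
      (1 + t) * B + (1 + 1 / t) * δ := by
    have h1 : ∀ p, ∫ x in Ω, ‖Sst v p x‖ ^ 2 * Real.exp (-φ x) ≤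
        (1 + t) * (∫ x in Ω, ‖c p x‖ ^ 2 * Real.exp (-φ x)) +
          (1 + 1 / t) * ∫ x in Ω, ‖c p x - Sst v p x‖ ^ 2 * Real.exp (-φ x) := fun p =>
      ap_young (μ := volume.restrict Ω) (F := c p) (H := Sst v p)
        (w := fun x => Real.exp (-φ x)) (fun x => (Real.exp_pos _).le)
        (ap_wint (w := fun x => φ x) (hR.mc p))
        (ap_wint (w := fun x => φ x) (ap_wsub (w := fun x => φ x) (hR.mc p) (mS p))) ht
    refine (Finset.sum_le_sum fun p _ => h1 p).trans ?_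
    rw [Finset.sum_add_distrib, ← Finset.mul_sum, ← Finset.mul_sum]
    have h2 := mul_le_mul_of_nonneg_left d3 (show (0 : ℝ) ≤ 1 + 1 / t by positivity)
    linarith
  -- cross terms
  obtain ⟨iu, -⟩ := ap_cross ho hL hLΩ (w := fun x => φ x - ψ x) hR.mu hφψL hχ hχL
  obtain ⟨iv, -⟩ := ap_cross ho hL hLΩ (w := fun x => φ x - ψ x) mv hφψL hχ hχL
  obtain ⟨-, hd⟩ := ap_cross ho hL hLΩ (w := fun x => φ x - ψ x) (d := fun j x => u j x - v j x)
    (fun j => ap_wsub (w := fun x => φ x - ψ x) (hR.mu j) (mv j)) hφψL hχ hχL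
  have hd2 : ‖(∫ x in Ω, ∑ j, u j x * conj (gf χ j x)) - ∫ x in Ω, ∑ j, v j x * conj (gf χ j x)‖ ^ 2
      ≤ δ * G := by
    have e : (∫ x in Ω, ∑ j, u j x * conj (gf χ j x)) - ∫ x in Ω, ∑ j, v j x * conj (gf χ j x) =
        ∫ x in Ω, ∑ j, (u j x - v j x) * conj (gf χ j x) := by
      rw [← integral_sub (integrable_finsetSum _ (fun j _ => iu j))
        (integrable_finsetSum _ (fun j _ => iv j))]
      congr 1
      ext x
      rw [← Finset.sum_sub_distrib]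
      refine Finset.sum_congr rfl fun j _ => ?_
      ring
    rw [e]
    exact hd.trans (mul_le_mul_of_nonneg_right d1 hG)
  have hAi := ap_A Ω ho hT L ε hε φ ψ η hW hv hχ hχL
  rw [← hXd] at hAi
  set Iu := ∫ x in Ω, ∑ j, u j x * conj (gf χ j x) with hIu
  set Iv := ∫ x in Ω, ∑ j, v j x * conj (gf χ j x) with hIv
  have h1 : ‖Iu‖ ^ 2 ≤ (1 + t) * ‖Iv‖ ^ 2 + (1 + 1 / t) * ‖Iu - Iv‖ ^ 2 := by
    have h1 : ‖Iu‖ ≤ ‖Iv‖ + ‖Iu - Iv‖ := by
      have : Iu = Iv + (Iu - Iv) := by ring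
      calc ‖Iu‖ = ‖Iv + (Iu - Iv)‖ := by rw [← this]
        _ ≤ _ := norm_add_le _ _
    have h3 : ‖Iu‖ ^ 2 ≤ (‖Iv‖ + ‖Iu - Iv‖) ^ 2 := pow_le_pow_left₀ (norm_nonneg _) h1 2
    have h4 : 0 ≤ (t * ‖Iv‖ - ‖Iu - Iv‖) ^ 2 / t := by positivity
    have h5 : (t * ‖Iv‖ - ‖Iu - Iv‖) ^ 2 / t = t * ‖Iv‖ ^ 2 + 1 / t * ‖Iu - Iv‖ ^ 2 -
      2 * ‖Iv‖ * ‖Iu - Iv‖ := by field_simp; ring
    nlinarith
  have ht' : (0 : ℝ) ≤ 1 + 1 / t := by positivity
  have h2 : (1 + 1 / t) * ‖Iu - Iv‖ ^ 2 ≤ (1 + 1 / t) * (δ * G) :=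
    mul_le_mul_of_nonneg_left hd2 ht'
  have h3 : ‖Iv‖ ^ 2 ≤ ((1 + ε) * ((1 + t) * A + (1 + 1 / t) * δ) +
      ((1 + t) * B + (1 + 1 / t) * δ)) * X := by
    refine hAi.trans (mul_le_mul_of_nonneg_right ?_ hX)
    have := mul_le_mul_of_nonneg_left y1 (show (0 : ℝ) ≤ 1 + ε by positivity)
    linarith
  have h4 : (1 + t) * ‖Iv‖ ^ 2 ≤ (1 + t) * (((1 + ε) * ((1 + t) * A + (1 + 1 / t) * δ) +
      ((1 + t) * B + (1 + 1 / t) * δ)) * X) :=
    mul_le_mul_of_nonneg_left h3 (by positivity)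
  have h5 : (1 + t) * (((1 + ε) * ((1 + t) * A + (1 + 1 / t) * δ) +
      ((1 + t) * B + (1 + 1 / t) * δ)) * X) + (1 + 1 / t) * (δ * G) =
      (1 + t) ^ 2 * (((1 + ε) * A + B) * X) +
        δ * ((1 + 1 / t) * ((1 + t) * (2 + ε) * X + G)) := by ring
  linarith

end BK.JB4
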