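import Pool.Agent.H314.BK.Ab

set_option autoImplicit false

open Filter Topology
open scoped InnerProductSpace

namespace BK.JB5

section
variable {H0 H1 H2 : Type*} [NormedAddCommGroup H0] [InnerProductSpace ℂ H0] [CompleteSpace H0]
  [NormedAddCommGroup H1] [InnerProductSpace ℂ H1] [CompleteSpace H1]
  [NormedAddCommGroup H2] [InnerProductSpace ℂ H2] [CompleteSpace H2]

omit [CompleteSpace H1] in
/-- Riesz representation of a bounded functional on the range of a relation -/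
theorem riesz_rel (P : Submodule ℂ (H1 × H2)) (g0 : H1) (b : ℝ)
    (hP : ∀ v w, (v, w) ∈ P → ‖inner ℂ v g0‖ ^ 2 ≤ b * ‖w‖ ^ 2) (hb : 0 ≤ b) :
    ∃ C : H2, ‖C‖ ^ 2 ≤ b ∧ ∀ v w, (v, w) ∈ P → inner ℂ w C = inner ℂ v g0 := by
  classical
  let R : Submodule ℂ H2 := P.map (LinearMap.snd ℂ H1 H2)
  have hR : ∀ w : R, ∃ v : H1, (v, (w : H2)) ∈ P := by
    intro w
    obtain ⟨p, hp, hpw⟩ := Submodule.mem_map.mp w.2
    refine ⟨p.1, ?_⟩
    have : p.2 = (w : H2) := hpw
    rw [← this]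
    exact hp
  choose v hv using hR
  have h0 : ∀ x : H1, (x, (0 : H2)) ∈ P → inner ℂ g0 x = 0 := by
    intro x hx
    have h1 := hP x 0 hx
    rw [norm_zero] at h1
    have h2 : ‖inner ℂ x g0‖ = 0 := by
      have : ‖inner ℂ x g0‖ ^ 2 ≤ 0 := by simpa using h1
      exact pow_eq_zero_iff (two_ne_zero) |>.mp (le_antisymm this (sq_nonneg _))
    have h3 : inner ℂ x g0 = 0 := norm_eq_zero.mp h2
    rw [← inner_conj_symm, h3, map_zero]
  have huniq : ∀ (x y : H1) (w : H2), (x, w) ∈ P → (y, w) ∈ P → inner ℂ g0 x = inner ℂ g0 y := by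
    intro x y w hx hy
    have h1 := P.sub_mem hx hy
    rw [Prod.mk_sub_mk, sub_self] at h1
    have h2 := h0 _ h1
    rw [inner_sub_right] at h2
    exact sub_eq_zero.mp h2
  let φ0 : R →ₗ[ℂ] ℂ :=
    { toFun := fun w => inner ℂ g0 (v w)
      map_add' := by
        intro w w'
        rw [← inner_add_right]
        refine huniq _ _ ((w + w' : R) : H2) (hv _) ?_
        have := P.add_mem (hv w) (hv w')
        rwa [Prod.mk_add_mk] at this
      map_smul' := by
        intro c w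
        rw [RingHom.id_apply, smul_eq_mul, ← inner_smul_right]
        refine huniq _ _ ((c • w : R) : H2) (hv _) ?_
        have := P.smul_mem c (hv w)
        rwa [Prod.smul_mk] at this }
  let φ : R →L[ℂ] ℂ := φ0.mkContinuous (√b) (by
    intro w
    have h1 := hP (v w) w (hv w)
    show ‖inner ℂ g0 (v w)‖ ≤ √b * ‖w‖
    rw [norm_inner_symm]
    have h2 : ‖inner ℂ (v w) g0‖ ^ 2 ≤ (√b * ‖w‖) ^ 2 := by
      rw [mul_pow, Real.sq_sqrt hb]
      exact h1
    exact (pow_le_pow_iff_left₀ (norm_nonneg _) (by positivity) two_ne_zero).mp h2)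
  have hφn : ‖φ‖ ≤ √b := LinearMap.mkContinuous_norm_le _ (Real.sqrt_nonneg _) _
  obtain ⟨ψ, hψ1, hψ2⟩ := exists_extension_norm_eq R φ
  refine ⟨(InnerProductSpace.toDual ℂ H2).symm ψ, ?_, ?_⟩
  · rw [LinearIsometryEquiv.norm_map, hψ2]
    calc ‖φ‖ ^ 2 ≤ (√b) ^ 2 := by
          have h0 : 0 ≤ ‖φ‖ := norm_nonneg φ
          exact pow_le_pow_left₀ h0 hφn 2
      _ = b := Real.sq_sqrt hb
  · intro x w hxw
    have hw : w ∈ R := Submodule.mem_map.mpr ⟨(x, w), hxw, rfl⟩
    have h1 : inner ℂ ((InnerProductSpace.toDual ℂ H2).symm ψ) w = ψ w :=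
      InnerProductSpace.toDual_symm_apply
    have h2 : ψ w = φ ⟨w, hw⟩ := hψ1 ⟨w, hw⟩
    have h3 : φ ⟨w, hw⟩ = inner ℂ g0 (v ⟨w, hw⟩) := rfl
    have h4 : inner ℂ g0 (v ⟨w, hw⟩) = inner ℂ g0 x := huniq _ _ w (hv ⟨w, hw⟩) hxw
    rw [← inner_conj_symm, h1, h2, h3, h4, inner_conj_symm]

omit [CompleteSpace H0] [CompleteSpace H1] in
theorem biadj' [CompleteSpace H0] [CompleteSpace H1] (T : Submodule ℂ (H0 × H1))
    (hTc : IsClosed (T : Set (H0 × H1))) (f : H0) (g : H1)
    (h : ∀ u f', AdjR T u f' → inner ℂ u g = inner ℂ f' f) : (f, g) ∈ T := by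
  let K : Submodule ℂ (WithLp 2 (H0 × H1)) :=
    T.comap (WithLp.linearEquiv 2 ℂ (H0 × H1)).toLinearMap
  have hKc : IsClosed (K : Set (WithLp 2 (H0 × H1))) :=
    hTc.preimage (WithLp.prod_continuous_ofLp 2 H0 H1)
  have hKcomp : CompleteSpace K := hKc.completeSpace_coe
  have hx : WithLp.toLp 2 (f, g) ∈ Kᗮᗮ := by
    rw [Submodule.mem_orthogonal]
    intro y hy
    rw [Submodule.mem_orthogonal] at hy
    have h1 : AdjR T y.snd (-y.fst) := by
      intro p hp
      have h2 := hy (WithLp.toLp 2 p) hp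
      rw [WithLp.prod_inner_apply] at h2
      rw [inner_neg_right]
      exact eq_neg_of_add_eq_zero_right h2
    have h2 := h _ _ h1
    rw [inner_neg_left] at h2
    rw [WithLp.prod_inner_apply]
    change inner ℂ y.fst f + inner ℂ y.snd g = 0
    rw [h2]
    ring
  rw [Submodule.orthogonal_orthogonal] at hx
  exact hx

/-- dual solution from an a priori inequality -/
theorem dual_abs (T : Submodule ℂ (H0 × H1)) (S : Submodule ℂ (H1 × H2))
    (hTc : IsClosed (T : Set (H0 × H1))) (hSc : IsClosed (S : Set (H1 × H2)))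
    (hTS : ∀ f g, (f, g) ∈ T → (g, (0 : H2)) ∈ S) (g : H1) (a b : ℝ) (ha : 0 ≤ a) (hb : 0 ≤ b)
    (hap : ∀ u f c, AdjR T u f → (u, c) ∈ S → ‖inner ℂ u g‖ ^ 2 ≤ a * ‖f‖ ^ 2 + b * ‖c‖ ^ 2) :
    ∃ (f : H0) (G : H1) (C : H2), (f, G) ∈ T ∧ (G, (0 : H2)) ∈ S ∧
      (∀ v, (v, (0 : H2)) ∈ S → inner ℂ v G = inner ℂ v g) ∧
      (∀ v w, (v, w) ∈ S → inner ℂ w C = inner ℂ v (g - G)) ∧
      ‖G‖ ≤ ‖g‖ ∧ ‖f‖ ^ 2 ≤ a ∧ ‖C‖ ^ 2 ≤ b := by
  let K : Submodule ℂ H1 := S.comap (LinearMap.inl ℂ H1 H2)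
  have hKmem : ∀ v, v ∈ K ↔ (v, (0 : H2)) ∈ S := fun v => Iff.rfl
  have hKc : IsClosed (K : Set H1) := by
    have : Continuous (fun v : H1 => (v, (0 : H2))) := by fun_prop
    exact hSc.preimage this
  have hKcomp : CompleteSpace K := hKc.completeSpace_coe
  let pr : H1 → H1 := fun v => K.starProjection v
  have hpr1 : ∀ v, pr v ∈ K := fun v => Submodule.starProjection_apply_mem K v
  have hpr2 : ∀ v, ∀ u ∈ K, inner ℂ u (v - pr v) = 0 := by
    intro v u hu
    have := Submodule.sub_starProjection_mem_orthogonal (K := K) v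
    exact (Submodule.mem_orthogonal K _).mp this u hu
  have hpr2' : ∀ v, ∀ u ∈ K, inner ℂ (v - pr v) u = 0 := by
    intro v u hu
    rw [← inner_conj_symm, hpr2 v u hu, map_zero]
  set G := pr g with hG
  have hG1 : (G, (0 : H2)) ∈ S := hpr1 g
  have hG2 : ∀ v, (v, (0 : H2)) ∈ S → inner ℂ v G = inner ℂ v g := by
    intro v hv
    have := hpr2 g v hv
    rw [inner_sub_right] at this
    exact (sub_eq_zero.mp this).symm
  have hG3 : ‖G‖ ≤ ‖g‖ := K.norm_starProjection_apply_le g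
  have hadj0 : ∀ v, AdjR T (v - pr v) 0 := by
    intro v p hp
    rw [inner_zero_right]
    exact hpr2 v p.2 (hTS p.1 p.2 hp)
  -- C
  obtain ⟨C, hC1, hC2⟩ := riesz_rel S (g - G) b (by
    intro v w hvw
    have h1 : (v - pr v, w) ∈ S := by
      have := S.sub_mem hvw (hpr1 v)
      rwa [LinearMap.inl_apply, Prod.mk_sub_mk, sub_zero] at this
    have h2 := hap (v - pr v) 0 w (hadj0 v) h1
    rw [norm_zero] at h2
    have h3 : inner ℂ v (g - G) = inner ℂ (v - pr v) g := by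
      have e1 : inner ℂ (pr v) (g - G) = 0 := hpr2 g _ (hpr1 v)
      have e2 : inner ℂ (v - pr v) G = 0 := hpr2' v _ (hpr1 g)
      have e3 : v = pr v + (v - pr v) := by abel
      calc inner ℂ v (g - G) = inner ℂ (pr v + (v - pr v)) (g - G) := by rw [← e3]
        _ = inner ℂ (v - pr v) g := by
          rw [inner_add_left, e1, zero_add, inner_sub_right, e2, sub_zero]
    rw [h3]
    simpa using h2) hb
  -- f
  let P' : Submodule ℂ (H1 × H0) :=
    { carrier := {q | AdjR T q.1 q.2}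
      add_mem' := by
        intro x y hx hy p hp
        show inner ℂ p.2 (x.1 + y.1) = inner ℂ p.1 (x.2 + y.2)
        rw [inner_add_right, inner_add_right, hx p hp, hy p hp]
      zero_mem' := by
        intro p hp
        show inner ℂ p.2 (0 : H1) = inner ℂ p.1 (0 : H0)
        rw [inner_zero_right, inner_zero_right]
      smul_mem' := by
        intro c x hx p hp
        show inner ℂ p.2 (c • x.1) = inner ℂ p.1 (c • x.2)
        rw [inner_smul_right, inner_smul_right, hx p hp] }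
  obtain ⟨f, hf1, hf2⟩ := riesz_rel P' G a (by
    intro u f' huf
    have h0 : AdjR T u f' := huf
    have h1 : AdjR T (pr u) f' := by
      intro p hp
      have e1 := h0 p hp
      have e2 := hadj0 u p hp
      rw [inner_sub_right, inner_zero_right, sub_eq_zero] at e2
      rw [← e2, e1]
    have h2 := hap (pr u) f' 0 h1 (hpr1 u)
    rw [norm_zero] at h2
    have h3 : inner ℂ u G = inner ℂ (pr u) g := by
      have e1 : inner ℂ (u - pr u) G = 0 := hpr2' u _ (hpr1 g)
      rw [inner_sub_left, sub_eq_zero] at e1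
      rw [e1]
      exact hG2 _ (hpr1 u)
    rw [h3]
    simpa using h2) ha
  refine ⟨f, G, C, ?_, hG1, hG2, fun v w hvw => hC2 v w hvw, hG3, hf1, hC1⟩
  refine biadj' T hTc f G fun u f' huf => ?_
  exact (hf2 u f' huf).symm

end

end BK.JB5
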