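import Pool.Agent.H314.BK.St

set_option autoImplicit false

open MeasureTheory Complex Filter Topology
open scoped ContDiff InnerProductSpace ENNReal ComplexConjugate

namespace BK.JB6

variable {n : ℕ}

theorem wd_dbar_supp {ψ : En n → ℂ} (j : Fin n) : Function.support (dbar j ψ) ⊆ tsupport ψ := by
  intro x hx
  by_contra h
  apply hx
  have h1 : fderiv ℝ ψ x = 0 := fderiv_of_notMem_tsupport (𝕜 := ℝ) h
  simp [dbar, h1]

theorem wd_dbar_smooth {ψ : En n → ℂ} (h : ContDiff ℝ ∞ ψ) (j : Fin n) :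
    ContDiff ℝ ∞ (dbar j ψ) := by
  have h1 : ContDiff ℝ ∞ (fderiv ℝ ψ) := h.fderiv_right (m := ∞) (by simp)
  have h2 : ∀ v : En n, ContDiff ℝ ∞ (fun x => fderiv ℝ ψ x v) := fun v =>
    h1.clm_apply contDiff_const
  unfold dbar
  exact contDiff_const.mul ((h2 _).add (contDiff_const.mul (h2 _)))

theorem wd_isTest {Ω : Set (En n)} {ψ : En n → ℂ} (h : IsTest Ω ψ) (j : Fin n) :
    IsTest Ω (dbar j ψ) :=
  ⟨wd_dbar_smooth h.smooth j, h.compact.mono' (wd_dbar_supp j),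
    (closure_minimal (wd_dbar_supp j) (isClosed_tsupport _)).trans h.supp⟩

theorem wd_comm {φ : En n → ℂ} (h : ContDiff ℝ ∞ φ) (j k : Fin n) (x : En n) :
    dbar j (dbar k φ) x = dbar k (dbar j φ) x := by
  have h1 : ContDiff ℝ ∞ (fderiv ℝ φ) := h.fderiv_right (by simp)
  have hd : DifferentiableAt ℝ (fderiv ℝ φ) x := (h1.differentiable (by simp)) x
  have key : ∀ (l : Fin n) (v : En n), fderiv ℝ (dbar l φ) x v =
      (1 / 2) * (fderiv ℝ (fderiv ℝ φ) x v (Pi.single l 1) +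
        I * fderiv ℝ (fderiv ℝ φ) x v (Pi.single l I)) := by
    intro l v
    have e : HasFDerivAt (dbar l φ) ((1 / 2 : ℂ) •
        (((fderiv ℝ (fderiv ℝ φ) x).flip (Pi.single l 1)) +
          I • ((fderiv ℝ (fderiv ℝ φ) x).flip (Pi.single l I)))) x := by
      have h2 := hd.hasFDerivAt
      have h3 : ∀ w : En n, HasFDerivAt (fun y => fderiv ℝ φ y w)
          ((fderiv ℝ (fderiv ℝ φ) x).flip w) x := by
        intro w
        have := h2.clm_apply (hasFDerivAt_const w x)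
        refine this.congr_fderiv ?_
        ext v
        simp
      exact ((h3 _).add ((h3 _).const_mul I)).const_mul (1 / 2 : ℂ)
    rw [e.fderiv]
    simp [smul_eq_mul]
    ring
  have hsymm : IsSymmSndFDerivAt ℝ φ x := by
    apply ContDiffAt.isSymmSndFDerivAt (n := ∞) h.contDiffAt
    rw [minSmoothness_of_isRCLikeNormedField]
    show ((2 : ℕ∞) : WithTop ℕ∞) ≤ ((⊤ : ℕ∞) : WithTop ℕ∞)
    exact WithTop.coe_le_coe.2 le_top
  have hs : ∀ v w : En n, fderiv ℝ (fderiv ℝ φ) x v w = fderiv ℝ (fderiv ℝ φ) x w v :=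
    fun v w => hsymm v w
  have hu : ∀ (l : Fin n) (ψ : En n → ℂ), dbar l ψ x =
      (1 / 2) * (fderiv ℝ ψ x (Pi.single l 1) + I * fderiv ℝ ψ x (Pi.single l I)) := fun _ _ => rfl
  rw [hu j, hu k, key, key, key, key, hs (Pi.single j 1) (Pi.single k 1),
    hs (Pi.single j 1) (Pi.single k I), hs (Pi.single j I) (Pi.single k 1),
    hs (Pi.single j I) (Pi.single k I)]
  ring

theorem wd_int_mul {ψ φ : En n → ℂ} (hψ : Continuous ψ) (hc : HasCompactSupport ψ)
    (hφ : Continuous φ) : Integrable (fun x => ψ x * φ x) (volume : Measure (En n)) :=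
  (hψ.mul hφ).integrable_of_hasCompactSupport hc.mul_right

theorem wd_ibp {Ω Ω' : Set (En n)} {ψ φ : En n → ℂ} (hψ : IsTest Ω ψ) (hφ : IsTest Ω' φ)
    (j : Fin n) : ∫ x, ψ x * dbar j φ x = - ∫ x, dbar j ψ x * φ x := by
  have hdφ : ∀ v : En n, Continuous (fun x => fderiv ℝ φ x v) := fun v =>
    ((hφ.smooth.fderiv_right (m := ∞) (by simp)).clm_apply contDiff_const).continuous
  have hdψ : ∀ v : En n, Continuous (fun x => fderiv ℝ ψ x v) := fun v =>
    ((hψ.smooth.fderiv_right (m := ∞) (by simp)).clm_apply contDiff_const).continuous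
  have hcψ : ∀ v : En n, HasCompactSupport (fun x => fderiv ℝ ψ x v) := fun v =>
    hψ.compact.fderiv_apply (𝕜 := ℝ) v
  have I1 : ∀ v : En n, Integrable (fun x => fderiv ℝ ψ x v * φ x) (volume : Measure (En n)) :=
    fun v => wd_int_mul (hdψ v) (hcψ v) hφ.smooth.continuous
  have I2 : ∀ v : En n, Integrable (fun x => ψ x * fderiv ℝ φ x v) (volume : Measure (En n)) :=
    fun v => wd_int_mul hψ.smooth.continuous hψ.compact (hdφ v)
  have key : ∀ v : En n, ∫ x, ψ x * fderiv ℝ φ x v = - ∫ x, fderiv ℝ ψ x v * φ x := by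
    intro v
    apply integral_mul_fderiv_eq_neg_fderiv_mul_of_integrable (I1 v) (I2 v)
      (wd_int_mul hψ.smooth.continuous hψ.compact hφ.smooth.continuous)
    · intro x _; exact (hψ.smooth.differentiable (by simp)) x
    · intro x _; exact (hφ.smooth.differentiable (by simp)) x
  have e1 : ∫ x, ψ x * dbar j φ x = (1 / 2) * (∫ x, ψ x * fderiv ℝ φ x (Pi.single j 1)) +
      (I / 2) * (∫ x, ψ x * fderiv ℝ φ x (Pi.single j I)) := by
    rw [← integral_const_mul, ← integral_const_mul, ← integral_add ((I2 _).const_mul _)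
      ((I2 _).const_mul _)]
    refine integral_congr_ae (Eventually.of_forall fun x => ?_)
    simp only [dbar]
    ring
  have e2 : ∫ x, dbar j ψ x * φ x = (1 / 2) * (∫ x, fderiv ℝ ψ x (Pi.single j 1) * φ x) +
      (I / 2) * (∫ x, fderiv ℝ ψ x (Pi.single j I) * φ x) := by
    rw [← integral_const_mul, ← integral_const_mul, ← integral_add ((I1 _).const_mul _)
      ((I1 _).const_mul _)]
    refine integral_congr_ae (Eventually.of_forall fun x => ?_)
    simp only [dbar]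
    ring
  rw [e1, e2, key, key]
  ring

theorem wd_int_Ω {Ω : Set (En n)} {ψ φ : En n → ℂ} (hφ : IsTest Ω φ) :
    ∫ x in Ω, ψ x * φ x = ∫ x, ψ x * φ x := by
  refine setIntegral_eq_integral_of_forall_compl_eq_zero fun x hx => ?_
  have : φ x = 0 := by
    by_contra h3
    exact hx (hφ.supp (subset_tsupport φ h3))
  simp [this]

theorem wd_ibpΩ {Ω : Set (En n)} {ψ φ : En n → ℂ} (hψ : IsTest Ω ψ) (hφ : IsTest Ω φ)
    (j : Fin n) : ∫ x in Ω, ψ x * dbar j φ x = - ∫ x in Ω, dbar j ψ x * φ x := by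
  rw [wd_int_Ω (wd_isTest hφ j), wd_int_Ω hφ, wd_ibp hψ hφ]

/-- product of a continuous weight on `Ω` and a function compactly supported in `Ω` -/
theorem wd_cont {Ω : Set (En n)} (ho : IsOpen Ω) {w : En n → ℝ} (hw : ContinuousOn w Ω)
    {θ : En n → ℂ} (hθ : Continuous θ) (hs : tsupport θ ⊆ Ω) :
    Continuous (fun x => (w x : ℂ) * θ x) := by
  rw [continuous_iff_continuousAt]
  intro x
  by_cases hx : x ∈ tsupport θ
  · have h1 : ContinuousAt w x := hw.continuousAt (ho.mem_nhds (hs hx))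
    exact (Complex.continuous_ofReal.continuousAt.comp h1).mul hθ.continuousAt
  · have h1 : ∀ᶠ y in 𝓝 x, (w y : ℂ) * θ y = 0 := by
      have h2 : (tsupport θ)ᶜ ∈ 𝓝 x := (isClosed_tsupport θ).isOpen_compl.mem_nhds hx
      filter_upwards [h2] with y hy
      rw [image_eq_zero_of_notMem_tsupport hy, mul_zero]
    have h3 : (fun x => (w x : ℂ) * θ x) =ᶠ[𝓝 x] fun _ => (0:ℂ) := h1
    exact (continuousAt_const (y := (0:ℂ))).congr h3.symm

theorem wd_memLp {Ω : Set (En n)} (ho : IsOpen Ω) {w : En n → ℝ} (hw : ContinuousOn w Ω)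
    {θ : En n → ℂ} (hθ : Continuous θ) (hc : HasCompactSupport θ) (hs : tsupport θ ⊆ Ω) :
    MemLp (fun x => (w x : ℂ) * θ x) 2 ((volume : Measure (En n)).restrict Ω) :=
  ((wd_cont ho hw hθ hs).memLp_of_hasCompactSupport hc.mul_left).restrict Ω

theorem wd_func (Ω : Set (En n)) (ψ : En n → ℂ)
    (hψ : MemLp ψ 2 ((volume : Measure (En n)).restrict Ω)) :
    ∃ L : L2 Ω →L[ℂ] ℂ, ∀ u : L2 Ω, L u = ∫ x in Ω, u x * ψ x ∧
      Integrable (fun x => u x * ψ x) ((volume : Measure (En n)).restrict Ω) := by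
  have hψc : MemLp (fun x => conj (ψ x)) 2 ((volume : Measure (En n)).restrict Ω) := hψ.star
  refine ⟨innerSL ℂ (hψc.toLp _), fun u => ⟨?_, ?_⟩⟩
  · rw [innerSL_apply_apply, MeasureTheory.L2.inner_def]
    apply integral_congr_ae
    filter_upwards [hψc.coeFn_toLp] with x hx
    rw [hx]
    simp [mul_comm]
  · exact (Lp.memLp u).integrable_mul hψ

theorem wd_T (Ω : Set (En n)) (ho : IsOpen Ω) (P1 P2 : En n → ℝ) (h1 : ContinuousOn P1 Ω)
    (h2 : ContinuousOn P2 Ω) : ∃ T : Submodule ℂ (L2 Ω × Form Ω),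
    (∀ f g, (f, g) ∈ T ↔ ∀ j ρ, IsTest Ω ρ → ∫ x in Ω, f x * ((P1 x : ℂ) * dbar j ρ x) =
      - ∫ x in Ω, g j x * ((P2 x : ℂ) * ρ x)) ∧ IsClosed (T : Set (L2 Ω × Form Ω)) := by
  have key : ∀ (j : Fin n) (ρ : En n → ℂ) (h : IsTest Ω ρ), ∃ M : (L2 Ω × Form Ω) →L[ℂ] ℂ,
      ∀ f g, M (f, g) = (∫ x in Ω, f x * ((P1 x : ℂ) * dbar j ρ x)) +
        ∫ x in Ω, g j x * ((P2 x : ℂ) * ρ x) := by
    intro j ρ h
    obtain ⟨L1, hL1⟩ := wd_func Ω _ (wd_memLp ho h1 (wd_isTest h j).smooth.continuous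
      (wd_isTest h j).compact (wd_isTest h j).supp)
    obtain ⟨L2', hL2⟩ := wd_func Ω _ (wd_memLp ho h2 h.smooth.continuous h.compact h.supp)
    refine ⟨L1.comp (ContinuousLinearMap.fst ℂ _ _) +
      (L2'.comp (PiLp.proj 2 (fun _ : Fin n => L2 Ω) j)).comp
      (ContinuousLinearMap.snd ℂ _ _), ?_⟩
    intro f g
    rw [← (hL1 f).1, ← (hL2 (g j)).1]
    rfl
  choose M hM using key
  refine ⟨⨅ j, ⨅ ρ, ⨅ h, LinearMap.ker (M j ρ h).toLinearMap, ?_, ?_⟩
  · intro f g
    simp only [Submodule.mem_iInf, LinearMap.mem_ker]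
    refine forall_congr' fun j => forall_congr' fun ρ => forall_congr' fun h => ?_
    have : (M j ρ h).toLinearMap (f, g) = M j ρ h (f, g) := rfl
    rw [this, hM, add_eq_zero_iff_eq_neg]
  · simp only [Submodule.coe_iInf]
    refine isClosed_iInter fun j => isClosed_iInter fun ρ => isClosed_iInter fun h => ?_
    exact (M j ρ h).isClosed_ker

theorem wd_S (Ω : Set (En n)) (ho : IsOpen Ω) (P2 P3 : En n → ℝ) (h2 : ContinuousOn P2 Ω)
    (h3 : ContinuousOn P3 Ω) : ∃ S : Submodule ℂ (Form Ω × Form2 Ω),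
    (∀ u c, (u, c) ∈ S ↔ ∀ (p : Pr n) ρ, IsTest Ω ρ →
      ∫ x in Ω, (u p.1.2 x * ((P2 x : ℂ) * dbar p.1.1 ρ x) -
        u p.1.1 x * ((P2 x : ℂ) * dbar p.1.2 ρ x)) =
      - ∫ x in Ω, c p x * ((P3 x : ℂ) * ρ x)) ∧ IsClosed (S : Set (Form Ω × Form2 Ω)) := by
  have key : ∀ (p : Pr n) (ρ : En n → ℂ) (h : IsTest Ω ρ), ∃ M : (Form Ω × Form2 Ω) →L[ℂ] ℂ,
      ∀ u c, M (u, c) = (∫ x in Ω, (u p.1.2 x * ((P2 x : ℂ) * dbar p.1.1 ρ x) -
        u p.1.1 x * ((P2 x : ℂ) * dbar p.1.2 ρ x))) +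
        ∫ x in Ω, c p x * ((P3 x : ℂ) * ρ x) := by
    intro p ρ h
    obtain ⟨L1, hL1⟩ := wd_func Ω _ (wd_memLp ho h2 (wd_isTest h p.1.1).smooth.continuous
      (wd_isTest h p.1.1).compact (wd_isTest h p.1.1).supp)
    obtain ⟨L2', hL2⟩ := wd_func Ω _ (wd_memLp ho h2 (wd_isTest h p.1.2).smooth.continuous
      (wd_isTest h p.1.2).compact (wd_isTest h p.1.2).supp)
    obtain ⟨L3, hL3⟩ := wd_func Ω _ (wd_memLp ho h3 h.smooth.continuous h.compact h.supp)
    refine ⟨(L1.comp (PiLp.proj 2 (fun _ : Fin n => L2 Ω) p.1.2) -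
        L2'.comp (PiLp.proj 2 (fun _ : Fin n => L2 Ω) p.1.1)).comp
          (ContinuousLinearMap.fst ℂ (Form Ω) (Form2 Ω)) +
        (L3.comp (PiLp.proj 2 (fun _ : Pr n => L2 Ω) p)).comp
          (ContinuousLinearMap.snd ℂ (Form Ω) (Form2 Ω)), ?_⟩
    intro u c
    rw [integral_sub (hL1 _).2 (hL2 _).2, ← (hL1 _).1, ← (hL2 _).1, ← (hL3 _).1]
    rfl
  choose M hM using key
  refine ⟨⨅ p, ⨅ ρ, ⨅ h, LinearMap.ker (M p ρ h).toLinearMap, ?_, ?_⟩
  · intro f g
    simp only [Submodule.mem_iInf, LinearMap.mem_ker]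
    refine forall_congr' fun j => forall_congr' fun ρ => forall_congr' fun h => ?_
    have : (M j ρ h).toLinearMap (f, g) = M j ρ h (f, g) := rfl
    rw [this, hM, add_eq_zero_iff_eq_neg]
  · simp only [Submodule.coe_iInf]
    refine isClosed_iInter fun j => isClosed_iInter fun ρ => isClosed_iInter fun h => ?_
    exact (M j ρ h).isClosed_ker

theorem wd_norm_sq (Ω : Set (En n)) (f : L2 Ω) : ‖f‖ ^ 2 = ∫ x in Ω, ‖f x‖ ^ 2 := by
  have h1 : (⟪f, f⟫_ℂ) = ((‖f‖ ^ 2 : ℝ) : ℂ) := by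
    rw [inner_self_eq_norm_sq_to_K]; push_cast; rfl
  rw [MeasureTheory.L2.inner_def] at h1
  have h2 : ∀ x, ⟪f x, f x⟫_ℂ = ((‖f x‖ ^ 2 : ℝ) : ℂ) := by
    intro x
    rw [inner_self_eq_norm_sq_to_K]; push_cast; rfl
  simp_rw [h2] at h1
  rw [integral_complex_ofReal] at h1
  exact_mod_cast h1.symm

theorem wd_inner_pi {ι : Type} [Fintype ι] (Ω : Set (En n)) (v u : PiLp 2 (fun _ : ι => L2 Ω)) :
    inner ℂ v u = ∫ x in Ω, ∑ i, conj (v i x) * u i x := by
  have hI : ∀ i, Integrable (fun x => conj (v i x) * u i x)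
      ((volume : Measure (En n)).restrict Ω) := fun i =>
    (MemLp.star (Lp.memLp (v i))).integrable_mul (Lp.memLp (u i))
  rw [integral_finsetSum _ (fun i _ => hI i), PiLp.inner_apply]
  apply Finset.sum_congr rfl
  intro i _
  rw [MeasureTheory.L2.inner_def]
  congr 1
  funext x
  simp [mul_comm]

theorem wd_inner (Ω : Set (En n)) (v u : L2 Ω) :
    inner ℂ v u = ∫ x in Ω, conj (v x) * u x := by
  rw [MeasureTheory.L2.inner_def]
  congr 1
  funext x
  simp [mul_comm]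

/-- multiplication by a bounded weight -/
theorem wd_mulm {Ω : Set (En n)} (ho : IsOpen Ω) {m : En n → ℝ} (hm : ContinuousOn m Ω)
    (hm0 : ∀ x, 0 ≤ m x) (hm1 : ∀ x, m x ≤ 1) (v : L2 Ω) :
    MemLp (fun x => v x * (m x : ℂ)) 2 ((volume : Measure (En n)).restrict Ω) := by
  refine MemLp.of_le (Lp.memLp v) ?_ (Eventually.of_forall fun x => ?_)
  · apply (Lp.memLp v).1.mul
    exact (Complex.continuous_ofReal.comp_continuousOn hm).aestronglyMeasurable ho.measurableSet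
  · rw [norm_mul, Complex.norm_real, Real.norm_of_nonneg (hm0 x)]
    exact mul_le_of_le_one_right (norm_nonneg _) (hm1 x)

/-- inverse square root weight -/
noncomputable def wdP (t : En n → ℝ) (x : En n) : ℝ := Real.exp (t x / 2)
/-- square root weight -/
noncomputable def wdM (t : En n → ℝ) (x : En n) : ℝ := Real.exp (-(t x) / 2)

theorem wd_PM (t : En n → ℝ) (x : En n) : wdP t x * wdM t x = 1 := by
  unfold wdP wdM
  rw [← Real.exp_add]
  rw [show t x / 2 + -(t x) / 2 = 0 by ring, Real.exp_zero]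

theorem wd_PMc (t : En n → ℝ) (x : En n) : (wdP t x : ℂ) * (wdM t x : ℂ) = 1 := by
  rw [← Complex.ofReal_mul, wd_PM, Complex.ofReal_one]

theorem wd_MM (t : En n → ℝ) (x : En n) : Real.exp (-(t x)) = wdM t x * wdM t x := by
  unfold wdM
  rw [← Real.exp_add]
  congr 1
  ring

theorem wd_cP {Ω : Set (En n)} {t : En n → ℝ} (h : ContinuousOn t Ω) :
    ContinuousOn (wdP t) Ω := Real.continuous_exp.comp_continuousOn (h.div_const 2)

theorem wd_cM {Ω : Set (En n)} {t : En n → ℝ} (h : ContinuousOn t Ω) :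
    ContinuousOn (wdM t) Ω := Real.continuous_exp.comp_continuousOn (h.neg.div_const 2)

theorem wd_M0 (t : En n → ℝ) (x : En n) : 0 ≤ wdM t x := (Real.exp_pos _).le

theorem wd_M1 (t : En n → ℝ) (ht : ∀ x, 0 ≤ t x) (x : En n) : wdM t x ≤ 1 := by
  unfold wdM
  apply Real.exp_le_one_iff.2
  have := ht x
  linarith

theorem wd_back (t : En n → ℝ) (x : En n) (z : ℂ) : z * (wdP t x : ℂ) * (wdM t x : ℂ) = z := by
  rw [mul_assoc, wd_PMc, mul_one]

theorem wd_sqback (t : En n → ℝ) (x : En n) (z : ℂ) :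
    ‖z * (wdP t x : ℂ)‖ ^ 2 * Real.exp (-(t x)) = ‖z‖ ^ 2 := by
  rw [norm_mul, Complex.norm_real, Real.norm_of_nonneg (show 0 ≤ wdP t x from (Real.exp_pos _).le),
    wd_MM, mul_pow]
  have h := wd_PM t x
  calc ‖z‖ ^ 2 * wdP t x ^ 2 * (wdM t x * wdM t x) = ‖z‖ ^ 2 * (wdP t x * wdM t x) ^ 2 := by ring
    _ = _ := by rw [h]; ring

theorem wd (Ω : Set (En n)) (ho : IsOpen Ω) (hb : Bornology.IsBounded Ω)
    (L : Set (En n)) (hL : IsCompact L) (hLΩ : L ⊆ Ω) (ε : ℝ) (hε : 0 < ε)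
    (φ ψ : En n → ℝ) (η : ℕ → En n → ℝ) (hW : Wts Ω L ε φ ψ η) (hA : AP Ω L ε φ ψ)
    (hdual : ∀ (T : Submodule ℂ (L2 Ω × Form Ω)) (S : Submodule ℂ (Form Ω × Form2 Ω)),
      IsClosed (T : Set (L2 Ω × Form Ω)) → IsClosed (S : Set (Form Ω × Form2 Ω)) →
      (∀ f g, (f, g) ∈ T → (g, (0 : Form2 Ω)) ∈ S) → ∀ (g : Form Ω) (a b : ℝ), 0 ≤ a → 0 ≤ b →
      (∀ u f c, AdjR T u f → (u, c) ∈ S → ‖inner ℂ u g‖ ^ 2 ≤ a * ‖f‖ ^ 2 + b * ‖c‖ ^ 2) →
      ∃ (f : L2 Ω) (G : Form Ω) (C : Form2 Ω), (f, G) ∈ T ∧ (G, (0 : Form2 Ω)) ∈ S ∧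
        (∀ v, (v, (0 : Form2 Ω)) ∈ S → inner ℂ v G = inner ℂ v g) ∧
        (∀ v w, (v, w) ∈ S → inner ℂ w C = inner ℂ v (g - G)) ∧
        ‖G‖ ≤ ‖g‖ ∧ ‖f‖ ^ 2 ≤ a ∧ ‖C‖ ^ 2 ≤ b) :
    WD Ω L ε φ ψ := by
  intro χ hχ hχL
  obtain ⟨t1, ht1⟩ : ∃ t1 : En n → ℝ, t1 = fun x => φ x - 2 * ψ x := ⟨_, rfl⟩
  obtain ⟨t2, ht2⟩ : ∃ t2 : En n → ℝ, t2 = fun x => φ x - ψ x := ⟨_, rfl⟩
  have e1 : ∀ x, φ x - 2 * ψ x = t1 x := fun x => by rw [ht1]
  have e2 : ∀ x, φ x - ψ x = t2 x := fun x => by rw [ht2]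
  have ct1 : ContinuousOn t1 Ω := by
    rw [ht1]
    exact hW.sφ.continuousOn.sub (continuousOn_const.mul hW.sψ.continuousOn)
  have ct2 : ContinuousOn t2 Ω := by
    rw [ht2]
    exact hW.sφ.continuousOn.sub hW.sψ.continuousOn
  have ct3 : ContinuousOn φ Ω := hW.sφ.continuousOn
  have nt1 : ∀ x, 0 ≤ t1 x := fun x => by
    have := hW.φ2 x
    rw [← e1]; linarith
  have nt2 : ∀ x, 0 ≤ t2 x := fun x => by
    have := hW.φ2 x
    have := hW.ψ0 x
    rw [← e2]; linarith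
  have nt3 : ∀ x, 0 ≤ φ x := fun x => by
    have := hW.φ2 x
    have := hW.ψ0 x
    linarith
  simp only [e1, e2]
  have hmE1 : ∀ x, Real.exp (-t1 x / 2) = wdM t1 x := fun _ => rfl
  have hmE2 : ∀ x, Real.exp (-t2 x / 2) = wdM t2 x := fun _ => rfl
  have hmE3 : ∀ x, Real.exp (-φ x / 2) = wdM φ x := fun _ => rfl
  obtain ⟨T, hT, hTc⟩ := wd_T Ω ho (wdP t1) (wdP t2) (wd_cP ct1) (wd_cP ct2)
  obtain ⟨S, hS, hSc⟩ := wd_S Ω ho (wdP t2) (wdP φ) (wd_cP ct2) (wd_cP ct3)
  have hz : ∀ (p : Pr n) (θ : En n → ℂ), ∫ x in Ω, (0 : Form2 Ω) p x * θ x = 0 := by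
    intro p θ
    apply integral_eq_zero_of_ae
    have : (((0 : Form2 Ω) p : L2 Ω) : En n → ℂ) =ᵐ[(volume : Measure (En n)).restrict Ω] 0 :=
      Lp.coeFn_zero ℂ 2 _
    filter_upwards [this] with x hx
    rw [hx]
    simp
  have hTS : ∀ f g, (f, g) ∈ T → (g, (0 : Form2 Ω)) ∈ S := by
    intro f g hfg
    rw [hS]
    intro p ρ hρ
    have a1 := (hT f g).1 hfg p.1.2 (dbar p.1.1 ρ) (wd_isTest hρ _)
    have a2 := (hT f g).1 hfg p.1.1 (dbar p.1.2 ρ) (wd_isTest hρ _)
    have a3 : ∫ x in Ω, f x * ((wdP t1 x : ℂ) * dbar p.1.2 (dbar p.1.1 ρ) x) =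
        ∫ x in Ω, f x * ((wdP t1 x : ℂ) * dbar p.1.1 (dbar p.1.2 ρ) x) := by
      congr 1
      funext x
      rw [wd_comm hρ.smooth]
    have i1 : Integrable (fun x => g p.1.2 x * ((wdP t2 x : ℂ) * dbar p.1.1 ρ x))
        ((volume : Measure (En n)).restrict Ω) :=
      (Lp.memLp (g p.1.2)).integrable_mul (wd_memLp ho (wd_cP ct2)
        (wd_isTest hρ p.1.1).smooth.continuous (wd_isTest hρ p.1.1).compact
        (wd_isTest hρ p.1.1).supp)
    have i2 : Integrable (fun x => g p.1.1 x * ((wdP t2 x : ℂ) * dbar p.1.2 ρ x))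
        ((volume : Measure (En n)).restrict Ω) :=
      (Lp.memLp (g p.1.1)).integrable_mul (wd_memLp ho (wd_cP ct2)
        (wd_isTest hρ p.1.2).smooth.continuous (wd_isTest hρ p.1.2).compact
        (wd_isTest hρ p.1.2).supp)
    rw [integral_sub i1 i2, hz p, neg_zero]
    rw [a3, a2] at a1
    linear_combination a1
  -- the data
  have hgf0 : ∀ j x, x ∉ L → gf χ j x = 0 := by
    intro j x hx
    unfold gf
    rw [Finset.sum_eq_zero, neg_zero]
    intro k _
    have h1 : fderiv ℝ (χ j k) x = 0 :=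
      fderiv_of_notMem_tsupport (𝕜 := ℝ) (fun h => hx (hχL j k h))
    simp [dz, h1]
  have hgfc : ∀ j, Continuous (gf χ j) := by
    intro j
    unfold gf
    apply Continuous.neg
    apply continuous_finsetSum
    intro k _
    have h1 : Continuous (fderiv ℝ (χ j k)) := (hχ j k).smooth.continuous_fderiv (by simp)
    unfold dz
    exact continuous_const.mul ((h1.clm_apply continuous_const).sub
      (continuous_const.mul (h1.clm_apply continuous_const)))
  have hgm : ∀ j, MemLp (gf χ j) 2 ((volume : Measure (En n)).restrict Ω) := fun j =>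
    ((hgfc j).memLp_of_hasCompactSupport (HasCompactSupport.intro hL (hgf0 j))).restrict Ω
  have hL2 : ∀ x ∈ L, t2 x = 0 := by
    intro x hx
    have h1 := hW.zL x hx
    have h2 := hW.φ2 x
    have h3 := hW.ψ0 x
    rw [← e2]
    linarith
  have hM2 : ∀ j x, (wdM t2 x : ℂ) * gf χ j x = gf χ j x := by
    intro j x
    by_cases hx : x ∈ L
    · have : wdM t2 x = 1 := by
        unfold wdM
        rw [hL2 x hx]; simp
      rw [this]; simp
    · rw [hgf0 j x hx, mul_zero]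
  have hP2 : ∀ j x, (wdP t2 x : ℂ) * gf χ j x = gf χ j x := by
    intro j x
    by_cases hx : x ∈ L
    · have : wdP t2 x = 1 := by
        unfold wdP
        rw [hL2 x hx]; simp
      rw [this]; simp
    · rw [hgf0 j x hx, mul_zero]
  obtain ⟨gt, hgt⟩ : ∃ gt : Form Ω, ∀ j, (gt j : En n → ℂ) =ᵐ[(volume : Measure (En n)).restrict Ω]
      gf χ j := ⟨WithLp.toLp 2 (fun j => (hgm j).toLp (gf χ j)), fun j => (hgm j).coeFn_toLp⟩
  have hgtall : ∀ᵐ x ∂((volume : Measure (En n)).restrict Ω), ∀ j, gt j x = gf χ j x :=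
    ae_all_iff.2 hgt
  obtain ⟨A, hAdef⟩ : ∃ A : ℝ, A = ∑ j, ∑ k, ∫ x, ‖χ j k x‖ ^ 2 := ⟨_, rfl⟩
  have hA0 : 0 ≤ A := by
    rw [hAdef]
    exact Finset.sum_nonneg fun j _ => Finset.sum_nonneg fun k _ =>
      integral_nonneg fun x => sq_nonneg _
  rw [← hAdef]
  have hap : ∀ u f c, AdjR T u f → (u, c) ∈ S →
      ‖inner ℂ u gt‖ ^ 2 ≤ ((1 + ε) * A) * ‖f‖ ^ 2 + A * ‖c‖ ^ 2 := by
    intro u f c hadj huc
    have hR : LRel Ω φ ψ (fun j x => u j x * (wdP t2 x : ℂ)) (fun x => f x * (wdP t1 x : ℂ))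
        (fun p x => c p x * (wdP φ x : ℂ)) := by
      refine ⟨?_, ?_, ?_, ?_, ?_⟩
      · intro j
        have : (fun x => u j x * (wdP t2 x : ℂ) * (Real.exp (-(φ x - ψ x) / 2) : ℝ)) =
            (u j : En n → ℂ) := by
          funext x
          rw [e2]
          exact wd_back t2 x _
        rw [this]
        exact Lp.memLp (u j)
      · have : (fun x => f x * (wdP t1 x : ℂ) * (Real.exp (-(φ x - 2 * ψ x) / 2) : ℝ)) =
            (f : En n → ℂ) := by
          funext x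
          rw [e1]
          exact wd_back t1 x _
        rw [this]
        exact Lp.memLp f
      · intro p
        have : (fun x => c p x * (wdP φ x : ℂ) * (Real.exp (-φ x / 2) : ℝ)) =
            (c p : En n → ℂ) := by
          funext x
          exact wd_back φ x _
        rw [this]
        exact Lp.memLp (c p)
      · intro ρ hρ
        have mh := wd_memLp ho (wd_cM ct1) hρ.smooth.continuous hρ.compact hρ.supp
        have mq := fun j => wd_memLp ho (wd_cM ct2) (wd_isTest hρ j).smooth.continuous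
          (wd_isTest hρ j).compact (wd_isTest hρ j).supp
        obtain ⟨h, hh⟩ : ∃ h : L2 Ω, (h : En n → ℂ) =ᵐ[(volume : Measure (En n)).restrict Ω]
            fun x => (wdM t1 x : ℂ) * ρ x := ⟨mh.toLp _, mh.coeFn_toLp⟩
        obtain ⟨q, hq⟩ : ∃ q : Form Ω, ∀ j, (q j : En n → ℂ)
            =ᵐ[(volume : Measure (En n)).restrict Ω] fun x => (wdM t2 x : ℂ) * dbar j ρ x :=
          ⟨WithLp.toLp 2 (fun j => (mq j).toLp _), fun j => (mq j).coeFn_toLp⟩
        have hmem : (h, q) ∈ T := by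
          rw [hT]
          intro j σ hσ
          have b1 : ∫ x in Ω, h x * ((wdP t1 x : ℂ) * dbar j σ x) = ∫ x in Ω, ρ x * dbar j σ x := by
            apply integral_congr_ae
            filter_upwards [hh] with x hx
            rw [hx]
            linear_combination (ρ x * dbar j σ x) * wd_PMc t1 x
          have b2 : ∫ x in Ω, q j x * ((wdP t2 x : ℂ) * σ x) = ∫ x in Ω, dbar j ρ x * σ x := by
            apply integral_congr_ae
            filter_upwards [hq j] with x hx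
            rw [hx]
            linear_combination (dbar j ρ x * σ x) * wd_PMc t2 x
          rw [b1, b2]
          exact wd_ibpΩ hρ hσ j
        have b3 := hadj (h, q) hmem
        simp only at b3
        rw [wd_inner_pi, wd_inner] at b3
        have hqall : ∀ᵐ x ∂((volume : Measure (En n)).restrict Ω), ∀ j,
            q j x = (wdM t2 x : ℂ) * dbar j ρ x := ae_all_iff.2 hq
        have b4 : ∫ x in Ω, (∑ j, u j x * (wdP t2 x : ℂ) * conj (dbar j ρ x)) *
            (Real.exp (-(φ x - ψ x)) : ℝ) = ∫ x in Ω, ∑ i, conj (q i x) * u i x := by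
          apply integral_congr_ae
          filter_upwards [hqall] with x hx
          rw [Finset.sum_mul, e2, wd_MM]
          apply Finset.sum_congr rfl
          intro j _
          rw [hx j, map_mul, Complex.conj_ofReal, Complex.ofReal_mul]
          linear_combination (u j x * conj (dbar j ρ x) * (wdM t2 x : ℂ)) * wd_PMc t2 x
        have b5 : ∫ x in Ω, f x * (wdP t1 x : ℂ) * conj (ρ x) *
            (Real.exp (-(φ x - 2 * ψ x)) : ℝ) = ∫ x in Ω, conj (h x) * f x := by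
          apply integral_congr_ae
          filter_upwards [hh] with x hx
          rw [e1, wd_MM, hx, map_mul, Complex.conj_ofReal, Complex.ofReal_mul]
          linear_combination (f x * conj (ρ x) * (wdM t1 x : ℂ)) * wd_PMc t1 x
        exact b4.trans (b3.trans b5.symm)
      · intro p ρ hρ
        have b1 := (hS u c).1 huc p ρ hρ
        have b2 : ∀ x, u p.1.2 x * (wdP t2 x : ℂ) * dbar p.1.1 ρ x -
            u p.1.1 x * (wdP t2 x : ℂ) * dbar p.1.2 ρ x =
            u p.1.2 x * ((wdP t2 x : ℂ) * dbar p.1.1 ρ x) -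
            u p.1.1 x * ((wdP t2 x : ℂ) * dbar p.1.2 ρ x) := fun x => by ring
        have b3 : ∀ x, c p x * (wdP φ x : ℂ) * ρ x = c p x * ((wdP φ x : ℂ) * ρ x) :=
          fun x => by ring
        simp_rw [b2, b3]
        exact b1
    have hB := hA _ _ _ hR χ hχ hχL
    have c1 : ‖inner ℂ u gt‖ = ‖∫ x in Ω, ∑ j, u j x * (wdP t2 x : ℂ) * conj (gf χ j x)‖ := by
      rw [norm_inner_symm, wd_inner_pi]
      congr 1
      apply integral_congr_ae
      filter_upwards [hgtall] with x hx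
      apply Finset.sum_congr rfl
      intro j _
      have h3 : conj (gf χ j x) = (wdP t2 x : ℂ) * conj (gf χ j x) := by
        nth_rewrite 1 [← hP2 j x]
        rw [map_mul, Complex.conj_ofReal]
      rw [hx j]
      linear_combination (u j x) * h3
    have c2 : ∫ x in Ω, ‖f x * (wdP t1 x : ℂ)‖ ^ 2 * Real.exp (-(φ x - 2 * ψ x)) = ‖f‖ ^ 2 := by
      rw [wd_norm_sq]
      congr 1
      funext x
      rw [e1]
      exact wd_sqback t1 x _
    have c3 : ∑ p, ∫ x in Ω, ‖c p x * (wdP φ x : ℂ)‖ ^ 2 * Real.exp (-φ x) = ‖c‖ ^ 2 := by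
      rw [PiLp.norm_sq_eq_of_L2]
      apply Finset.sum_congr rfl
      intro p _
      rw [wd_norm_sq]
      congr 1
      funext x
      exact wd_sqback φ x _
    rw [c1]
    refine hB.trans (le_of_eq ?_)
    simp only [c2, c3, ← hAdef]
    ring
  obtain ⟨f, G, C, hfG, hG0, h6, h7, h8, h9, h10⟩ := hdual T S hTc hSc hTS gt ((1 + ε) * A) A
    (by positivity) hA0 hap
  -- weighted test forms
  have hvt : ∀ v : Form Ω, ∃ vt : Form Ω, ∀ᵐ x ∂((volume : Measure (En n)).restrict Ω), ∀ j,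
      vt j x = v j x * (wdM t2 x : ℂ) := by
    intro v
    have mv := fun j => wd_mulm ho (wd_cM ct2) (wd_M0 t2) (wd_M1 t2 nt2) (v j)
    exact ⟨WithLp.toLp 2 (fun j => (mv j).toLp _), ae_all_iff.2 fun j => (mv j).coeFn_toLp⟩
  have hwt : ∀ w : Form2 Ω, ∃ wt : Form2 Ω, ∀ᵐ x ∂((volume : Measure (En n)).restrict Ω), ∀ p,
      wt p x = w p x * (wdM φ x : ℂ) := by
    intro w
    have mw := fun p => wd_mulm ho (wd_cM ct3) (wd_M0 φ) (wd_M1 φ nt3) (w p)
    exact ⟨WithLp.toLp 2 (fun p => (mw p).toLp _), ae_all_iff.2 fun p => (mw p).coeFn_toLp⟩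
  have hlhs : ∀ (v vt : Form Ω), (∀ᵐ x ∂((volume : Measure (En n)).restrict Ω), ∀ j,
      vt j x = v j x * (wdM t2 x : ℂ)) → ∀ (p : Pr n) (ρ : En n → ℂ),
      ∫ x in Ω, (vt p.1.2 x * ((wdP t2 x : ℂ) * dbar p.1.1 ρ x) -
        vt p.1.1 x * ((wdP t2 x : ℂ) * dbar p.1.2 ρ x)) =
      ∫ x in Ω, (v p.1.2 x * dbar p.1.1 ρ x - v p.1.1 x * dbar p.1.2 ρ x) := by
    intro v vt hv p ρ
    apply integral_congr_ae
    filter_upwards [hv] with x hx
    rw [hx, hx]
    linear_combination (v p.1.2 x * dbar p.1.1 ρ x - v p.1.1 x * dbar p.1.2 ρ x) * wd_PMc t2 x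
  refine ⟨fun x => f x * (wdP t1 x : ℂ), fun j x => G j x * (wdP t2 x : ℂ),
    fun p x => C p x * (wdP φ x : ℂ), ?_, ?_, ?_, ?_, ?_, ?_, ?_, ?_, ?_, ?_⟩
  · have : (fun x => f x * (wdP t1 x : ℂ) * (Real.exp (-t1 x / 2) : ℝ)) = (f : En n → ℂ) := by
      funext x
      exact wd_back t1 x _
    rw [this]
    exact Lp.memLp f
  · intro j
    have : (fun x => G j x * (wdP t2 x : ℂ) * (Real.exp (-t2 x / 2) : ℝ)) =
        (G j : En n → ℂ) := by
      funext x
      exact wd_back t2 x _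
    rw [this]
    exact Lp.memLp (G j)
  · intro p
    have : (fun x => C p x * (wdP φ x : ℂ) * (Real.exp (-φ x / 2) : ℝ)) =
        (C p : En n → ℂ) := by
      funext x
      exact wd_back φ x _
    rw [this]
    exact Lp.memLp (C p)
  · intro j ρ hρ
    have b1 := (hT f G).1 hfG j ρ hρ
    have b2 : ∀ x, f x * (wdP t1 x : ℂ) * dbar j ρ x = f x * ((wdP t1 x : ℂ) * dbar j ρ x) :=
      fun x => by ring
    have b3 : ∀ x, G j x * (wdP t2 x : ℂ) * ρ x = G j x * ((wdP t2 x : ℂ) * ρ x) :=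
      fun x => by ring
    simp_rw [b2, b3]
    exact b1
  · intro p ρ hρ
    have b1 := (hS G 0).1 hG0 p ρ hρ
    rw [hz p, neg_zero] at b1
    have b2 : ∀ x, G p.1.2 x * (wdP t2 x : ℂ) * dbar p.1.1 ρ x -
        G p.1.1 x * (wdP t2 x : ℂ) * dbar p.1.2 ρ x =
        G p.1.2 x * ((wdP t2 x : ℂ) * dbar p.1.1 ρ x) -
        G p.1.1 x * ((wdP t2 x : ℂ) * dbar p.1.2 ρ x) := fun x => by ring
    simp_rw [b2]
    exact b1
  · intro v hv
    obtain ⟨vt, hvt'⟩ := hvt v
    have hmem : (vt, (0 : Form2 Ω)) ∈ S := by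
      rw [hS]
      intro p ρ hρ
      rw [hlhs v vt hvt' p ρ, hv p ρ hρ, hz p, hz p]
    have b1 := h6 vt hmem
    rw [wd_inner_pi, wd_inner_pi] at b1
    have b2 : ∫ x in Ω, ∑ j, conj (v j x) * (G j x * (wdP t2 x : ℂ)) * (Real.exp (-t2 x) : ℝ) =
        ∫ x in Ω, ∑ i, conj (vt i x) * G i x := by
      apply integral_congr_ae
      filter_upwards [hvt'] with x hx
      apply Finset.sum_congr rfl
      intro j _
      rw [hx j, map_mul, Complex.conj_ofReal, wd_MM, Complex.ofReal_mul]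
      linear_combination (conj (v j x) * G j x * (wdM t2 x : ℂ)) * wd_PMc t2 x
    have b3 : ∫ x in Ω, ∑ j, conj (v j x) * gf χ j x = ∫ x in Ω, ∑ i, conj (vt i x) * gt i x := by
      apply integral_congr_ae
      filter_upwards [hvt', hgtall] with x hx hx'
      apply Finset.sum_congr rfl
      intro j _
      rw [hx j, hx' j, map_mul, Complex.conj_ofReal]
      linear_combination (-conj (v j x)) * hM2 j x
    exact b2.trans (b1.trans b3.symm)
  · intro v w hvw
    obtain ⟨vt, hvt'⟩ := hvt v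
    obtain ⟨wt, hwt'⟩ := hwt w
    have hmem : (vt, wt) ∈ S := by
      rw [hS]
      intro p ρ hρ
      rw [hlhs v vt hvt' p ρ, hvw p ρ hρ]
      congr 1
      apply integral_congr_ae
      filter_upwards [hwt'] with x hx
      rw [hx p]
      linear_combination (-(w p x * ρ x)) * wd_PMc φ x
    have b1 := h7 vt wt hmem
    rw [wd_inner_pi, wd_inner_pi] at b1
    have b2 : ∫ x in Ω, ∑ p, conj (w p x) * (C p x * (wdP φ x : ℂ)) * (Real.exp (-φ x) : ℝ) =
        ∫ x in Ω, ∑ i, conj (wt i x) * C i x := by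
      apply integral_congr_ae
      filter_upwards [hwt'] with x hx
      apply Finset.sum_congr rfl
      intro j _
      rw [hx j, map_mul, Complex.conj_ofReal, wd_MM, Complex.ofReal_mul]
      linear_combination (conj (w j x) * C j x * (wdM φ x : ℂ)) * wd_PMc φ x
    have hsub : ∀ᵐ x ∂((volume : Measure (En n)).restrict Ω), ∀ j,
        (gt - G) j x = gt j x - G j x := ae_all_iff.2 fun j => Lp.coeFn_sub (gt j) (G j)
    have b3 : ∫ x in Ω, ∑ j, conj (v j x) * (gf χ j x - G j x * (wdP t2 x : ℂ)) *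
        (Real.exp (-t2 x) : ℝ) = ∫ x in Ω, ∑ i, conj (vt i x) * (gt - G) i x := by
      apply integral_congr_ae
      filter_upwards [hvt', hgtall, hsub] with x hx hx' hx''
      apply Finset.sum_congr rfl
      intro j _
      rw [hx'' j, hx j, hx' j, map_mul, Complex.conj_ofReal, wd_MM, Complex.ofReal_mul]
      linear_combination (conj (v j x) * (wdM t2 x : ℂ)) * hM2 j x -
        (conj (v j x) * G j x * (wdM t2 x : ℂ)) * wd_PMc t2 x
    exact b2.trans (b1.trans b3.symm)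
  · have b1 : ∑ j, ∫ x in Ω, ‖G j x * (wdP t2 x : ℂ)‖ ^ 2 * Real.exp (-t2 x) = ‖G‖ ^ 2 := by
      rw [PiLp.norm_sq_eq_of_L2]
      apply Finset.sum_congr rfl
      intro j _
      rw [wd_norm_sq]
      congr 1
      funext x
      exact wd_sqback t2 x _
    rw [b1]
    calc ‖G‖ ^ 2 ≤ ‖gt‖ ^ 2 := pow_le_pow_left₀ (norm_nonneg _) h8 2
      _ = ∑ j, ∫ x in Ω, ‖gf χ j x‖ ^ 2 := by
          rw [PiLp.norm_sq_eq_of_L2]
          apply Finset.sum_congr rfl
          intro j _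
          rw [wd_norm_sq]
          apply integral_congr_ae
          filter_upwards [hgt j] with x hx
          rw [hx]
      _ ≤ ∑ j, ∫ x, ‖gf χ j x‖ ^ 2 := by
          apply Finset.sum_le_sum
          intro j _
          apply setIntegral_le_integral
          · have := ((hgfc j).memLp_of_hasCompactSupport (p := 2)
              (μ := (volume : Measure (En n)))
              (HasCompactSupport.intro hL (hgf0 j))).integrable_norm_pow (p := 2) (by norm_num)
            simpa using this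
          · exact Eventually.of_forall fun x => sq_nonneg _
  · have b1 : ∫ x in Ω, ‖f x * (wdP t1 x : ℂ)‖ ^ 2 * Real.exp (-t1 x) = ‖f‖ ^ 2 := by
      rw [wd_norm_sq]
      congr 1
      funext x
      exact wd_sqback t1 x _
    rw [b1]
    exact h9
  · have b1 : ∑ p, ∫ x in Ω, ‖C p x * (wdP φ x : ℂ)‖ ^ 2 * Real.exp (-φ x) = ‖C‖ ^ 2 := by
      rw [PiLp.norm_sq_eq_of_L2]
      apply Finset.sum_congr rfl
      intro p _
      rw [wd_norm_sq]
      congr 1
      funext x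
      exact wd_sqback φ x _
    rw [b1]
    refine h10.trans ?_
    nlinarith

end BK.JB6
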