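import Pool.Agent.H314.BK.St

set_option autoImplicit false

open MeasureTheory Complex Filter Topology
open scoped ContDiff InnerProductSpace ENNReal ComplexConjugate

namespace BK.JB7

variable {n : ℕ}

/-- weak limits along an ultrafilter -/
theorem lim_weak {H : Type*} [NormedAddCommGroup H] [InnerProductSpace ℂ H] [CompleteSpace H]
    (U : Ultrafilter ℕ) (x : ℕ → H) (R : ℝ) (hx : ∀ ν, ‖x ν‖ ^ 2 ≤ R) :
    ∃ y : H, ‖y‖ ^ 2 ≤ R ∧
      ∀ z : H, Tendsto (fun ν => inner ℂ z (x ν)) U (𝓝 (inner ℂ z y)) := by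
  have hR0 : 0 ≤ R := le_trans (by positivity) (hx 0)
  let f : ℕ → WeakDual ℂ H := fun ν => StrongDual.toWeakDual (InnerProductSpace.toDual ℂ H (x ν))
  set K : Set (WeakDual ℂ H) := WeakDual.toStrongDual ⁻¹' Metric.closedBall 0 (Real.sqrt R) with hK
  have hKc : IsCompact K := WeakDual.isCompact_closedBall 0 (Real.sqrt R)
  have hfK : ∀ ν, f ν ∈ K := by
    intro ν
    show (InnerProductSpace.toDual ℂ H (x ν)) ∈ Metric.closedBall (0 : StrongDual ℂ H) (Real.sqrt R)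
    rw [mem_closedBall_zero_iff, LinearIsometryEquiv.norm_map]
    exact Real.le_sqrt_of_sq_le (hx ν)
  obtain ⟨φ, hφK, hφ⟩ := hKc.ultrafilter_le_nhds' (U.map f)
    (Ultrafilter.mem_map.2 (Filter.univ_mem' hfK))
  set y : H := (InnerProductSpace.toDual ℂ H).symm (WeakDual.toStrongDual φ) with hy
  have hyφ : ∀ z, inner ℂ y z = φ z := by
    intro z
    rw [hy, InnerProductSpace.toDual_symm_apply]
    rfl
  refine ⟨y, ?_, fun z => ?_⟩
  · have h1 : ‖y‖ ≤ Real.sqrt R := by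
      rw [hy, LinearIsometryEquiv.norm_map]
      exact mem_closedBall_zero_iff.1 hφK
    calc ‖y‖ ^ 2 ≤ Real.sqrt R ^ 2 := by gcongr
      _ = R := Real.sq_sqrt hR0
  · have h1 : Tendsto (fun ν => f ν z) U (𝓝 (φ z)) :=
      ((WeakDual.eval_continuous z).tendsto φ).comp hφ
    have h2 : (fun ν => inner ℂ z (x ν)) = fun ν => conj (f ν z) := by
      funext ν
      show inner ℂ z (x ν) = conj (inner ℂ (x ν) z)
      exact (inner_conj_symm z (x ν)).symm
    rw [h2, ← inner_conj_symm z y, hyφ]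
    exact (Complex.continuous_conj.tendsto _).comp h1

/-- an exhaustion by compact sets -/
theorem lim_exh (Ω : Set (En n)) (ho : IsOpen Ω) (T : Set (En n)) (hT : IsCompact T)
    (hTΩ : T ⊆ Ω) : ∃ L : ℕ → Set (En n), (∀ ν, IsCompact (L ν)) ∧ (∀ ν, L ν ⊆ Ω) ∧
      (∀ ν, T ⊆ L ν) ∧ ∀ K : Set (En n), IsCompact K → K ⊆ Ω → ∃ N, ∀ ν, N ≤ ν → K ⊆ L ν := by
  have : LocallyCompactSpace Ω := ho.locallyCompactSpace
  let E := CompactExhaustion.choice Ω
  refine ⟨fun ν => Subtype.val '' (E ν) ∪ T, fun ν => ?_, fun ν => ?_, fun ν => ?_, ?_⟩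
  · exact ((E.isCompact ν).image continuous_subtype_val).union hT
  · refine Set.union_subset ?_ hTΩ
    rintro _ ⟨y, -, rfl⟩
    exact y.2
  · exact Set.subset_union_right
  · intro K hK hKΩ
    have h1 : IsCompact ((Subtype.val : Ω → En n) ⁻¹' K) := by
      rw [Topology.IsInducing.subtypeVal.isCompact_preimage_iff (by
        rw [Subtype.range_coe]; exact hKΩ)]
      exact hK
    obtain ⟨N, hN⟩ := E.exists_superset_of_isCompact h1
    refine ⟨N, fun ν hν => ?_⟩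
    intro x hx
    left
    exact ⟨⟨x, hKΩ hx⟩, E.subset hν (hN hx), rfl⟩

/-- square norm of an `Lp` element -/
theorem lim_norm_sq (Ω : Set (En n)) (f : En n → ℂ)
    (hf : MemLp f 2 ((volume : Measure (En n)).restrict Ω)) :
    ‖hf.toLp f‖ ^ 2 = ∫ x in Ω, ‖f x‖ ^ 2 := by
  have h1 : (‖hf.toLp f‖ ^ 2 : ℝ) = RCLike.re (inner ℂ (hf.toLp f) (hf.toLp f)) :=
    (inner_self_eq_norm_sq (𝕜 := ℂ) _).symm
  rw [h1, MeasureTheory.L2.inner_def]
  have h2 : (fun a => inner ℂ ((hf.toLp f) a) ((hf.toLp f) a)) =ᵐ[(volume : Measure (En n)).restrict Ω]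
      fun a => ((‖f a‖ ^ 2 : ℝ) : ℂ) := by
    filter_upwards [hf.coeFn_toLp] with a ha
    rw [ha, inner_self_eq_norm_sq_to_K]
    push_cast
    rfl
  rw [integral_congr_ae h2, integral_complex_ofReal]
  simp

theorem lim_inner_int {ι : Type} [Fintype ι] (Ω : Set (En n)) (v : PiLp 2 (fun _ : ι => L2 Ω))
    (F : ι → En n → ℂ) (hF : ∀ i, MemLp (F i) 2 ((volume : Measure (En n)).restrict Ω)) :
    Integrable (fun x => ∑ i, conj (v i x) * F i x) ((volume : Measure (En n)).restrict Ω) ∧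
    inner ℂ v (WithLp.toLp 2 (fun i => (hF i).toLp (F i)) : PiLp 2 (fun _ : ι => L2 Ω)) =
      ∫ x in Ω, ∑ i, conj (v i x) * F i x := by
  have h1 : ∀ i, Integrable (fun x => conj (v i x) * F i x)
      ((volume : Measure (En n)).restrict Ω) := by
    intro i
    have h2 := MeasureTheory.L2.integrable_inner (𝕜 := ℂ) (v i) ((hF i).toLp (F i))
    refine h2.congr ?_
    filter_upwards [(hF i).coeFn_toLp] with a ha
    rw [ha, RCLike.inner_apply, mul_comm]
  refine ⟨integrable_finsetSum _ (fun i _ => h1 i), ?_⟩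
  rw [integral_finsetSum _ (fun i _ => h1 i), PiLp.inner_apply]
  refine Finset.sum_congr rfl fun i _ => ?_
  rw [MeasureTheory.L2.inner_def]
  refine integral_congr_ae ?_
  filter_upwards [(hF i).coeFn_toLp] with a ha
  show inner ℂ (v i a) (((hF i).toLp (F i)) a) = _
  rw [ha, RCLike.inner_apply, mul_comm]

/-- multiplication by a weight -/
theorem lim_w (Ω : Set (En n)) (ho : IsOpen Ω) (s : En n → ℝ) (hs : ContinuousOn s Ω)
    (hs0 : ∀ x, 0 ≤ s x) (f : En n → ℂ)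
    (hf : MemLp (fun x => f x * (Real.exp (-s x / 2) : ℝ)) 2
      ((volume : Measure (En n)).restrict Ω)) :
    MemLp (fun x => f x * (Real.exp (-s x) : ℝ)) 2 ((volume : Measure (En n)).restrict Ω) ∧
    ∫ x in Ω, ‖f x * (Real.exp (-s x) : ℝ)‖ ^ 2 ≤ ∫ x in Ω, ‖f x‖ ^ 2 * Real.exp (-s x) := by
  have he : ∀ x, (f x * (Real.exp (-s x) : ℝ) : ℂ) =
      f x * (Real.exp (-s x / 2) : ℝ) * (Real.exp (-s x / 2) : ℝ) := by
    intro x
    rw [mul_assoc, ← Complex.ofReal_mul, ← Real.exp_add]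
    congr 3
    ring
  have hle : ∀ x, Real.exp (-s x / 2) ≤ 1 := fun x => by
    rw [Real.exp_le_one_iff]; linarith [hs0 x]
  have hmeas : AEStronglyMeasurable (fun x => ((Real.exp (-s x / 2) : ℝ) : ℂ))
      ((volume : Measure (En n)).restrict Ω) := by
    refine ContinuousOn.aestronglyMeasurable ?_ ho.measurableSet
    exact Complex.continuous_ofReal.comp_continuousOn
      (Real.continuous_exp.comp_continuousOn (hs.neg.div_const 2))
  have hbd : ∀ x, ‖f x * (Real.exp (-s x) : ℝ)‖ ≤ ‖f x * (Real.exp (-s x / 2) : ℝ)‖ := by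
    intro x
    rw [he x, norm_mul]
    have h1 : ‖((Real.exp (-s x / 2) : ℝ) : ℂ)‖ ≤ 1 := by
      rw [Complex.norm_real, Real.norm_of_nonneg (Real.exp_pos _).le]; exact hle x
    calc _ ≤ ‖f x * (Real.exp (-s x / 2) : ℝ)‖ * 1 := by gcongr
      _ = _ := mul_one _
  have hsq : ∀ x, ‖f x * (Real.exp (-s x / 2) : ℝ)‖ ^ 2 = ‖f x‖ ^ 2 * Real.exp (-s x) := by
    intro x
    rw [norm_mul, Complex.norm_real, Real.norm_of_nonneg (Real.exp_pos _).le, mul_pow,
      ← Real.exp_nat_mul]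
    congr 2
    push_cast; ring
  constructor
  · refine hf.of_le ?_ (Filter.Eventually.of_forall hbd)
    have h2 := hf.1.mul hmeas
    refine h2.congr (Filter.Eventually.of_forall fun x => ?_)
    exact (he x).symm
  · refine integral_mono_of_nonneg (Filter.Eventually.of_forall fun x => by positivity) ?_
      (Filter.Eventually.of_forall fun x => ?_)
    · have h3 : Integrable (fun x => ‖f x * (Real.exp (-s x / 2) : ℝ)‖ ^ 2)
          ((volume : Measure (En n)).restrict Ω) := hf.integrable_norm_pow (by norm_num)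
      refine h3.congr (Filter.Eventually.of_forall fun x => ?_)
      exact hsq x
    · show ‖f x * (Real.exp (-s x) : ℝ)‖ ^ 2 ≤ ‖f x‖ ^ 2 * Real.exp (-s x)
      rw [← hsq x]
      exact pow_le_pow_left₀ (norm_nonneg _) (hbd x) 2

/-- derivatives of test functions -/
theorem lim_fd {Ω : Set (En n)} {ρ : En n → ℂ} (hρ : IsTest Ω ρ) (v : En n) :
    Continuous (fun x => fderiv ℝ ρ x v) :=
  (hρ.smooth.continuous_fderiv (by simp)).clm_apply continuous_const

theorem lim_fd0 {ρ : En n → ℂ} {x : En n} (hx : x ∉ tsupport ρ) : fderiv ℝ ρ x = 0 :=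
  fderiv_of_notMem_tsupport ℝ hx

theorem lim_dbar0 {ρ : En n → ℂ} {x : En n} (hx : x ∉ tsupport ρ) (j : Fin n) :
    dbar j ρ x = 0 := by
  unfold dbar; rw [lim_fd0 hx]; simp

theorem lim_dz0 {ρ : En n → ℂ} {x : En n} (hx : x ∉ tsupport ρ) (j : Fin n) :
    dz j ρ x = 0 := by
  unfold dz; rw [lim_fd0 hx]; simp

theorem lim_dbar_cont {Ω : Set (En n)} {ρ : En n → ℂ} (hρ : IsTest Ω ρ) (j : Fin n) :
    Continuous (dbar j ρ) := by
  unfold dbar
  exact continuous_const.mul ((lim_fd hρ _).add (continuous_const.mul (lim_fd hρ _)))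

theorem lim_dz_cont {Ω : Set (En n)} {ρ : En n → ℂ} (hρ : IsTest Ω ρ) (j : Fin n) :
    Continuous (dz j ρ) := by
  unfold dz
  exact continuous_const.mul ((lim_fd hρ _).sub (continuous_const.mul (lim_fd hρ _)))

theorem lim_memLp (Ω : Set (En n)) {τ : En n → ℂ} (hτ : Continuous τ) (K : Set (En n))
    (hK : IsCompact K) (h0 : ∀ x, x ∉ K → τ x = 0) :
    MemLp τ 2 ((volume : Measure (En n)).restrict Ω) ∧
      MemLp (fun x => conj (τ x)) 2 ((volume : Measure (En n)).restrict Ω) := by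
  constructor
  · exact hτ.memLp_of_hasCompactSupport (HasCompactSupport.intro hK h0)
  · refine (Complex.continuous_conj.comp hτ).memLp_of_hasCompactSupport
      (HasCompactSupport.intro hK fun x hx => ?_)
    show conj (τ x) = 0
    rw [h0 x hx, map_zero]

/-- pairing with a continuous compactly supported function is weakly continuous -/
theorem lim_pair (Ω : Set (En n)) {τ : En n → ℂ} (hτ : Continuous τ) (K : Set (En n))
    (hK : IsCompact K) (h0 : ∀ x, x ∉ K → τ x = 0) :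
    ∃ z : L2 Ω, ∀ h : L2 Ω, inner ℂ z h = ∫ x in Ω, h x * τ x := by
  obtain ⟨-, h2⟩ := lim_memLp Ω hτ K hK h0
  refine ⟨h2.toLp _, fun h => ?_⟩
  rw [MeasureTheory.L2.inner_def]
  refine integral_congr_ae ?_
  filter_upwards [h2.coeFn_toLp] with a ha
  rw [ha, RCLike.inner_apply]
  simp

theorem lim_pair_int (Ω : Set (En n)) {τ : En n → ℂ} (hτ : Continuous τ) (K : Set (En n))
    (hK : IsCompact K) (h0 : ∀ x, x ∉ K → τ x = 0) (h : L2 Ω) :
    Integrable (fun x => h x * τ x) ((volume : Measure (En n)).restrict Ω) :=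
  (Lp.memLp h).integrable_mul (lim_memLp Ω hτ K hK h0).1

theorem lim_comp {ι : Type} [Fintype ι] [DecidableEq ι] (Ω : Set (En n)) (z : L2 Ω) (j : ι)
    (G : PiLp 2 (fun _ : ι => L2 Ω)) :
    inner ℂ (WithLp.toLp 2 (Pi.single j z) : PiLp 2 (fun _ : ι => L2 Ω)) G = inner ℂ z (G j) := by
  rw [PiLp.inner_apply, Finset.sum_eq_single j]
  · show inner ℂ (Pi.single (M := fun _ : ι => L2 Ω) j z j) (G j) = _
    rw [Pi.single_eq_same]
  · intro i _ hi
    show inner ℂ (Pi.single (M := fun _ : ι => L2 Ω) j z i) (G i) = 0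
    rw [Pi.single_eq_of_ne hi, inner_zero_left]
  · intro h; exact absurd (Finset.mem_univ j) h

theorem lim_wts_one {Ω L : Set (En n)} {ε : ℝ} {φ ψ : En n → ℝ} {η : ℕ → En n → ℝ}
    (hW : Wts Ω L ε φ ψ η) {x : En n} (hx : x ∈ L) : φ x = 0 ∧ ψ x = 0 := by
  have h1 := hW.zL x hx
  have h2 := hW.φ2 x
  have h3 := hW.ψ0 x
  exact ⟨h1, by linarith⟩

theorem lim (Ω : Set (En n)) (ho : IsOpen Ω) (hb : Bornology.IsBounded Ω) (hWE : WE Ω)
    (hWD : ∀ (L : Set (En n)) (ε : ℝ) (φ ψ : En n → ℝ) (η : ℕ → En n → ℝ), 0 < ε →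
      IsCompact L → L ⊆ Ω → Wts Ω L ε φ ψ η → WD Ω L ε φ ψ) : DK Ω := by
  intro χ hχ ε hε
  obtain ⟨T, hTdef⟩ : ∃ T : Set (En n), T = ⋃ j, ⋃ k, tsupport (χ j k) := ⟨_, rfl⟩
  have hTs : ∀ j k, tsupport (χ j k) ⊆ T := by
    intro j k
    rw [hTdef]
    exact Set.subset_iUnion_of_subset j (Set.subset_iUnion (fun k => tsupport (χ j k)) k)
  have hT : IsCompact T := by
    rw [hTdef]
    exact isCompact_iUnion fun j => isCompact_iUnion fun k => (hχ j k).compact
  have hTΩ : T ⊆ Ω := by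
    rw [hTdef]
    exact Set.iUnion_subset fun j => Set.iUnion_subset fun k => (hχ j k).supp
  obtain ⟨L, hLc, hLΩ, hLT, hLex⟩ := lim_exh Ω ho T hT hTΩ
  have hW : ∀ ν, ∃ (φ ψ : En n → ℝ) (η : ℕ → En n → ℝ), Wts Ω (L ν) ε φ ψ η :=
    fun ν => hWE (L ν) (hLc ν) (hLΩ ν) ε hε
  choose φ ψ η hW using hW
  have hD := fun ν => hWD (L ν) ε (φ ν) (ψ ν) (η ν) hε (hLc ν) (hLΩ ν) (hW ν) χ hχ
    (fun j k => (hTs j k).trans (hLT ν))
  choose b G C hb0 hG0 hC0 r1 r2 r3 r4 nG nb nC using hD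
  have hone : ∀ ν x, x ∈ L ν → φ ν x = 0 ∧ ψ ν x = 0 := fun ν x hx => lim_wts_one (hW ν) hx
  have hcφ : ∀ ν, ContinuousOn (φ ν) Ω := fun ν => (hW ν).sφ.continuousOn
  have hcψ : ∀ ν, ContinuousOn (ψ ν) Ω := fun ν => (hW ν).sψ.continuousOn
  have hb' := fun ν => lim_w Ω ho (fun x => φ ν x - 2 * ψ ν x)
    ((hcφ ν).sub (continuousOn_const.mul (hcψ ν)))
    (fun x => by have := (hW ν).φ2 x; show 0 ≤ φ ν x - 2 * ψ ν x; linarith) (b ν) (hb0 ν)
  have hG' := fun ν j => lim_w Ω ho (fun x => φ ν x - ψ ν x) ((hcφ ν).sub (hcψ ν))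
    (fun x => by
      have := (hW ν).φ2 x
      have := (hW ν).ψ0 x
      show 0 ≤ φ ν x - ψ ν x
      linarith) (G ν j) (hG0 ν j)
  have hC' := fun ν p => lim_w Ω ho (φ ν) (hcφ ν)
    (fun x => by
      have := (hW ν).φ2 x
      have := (hW ν).ψ0 x
      linarith) (C ν p) (hC0 ν p)
  -- the test form
  have hgfc : ∀ j, Continuous (gf χ j) := by
    intro j
    unfold gf
    exact (continuous_finsetSum _ fun k _ => lim_dz_cont (hχ j k) k).neg
  have hgf0 : ∀ j x, x ∉ T → gf χ j x = 0 := by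
    intro j x hx
    unfold gf
    rw [Finset.sum_eq_zero, neg_zero]
    intro k _
    exact lim_dz0 (fun h => hx (hTs j k h)) k
  have hgf : ∀ j, MemLp (gf χ j) 2 ((volume : Measure (En n)).restrict Ω) := fun j =>
    (lim_memLp Ω (hgfc j) T hT (hgf0 j)).1
  -- the sequences
  obtain ⟨xb, hxb⟩ : ∃ xb : ℕ → L2 Ω, ∀ ν, xb ν = (hb' ν).1.toLp _ := ⟨_, fun _ => rfl⟩
  obtain ⟨xG, hxG⟩ : ∃ xG : ℕ → Form Ω, ∀ ν, xG ν =
    WithLp.toLp 2 (fun j => (hG' ν j).1.toLp _) := ⟨_, fun _ => rfl⟩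
  obtain ⟨xC, hxC⟩ : ∃ xC : ℕ → Form2 Ω, ∀ ν, xC ν =
    WithLp.toLp 2 (fun p => (hC' ν p).1.toLp _) := ⟨_, fun _ => rfl⟩
  obtain ⟨g, hg⟩ : ∃ g : Form Ω, g = WithLp.toLp 2 (fun j => (hgf j).toLp _) := ⟨_, rfl⟩
  have hxb_n : ∀ ν, ‖xb ν‖ ^ 2 ≤ (1 + ε) * ∑ j, ∑ k, ∫ x, ‖χ j k x‖ ^ 2 := by
    intro ν
    rw [hxb, lim_norm_sq]
    exact (hb' ν).2.trans (nb ν)
  have hxG_n : ∀ ν, ‖xG ν‖ ^ 2 ≤ ∑ j, ∫ x, ‖gf χ j x‖ ^ 2 := by
    intro ν
    rw [hxG, PiLp.norm_sq_eq_of_L2]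
    refine le_trans (Finset.sum_le_sum fun j _ => ?_) (nG ν)
    have := lim_norm_sq Ω _ (hG' ν j).1
    refine le_trans (le_of_eq this) (hG' ν j).2
  have hxC_n : ∀ ν, ‖xC ν‖ ^ 2 ≤ (1 + ε) * ∑ j, ∑ k, ∫ x, ‖χ j k x‖ ^ 2 := by
    intro ν
    rw [hxC, PiLp.norm_sq_eq_of_L2]
    refine le_trans (Finset.sum_le_sum fun p _ => ?_) (nC ν)
    have := lim_norm_sq Ω _ (hC' ν p).1
    refine le_trans (le_of_eq this) (hC' ν p).2
  set U : Ultrafilter ℕ := Filter.hyperfilter ℕ with hU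
  have hUat : (U : Filter ℕ) ≤ atTop := Nat.hyperfilter_le_atTop
  obtain ⟨b₀, hb₀n, hb₀⟩ := lim_weak U xb _ hxb_n
  obtain ⟨G₀, -, hG₀⟩ := lim_weak U xG _ hxG_n
  obtain ⟨C₀, hC₀n, hC₀⟩ := lim_weak U xC _ hxC_n
  -- pairing with test functions
  have hLlarge : ∀ K : Set (En n), IsCompact K → K ⊆ Ω → ∀ᶠ ν in (U : Filter ℕ), K ⊆ L ν := by
    intro K hK hKΩ
    obtain ⟨N, hN⟩ := hLex K hK hKΩ
    exact hUat (eventually_atTop.2 ⟨N, hN⟩)
  have hGj : ∀ (τ : En n → ℂ), Continuous τ → ∀ K : Set (En n), IsCompact K →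
      (∀ x, x ∉ K → τ x = 0) → ∀ j, Tendsto (fun ν => ∫ x in Ω, xG ν j x * τ x) U
        (𝓝 (∫ x in Ω, G₀ j x * τ x)) := by
    intro τ hτ K hK h0 j
    obtain ⟨z, hz⟩ := lim_pair Ω hτ K hK h0
    have h1 := hG₀ (WithLp.toLp 2 (Pi.single j z))
    simp only [lim_comp, hz] at h1
    exact h1
  have hbj : ∀ (τ : En n → ℂ), Continuous τ → ∀ K : Set (En n), IsCompact K →
      (∀ x, x ∉ K → τ x = 0) → Tendsto (fun ν => ∫ x in Ω, xb ν x * τ x) U
        (𝓝 (∫ x in Ω, b₀ x * τ x)) := by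
    intro τ hτ K hK h0
    obtain ⟨z, hz⟩ := lim_pair Ω hτ K hK h0
    have h1 := hb₀ z
    simp only [hz] at h1
    exact h1
  -- values of the sequences on test functions
  have hGval : ∀ ν (τ : En n → ℂ) (K : Set (En n)), K ⊆ L ν → (∀ x, x ∉ K → τ x = 0) → ∀ j,
      (fun x => xG ν j x * τ x) =ᵐ[(volume : Measure (En n)).restrict Ω]
        fun x => G ν j x * τ x := by
    intro ν τ K hK h0 j
    have h1 := (hG' ν j).1.coeFn_toLp
    filter_upwards [h1] with x hx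
    have h2 : xG ν j x = G ν j x * (Real.exp (-(φ ν x - ψ ν x)) : ℝ) := by
      rw [hxG]; exact hx
    by_cases hxK : x ∈ K
    · obtain ⟨e1, e2⟩ := hone ν x (hK hxK)
      rw [h2, e1, e2]; simp
    · rw [h0 x hxK, mul_zero, mul_zero]
  have hbval : ∀ ν (τ : En n → ℂ) (K : Set (En n)), K ⊆ L ν → (∀ x, x ∉ K → τ x = 0) →
      (fun x => xb ν x * τ x) =ᵐ[(volume : Measure (En n)).restrict Ω]
        fun x => b ν x * τ x := by
    intro ν τ K hK h0
    have h1 := (hb' ν).1.coeFn_toLp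
    filter_upwards [h1] with x hx
    have h2 : xb ν x = b ν x * (Real.exp (-(φ ν x - 2 * ψ ν x)) : ℝ) := by
      rw [hxb]; exact hx
    by_cases hxK : x ∈ K
    · obtain ⟨e1, e2⟩ := hone ν x (hK hxK)
      rw [h2, e1, e2]; simp
    · rw [h0 x hxK, mul_zero, mul_zero]
  have hxGin : ∀ ν (v : Form Ω), inner ℂ v (xG ν) =
      ∫ x in Ω, ∑ j, conj (v j x) * (G ν j x * (Real.exp (-(φ ν x - ψ ν x)) : ℝ)) := by
    intro ν v
    rw [hxG]
    exact (lim_inner_int Ω v _ (fun j => (hG' ν j).1)).2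
  have hgin : ∀ v : Form Ω, inner ℂ v g = ∫ x in Ω, ∑ j, conj (v j x) * gf χ j x := by
    intro v
    rw [hg]
    exact (lim_inner_int Ω v _ hgf).2
  refine ⟨b₀, G₀, g, C₀, ?_, ?_, ?_, ?_, ?_, hb₀n, hC₀n⟩
  · intro j
    have h1 := (hgf j).coeFn_toLp
    filter_upwards [h1] with x hx
    rw [hg]; exact hx
  · -- dbar b = G
    intro j ρ hρ
    have t1 := hbj (dbar j ρ) (lim_dbar_cont hρ j) (tsupport ρ) hρ.compact
      (fun x hx => lim_dbar0 hx j)
    have t2 := (hGj ρ hρ.smooth.continuous (tsupport ρ) hρ.compact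
      (fun x hx => image_eq_zero_of_notMem_tsupport hx) j).neg
    refine tendsto_nhds_unique_of_eventuallyEq t1 t2 ?_
    filter_upwards [hLlarge (tsupport ρ) hρ.compact hρ.supp] with ν hν
    rw [integral_congr_ae (hbval ν (dbar j ρ) (tsupport ρ) hν (fun x hx => lim_dbar0 hx j)),
      integral_congr_ae (hGval ν ρ (tsupport ρ) hν
        (fun x hx => image_eq_zero_of_notMem_tsupport hx) j)]
    exact r1 ν j ρ hρ
  · -- dbar G = 0
    intro p ρ hρ
    have hc1 := lim_dbar_cont hρ p.1.1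
    have hc2 := lim_dbar_cont hρ p.1.2
    have hz1 : ∀ x, x ∉ tsupport ρ → dbar p.1.1 ρ x = 0 := fun x hx => lim_dbar0 hx _
    have hz2 : ∀ x, x ∉ tsupport ρ → dbar p.1.2 ρ x = 0 := fun x hx => lim_dbar0 hx _
    have t1 := hGj _ hc1 (tsupport ρ) hρ.compact hz1 p.1.2
    have t2 := hGj _ hc2 (tsupport ρ) hρ.compact hz2 p.1.1
    have t3 := t1.sub t2
    have e0 : ∫ x in Ω, (0 : Form2 Ω) p x * ρ x = 0 := by
      have h1 : (fun x => (0 : Form2 Ω) p x * ρ x) =ᵐ[(volume : Measure (En n)).restrict Ω]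
          fun _ => (0 : ℂ) := by
        filter_upwards [Lp.coeFn_zero ℂ 2 ((volume : Measure (En n)).restrict Ω)] with x hx
        show (0 : L2 Ω) x * ρ x = 0
        rw [hx]; simp
      rw [integral_congr_ae h1, integral_zero]
    rw [e0, neg_zero]
    rw [integral_sub (lim_pair_int Ω hc1 (tsupport ρ) hρ.compact hz1 _)
      (lim_pair_int Ω hc2 (tsupport ρ) hρ.compact hz2 _)]
    refine tendsto_nhds_unique_of_eventuallyEq t3 tendsto_const_nhds ?_
    filter_upwards [hLlarge (tsupport ρ) hρ.compact hρ.supp] with ν hν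
    have a1 := hGval ν _ (tsupport ρ) hν hz1 p.1.2
    have a2 := hGval ν _ (tsupport ρ) hν hz2 p.1.1
    rw [← integral_sub (lim_pair_int Ω hc1 (tsupport ρ) hρ.compact hz1 _)
      (lim_pair_int Ω hc2 (tsupport ρ) hρ.compact hz2 _)]
    exact (integral_congr_ae (a1.sub a2)).trans (r2 ν p ρ hρ)
  · -- closed forms
    intro v hv
    have h1 : ∀ ν, inner ℂ v (xG ν) = inner ℂ v g := by
      intro ν
      rw [hxGin, hgin, ← r3 ν v hv]
      refine integral_congr_ae (Filter.Eventually.of_forall fun x => ?_)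
      refine Finset.sum_congr rfl fun j _ => ?_
      rw [mul_assoc]
    have h2 := hG₀ v
    simp only [h1] at h2
    exact tendsto_nhds_unique h2 tendsto_const_nhds |>.symm ▸ rfl
  · -- adjoint
    intro v w hvw
    have h1 : ∀ ν, inner ℂ w (xC ν) = inner ℂ v g - inner ℂ v (xG ν) := by
      intro ν
      have h2 : inner ℂ w (xC ν) =
          ∫ x in Ω, ∑ p, conj (w p x) * (C ν p x * (Real.exp (-φ ν x) : ℝ)) := by
        rw [hxC]
        exact (lim_inner_int Ω w _ (fun p => (hC' ν p).1)).2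
      have h3 : inner ℂ w (xC ν) =
          ∫ x in Ω, ∑ j, conj (v j x) * (gf χ j x - G ν j x) *
            (Real.exp (-(φ ν x - ψ ν x)) : ℝ) := by
        rw [h2, ← r4 ν v w hvw]
        refine integral_congr_ae (Filter.Eventually.of_forall fun x => ?_)
        refine Finset.sum_congr rfl fun p _ => ?_
        rw [mul_assoc]
      rw [h3, hxGin, hgin, ← integral_sub (lim_inner_int Ω v _ hgf).1
        (lim_inner_int Ω v _ (fun j => (hG' ν j).1)).1]
      refine integral_congr_ae (Filter.Eventually.of_forall fun x => ?_)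
      show ∑ j, conj (v j x) * (gf χ j x - G ν j x) * (Real.exp (-(φ ν x - ψ ν x)) : ℝ) =
        ∑ j, conj (v j x) * gf χ j x -
          ∑ j, conj (v j x) * (G ν j x * (Real.exp (-(φ ν x - ψ ν x)) : ℝ))
      rw [← Finset.sum_sub_distrib]
      refine Finset.sum_congr rfl fun j _ => ?_
      have h4 : gf χ j x * (Real.exp (-(φ ν x - ψ ν x)) : ℝ) = gf χ j x := by
        by_cases hx : x ∈ T
        · obtain ⟨e1, e2⟩ := hone ν x (hLT ν hx)
          rw [e1, e2]; simp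
        · rw [hgf0 j x hx, zero_mul]
      linear_combination (conj (v j x)) * h4
    have t1 := hC₀ w
    have t2 : Tendsto (fun ν => inner ℂ v g - inner ℂ v (xG ν)) U
        (𝓝 (inner ℂ v g - inner ℂ v G₀)) := tendsto_const_nhds.sub (hG₀ v)
    simp only [h1] at t1
    rw [inner_sub_right]
    exact tendsto_nhds_unique t1 t2

end BK.JB7
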