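import Pool.Agent.H314.BK.St

set_option autoImplicit false

open MeasureTheory Complex Filter Topology
open scoped ContDiff InnerProductSpace ENNReal ComplexConjugate

namespace BK.JB8

variable {n : ℕ}

theorem km_of_dk_riesz {V H : Type*} [AddCommGroup V] [Module ℂ V] [NormedAddCommGroup H]
    [InnerProductSpace ℂ H] [CompleteSpace H] (T : V →ₗ[ℂ] H) (Λ : V →ₗ[ℂ] ℂ) (M : ℝ)
    (hM : 0 ≤ M) (h : ∀ v, ‖Λ v‖ ≤ M * ‖T v‖) :
    ∃ w : H, ‖w‖ ≤ M ∧ ∀ v, Λ v = inner ℂ w (T v) := by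
  have hk : LinearMap.ker T ≤ LinearMap.ker Λ := by
    intro v hv
    rw [LinearMap.mem_ker] at *
    have := h v
    rw [hv, norm_zero, mul_zero] at this
    exact norm_le_zero_iff.mp this
  let g0 : (V ⧸ LinearMap.ker T) →ₗ[ℂ] ℂ := (LinearMap.ker T).liftQ Λ hk
  let g : LinearMap.range T →ₗ[ℂ] ℂ := g0 ∘ₗ (T.quotKerEquivRange.symm : LinearMap.range T →ₗ[ℂ] _)
  have hg : ∀ v, g ⟨T v, LinearMap.mem_range_self T v⟩ = Λ v := by
    intro v
    show (LinearMap.ker T).liftQ Λ hk (T.quotKerEquivRange.symm ⟨T v, _⟩) = Λ v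
    have h1 : T.quotKerEquivRange.symm ⟨T v, LinearMap.mem_range_self T v⟩ =
        (LinearMap.ker T).mkQ v := by
      rw [LinearEquiv.symm_apply_eq]
      rfl
    rw [h1]
    simp
  let gc : LinearMap.range T →L[ℂ] ℂ := g.mkContinuous M (by
    rintro ⟨_, v, rfl⟩
    rw [hg]
    exact h v)
  obtain ⟨G, hG1, hG2⟩ := exists_extension_norm_eq (LinearMap.range T) gc
  refine ⟨(InnerProductSpace.toDual ℂ H).symm G, ?_, ?_⟩
  · rw [LinearIsometryEquiv.norm_map, hG2]
    exact LinearMap.mkContinuous_norm_le _ hM _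
  · intro v
    rw [InnerProductSpace.toDual_symm_apply]
    have := hG1 ⟨T v, LinearMap.mem_range_self T v⟩
    rw [← hg v]
    exact this.symm

theorem km_of_dk_diff {Ω : Set (En n)} {φ : En n → ℂ} (h : IsTest Ω φ) : Differentiable ℝ φ :=
  h.smooth.differentiable (by simp)

theorem km_of_dk_dbar_add (k : Fin n) {φ ψ : En n → ℂ} (h1 : Differentiable ℝ φ)
    (h2 : Differentiable ℝ ψ) (x : En n) : dbar k (φ + ψ) x = dbar k φ x + dbar k ψ x := by
  unfold dbar
  rw [fderiv_add (h1 x) (h2 x)]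
  simp only [_root_.add_apply]
  ring

theorem km_of_dk_dbar_smul (k : Fin n) (c : ℂ) {φ : En n → ℂ} (h1 : Differentiable ℝ φ)
    (x : En n) : dbar k (c • φ) x = c * dbar k φ x := by
  unfold dbar
  rw [fderiv_const_smul (h1 x)]
  simp only [_root_.smul_apply, smul_eq_mul]
  ring

theorem km_of_dk_conj (k : Fin n) {φ : En n → ℂ} (h1 : Differentiable ℝ φ) (x : En n) :
    conj (dz k φ x) = dbar k (fun y => conj (φ y)) x := by
  have h2 : HasFDerivAt (fun y => conj (φ y)) ((conjCLE : ℂ →L[ℝ] ℂ).comp (fderiv ℝ φ x)) x :=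
    (conjCLE : ℂ →L[ℝ] ℂ).hasFDerivAt.comp x (h1 x).hasFDerivAt
  have h3 : (starRingEnd ℂ) 2 = 2 := Complex.conj_ofNat 2
  unfold dz dbar
  rw [h2.fderiv]
  simp [h3]

theorem km_of_dk_memLp {Ω : Set (En n)} {φ : En n → ℂ} (h : IsTest Ω φ) :
    MemLp φ 2 ((volume : Measure (En n)).restrict Ω) :=
  (h.smooth.continuous.memLp_of_hasCompactSupport (μ := (volume : Measure (En n)))
    h.compact).restrict Ω

theorem km_of_dk_dbar_memLp {Ω : Set (En n)} {φ : En n → ℂ} (k : Fin n) (h : IsTest Ω φ) :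
    MemLp (dbar k φ) 2 ((volume : Measure (En n)).restrict Ω) := by
  have hc : Continuous (fderiv ℝ φ) := h.smooth.continuous_fderiv (by simp)
  have hcs : HasCompactSupport (fderiv ℝ φ) := h.compact.fderiv ℝ
  have h1 : Continuous (dbar k φ) := by
    unfold dbar
    fun_prop
  have h2 : HasCompactSupport (dbar k φ) := by
    have := hcs.comp_left (g := fun L : (En n →L[ℝ] ℂ) =>
      (1 / 2 : ℂ) * (L (Pi.single k 1) + I * L (Pi.single k I))) (by simp)
    exact this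
  exact (h1.memLp_of_hasCompactSupport (μ := (volume : Measure (En n))) h2).restrict Ω

theorem km_of_dk_int {Ω : Set (En n)} {φ : En n → ℂ} (k : Fin n) (h : IsTest Ω φ) (v : L2 Ω) :
    Integrable (fun x => v x * dbar k φ x) ((volume : Measure (En n)).restrict Ω) :=
  (Lp.memLp v).integrable_mul (km_of_dk_dbar_memLp k h)

theorem km_of_dk_test_add {Ω : Set (En n)} {φ ψ : En n → ℂ} (h1 : IsTest Ω φ) (h2 : IsTest Ω ψ) :
    IsTest Ω (φ + ψ) :=
  ⟨h1.smooth.add h2.smooth, h1.compact.add h2.compact,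
    (tsupport_add φ ψ).trans (Set.union_subset h1.supp h2.supp)⟩

theorem km_of_dk_test_comp {Ω : Set (En n)} {φ : En n → ℂ} (h1 : IsTest Ω φ)
    (L : ℂ →L[ℝ] ℂ) : IsTest Ω (fun x => L (φ x)) := by
  refine ⟨L.contDiff.comp h1.smooth, h1.compact.comp_left (g := fun z => L z) (by simp), ?_⟩
  refine (closure_mono ?_).trans h1.supp
  intro x hx hx'
  apply hx
  show L (φ x) = 0
  rw [hx', map_zero]

/-- the submodule of test matrices -/
def km_of_dk_V (Ω : Set (En n)) : Submodule ℂ (Fin n → Fin n → En n → ℂ) where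
  carrier := {φ | ∀ j k, IsTest Ω (φ j k)}
  add_mem' := fun {a b} ha hb j k => km_of_dk_test_add (ha j k) (hb j k)
  zero_mem' := fun j k => ⟨contDiff_const, HasCompactSupport.zero, by
    show tsupport (0 : En n → ℂ) ⊆ Ω
    simp [tsupport]⟩
  smul_mem' := fun c a ha j k => by
    have := km_of_dk_test_comp (ha j k) ((ContinuousLinearMap.mul ℝ ℂ) c)
    exact this

/-- embedding of test matrices into `L²` -/
noncomputable def km_of_dk_T (Ω : Set (En n)) :
    km_of_dk_V Ω →ₗ[ℂ] PiLp 2 (fun _ : Fin n × Fin n => L2 Ω) where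
  toFun φ := WithLp.toLp 2 (fun p => (km_of_dk_memLp (φ.2 p.1 p.2)).toLp (φ.1 p.1 p.2))
  map_add' := by
    intro a b
    apply PiLp.ext
    intro p
    rfl
  map_smul' := by
    intro c a
    apply PiLp.ext
    intro p
    rfl

/-- the functional -/
noncomputable def km_of_dk_L (Ω : Set (En n)) (u : Form Ω) : km_of_dk_V Ω →ₗ[ℂ] ℂ where
  toFun φ := - ∑ j, ∑ k, ∫ x in Ω, u j x * dbar k (φ.1 j k) x
  map_add' := by
    intro a b
    rw [← neg_add, ← Finset.sum_add_distrib]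
    congr 1
    refine Finset.sum_congr rfl fun j _ => ?_
    rw [← Finset.sum_add_distrib]
    refine Finset.sum_congr rfl fun k _ => ?_
    rw [← integral_add (km_of_dk_int k (a.2 j k) (u j)) (km_of_dk_int k (b.2 j k) (u j))]
    congr 1
    ext x
    have := km_of_dk_dbar_add k (km_of_dk_diff (a.2 j k)) (km_of_dk_diff (b.2 j k)) x
    have h2 : (a + b).1 j k = a.1 j k + b.1 j k := rfl
    rw [h2, this]
    ring
  map_smul' := by
    intro c a
    rw [RingHom.id_apply, smul_neg, Finset.smul_sum]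
    congr 1
    refine Finset.sum_congr rfl fun j _ => ?_
    rw [Finset.smul_sum]
    refine Finset.sum_congr rfl fun k _ => ?_
    rw [smul_eq_mul, ← integral_const_mul]
    congr 1
    ext x
    have := km_of_dk_dbar_smul k c (km_of_dk_diff (a.2 j k)) x
    have h2 : (c • a).1 j k = c • a.1 j k := rfl
    rw [h2, this]
    ring

theorem km_of_dk_core (Ω : Set (En n)) (u : Form Ω) (M : ℝ) (hM : 0 ≤ M)
    (hB : ∀ φ : Fin n → Fin n → En n → ℂ, (∀ j k, IsTest Ω (φ j k)) →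
      ‖∑ j, ∫ x in Ω, u j x * conj (gf φ j x)‖ ^ 2 ≤ M ^ 2 * ∑ j, ∑ k, ∫ x, ‖φ j k x‖ ^ 2) :
    ∃ α : Fin n → Form Ω, (∀ j, IsDbar0 Ω (u j) (α j)) ∧ ∑ j, ‖α j‖ ^ 2 ≤ M ^ 2 := by
  have hbound : ∀ ψ : km_of_dk_V Ω, ‖km_of_dk_L Ω u ψ‖ ≤ M * ‖km_of_dk_T Ω ψ‖ := by
    intro ψ
    have h1 := hB (fun j k x => conj (ψ.1 j k x))
      (fun j k => km_of_dk_test_comp (ψ.2 j k) (conjCLE : ℂ →L[ℝ] ℂ))
    have h2 : ∑ j, ∫ x in Ω, u j x * conj (gf (fun j k x => conj (ψ.1 j k x)) j x) =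
        km_of_dk_L Ω u ψ := by
      show _ = - ∑ j, ∑ k, ∫ x in Ω, u j x * dbar k (ψ.1 j k) x
      rw [← Finset.sum_neg_distrib]
      refine Finset.sum_congr rfl fun j _ => ?_
      rw [← integral_finsetSum _ (fun k _ => km_of_dk_int k (ψ.2 j k) (u j)), ← integral_neg]
      congr 1
      ext x
      unfold gf
      rw [map_neg, map_sum, mul_neg, Finset.mul_sum]
      congr 1
      refine Finset.sum_congr rfl fun k _ => ?_
      rw [km_of_dk_conj k (km_of_dk_diff
        (km_of_dk_test_comp (ψ.2 j k) (conjCLE : ℂ →L[ℝ] ℂ)) : Differentiable ℝ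
          (fun x => conj (ψ.1 j k x))) x]
      simp
    have h3 : ∑ j, ∑ k, ∫ x, ‖conj (ψ.1 j k x)‖ ^ 2 = ‖km_of_dk_T Ω ψ‖ ^ 2 := by
      rw [PiLp.norm_sq_eq_of_L2, Fintype.sum_prod_type]
      refine Finset.sum_congr rfl fun j _ => Finset.sum_congr rfl fun k _ => ?_
      have h4 : (km_of_dk_T Ω ψ) (j, k) = (km_of_dk_memLp (ψ.2 j k)).toLp (ψ.1 j k) := rfl
      rw [h4]
      have h5 : ‖(km_of_dk_memLp (ψ.2 j k)).toLp (ψ.1 j k)‖ ^ 2 =
          ∫ x in Ω, ‖ψ.1 j k x‖ ^ 2 := by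
        rw [← @inner_self_eq_norm_sq ℂ, L2.inner_def]
        have h6 : ∫ x in Ω, inner ℂ ((km_of_dk_memLp (ψ.2 j k)).toLp (ψ.1 j k) x)
            ((km_of_dk_memLp (ψ.2 j k)).toLp (ψ.1 j k) x) =
            ∫ x in Ω, ((‖ψ.1 j k x‖ ^ 2 : ℝ) : ℂ) := by
          refine integral_congr_ae ?_
          filter_upwards [(km_of_dk_memLp (ψ.2 j k)).coeFn_toLp] with x hx
          rw [hx, inner_self_eq_norm_sq_to_K]
          push_cast
          rfl
        rw [h6, integral_complex_ofReal]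
        exact Complex.ofReal_re _
      rw [h5, setIntegral_eq_integral_of_forall_compl_eq_zero]
      · congr 1
        ext x
        simp
      · intro x hx
        have : ψ.1 j k x = 0 := by
          by_contra h0
          exact hx ((ψ.2 j k).supp (subset_tsupport _ h0))
        rw [this]
        simp
    rw [h2, h3, ← mul_pow] at h1
    exact (sq_le_sq₀ (norm_nonneg _) (mul_nonneg hM (norm_nonneg _))).mp h1
  obtain ⟨w, hw1, hw2⟩ := km_of_dk_riesz (km_of_dk_T Ω) (km_of_dk_L Ω u) M hM hbound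
  refine ⟨fun j => WithLp.toLp 2 (fun k => star (w (j, k))), ?_, ?_⟩
  · intro j k φ hφ
    have hmem : (Pi.single j (Pi.single k φ) : Fin n → Fin n → En n → ℂ) ∈ km_of_dk_V Ω := by
      intro j' k'
      by_cases hj : j' = j
      · rw [hj, Pi.single_eq_same]
        by_cases hk : k' = k
        · rw [hk, Pi.single_eq_same]
          exact hφ
        · rw [Pi.single_eq_of_ne hk]
          exact (km_of_dk_V Ω).zero_mem j j
      · rw [Pi.single_eq_of_ne hj]
        exact (km_of_dk_V Ω).zero_mem j k'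
    have h1 := hw2 ⟨_, hmem⟩
    have h2 : km_of_dk_L Ω u ⟨_, hmem⟩ = - ∫ x in Ω, u j x * dbar k φ x := by
      show - ∑ j', ∑ k', ∫ x in Ω, u j' x *
        dbar k' ((Pi.single j (Pi.single k φ) : Fin n → Fin n → En n → ℂ) j' k') x = _
      congr 1
      have hz : ∀ k' x, dbar k' (0 : En n → ℂ) x = 0 := by
        intro k' x
        unfold dbar
        simp
      rw [Finset.sum_eq_single j, Finset.sum_eq_single k]
      · rw [Pi.single_eq_same, Pi.single_eq_same]
      · intro k' _ hk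
        rw [Pi.single_eq_same, Pi.single_eq_of_ne hk]
        simp [hz]
      · simp
      · intro j' _ hj
        rw [Pi.single_eq_of_ne hj]
        refine Finset.sum_eq_zero fun k' _ => ?_
        simp [hz]
      · simp
    have h3 : inner ℂ w (km_of_dk_T Ω ⟨_, hmem⟩) = ∫ x in Ω, star (w (j, k)) x * φ x := by
      rw [PiLp.inner_apply, Finset.sum_eq_single (j, k)]
      · rw [L2.inner_def]
        refine integral_congr_ae ?_
        have h4 : (km_of_dk_T Ω ⟨_, hmem⟩) (j, k) = (km_of_dk_memLp hφ).toLp φ := by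
          have h5 : (km_of_dk_T Ω ⟨_, hmem⟩) (j, k) = (km_of_dk_memLp (hmem j k)).toLp
            ((Pi.single j (Pi.single k φ) : Fin n → Fin n → En n → ℂ) j k) := rfl
          rw [h5]
          congr 1
          rw [Pi.single_eq_same, Pi.single_eq_same]
        rw [h4]
        filter_upwards [(km_of_dk_memLp hφ).coeFn_toLp, Lp.coeFn_star (w (j, k))] with x hx1 hx2
        rw [hx1, hx2, RCLike.inner_apply]
        rw [mul_comm]
        rfl
      · intro p _ hp
        have h5 : (km_of_dk_T Ω ⟨_, hmem⟩) p = (km_of_dk_memLp (hmem p.1 p.2)).toLp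
            ((Pi.single j (Pi.single k φ) : Fin n → Fin n → En n → ℂ) p.1 p.2) := rfl
        have h6 : (Pi.single j (Pi.single k φ) : Fin n → Fin n → En n → ℂ) p.1 p.2 = 0 := by
          by_cases hj : p.1 = j
          · have hk : p.2 ≠ k := fun h => hp (Prod.ext hj h)
            rw [hj, Pi.single_eq_same, Pi.single_eq_of_ne hk]
          · rw [Pi.single_eq_of_ne hj]
            rfl
        have h7 : (km_of_dk_T Ω ⟨_, hmem⟩) p = 0 := by
          rw [h5]
          have : ∀ (ψ : En n → ℂ) (hψ : MemLp ψ 2 ((volume : Measure (En n)).restrict Ω)),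
              ψ = 0 → hψ.toLp ψ = 0 := by
            rintro ψ hψ rfl
            exact MemLp.toLp_zero _
          exact this _ _ h6
        rw [h7, inner_zero_right]
      · simp
    rw [h2, h3] at h1
    show ∫ x in Ω, u j x * dbar k φ x = - ∫ x in Ω, star (w (j, k)) x * φ x
    rw [← h1, neg_neg]
  · have h1 : ∑ j, ‖(WithLp.toLp 2 (fun k => star (w (j, k))) : Form Ω)‖ ^ 2 = ‖w‖ ^ 2 := by
      rw [PiLp.norm_sq_eq_of_L2, Fintype.sum_prod_type]
      refine Finset.sum_congr rfl fun j _ => ?_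
      rw [PiLp.norm_sq_eq_of_L2]
      refine Finset.sum_congr rfl fun k _ => ?_
      show ‖star (w (j, k))‖ ^ 2 = _
      rw [Lp.norm_def, Lp.norm_def, eLpNorm_congr_ae (Lp.coeFn_star _), eLpNorm_star]
    rw [h1]
    exact (sq_le_sq₀ (norm_nonneg _) hM).mpr hw1

theorem km_of_dk_lim (a b c : ℝ) (h : ∀ ε : ℝ, 0 < ε → a ≤ b * ((1 + ε) * c)) : a ≤ b * c := by
  have h1 : Filter.Tendsto (fun ε : ℝ => b * ((1 + ε) * c)) (𝓝[>] 0) (𝓝 (b * ((1 + 0) * c))) := by
    apply Filter.Tendsto.mono_left _ nhdsWithin_le_nhds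
    exact Continuous.tendsto (by fun_prop) 0
  have h2 := ge_of_tendsto h1 (by
    filter_upwards [self_mem_nhdsWithin] with ε hε
    exact h ε hε)
  simpa using h2

theorem km_of_dk_inner (Ω : Set (En n)) (u g : Form Ω) (φ : Fin n → Fin n → En n → ℂ)
    (hg : ∀ j, ∀ᵐ x ∂((volume : Measure (En n)).restrict Ω), g j x = gf φ j x) :
    ∑ j, ∫ x in Ω, u j x * conj (gf φ j x) = inner ℂ g u := by
  rw [PiLp.inner_apply]
  refine Finset.sum_congr rfl fun j _ => ?_
  rw [L2.inner_def]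
  refine integral_congr_ae ?_
  filter_upwards [hg j] with x hx
  rw [RCLike.inner_apply, hx]

theorem km_of_dk (Ω : Set (En n)) (ho : IsOpen Ω) (hD : DK Ω) : KM1 Ω ∧ KM2 Ω := by
  refine ⟨?_, ?_⟩
  · intro u f hu hf
    refine km_of_dk_core Ω u ‖f‖ (norm_nonneg _) ?_
    intro φ hφ
    refine km_of_dk_lim _ _ _ ?_
    intro ε hε
    obtain ⟨b, G, g, C, h1, h2, h3, h4, h5, h6, h7⟩ := hD φ hφ ε hε
    rw [km_of_dk_inner Ω u g φ h1]
    have e1 : inner ℂ g u = inner ℂ b f := by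
      rw [← hf b G h2, ← inner_conj_symm g u, ← inner_conj_symm G u, h4 u hu]
    rw [e1]
    have e2 := norm_inner_le_norm (𝕜 := ℂ) b f
    calc ‖inner ℂ b f‖ ^ 2 ≤ (‖b‖ * ‖f‖) ^ 2 := by gcongr
      _ = ‖f‖ ^ 2 * ‖b‖ ^ 2 := by ring
      _ ≤ _ := by gcongr
  · intro u c hu hv
    refine km_of_dk_core Ω u ‖c‖ (norm_nonneg _) ?_
    intro φ hφ
    refine km_of_dk_lim _ _ _ ?_
    intro ε hε
    obtain ⟨b, G, g, C, h1, h2, h3, h4, h5, h6, h7⟩ := hD φ hφ ε hε
    rw [km_of_dk_inner Ω u g φ h1]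
    have e0 : inner ℂ g u = inner ℂ (g - G) u := by
      rw [inner_sub_left, hv G h3, sub_zero]
    have e1 : ‖inner ℂ g u‖ = ‖inner ℂ c C‖ := by
      rw [e0, h5 u c hu, norm_inner_symm]
    rw [e1]
    have e2 := norm_inner_le_norm (𝕜 := ℂ) c C
    calc ‖inner ℂ c C‖ ^ 2 ≤ (‖c‖ * ‖C‖) ^ 2 := by gcongr
      _ = ‖c‖ ^ 2 * ‖C‖ ^ 2 := by ring
      _ ≤ _ := by gcongr


end BK.JB8
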