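import Pool.Agent.H314.BK.St

set_option autoImplicit false

open MeasureTheory Complex Filter Topology
open scoped ContDiff InnerProductSpace ENNReal ComplexConjugate

namespace BK.JB9

variable {n : ℕ}

open scoped Manifold in
/-- smooth selection of an upper bound -/
theorem we_sel (R : ℝ → ℝ → Prop) (h1 : ∀ σ b b', R σ b → b ≤ b' → R σ b')
    (h2 : ∀ σ σ' b, σ' ≤ σ → R σ b → R σ' b) (h3 : ∀ σ, ∃ b, R σ b) :
    ∃ u : ℝ → ℝ, ContDiff ℝ ∞ u ∧ (∀ σ, 0 ≤ u σ) ∧ ∀ σ, R σ (u σ) := by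
  obtain ⟨g, hg⟩ := exists_contMDiffMap_forall_mem_convex_of_local_const (n := ⊤) 𝓘(ℝ, ℝ)
    (t := fun σ : ℝ => {b : ℝ | 0 ≤ b ∧ R σ b})
    (by
      intro σ
      apply Set.OrdConnected.convex
      constructor
      intro a ha b _ c hc
      exact ⟨ha.1.trans hc.1, h1 σ a c ha.2 hc.1⟩)
    (by
      intro σ
      obtain ⟨b, hb⟩ := h3 (σ + 1)
      refine ⟨max b 0, ?_⟩
      filter_upwards [Iio_mem_nhds (lt_add_one σ)] with y hy
      exact ⟨le_max_right _ _, h1 y b _ (h2 (σ + 1) y b (le_of_lt hy) hb) (le_max_left _ _)⟩)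
  exact ⟨g, contMDiff_iff_contDiff.1 g.contMDiff, fun σ => (hg σ).1, fun σ => (hg σ).2⟩

/-- a smooth primitive -/
theorem we_prim (w : ℝ → ℝ) (hw : ContDiff ℝ ∞ w) (c : ℝ) :
    ∃ v : ℝ → ℝ, ContDiff ℝ ∞ v ∧ deriv v = w ∧ v c = 0 ∧ ∀ t, v t = ∫ σ in c..t, w σ := by
  refine ⟨fun t => ∫ σ in c..t, w σ, ?_, ?_, by simp, fun t => rfl⟩
  · have hd : ∀ t, HasDerivAt (fun t => ∫ σ in c..t, w σ) (w t) t := fun t =>
      intervalIntegral.integral_hasDerivAt_right (hw.continuous.intervalIntegrable _ _)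
        (hw.continuous.stronglyMeasurableAtFilter _ _) hw.continuous.continuousAt
    have hder : deriv (fun t => ∫ σ in c..t, w σ) = w := funext fun t => (hd t).deriv
    rw [contDiff_infty_iff_deriv]
    refine ⟨fun t => (hd t).differentiableAt, ?_⟩
    rw [hder]
    exact hw
  · funext t
    exact (intervalIntegral.integral_hasDerivAt_right (hw.continuous.intervalIntegrable _ _)
        (hw.continuous.stronglyMeasurableAtFilter _ _) hw.continuous.continuousAt).deriv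

/-- a smooth monotone function dominating a continuous one -/
theorem we_dom (H : ℝ → ℝ) (hH : Continuous H) (c : ℝ) :
    ∃ v : ℝ → ℝ, ContDiff ℝ ∞ v ∧ (∀ t, 0 ≤ deriv v t) ∧ (∀ t, 0 ≤ v t) ∧ (∀ t ≤ c, v t = 0) ∧
      ∀ t, c + 1 / 2 ≤ t → H t ≤ v t := by
  obtain ⟨u, hu, hu0, huR⟩ := we_sel (fun σ b => ∀ t ∈ Set.Icc c (σ + 1), 4 * H t ≤ b)
    (fun σ b b' h hbb t ht => (h t ht).trans hbb)
    (fun σ σ' b hσ h t ht => h t ⟨ht.1, ht.2.trans (by linarith)⟩)
    (fun σ => by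
      obtain ⟨b, hb⟩ := (isCompact_Icc (a := c) (b := σ + 1)).bddAbove_image
        (f := fun t => 4 * H t) (by fun_prop)
      exact ⟨b, fun t ht => hb ⟨t, ht, rfl⟩⟩)
  set κ : ℝ → ℝ := fun t => Real.smoothTransition (4 * (t - c)) with hκ
  have hκs : ContDiff ℝ ∞ κ := Real.smoothTransition.contDiff.comp (by fun_prop)
  have hw : ContDiff ℝ ∞ (fun t => κ t * u t) := hκs.mul hu
  have hw0 : ∀ t, 0 ≤ κ t * u t := fun t => mul_nonneg (Real.smoothTransition.nonneg _) (hu0 t)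
  obtain ⟨v, hv, hvd, hvc, hvi⟩ := we_prim _ hw c
  have hmono : Monotone v := monotone_of_deriv_nonneg (hv.differentiable (by simp)) (by
    intro t
    rw [hvd]
    exact hw0 t)
  have hz : ∀ t ≤ c, v t = 0 := by
    intro t ht
    rw [hvi t, intervalIntegral.integral_symm, neg_eq_zero]
    apply intervalIntegral.integral_zero_ae
    filter_upwards with x hx
    rw [Set.uIoc_of_le ht] at hx
    have : κ x = 0 := Real.smoothTransition.zero_of_nonpos (by linarith [hx.2])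
    rw [this, zero_mul]
  refine ⟨v, hv, fun t => by rw [hvd]; exact hw0 t, ?_, hz, ?_⟩
  · intro t
    rcases le_total t c with h | h
    · rw [hz t h]
    · rw [← hvc]
      exact hmono h
  · intro t ht
    have hint : ∀ a b : ℝ, IntervalIntegrable (fun σ => κ σ * u σ) volume a b := fun a b =>
      hw.continuous.intervalIntegrable _ _
    have h1 : v t = (∫ σ in c..(t - 1 / 4), κ σ * u σ) + ∫ σ in (t - 1 / 4)..t, κ σ * u σ := by
      rw [hvi t, intervalIntegral.integral_add_adjacent_intervals (hint _ _) (hint _ _)]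
    have h2 : 0 ≤ ∫ σ in c..(t - 1 / 4), κ σ * u σ :=
      intervalIntegral.integral_nonneg (by linarith) (fun σ _ => hw0 σ)
    have h3 : ∫ _σ in (t - 1 / 4)..t, 4 * H t ≤ ∫ σ in (t - 1 / 4)..t, κ σ * u σ := by
      apply intervalIntegral.integral_mono_on (by linarith) (by simp) (hint _ _)
      intro σ hσ
      have h4 : κ σ = 1 := Real.smoothTransition.one_of_one_le (by linarith [hσ.1])
      rw [h4, one_mul]
      exact huR σ t ⟨by linarith, by linarith [hσ.1]⟩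
    rw [intervalIntegral.integral_const, smul_eq_mul] at h3
    linarith

/-- squared length of the complex gradient -/
noncomputable def we_Gr (r : En n → ℝ) (x : En n) : ℝ :=
  ∑ j, (1 / 4) * ((fderiv ℝ r x (Pi.single j 1)) ^ 2 + (fderiv ℝ r x (Pi.single j I)) ^ 2)

theorem we_Gr_nonneg (r : En n → ℝ) (x : En n) : 0 ≤ we_Gr r x :=
  Finset.sum_nonneg fun j _ => by positivity

theorem we_dz (r : En n → ℝ) (x : En n) (hr : DifferentiableAt ℝ r x) :
    ∑ j, ‖dz j (fun y => (r y : ℂ)) x‖ ^ 2 = we_Gr r x := by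
  apply Finset.sum_congr rfl
  intro j _
  have h1 : fderiv ℝ (fun y => (r y : ℂ)) x = Complex.ofRealCLM ∘L fderiv ℝ r x :=
    (Complex.ofRealCLM.hasFDerivAt.comp x hr.hasFDerivAt).fderiv
  rw [dz, h1]
  simp only [ContinuousLinearMap.comp_apply, Complex.ofRealCLM_apply]
  rw [← Complex.normSq_eq_norm_sq, Complex.normSq_apply]
  simp
  ring

theorem we_comp (χ : ℝ → ℝ) (hχ : ContDiff ℝ ∞ χ) (s : En n → ℝ) (x : En n)
    (hs : DifferentiableAt ℝ s x) (w : En n) :
    fderiv ℝ (fun y => χ (s y)) x w = deriv χ (s x) * fderiv ℝ s x w := by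
  have h1 : HasDerivAt χ (deriv χ (s x)) (s x) :=
    ((hχ.differentiable (by simp)) (s x)).hasDerivAt
  have h2 := h1.comp_hasFDerivAt x hs.hasFDerivAt
  have h3 : fderiv ℝ (fun y => χ (s y)) x = deriv χ (s x) • fderiv ℝ s x := h2.fderiv
  rw [h3]
  simp

theorem we_Gr_comp (χ : ℝ → ℝ) (hχ : ContDiff ℝ ∞ χ) (s : En n → ℝ) (x : En n)
    (hs : DifferentiableAt ℝ s x) :
    we_Gr (fun y => χ (s y)) x = (deriv χ (s x)) ^ 2 * we_Gr s x := by
  unfold we_Gr
  rw [Finset.mul_sum]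
  apply Finset.sum_congr rfl
  intro j _
  rw [we_comp χ hχ s x hs, we_comp χ hχ s x hs]
  ring

theorem we_fd (Ω : Set (En n)) (ho : IsOpen Ω) (s : En n → ℝ) (hs : ContDiffOn ℝ ∞ s Ω) (a : En n) :
    ContDiffOn ℝ ∞ (fun y => fderiv ℝ s y a) Ω :=
  (hs.fderiv_of_isOpen ho (m := ∞) (by simp)).clm_apply contDiffOn_const

theorem we_Gr_cont (Ω : Set (En n)) (ho : IsOpen Ω) (s : En n → ℝ) (hs : ContDiffOn ℝ ∞ s Ω) :
    ContinuousOn (we_Gr s) Ω := by
  unfold we_Gr
  apply continuousOn_finsetSum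
  intro j _
  apply ContinuousOn.mul continuousOn_const
  exact ((we_fd Ω ho s hs _).continuousOn.pow 2).add ((we_fd Ω ho s hs _).continuousOn.pow 2)

theorem we_second (Ω : Set (En n)) (ho : IsOpen Ω) (χ : ℝ → ℝ) (hχ : ContDiff ℝ ∞ χ)
    (s : En n → ℝ) (hs : ContDiffOn ℝ ∞ s Ω) (x : En n) (hx : x ∈ Ω) (a : En n) :
    fderiv ℝ (fun y => fderiv ℝ (fun y => χ (s y)) y a) x a =
      deriv (deriv χ) (s x) * (fderiv ℝ s x a) ^ 2 +
        deriv χ (s x) * fderiv ℝ (fun y => fderiv ℝ s y a) x a := by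
  have hsd : ∀ y ∈ Ω, DifferentiableAt ℝ s y := fun y hy =>
    (hs.contDiffAt (ho.mem_nhds hy)).differentiableAt (by simp)
  have h1 : (fun y => fderiv ℝ (fun y => χ (s y)) y a) =ᶠ[𝓝 x]
      fun y => deriv χ (s y) * fderiv ℝ s y a := by
    filter_upwards [ho.mem_nhds hx] with y hy
    exact we_comp χ hχ s y (hsd y hy) a
  rw [h1.fderiv_eq]
  have hχ' : ContDiff ℝ ∞ (deriv χ) := (contDiff_infty_iff_deriv.1 hχ).2
  have h2 : DifferentiableAt ℝ (fun y => deriv χ (s y)) x :=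
    ((hχ'.differentiable (by simp)) (s x)).comp x (hsd x hx)
  have h3 : DifferentiableAt ℝ (fun y => fderiv ℝ s y a) x :=
    ((we_fd Ω ho s hs a).contDiffAt (ho.mem_nhds hx)).differentiableAt (by simp)
  rw [fderiv_fun_mul h2 h3]
  simp only [_root_.add_apply, _root_.smul_apply, smul_eq_mul]
  rw [we_comp (deriv χ) hχ' s x (hsd x hx) a]
  ring

theorem we_Lv_comp (Ω : Set (En n)) (ho : IsOpen Ω) (χ : ℝ → ℝ) (hχ : ContDiff ℝ ∞ χ)
    (h2 : ∀ t, 0 ≤ deriv (deriv χ) t) (s : En n → ℝ) (hs : ContDiffOn ℝ ∞ s Ω) (x : En n)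
    (hx : x ∈ Ω) (a : En n) : deriv χ (s x) * Lv s x a ≤ Lv (fun y => χ (s y)) x a := by
  unfold Lv
  rw [we_second Ω ho χ hχ s hs x hx a, we_second Ω ho χ hχ s hs x hx (I • a)]
  have h3 := h2 (s x)
  have h4 : 0 ≤ deriv (deriv χ) (s x) * (fderiv ℝ s x a) ^ 2 := by positivity
  have h5 : 0 ≤ deriv (deriv χ) (s x) * (fderiv ℝ s x (I • a)) ^ 2 := by positivity
  nlinarith

/-- the function `∑ |x_j|^2` -/
noncomputable def we_q (x : En n) : ℝ := ∑ j, ((x j).re ^ 2 + (x j).im ^ 2)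

noncomputable def we_L (a : En n) : En n →L[ℝ] ℝ :=
  ∑ j, ((2 * (a j).re) • (Complex.reCLM ∘L (ContinuousLinearMap.proj (R := ℝ)
    (φ := fun _ : Fin n => ℂ) j)) + (2 * (a j).im) • (Complex.imCLM ∘L
      (ContinuousLinearMap.proj (R := ℝ) (φ := fun _ : Fin n => ℂ) j)))

theorem we_L_apply (a y : En n) :
    we_L a y = ∑ j, (2 * (a j).re * (y j).re + 2 * (a j).im * (y j).im) := by
  simp [we_L]

theorem we_q_fderiv (y : En n) : HasFDerivAt (we_q (n := n)) (we_L y) y := by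
  unfold we_q we_L
  apply HasFDerivAt.fun_sum
  intro j _
  apply HasFDerivAt.add
  · have h1 : HasFDerivAt (fun x : En n => (x j).re) (Complex.reCLM ∘L
      (ContinuousLinearMap.proj (R := ℝ) (φ := fun _ : Fin n => ℂ) j)) y :=
      (Complex.reCLM ∘L (ContinuousLinearMap.proj (R := ℝ) (φ := fun _ : Fin n => ℂ) j)).hasFDerivAt
    have h2 := h1.pow 2
    simpa using h2
  · have h1 : HasFDerivAt (fun x : En n => (x j).im) (Complex.imCLM ∘L
      (ContinuousLinearMap.proj (R := ℝ) (φ := fun _ : Fin n => ℂ) j)) y :=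
      (Complex.imCLM ∘L (ContinuousLinearMap.proj (R := ℝ) (φ := fun _ : Fin n => ℂ) j)).hasFDerivAt
    have h2 := h1.pow 2
    simpa using h2

theorem we_q_smooth : ContDiff ℝ ∞ (we_q (n := n)) := by
  unfold we_q
  apply ContDiff.sum
  intro j _
  have h1 : ContDiff ℝ ∞ (fun x : En n => (x j).re) :=
    (Complex.reCLM ∘L (ContinuousLinearMap.proj (R := ℝ) (φ := fun _ : Fin n => ℂ) j)).contDiff
  have h2 : ContDiff ℝ ∞ (fun x : En n => (x j).im) :=
    (Complex.imCLM ∘L (ContinuousLinearMap.proj (R := ℝ) (φ := fun _ : Fin n => ℂ) j)).contDiff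
  exact (h1.pow 2).add (h2.pow 2)

theorem we_q_second (x a : En n) :
    fderiv ℝ (fun y => fderiv ℝ (we_q (n := n)) y a) x a = 2 * ∑ j, ‖a j‖ ^ 2 := by
  have h1 : (fun y => fderiv ℝ (we_q (n := n)) y a) = we_L a := by
    funext y
    rw [(we_q_fderiv y).fderiv, we_L_apply, we_L_apply]
    apply Finset.sum_congr rfl
    intro j _
    ring
  rw [h1, ContinuousLinearMap.fderiv, we_L_apply, Finset.mul_sum]
  apply Finset.sum_congr rfl
  intro j _
  rw [← Complex.normSq_eq_norm_sq, Complex.normSq_apply]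
  ring

theorem we_Lv_q (x a : En n) : Lv (we_q (n := n)) x a = ∑ j, ‖a j‖ ^ 2 := by
  unfold Lv
  rw [we_q_second, we_q_second]
  have : ∑ j, ‖(I • a) j‖ ^ 2 = ∑ j, ‖a j‖ ^ 2 := by
    apply Finset.sum_congr rfl
    intro j _
    simp
  rw [this]
  ring

theorem we_Lv_add (Ω : Set (En n)) (ho : IsOpen Ω) (s₀ : En n → ℝ) (hs : ContDiffOn ℝ ∞ s₀ Ω)
    (x : En n) (hx : x ∈ Ω) (a : En n) :
    Lv (fun y => s₀ y + we_q y) x a = Lv s₀ x a + ∑ j, ‖a j‖ ^ 2 := by
  have hsd : ∀ y ∈ Ω, DifferentiableAt ℝ s₀ y := fun y hy =>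
    (hs.contDiffAt (ho.mem_nhds hy)).differentiableAt (by simp)
  have hqd : ∀ y, DifferentiableAt ℝ (we_q (n := n)) y := fun y => (we_q_fderiv y).differentiableAt
  have key : ∀ b : En n, fderiv ℝ (fun y => fderiv ℝ (fun y => s₀ y + we_q y) y b) x b =
      fderiv ℝ (fun y => fderiv ℝ s₀ y b) x b +
        fderiv ℝ (fun y => fderiv ℝ (we_q (n := n)) y b) x b := by
    intro b
    have h1 : (fun y => fderiv ℝ (fun y => s₀ y + we_q y) y b) =ᶠ[𝓝 x]
        fun y => fderiv ℝ s₀ y b + fderiv ℝ (we_q (n := n)) y b := by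
      filter_upwards [ho.mem_nhds hx] with y hy
      rw [fderiv_fun_add (hsd y hy) (hqd y)]
      rfl
    rw [h1.fderiv_eq]
    have h3 : DifferentiableAt ℝ (fun y => fderiv ℝ s₀ y b) x :=
      ((we_fd Ω ho s₀ hs b).contDiffAt (ho.mem_nhds hx)).differentiableAt (by simp)
    have h4 : DifferentiableAt ℝ (fun y => fderiv ℝ (we_q (n := n)) y b) x :=
      ((we_fd Ω ho we_q we_q_smooth.contDiffOn b).contDiffAt
        (ho.mem_nhds hx)).differentiableAt (by simp)
    rw [fderiv_fun_add h3 h4]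
    rfl
  have h5 := we_Lv_q x a
  unfold Lv at h5 ⊢
  rw [key a, key (I • a)]
  linarith

/-- the derivative of the smooth transition is bounded -/
theorem we_tr : ∃ C : ℝ, 0 ≤ C ∧ ∀ t, |deriv Real.smoothTransition t| ≤ C := by
  have hc : Continuous (deriv Real.smoothTransition) :=
    (contDiff_infty_iff_deriv.1 (Real.smoothTransition.contDiff (n := ⊤))).2.continuous
  obtain ⟨C, hC⟩ := (isCompact_Icc (a := (0 : ℝ)) (b := 1)).bddAbove_image
    (f := fun t => |deriv Real.smoothTransition t|) hc.abs.continuousOn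
  have h0 : (0 : ℝ) ≤ C := (abs_nonneg _).trans (hC ⟨0, by simp, rfl⟩)
  refine ⟨C, h0, fun t => ?_⟩
  rcases lt_or_ge t 0 with h | h
  · have h1 : Real.smoothTransition =ᶠ[𝓝 t] fun _ => (0 : ℝ) := by
      filter_upwards [Iio_mem_nhds h] with y hy
      exact Real.smoothTransition.zero_of_nonpos (le_of_lt hy)
    rw [h1.deriv_eq]
    simpa using h0
  · rcases lt_or_ge 1 t with h' | h'
    · have h1 : Real.smoothTransition =ᶠ[𝓝 t] fun _ => (1 : ℝ) := by
        filter_upwards [Ioi_mem_nhds h'] with y hy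
        exact Real.smoothTransition.one_of_one_le (le_of_lt hy)
      rw [h1.deriv_eq]
      simpa using h0
    · exact hC ⟨t, ⟨h, h'⟩, rfl⟩

theorem we_ind {Ω : Set (En n)} (ho : IsOpen Ω) (r : En n → ℝ) {x : En n} (hx : x ∈ Ω) :
    Ω.indicator r =ᶠ[𝓝 x] r := by
  filter_upwards [ho.mem_nhds hx] with y hy
  exact Set.indicator_of_mem hy _

theorem we_Gr_congr {r r' : En n → ℝ} {x : En n} (h : r =ᶠ[𝓝 x] r') : we_Gr r x = we_Gr r' x := by
  unfold we_Gr
  rw [h.fderiv_eq]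

theorem we_Lv_congr {r r' : En n → ℝ} {x a : En n} (h : r =ᶠ[𝓝 x] r') : Lv r x a = Lv r' x a := by
  unfold Lv
  have h1 : ∀ b : En n, (fun y => fderiv ℝ r y b) =ᶠ[𝓝 x] fun y => fderiv ℝ r' y b := by
    intro b
    have h2 : fderiv ℝ r =ᶠ[𝓝 x] fderiv ℝ r' := h.fderiv
    filter_upwards [h2] with y hy
    rw [hy]
  rw [(h1 a).fderiv_eq, (h1 (I • a)).fderiv_eq]

theorem we (Ω : Set (En n)) (ho : IsOpen Ω) (hb : Bornology.IsBounded Ω) (hP : PscS Ω) :
    WE Ω := by
  obtain ⟨s₀, hs₀, hK₀, hL₀⟩ := hP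
  intro L hLc hLΩ ε hε
  -- the strictly plurisubharmonic exhaustion
  set s : En n → ℝ := fun y => s₀ y + we_q y with hsdef
  have hs : ContDiffOn ℝ ∞ s Ω := hs₀.add we_q_smooth.contDiffOn
  have hsd : ∀ y ∈ Ω, DifferentiableAt ℝ s y := fun y hy =>
    (hs.contDiffAt (ho.mem_nhds hy)).differentiableAt (by simp)
  have hq0 : ∀ x : En n, 0 ≤ we_q x := fun x => Finset.sum_nonneg fun j _ => by positivity
  have hK : ∀ M : ℝ, IsCompact {x ∈ Ω | s x ≤ M} := by
    intro M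
    have h1 : {x ∈ Ω | s x ≤ M} = {x ∈ Ω | s₀ x ≤ M} ∩ s ⁻¹' Set.Iic M := by
      ext x
      constructor
      · rintro ⟨hx, hxM⟩
        have h2 := hq0 x
        have h3 : s₀ x + we_q x ≤ M := hxM
        exact ⟨⟨hx, by linarith⟩, hxM⟩
      · rintro ⟨⟨hx, -⟩, hxM⟩
        exact ⟨hx, hxM⟩
    rw [h1]
    refine (hK₀ M).of_isClosed_subset ?_ Set.inter_subset_left
    exact (hs.continuousOn.mono (fun x hx => hx.1)).preimage_isClosed_of_isClosed
      (hK₀ M).isClosed isClosed_Iic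
  have hLv : ∀ x ∈ Ω, ∀ a, ∑ j, ‖a j‖ ^ 2 ≤ Lv s x a := by
    intro x hx a
    rw [hsdef, we_Lv_add Ω ho s₀ hs₀ x hx a]
    have := hL₀ x hx a
    linarith
  -- the level
  obtain ⟨c, hc⟩ : ∃ c, ∀ x ∈ L, s x ≤ c := by
    obtain ⟨c, hc⟩ := hLc.bddAbove_image (hs.continuousOn.mono hLΩ)
    exact ⟨c, fun x hx => hc ⟨x, hx, rfl⟩⟩
  obtain ⟨C₀, hC₀, hC₀t⟩ := we_tr
  have hGc := we_Gr_cont Ω ho s hs
  -- first weight
  obtain ⟨u₁, hu₁, hu₁0, hu₁R⟩ := we_sel
    (fun σ b => ∀ x ∈ Ω, s x ≤ σ → C₀ ^ 2 * we_Gr s x ≤ b)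
    (fun σ b b' h hbb x hx hxs => (h x hx hxs).trans hbb)
    (fun σ σ' b hσ h x hx hxs => h x hx (hxs.trans hσ))
    (fun σ => by
      obtain ⟨b, hb⟩ := (hK σ).bddAbove_image (f := fun x => C₀ ^ 2 * we_Gr s x)
        (continuousOn_const.mul (hGc.mono (fun x hx => hx.1)))
      exact ⟨b, fun x hx hxs => hb ⟨x, ⟨hx, hxs⟩, rfl⟩⟩)
  set κ : ℝ → ℝ := fun t => Real.smoothTransition (2 * (t - c) - 1) with hκ
  have hκs : ContDiff ℝ ∞ κ := Real.smoothTransition.contDiff.comp (by fun_prop)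
  set χ₁ : ℝ → ℝ := fun t => κ t * u₁ t with hχ₁
  have hχ₁s : ContDiff ℝ ∞ χ₁ := hκs.mul hu₁
  have hχ₁0 : ∀ t, 0 ≤ χ₁ t := fun t => mul_nonneg (Real.smoothTransition.nonneg _) (hu₁0 t)
  have hχ₁z : ∀ t ≤ c + 1 / 2, χ₁ t = 0 := by
    intro t ht
    have : κ t = 0 := Real.smoothTransition.zero_of_nonpos (by linarith)
    show κ t * u₁ t = 0
    rw [this, zero_mul]
  have hχ₁dz : ∀ t < c + 1 / 2, deriv χ₁ t = 0 := by
    intro t ht
    have h1 : χ₁ =ᶠ[𝓝 t] fun _ => (0 : ℝ) := by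
      filter_upwards [Iio_mem_nhds ht] with y hy
      exact hχ₁z y (le_of_lt hy)
    rw [h1.deriv_eq]
    simp
  have hχ₁d : ContDiff ℝ ∞ (deriv χ₁) := (contDiff_infty_iff_deriv.1 hχ₁s).2
  -- second weight
  obtain ⟨u₂, hu₂, hu₂0, hu₂R⟩ := we_sel
    (fun σ b => ∀ x ∈ Ω, s x ≤ σ → (1 + 1 / ε) * ((deriv χ₁ (s x)) ^ 2 * we_Gr s x) ≤ b)
    (fun σ b b' h hbb x hx hxs => (h x hx hxs).trans hbb)
    (fun σ σ' b hσ h x hx hxs => h x hx (hxs.trans hσ))
    (fun σ => by
      have hcont : ContinuousOn (fun x => (1 + 1 / ε) * ((deriv χ₁ (s x)) ^ 2 * we_Gr s x)) Ω :=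
        continuousOn_const.mul (((hχ₁d.continuous.comp_continuousOn hs.continuousOn).pow 2).mul hGc)
      obtain ⟨b, hb⟩ := (hK σ).bddAbove_image
        (f := fun x => (1 + 1 / ε) * ((deriv χ₁ (s x)) ^ 2 * we_Gr s x))
        (hcont.mono (fun x hx => hx.1))
      exact ⟨b, fun x hx hxs => hb ⟨x, ⟨hx, hxs⟩, rfl⟩⟩)
  obtain ⟨v, hv, hvd, hv0, hvz, hvH⟩ := we_dom (fun t => u₂ t + 2 * |deriv χ₁ t|)
    (hu₂.continuous.add (continuous_const.mul hχ₁d.continuous.abs)) c
  obtain ⟨χ₂, hχ₂s, hχ₂d, hχ₂c, hχ₂i⟩ := we_prim v hv c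
  have hχ₂z : ∀ t ≤ c, χ₂ t = 0 := by
    intro t ht
    rw [hχ₂i t, intervalIntegral.integral_symm, neg_eq_zero]
    apply intervalIntegral.integral_zero_ae
    filter_upwards with x hx
    rw [Set.uIoc_of_le ht] at hx
    exact hvz x hx.2
  have h21 : ∀ t, 2 * χ₁ t ≤ χ₂ t := by
    have hD : ContDiff ℝ ∞ (fun t => χ₂ t - 2 * χ₁ t) := hχ₂s.sub (contDiff_const.mul hχ₁s)
    have hmono : Monotone (fun t => χ₂ t - 2 * χ₁ t) := by
      apply monotone_of_deriv_nonneg (hD.differentiable (by simp))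
      intro t
      have hd1 : HasDerivAt χ₂ (v t) t := by
        have := ((hχ₂s.differentiable (by simp)) t).hasDerivAt
        rw [hχ₂d] at this
        exact this
      have hd2 : HasDerivAt χ₁ (deriv χ₁ t) t := ((hχ₁s.differentiable (by simp)) t).hasDerivAt
      have hd3 : HasDerivAt (fun t => χ₂ t - 2 * χ₁ t) (v t - 2 * deriv χ₁ t) t :=
        hd1.sub (hd2.const_mul 2)
      rw [hd3.deriv]
      rcases lt_or_ge t (c + 1 / 2) with h | h
      · rw [hχ₁dz t h]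
        have := hv0 t
        linarith
      · have h1 := hvH t h
        have h2 := hu₂0 t
        have h3 := le_abs_self (deriv χ₁ t)
        linarith
    intro t
    rcases le_total t c with h | h
    · rw [hχ₂z t h, hχ₁z t (by linarith)]
      simp
    · have h1 := hmono h
      simp only at h1
      rw [hχ₂c, hχ₁z c (by linarith)] at h1
      linarith
  -- the cut-offs
  set θ : ℕ → ℝ → ℝ := fun ν t => Real.smoothTransition (2 - (t - c - ν)) with hθ
  have hθs : ∀ ν, ContDiff ℝ ∞ (θ ν) := fun ν => Real.smoothTransition.contDiff.comp (by fun_prop)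
  have hθd : ∀ ν t, deriv (θ ν) t = -deriv Real.smoothTransition (2 - (t - c - ν)) := by
    intro ν t
    have h1 : HasDerivAt (fun t : ℝ => 2 - (t - c - ν)) (-1) t := by
      have h2 := (((hasDerivAt_id t).sub_const c).sub_const (ν : ℝ)).const_sub 2
      exact h2
    have h3 : HasDerivAt Real.smoothTransition (deriv Real.smoothTransition (2 - (t - c - ν)))
        (2 - (t - c - ν)) :=
      ((Real.smoothTransition.contDiff (n := ⊤)).differentiable (by simp) _).hasDerivAt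
    have h4 := (h3.comp t h1).deriv
    rw [mul_neg_one] at h4
    exact h4
  have hθz : ∀ ν : ℕ, ∀ t, c + ν + 2 ≤ t → θ ν t = 0 := by
    intro ν t ht
    exact Real.smoothTransition.zero_of_nonpos (by linarith)
  have hθ1 : ∀ ν : ℕ, ∀ t, t ≤ c + ν + 1 → θ ν t = 1 := by
    intro ν t ht
    exact Real.smoothTransition.one_of_one_le (by linarith)
  have hηK : ∀ ν : ℕ, ∀ x, x ∉ {x ∈ Ω | s x ≤ c + ν + 2} →
      Ω.indicator (fun y => θ ν (s y)) x = 0 := by
    intro ν x hx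
    by_cases hxΩ : x ∈ Ω
    · rw [Set.indicator_of_mem hxΩ]
      apply hθz
      by_contra hcon
      exact hx ⟨hxΩ, (not_le.1 hcon).le⟩
    · exact Set.indicator_of_notMem hxΩ _
  have hηt : ∀ ν : ℕ, tsupport (Ω.indicator (fun y => θ ν (s y))) ⊆ {x ∈ Ω | s x ≤ c + ν + 2} := by
    intro ν
    apply closure_minimal _ (hK _).isClosed
    intro x hx
    by_contra hcon
    exact hx (hηK ν x hcon)
  refine ⟨Ω.indicator (fun y => χ₂ (s y)), Ω.indicator (fun y => χ₁ (s y)),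
    fun ν => Ω.indicator (fun y => θ ν (s y)), ?_⟩
  constructor
  · exact (hχ₂s.comp_contDiffOn hs).congr (fun x hx => Set.indicator_of_mem hx _)
  · exact (hχ₁s.comp_contDiffOn hs).congr (fun x hx => Set.indicator_of_mem hx _)
  · intro x
    exact Set.indicator_nonneg (fun y _ => hχ₁0 _) x
  · intro x
    by_cases hx : x ∈ Ω
    · rw [Set.indicator_of_mem hx, Set.indicator_of_mem hx]
      exact h21 _
    · rw [Set.indicator_of_notMem hx, Set.indicator_of_notMem hx]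
      simp
  · intro x hx
    rw [Set.indicator_of_mem (hLΩ hx)]
    exact hχ₂z _ (hc x hx)
  · intro x hx a
    have hdψ : DifferentiableAt ℝ (Ω.indicator (fun y => χ₁ (s y))) x := by
      rw [(we_ind ho _ hx).differentiableAt_iff]
      exact ((hχ₁s.differentiable (by simp)) (s x)).comp x (hsd x hx)
    rw [we_dz _ x hdψ, we_Gr_congr (we_ind ho _ hx), we_Gr_comp χ₁ hχ₁s s x (hsd x hx),
      we_Lv_congr (we_ind ho _ hx)]
    have h1 := we_Lv_comp Ω ho χ₂ hχ₂s (by rw [hχ₂d]; exact hvd) s hs x hx a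
    rw [hχ₂d] at h1
    have h2 : v (s x) * ∑ j, ‖a j‖ ^ 2 ≤ v (s x) * Lv s x a :=
      mul_le_mul_of_nonneg_left (hLv x hx a) (hv0 _)
    refine le_trans ?_ (h2.trans h1)
    have ha : 0 ≤ ∑ j, ‖a j‖ ^ 2 := Finset.sum_nonneg fun j _ => by positivity
    rw [← mul_assoc]
    apply mul_le_mul_of_nonneg_right _ ha
    rcases lt_or_ge (s x) (c + 1 / 2) with h | h
    · rw [hχ₁dz _ h]
      simpa using hv0 (s x)
    · have h3 := hvH (s x) h
      have h4 := hu₂R (s x) x hx le_rfl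
      have h5 := abs_nonneg (deriv χ₁ (s x))
      linarith
  · intro ν
    rw [contDiff_iff_contDiffAt]
    intro x
    by_cases hx : x ∈ Ω
    · have h1 : ContDiffAt ℝ ∞ (fun y => θ ν (s y)) x :=
        (hθs ν).contDiffAt.comp x (hs.contDiffAt (ho.mem_nhds hx))
      exact h1.congr_of_eventuallyEq (we_ind ho _ hx)
    · have hx' : x ∈ {x ∈ Ω | s x ≤ c + ν + 2}ᶜ := fun h => hx h.1
      have h1 : Ω.indicator (fun y => θ ν (s y)) =ᶠ[𝓝 x] fun _ => 0 := by
        filter_upwards [(hK (c + ν + 2)).isClosed.isOpen_compl.mem_nhds hx'] with y hy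
        exact hηK ν y hy
      exact contDiffAt_const.congr_of_eventuallyEq h1
  · intro ν
    exact (hK _).of_isClosed_subset (isClosed_tsupport _) (hηt ν)
  · intro ν
    exact (hηt ν).trans (fun x hx => hx.1)
  · intro ν x
    constructor
    · exact Set.indicator_nonneg (fun y _ => Real.smoothTransition.nonneg _) x
    · by_cases hx : x ∈ Ω
      · rw [Set.indicator_of_mem hx]
        exact Real.smoothTransition.le_one _
      · rw [Set.indicator_of_notMem hx]
        exact zero_le_one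
  · intro x hx
    obtain ⟨N, hN⟩ := exists_nat_gt (s x - c)
    filter_upwards [eventually_ge_atTop N] with ν hν
    have hν' : (N : ℝ) ≤ ν := by exact_mod_cast hν
    have h1 : ∀ᶠ y in 𝓝 x, s y < s x + 1 :=
      (hsd x hx).continuousAt.eventually (gt_mem_nhds (lt_add_one _))
    filter_upwards [h1, ho.mem_nhds hx] with y hy hyΩ
    rw [Set.indicator_of_mem hyΩ]
    apply hθ1
    linarith
  · intro ν x hx
    have hdη : DifferentiableAt ℝ (Ω.indicator (fun y => θ ν (s y))) x := by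
      rw [(we_ind ho _ hx).differentiableAt_iff]
      exact (((hθs ν).differentiable (by simp)) (s x)).comp x (hsd x hx)
    rw [we_dz _ x hdη, we_Gr_congr (we_ind ho _ hx), we_Gr_comp (θ ν) (hθs ν) s x (hsd x hx),
      Set.indicator_of_mem hx]
    have hG := we_Gr_nonneg s x
    rcases lt_or_ge (s x) (c + 1) with h | h
    · have h1 : θ ν =ᶠ[𝓝 (s x)] fun _ => (1 : ℝ) := by
        filter_upwards [Iio_mem_nhds h] with y hy
        apply hθ1
        have : (0 : ℝ) ≤ ν := Nat.cast_nonneg ν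
        have hy' : y < c + 1 := hy
        linarith
      rw [h1.deriv_eq]
      simp only [deriv_const]
      have := Real.exp_pos (χ₁ (s x))
      simpa using this.le
    · have h1 : κ (s x) = 1 := Real.smoothTransition.one_of_one_le (by linarith)
      have h2 : χ₁ (s x) = u₁ (s x) := by
        show κ (s x) * u₁ (s x) = _
        rw [h1, one_mul]
      have h3 := hu₁R (s x) x hx le_rfl
      have h4 : (deriv (θ ν) (s x)) ^ 2 ≤ C₀ ^ 2 := by
        rw [hθd, neg_sq, ← sq_abs]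
        exact pow_le_pow_left₀ (abs_nonneg _) (hC₀t _) 2
      have h5 : (deriv (θ ν) (s x)) ^ 2 * we_Gr s x ≤ C₀ ^ 2 * we_Gr s x :=
        mul_le_mul_of_nonneg_right h4 hG
      have h6 := Real.add_one_le_exp (χ₁ (s x))
      rw [h2] at h6 ⊢
      linarith

end BK.JB9
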