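import Pool.Agent.H314.BK.St

set_option autoImplicit false

open MeasureTheory Complex Filter Topology
open scoped ContDiff InnerProductSpace ENNReal ComplexConjugate

namespace BK.JC1

variable {n : ℕ}

theorem co_func (Ω : Set (En n)) (ψ : En n → ℂ) (hc : Continuous ψ) (hs : HasCompactSupport ψ) :
    ∃ L : L2 Ω →L[ℂ] ℂ, ∀ u : L2 Ω, L u = ∫ x in Ω, u x * ψ x ∧
      Integrable (fun x => u x * ψ x) ((volume : Measure (En n)).restrict Ω) := by
  have hψ : MemLp ψ 2 ((volume : Measure (En n)).restrict Ω) :=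
    (hc.memLp_of_hasCompactSupport hs).restrict Ω
  have hψc : MemLp (fun x => conj (ψ x)) 2 ((volume : Measure (En n)).restrict Ω) := hψ.star
  refine ⟨innerSL ℂ (hψc.toLp _), fun u => ⟨?_, ?_⟩⟩
  · rw [innerSL_apply_apply, MeasureTheory.L2.inner_def]
    apply integral_congr_ae
    filter_upwards [hψc.coeFn_toLp] with x hx
    rw [hx]
    simp [mul_comm]
  · exact (Lp.memLp u).integrable_mul hψ

theorem co_isTest_dbar {Ω : Set (En n)} {φ : En n → ℂ} (h : IsTest Ω φ) (j : Fin n) :
    IsTest Ω (dbar j φ) := by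
  have hsub : tsupport (dbar j φ) ⊆ tsupport φ := by
    refine closure_minimal ?_ (isClosed_tsupport φ)
    intro x hx
    by_contra hcon
    apply hx
    unfold dbar
    rw [fderiv_of_notMem_tsupport (𝕜 := ℝ) hcon]
    simp
  refine ⟨?_, ?_, hsub.trans h.supp⟩
  · unfold dbar
    have h1 : ContDiff ℝ ∞ (fderiv ℝ φ) := h.smooth.fderiv_right (by simp)
    exact contDiff_const.mul ((h1.clm_apply contDiff_const).add
      (contDiff_const.mul (h1.clm_apply contDiff_const)))
  · exact h.compact.of_isClosed_subset (isClosed_tsupport _) hsub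

theorem co_int {Ω : Set (En n)} (f : L2 Ω) {ψ : En n → ℂ} (h : IsTest Ω ψ) :
    Integrable (fun x => f x * ψ x) ((volume : Measure (En n)).restrict Ω) := by
  have h1 : MemLp f 2 ((volume : Measure (En n)).restrict Ω) := Lp.memLp f
  have h2 : MemLp ψ 2 ((volume : Measure (En n)).restrict Ω) :=
    h.smooth.continuous.memLp_of_hasCompactSupport h.compact
  exact h1.integrable_mul h2

theorem co_graph0 (Ω : Set (En n)) : ∃ T : Submodule ℂ (L2 Ω × Form Ω),
    (∀ f g, (f, g) ∈ T ↔ IsDbar0 Ω f g) ∧ IsClosed (T : Set (L2 Ω × Form Ω)) := by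
  have key : ∀ (j : Fin n) (φ : {φ : En n → ℂ // IsTest Ω φ}), ∃ M : (L2 Ω × Form Ω) →L[ℂ] ℂ,
      ∀ f g, M (f, g) = (∫ x in Ω, f x * dbar j φ.1 x) + ∫ x in Ω, g j x * φ.1 x := by
    intro j φ
    have hd := co_isTest_dbar φ.2 j
    obtain ⟨L1, h1⟩ := co_func Ω (dbar j φ.1) hd.smooth.continuous hd.compact
    obtain ⟨L2', h2⟩ := co_func Ω φ.1 φ.2.smooth.continuous φ.2.compact
    refine ⟨L1.comp (ContinuousLinearMap.fst ℂ _ _) +
      (L2'.comp (PiLp.proj 2 (fun _ : Fin n => L2 Ω) j)).comp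
      (ContinuousLinearMap.snd ℂ _ _), ?_⟩
    intro f g
    rw [← (h1 _).1, ← (h2 _).1]
    rfl
  choose M hM using key
  refine ⟨⨅ j, ⨅ φ, LinearMap.ker (M j φ).toLinearMap, ?_, ?_⟩
  · intro f g
    simp only [Submodule.mem_iInf, LinearMap.mem_ker]
    constructor
    · intro h j φ hφ
      have := h j ⟨φ, hφ⟩
      have h3 := hM j ⟨φ, hφ⟩ f g
      rw [ContinuousLinearMap.coe_coe] at this
      rw [this] at h3
      exact eq_neg_of_add_eq_zero_left h3.symm
    · intro h j φ
      rw [ContinuousLinearMap.coe_coe, hM, h j φ.1 φ.2]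
      ring
  · rw [Submodule.coe_iInf]
    apply isClosed_iInter
    intro j
    rw [Submodule.coe_iInf]
    apply isClosed_iInter
    intro φ
    exact (M j φ).isClosed_ker

theorem co_graph1 (Ω : Set (En n)) : ∃ S : Submodule ℂ (Form Ω × Form2 Ω),
    (∀ f g, (f, g) ∈ S ↔ IsDbar1 Ω f g) ∧ IsClosed (S : Set (Form Ω × Form2 Ω)) := by
  have key : ∀ (p : Pr n) (φ : En n → ℂ) (h : IsTest Ω φ), ∃ T : (Form Ω × Form2 Ω) →L[ℂ] ℂ,
      ∀ (u : Form Ω) (c : Form2 Ω), T (u, c) =
        (∫ x in Ω, (u p.1.2 x * dbar p.1.1 φ x - u p.1.1 x * dbar p.1.2 φ x))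
          + ∫ x in Ω, c p x * φ x := by
    intro p φ h
    have hd1 := co_isTest_dbar h p.1.1
    have hd2 := co_isTest_dbar h p.1.2
    obtain ⟨L1, hL1⟩ := co_func Ω (dbar p.1.1 φ) hd1.smooth.continuous hd1.compact
    obtain ⟨L2', hL2⟩ := co_func Ω (dbar p.1.2 φ) hd2.smooth.continuous hd2.compact
    obtain ⟨L3, hL3⟩ := co_func Ω φ h.smooth.continuous h.compact
    refine ⟨(L1.comp (PiLp.proj 2 (fun _ : Fin n => L2 Ω) p.1.2) -
        L2'.comp (PiLp.proj 2 (fun _ : Fin n => L2 Ω) p.1.1)).comp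
          (ContinuousLinearMap.fst ℂ (Form Ω) (Form2 Ω)) +
        (L3.comp (PiLp.proj 2 (fun _ : Pr n => L2 Ω) p)).comp
          (ContinuousLinearMap.snd ℂ (Form Ω) (Form2 Ω)), fun u c => ?_⟩
    rw [integral_sub (hL1 _).2 (hL2 _).2, ← (hL1 _).1, ← (hL2 _).1, ← (hL3 _).1]
    rfl
  choose T hT using key
  refine ⟨⨅ i, ⨅ φ, ⨅ h, LinearMap.ker (T i φ h).toLinearMap, ?_, ?_⟩
  · intro f g
    simp only [Submodule.mem_iInf, LinearMap.mem_ker]
    refine forall_congr' fun i => forall_congr' fun φ => forall_congr' fun h => ?_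
    have : (T i φ h).toLinearMap (f, g) = T i φ h (f, g) := rfl
    rw [this, hT, add_eq_zero_iff_eq_neg]
  · simp only [Submodule.coe_iInf]
    refine isClosed_iInter fun i => isClosed_iInter fun φ => isClosed_iInter fun h => ?_
    exact (T i φ h).isClosed_ker

theorem co_zero (Ω : Set (En n)) (hΩ : IsOpen Ω) (f : L2 Ω)
    (h : ∀ φ : En n → ℂ, IsTest Ω φ → ∫ x in Ω, f x * φ x = 0) : f = 0 := by
  have hloc : LocallyIntegrableOn (f : En n → ℂ) Ω volume :=
    locallyIntegrableOn_of_locallyIntegrable_restrict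
      ((Lp.memLp f).locallyIntegrable (by norm_num))
  have hae : ∀ᵐ x ∂(volume : Measure (En n)), x ∈ Ω → (f : En n → ℂ) x = 0 := by
    refine hΩ.ae_eq_zero_of_integral_contDiff_smul_eq_zero hloc ?_
    intro ψ h1 h2 h3
    have hsup : Function.support (fun x => (ψ x : ℂ)) = Function.support ψ := by
      ext x
      simp
    have ht : IsTest Ω (fun x => (ψ x : ℂ)) := by
      refine ⟨Complex.ofRealCLM.contDiff.comp h1, ?_, ?_⟩
      · unfold HasCompactSupport tsupport at *
        rw [hsup]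
        exact h2
      · unfold tsupport at *
        rw [hsup]
        exact h3
    have h4 := h _ ht
    rw [setIntegral_eq_integral_of_forall_compl_eq_zero] at h4
    · rw [← h4]
      refine integral_congr_ae (Filter.Eventually.of_forall fun x => ?_)
      simp only [Complex.real_smul]
      ring
    · intro x hx
      have : ψ x = 0 := by
        by_contra hne
        exact hx (h3 (subset_tsupport _ hne))
      simp [this]
  rw [Lp.eq_zero_iff_ae_eq_zero]
  exact (ae_restrict_iff' hΩ.measurableSet).mpr hae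

theorem co_dbar_comm {φ : En n → ℂ} (h : ContDiff ℝ ∞ φ) (j k : Fin n) (x : En n) :
    dbar j (dbar k φ) x = dbar k (dbar j φ) x := by
  have h1 : ContDiff ℝ ∞ (fderiv ℝ φ) := h.fderiv_right (by simp)
  have hd : DifferentiableAt ℝ (fderiv ℝ φ) x := (h1.differentiable (by simp)) x
  have key : ∀ (l : Fin n) (v : En n), fderiv ℝ (dbar l φ) x v =
      (1 / 2) * (fderiv ℝ (fderiv ℝ φ) x v (Pi.single l 1) +
        I * fderiv ℝ (fderiv ℝ φ) x v (Pi.single l I)) := by
    intro l v
    have e : HasFDerivAt (dbar l φ) ((1 / 2 : ℂ) •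
        (((fderiv ℝ (fderiv ℝ φ) x).flip (Pi.single l 1)) +
          I • ((fderiv ℝ (fderiv ℝ φ) x).flip (Pi.single l I)))) x := by
      have h2 := hd.hasFDerivAt
      have h3 : ∀ w : En n, HasFDerivAt (fun y => fderiv ℝ φ y w)
          ((fderiv ℝ (fderiv ℝ φ) x).flip w) x := by
        intro w
        have := h2.clm_apply (hasFDerivAt_const w x)
        refine this.congr_fderiv ?_
        ext v
        simp
      exact ((h3 _).add ((h3 _).const_mul I)).const_mul (1 / 2 : ℂ)
    rw [e.fderiv]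
    simp [smul_eq_mul]
    ring
  have hsymm : IsSymmSndFDerivAt ℝ φ x := by
    apply ContDiffAt.isSymmSndFDerivAt (n := ∞) h.contDiffAt
    rw [minSmoothness_of_isRCLikeNormedField]
    show ((2 : ℕ∞) : WithTop ℕ∞) ≤ ((⊤ : ℕ∞) : WithTop ℕ∞)
    exact WithTop.coe_le_coe.2 le_top
  have hs : ∀ v w : En n, fderiv ℝ (fderiv ℝ φ) x v w = fderiv ℝ (fderiv ℝ φ) x w v :=
    fun v w => hsymm v w
  have hu : ∀ (l : Fin n) (ψ : En n → ℂ), dbar l ψ x =
      (1 / 2) * (fderiv ℝ ψ x (Pi.single l 1) + I * fderiv ℝ ψ x (Pi.single l I)) := fun _ _ => rfl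
  rw [hu j, hu k, key, key, key, key, hs (Pi.single j 1) (Pi.single k 1),
    hs (Pi.single j 1) (Pi.single k I), hs (Pi.single j I) (Pi.single k 1),
    hs (Pi.single j I) (Pi.single k I)]
  ring

theorem co_coe_zero {Ω : Set (En n)} (φ : En n → ℂ) :
    ∫ x in Ω, ((0 : L2 Ω) : En n → ℂ) x * φ x = 0 := by
  apply integral_eq_zero_of_ae
  have : ((0 : L2 Ω) : En n → ℂ) =ᵐ[(volume : Measure (En n)).restrict Ω] 0 :=
    Lp.coeFn_zero ℂ 2 _
  filter_upwards [this] with x hx
  rw [hx]
  simp

/-- `∂̄ ∂̄ = 0` for the weak operators -/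
theorem co_dbar_dbar (Ω : Set (En n)) (f : L2 Ω) (g : Form Ω) (h : IsDbar0 Ω f g) :
    IsDbar1 Ω g 0 := by
  intro p φ hφ
  have h1 := h p.1.2 _ (co_isTest_dbar hφ p.1.1)
  have h2 := h p.1.1 _ (co_isTest_dbar hφ p.1.2)
  have h3 : (fun x => f x * dbar p.1.2 (dbar p.1.1 φ) x) =
      fun x => f x * dbar p.1.1 (dbar p.1.2 φ) x := by
    funext x
    rw [co_dbar_comm hφ.smooth]
  rw [h3, h2] at h1
  have h0 : ∫ x in Ω, (0 : Form2 Ω) p x * φ x = 0 := co_coe_zero φ
  rw [h0, neg_zero, integral_sub (co_int _ (co_isTest_dbar hφ _))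
    (co_int _ (co_isTest_dbar hφ _))]
  linear_combination h1

theorem co_mulZ (Ω : Set (En n)) (ho : IsOpen Ω) (hb : Bornology.IsBounded Ω) (j : Fin n) :
    ∃ M : L2 Ω →L[ℂ] L2 Ω, ∀ f : L2 Ω,
      M f =ᵐ[(volume : Measure (En n)).restrict Ω] fun x => conj (x j) * f x := by
  obtain ⟨R, hR⟩ := hb.exists_norm_le
  have hbd : ∀ᵐ x ∂((volume : Measure (En n)).restrict Ω), ‖conj (x j)‖ ≤ R := by
    filter_upwards [ae_restrict_mem ho.measurableSet] with x hx
    rw [RCLike.norm_conj]
    exact (norm_le_pi_norm x j).trans (hR x hx)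
  have hmem : ∀ f : L2 Ω, MemLp (fun x => conj (x j) * f x) 2
      ((volume : Measure (En n)).restrict Ω) := by
    intro f
    refine MemLp.of_le_mul (g := f) (c := R) (Lp.memLp f) ?_ ?_
    · have hc : Continuous (fun x : En n => conj (x j)) :=
        continuous_conj.comp (continuous_apply j)
      exact hc.aestronglyMeasurable.mul (Lp.aestronglyMeasurable f)
    · filter_upwards [hbd] with x hx
      rw [norm_mul]
      exact mul_le_mul_of_nonneg_right hx (norm_nonneg _)
  let L : L2 Ω →ₗ[ℂ] L2 Ω :=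
    { toFun := fun f => (hmem f).toLp
      map_add' := by
        intro f g
        apply Lp.ext
        filter_upwards [(hmem (f + g)).coeFn_toLp, (hmem f).coeFn_toLp, (hmem g).coeFn_toLp,
          Lp.coeFn_add f g, Lp.coeFn_add (hmem f).toLp (hmem g).toLp] with x h1 h2 h3 h4 h5
        rw [h1, h5, Pi.add_apply, h2, h3, h4, Pi.add_apply]
        ring
      map_smul' := by
        intro c f
        apply Lp.ext
        filter_upwards [(hmem (c • f)).coeFn_toLp, (hmem f).coeFn_toLp,
          Lp.coeFn_smul c f, Lp.coeFn_smul c (hmem f).toLp] with x h1 h2 h3 h4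
        rw [h1, RingHom.id_apply, h4, Pi.smul_apply, h2, h3, Pi.smul_apply, smul_eq_mul,
          smul_eq_mul]
        ring }
  refine ⟨L.mkContinuous R ?_, ?_⟩
  · intro f
    apply Lp.norm_le_mul_norm_of_ae_le_mul
    filter_upwards [(hmem f).coeFn_toLp, hbd] with x hx hx2
    show ‖((hmem f).toLp : En n → ℂ) x‖ ≤ _
    rw [hx, norm_mul]
    exact mul_le_mul_of_nonneg_right hx2 (norm_nonneg _)
  · intro f
    exact (hmem f).coeFn_toLp

theorem co_test_mul {Ω : Set (En n)} {φ : En n → ℂ} (h : IsTest Ω φ) (j : Fin n) :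
    IsTest Ω (fun x => conj (x j) * φ x) := by
  have hP : ContDiff ℝ ∞ (fun x : En n => conj (x j)) :=
    ((Complex.conjCLE.toContinuousLinearMap).comp
      (ContinuousLinearMap.proj (R := ℝ) (φ := fun _ : Fin n => ℂ) j)).contDiff
  refine ⟨hP.mul h.smooth, h.compact.mul_left, ?_⟩
  exact (tsupport_mul_subset_right).trans h.supp

theorem co_prod {φ : En n → ℂ} (h : ContDiff ℝ ∞ φ) (j k : Fin n) (x : En n) :
    dbar k (fun y => conj (y j) * φ y) x = conj (x j) * dbar k φ x + if k = j then φ x else 0 := by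
  obtain ⟨P, hP⟩ : ∃ P : En n →L[ℝ] ℂ, ∀ y, P y = conj (y j) :=
    ⟨(Complex.conjCLE.toContinuousLinearMap).comp
      (ContinuousLinearMap.proj (R := ℝ) (φ := fun _ : Fin n => ℂ) j), fun y => rfl⟩
  have hd : HasFDerivAt φ (fderiv ℝ φ x) x := ((h.differentiable (by simp)) x).hasFDerivAt
  have h1 : HasFDerivAt (fun y => P y * φ y) (P x • fderiv ℝ φ x + φ x • P) x :=
    P.hasFDerivAt.mul hd
  have h2 : (fun y : En n => conj (y j) * φ y) = fun y => P y * φ y := by
    funext y; rw [hP]
  unfold dbar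
  rw [h2, h1.fderiv]
  simp only [ContinuousLinearMap.add_apply, ContinuousLinearMap.smul_apply, smul_eq_mul, hP]
  by_cases hkj : k = j
  · subst hkj
    simp only [Pi.single_eq_same, map_one, Complex.conj_I, if_true]
    linear_combination (-(1 / 2 : ℂ) * φ x) * Complex.I_sq
  · have hjk : j ≠ k := fun h => hkj h.symm
    simp only [Pi.single_eq_of_ne hjk, map_zero, mul_zero, add_zero, if_neg hkj]
    ring

theorem co (Ω : Set (En n)) (ho : IsOpen Ω) (hb : Bornology.IsBounded Ω) : CO Ω := by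
  intro B hB1 hB2 hcmp hkm1 hkm2
  obtain ⟨T, hT, hTc⟩ := co_graph0 Ω
  obtain ⟨S, hS, hSc⟩ := co_graph1 Ω
  choose Z hZ using fun j => co_mulZ Ω ho hb j
  refine ⟨T, S, Z, hT, hS, ?_⟩
  refine
    { Tc := hTc
      Sc := hSc
      TS := ?_
      leib := ?_
      sym := ?_
      hol := ?_
      km1 := ?_
      km2 := ?_
      B1 := fun f => (hT _ _).2 (hB1 f)
      B2 := fun f h hh => hB2 f h ((hT _ _).1 hh)
      cmp := fun j => hcmp j (Z j) (hZ j) }
  · intro f g hfg
    exact (hS _ _).2 (co_dbar_dbar Ω f g ((hT _ _).1 hfg))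
  · intro j f g hfg
    rw [hT] at hfg ⊢
    intro k φ hφ
    have h1 := hfg k _ (co_test_mul hφ j)
    have h2 : ∫ x in Ω, f x * dbar k (fun x => conj (x j) * φ x) x =
        (∫ x in Ω, Z j f x * dbar k φ x) + ∫ x in Ω, f x * (if k = j then φ x else 0) := by
      rw [← integral_add]
      · apply integral_congr_ae
        filter_upwards [hZ j f] with x hx
        rw [hx, co_prod hφ.smooth]
        ring
      · exact co_int _ (co_isTest_dbar hφ k)
      · by_cases hkj : k = j
        · simp only [if_pos hkj]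
          exact co_int _ hφ
        · simp only [if_neg hkj, mul_zero]
          exact integrable_zero _ _ _
    have h3 : ∫ x in Ω, g k x * (conj (x j) * φ x) = ∫ x in Ω, Z j (g k) x * φ x := by
      apply integral_congr_ae
      filter_upwards [hZ j (g k)] with x hx
      rw [hx]
      ring
    have h4 : ∫ x in Ω, ((Z j (g k) + if k = j then f else 0 : L2 Ω) : En n → ℂ) x * φ x =
        (∫ x in Ω, Z j (g k) x * φ x) + ∫ x in Ω, f x * (if k = j then φ x else 0) := by
      rw [← integral_add]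
      · apply integral_congr_ae
        by_cases hkj : k = j
        · simp only [if_pos hkj]
          filter_upwards [Lp.coeFn_add (Z j (g k)) f] with x hx
          rw [hx, Pi.add_apply]
          ring
        · simp only [if_neg hkj, add_zero, mul_zero]
          exact Filter.EventuallyEq.rfl
      · exact co_int _ hφ
      · by_cases hkj : k = j
        · simp only [if_pos hkj]
          exact co_int _ hφ
        · simp only [if_neg hkj, mul_zero]
          exact integrable_zero _ _ _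
    show ∫ x in Ω, Z j f x * dbar k φ x =
      - ∫ x in Ω, ((Z j (g k) + if k = j then f else 0 : L2 Ω) : En n → ℂ) x * φ x
    rw [h4]
    rw [h2, h3] at h1
    linear_combination h1
  · intro g α hg hα
    have hlt : ∀ j k : Fin n, j < k → α j k = α k j := by
      intro j k hjk
      have h1 := (hS _ _).1 hg ⟨(j, k), hjk⟩
      have h2 := (hT _ _).1 (hα j) k
      have h3 := (hT _ _).1 (hα k) j
      have h4 : α j k - α k j = 0 := by
        apply co_zero Ω ho
        intro φ hφ
        have e1 := h1 φ hφ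
        have e2 := h2 φ hφ
        have e3 := h3 φ hφ
        have e0 : ∫ x in Ω, (0 : Form2 Ω) (⟨(j, k), hjk⟩ : Pr n) x * φ x = 0 := co_coe_zero φ
        rw [e0, neg_zero] at e1
        simp only at e1
        rw [integral_sub (co_int _ (co_isTest_dbar hφ _)) (co_int _ (co_isTest_dbar hφ _)),
          e3, e2] at e1
        have e4 : ∫ x in Ω, ((α j k - α k j : L2 Ω) : En n → ℂ) x * φ x =
            (∫ x in Ω, α j k x * φ x) - ∫ x in Ω, α k j x * φ x := by
          rw [← integral_sub (co_int _ hφ) (co_int _ hφ)]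
          apply integral_congr_ae
          filter_upwards [Lp.coeFn_sub (α j k) (α k j)] with x hx
          rw [hx, Pi.sub_apply]
          ring
        rw [e4]
        linear_combination e1
      exact sub_eq_zero.1 h4
    intro j k
    rcases lt_trichotomy j k with h | h | h
    · exact hlt j k h
    · rw [h]
    · exact (hlt k j h).symm
  · intro j f hf
    rw [hS]
    rw [hT] at hf
    intro p φ hφ
    have h0 : ∀ (k : Fin n), ∫ x in Ω, f x * dbar k φ x = 0 := by
      intro k
      have := hf k φ hφ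
      have e0 : ∫ x in Ω, (0 : Form Ω) k x * φ x = 0 := co_coe_zero φ
      rw [e0, neg_zero] at this
      exact this
    have hz : ∀ (a b : Fin n), ∫ x in Ω, ((if a = j then f else 0 : L2 Ω) : En n → ℂ) x *
        dbar b φ x = 0 := by
      intro a b
      by_cases ha : a = j
      · rw [if_pos ha]; exact h0 b
      · rw [if_neg ha]; exact co_coe_zero _
    have e0 : ∫ x in Ω, (0 : Form2 Ω) p x * φ x = 0 := co_coe_zero φ
    rw [e0, neg_zero]
    show ∫ x in Ω, (((if p.1.2 = j then f else 0 : L2 Ω) : En n → ℂ) x * dbar p.1.1 φ x -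
      ((if p.1.1 = j then f else 0 : L2 Ω) : En n → ℂ) x * dbar p.1.2 φ x) = 0
    rw [integral_sub (co_int _ (co_isTest_dbar hφ _)) (co_int _ (co_isTest_dbar hφ _)), hz, hz,
      sub_zero]
  · intro u f hu huf
    obtain ⟨α, hα, hle⟩ := hkm1 u f ((hS _ _).1 hu) (fun h g hg => huf (h, g) ((hT _ _).2 hg))
    exact ⟨α, fun j => (hT _ _).2 (hα j), hle⟩
  · intro u c hu huv
    obtain ⟨α, hα, hle⟩ := hkm2 u c ((hS _ _).1 hu) (fun v hv => huv v ((hS _ _).2 hv))
    exact ⟨α, fun j => (hT _ _).2 (hα j), hle⟩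

end BK.JC1
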