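import Pool.Agent.H314.BK.St

set_option autoImplicit false

open MeasureTheory Complex Filter Topology
open scoped ContDiff InnerProductSpace ENNReal ComplexConjugate

namespace BK.JC2

variable {n : ℕ}

section WeylAux
open Metric
open scoped Convolution

noncomputable def wN (w : En n) : ℝ := ∑ j, ‖w j‖ ^ 2
noncomputable def wP (w : En n) : ℝ := Real.smoothTransition (1 - wN w)

theorem wN_contDiff : ContDiff ℝ ∞ (wN : En n → ℝ) := by
  unfold wN
  apply ContDiff.sum
  intro j _
  exact (contDiff_norm_sq ℝ).comp (contDiff_apply ℝ ℂ j)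

theorem wP_contDiff : ContDiff ℝ ∞ (wP : En n → ℝ) :=
  Real.smoothTransition.contDiff.comp (contDiff_const.sub wN_contDiff)

theorem wP_nonneg (w : En n) : 0 ≤ wP w := Real.smoothTransition.nonneg _

theorem wP_le_one (w : En n) : wP w ≤ 1 := Real.smoothTransition.le_one _

theorem wP_zero_of (w : En n) (h : 1 ≤ ‖w‖) : wP w = 0 := by
  apply Real.smoothTransition.zero_of_nonpos
  have h1 : ∃ j, 1 ≤ ‖w j‖ := by
    by_contra hcon
    push Not at hcon
    have := (pi_norm_lt_iff (zero_lt_one)).2 hcon
    linarith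
  obtain ⟨j, hj⟩ := h1
  have h2 : ‖w j‖ ^ 2 ≤ wN w :=
    Finset.single_le_sum (f := fun j => ‖w j‖ ^ 2) (fun i _ => by positivity) (Finset.mem_univ j)
  nlinarith [norm_nonneg (w j)]

theorem wP_support : Function.support (wP : En n → ℝ) ⊆ ball 0 1 := by
  intro w hw
  rw [mem_ball_zero_iff]
  by_contra h
  push Not at h
  exact hw (wP_zero_of w h)

theorem wP_compact : HasCompactSupport (wP : En n → ℝ) := by
  apply HasCompactSupport.of_support_subset_isCompact (isCompact_closedBall (0 : En n) 1)
  exact wP_support.trans ball_subset_closedBall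

theorem wP_int_pos : 0 < ∫ w : En n, wP w := by
  apply Continuous.integral_pos_of_hasCompactSupport_nonneg_nonzero (x := 0)
  · exact wP_contDiff.continuous
  · exact wP_compact
  · exact fun w => wP_nonneg w
  · have : wP (0 : En n) = 1 := by
      unfold wP wN
      apply Real.smoothTransition.one_of_one_le
      simp
    rw [this]; exact one_ne_zero

/-- the mollifier -/
noncomputable def rho (s : ℝ) (w : En n) : ℝ :=
  (s ^ Module.finrank ℝ (En n) * ∫ x : En n, wP x)⁻¹ * wP (s⁻¹ • w)

theorem rho_contDiff (s : ℝ) : ContDiff ℝ ∞ (rho s : En n → ℝ) :=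
  contDiff_const.mul (wP_contDiff.comp (contDiff_const_smul s⁻¹))

theorem rho_nonneg {s : ℝ} (hs : 0 < s) (w : En n) : 0 ≤ rho s w := by
  exact mul_nonneg (inv_nonneg.2 (mul_nonneg (pow_nonneg hs.le _) (wP_int_pos (n := n)).le))
    (wP_nonneg _)

theorem rho_zero_of {s : ℝ} (hs : 0 < s) (w : En n) (h : s ≤ ‖w‖) : rho s w = 0 := by
  unfold rho
  rw [wP_zero_of, mul_zero]
  rw [norm_smul, norm_inv, Real.norm_of_nonneg hs.le, inv_mul_eq_div, le_div_iff₀ hs, one_mul]
  exact h

theorem rho_support {s : ℝ} (hs : 0 < s) : Function.support (rho s : En n → ℝ) ⊆ ball 0 s := by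
  intro w hw
  rw [mem_ball_zero_iff]
  by_contra h
  push Not at h
  exact hw (rho_zero_of hs w h)

theorem rho_compact {s : ℝ} (hs : 0 < s) : HasCompactSupport (rho s : En n → ℝ) := by
  apply HasCompactSupport.of_support_subset_isCompact (isCompact_closedBall (0 : En n) s)
  exact (rho_support hs).trans ball_subset_closedBall

theorem rho_integral {s : ℝ} (hs : 0 < s) : ∫ w : En n, rho s w = 1 := by
  unfold rho
  rw [integral_const_mul, Measure.integral_comp_inv_smul_of_nonneg _ _ hs.le, smul_eq_mul]
  have := wP_int_pos (n := n)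
  exact inv_mul_cancel₀ (by positivity)

theorem rho_rot (s : ℝ) (c : ℂ) (hc : ‖c‖ = 1) (w : En n) : rho s (c • w) = rho s w := by
  unfold rho wP wN
  congr 3
  refine Finset.sum_congr rfl fun j _ => ?_
  simp only [Pi.smul_apply, norm_smul, smul_eq_mul, norm_mul, hc, one_mul]

theorem rho_bound {s : ℝ} (hs : 0 < s) (x w : En n) :
    |rho s w| ≤ ((volume : Measure (En n)).real (ball 0 1) / ∫ x : En n, wP x) /
      (volume : Measure (En n)).real (closedBall x s) := by
  have h1 := wP_int_pos (n := n)
  have h2 : (volume : Measure (En n)).real (closedBall x s) =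
      s ^ Module.finrank ℝ (En n) * (volume : Measure (En n)).real (ball 0 1) := by
    rw [measureReal_def, measureReal_def, Measure.addHaar_closedBall _ _ hs.le, ENNReal.toReal_mul,
      ENNReal.toReal_ofReal (by positivity)]
  have h3 : 0 < (volume : Measure (En n)).real (ball 0 1) :=
    ENNReal.toReal_pos (measure_ball_pos _ _ one_pos).ne' measure_ball_lt_top.ne
  rw [abs_of_nonneg (rho_nonneg hs w), h2]
  unfold rho
  have h4 := wP_le_one (s⁻¹ • w)
  have h5 : (s ^ Module.finrank ℝ (En n) * ∫ x : En n, wP x)⁻¹ * wP (s⁻¹ • w) ≤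
      (s ^ Module.finrank ℝ (En n) * ∫ x : En n, wP x)⁻¹ * 1 :=
    mul_le_mul_of_nonneg_left h4 (by positivity)
  refine h5.trans (le_of_eq ?_)
  field_simp

theorem rot_preserving (c : ℂ) (hc : ‖c‖ = 1) :
    MeasurePreserving (fun w : En n => c • w) volume volume := by
  have h1 : ∀ i : Fin n, MeasurePreserving (fun z : ℂ => c * z) volume volume := by
    intro i
    let a : Circle := ⟨c, mem_sphere_zero_iff_norm.2 hc⟩
    have := (rotation a).measurePreserving
    exact this
  exact volume_preserving_pi h1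


theorem wMV (h : En n → ℂ) (z : En n) (s : ℝ) (hs : 0 < s)
    (hd : ∀ y ∈ closedBall z s, DifferentiableAt ℂ h y) :
    ∫ w, (rho s w) • h (z - w) = h z := by
  have hcont : ContinuousOn h (closedBall z s) :=
    fun y hy => (hd y hy).continuousAt.continuousWithinAt
  obtain ⟨M, hM⟩ := (isCompact_closedBall z s).exists_bound_of_continuousOn hcont
  obtain ⟨M', hM'⟩ := (isCompact_closedBall (0 : En n) s).exists_bound_of_continuousOn
    (rho_contDiff (n := n) s).continuous.continuousOn
  obtain ⟨J, hJ⟩ : ∃ J : ℂ, J = ∫ w, (rho s w) • h (z - w) := ⟨_, rfl⟩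
  have hrot : ∀ θ : ℝ, ∫ w in closedBall (0 : En n) s,
      (rho s w) • h (z - (exp (θ * I)) • w) = J := by
    intro θ
    have hc : ‖exp (θ * I)‖ = 1 := norm_exp_ofReal_mul_I θ
    rw [setIntegral_eq_integral_of_forall_compl_eq_zero]
    · have hmp := rot_preserving (n := n) (exp (θ * I)) hc
      have hme : MeasurableEmbedding (fun w : En n => exp (θ * I) • w) :=
        (Homeomorph.smulOfNeZero _ (exp_ne_zero _)).measurableEmbedding
      have := hmp.integral_comp hme (fun w => rho s w • h (z - w))
      simp only [rho_rot s _ hc] at this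
      rw [hJ]
      exact this
    · intro w hw
      rw [mem_closedBall_zero_iff, not_le] at hw
      rw [rho_zero_of hs w hw.le, zero_smul]
  have hmem : ∀ (θ : ℝ) (w : En n), w ∈ closedBall (0 : En n) s →
      z - exp (θ * I) • w ∈ closedBall z s := by
    intro θ w hw
    rw [mem_closedBall_zero_iff] at hw
    rw [mem_closedBall, dist_eq_norm, sub_sub_cancel_left, norm_neg, norm_smul,
      norm_exp_ofReal_mul_I, one_mul]
    exact hw
  have hmv : ∀ w ∈ closedBall (0 : En n) s,
      (2 * Real.pi)⁻¹ • ∫ θ in (0 : ℝ)..(2 * Real.pi), h (z - exp (θ * I) • w) = h z := by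
    intro w hw
    have hf : DiffContOnCl ℂ (fun ζ : ℂ => h (z - ζ • w)) (ball 0 |(1 : ℝ)|) := by
      rw [abs_one]
      apply DifferentiableOn.diffContOnCl_ball (U := closedBall 0 1) _ le_rfl
      intro ζ hζ
      apply DifferentiableAt.differentiableWithinAt
      apply DifferentiableAt.comp (g := h) (f := fun ζ : ℂ => z - ζ • w)
      · apply hd
        rw [mem_closedBall_zero_iff] at hw hζ
        rw [mem_closedBall, dist_eq_norm, sub_sub_cancel_left, norm_neg, norm_smul]
        calc ‖ζ‖ * ‖w‖ ≤ 1 * s := mul_le_mul hζ hw (norm_nonneg _) zero_le_one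
          _ = s := one_mul s
      · exact (differentiableAt_const z).sub (differentiableAt_id.smul_const w)
    have h1 := hf.circleAverage
    rw [Real.circleAverage] at h1
    simpa [circleMap] using h1
  have hint : Integrable (Function.uncurry fun (θ : ℝ) (w : En n) =>
      rho s w • h (z - exp (θ * I) • w))
      ((volume.restrict (Set.Ioc 0 (2 * Real.pi))).prod (volume.restrict (closedBall 0 s))) := by
    have : IsFiniteMeasure ((volume : Measure (En n)).restrict (closedBall 0 s)) :=
      ⟨by rw [Measure.restrict_apply_univ]; exact measure_closedBall_lt_top⟩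
    apply Integrable.of_bound (C := M' * M)
    · rw [Measure.prod_restrict]
      apply ContinuousOn.aestronglyMeasurable
      · refine ContinuousOn.smul (f := fun p : ℝ × En n => rho s p.2)
          (g := fun p : ℝ × En n => h (z - exp (p.1 * I) • p.2)) ?_ ?_
        · exact ((rho_contDiff (n := n) s).continuous.comp continuous_snd).continuousOn
        · apply hcont.comp
          · apply Continuous.continuousOn
            fun_prop
          · rintro ⟨θ, w⟩ ⟨_, hw⟩
            exact hmem θ w hw
      · exact measurableSet_Ioc.prod measurableSet_closedBall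
    · rw [Measure.prod_restrict]
      rw [ae_restrict_iff' (measurableSet_Ioc.prod measurableSet_closedBall)]
      apply Eventually.of_forall
      rintro ⟨θ, w⟩ ⟨_, hw⟩
      simp only [Function.uncurry]
      rw [norm_smul]
      exact mul_le_mul (hM' w hw) (hM _ (hmem θ w hw)) (norm_nonneg _)
        ((norm_nonneg _).trans (hM' w hw))
  have hswap := integral_integral_swap hint
  have hpi : 0 ≤ 2 * Real.pi := by positivity
  have e1 : ∫ θ in Set.Ioc (0 : ℝ) (2 * Real.pi), ∫ w in closedBall (0 : En n) s,
      rho s w • h (z - exp (θ * I) • w) = (2 * Real.pi) • J := by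
    simp only [hrot]
    rw [setIntegral_const, measureReal_def, Real.volume_Ioc, sub_zero, ENNReal.toReal_ofReal hpi]
  have e2 : ∫ w in closedBall (0 : En n) s, ∫ θ in Set.Ioc (0 : ℝ) (2 * Real.pi),
      rho s w • h (z - exp (θ * I) • w) = (2 * Real.pi) • h z := by
    have : ∀ w ∈ closedBall (0 : En n) s, ∫ θ in Set.Ioc (0 : ℝ) (2 * Real.pi),
        rho s w • h (z - exp (θ * I) • w) = rho s w • ((2 * Real.pi) • h z) := by
      intro w hw
      rw [integral_smul, ← intervalIntegral.integral_of_le hpi, ← hmv w hw, smul_smul (2 * Real.pi),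
        mul_inv_cancel₀ (by positivity), one_smul]
    rw [setIntegral_congr_fun measurableSet_closedBall this, integral_smul_const,
      setIntegral_eq_integral_of_forall_compl_eq_zero, rho_integral hs, one_smul]
    intro w hw
    rw [mem_closedBall_zero_iff, not_le] at hw
    exact rho_zero_of hs w hw.le
  rw [e1, e2] at hswap
  rw [← hJ]
  exact smul_right_injective ℂ (by positivity : (2 * Real.pi : ℝ) ≠ 0) hswap

theorem dbar_of_diffAt (h : En n → ℂ) (z : En n) (hd : DifferentiableAt ℂ h z) (j : Fin n) :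
    dbar j h z = 0 := by
  unfold dbar
  have h1 : fderiv ℝ h z = (fderiv ℂ h z).restrictScalars ℝ := hd.fderiv_restrictScalars ℝ
  have h2 : (Pi.single j I : En n) = I • (Pi.single j 1 : En n) := by
    ext i
    rcases eq_or_ne i j with rfl | hij
    · simp
    · simp [hij]
  rw [h1, h2]
  simp only [ContinuousLinearMap.coe_restrictScalars', map_smul, smul_eq_mul]
  rw [← mul_assoc, I_mul_I]
  ring

theorem diffAt_of_dbar (h : En n → ℂ) (z : En n) (hd : DifferentiableAt ℝ h z)
    (h0 : ∀ j, dbar j h z = 0) : DifferentiableAt ℂ h z := by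
  obtain ⟨L, hL⟩ : ∃ L, L = fderiv ℝ h z := ⟨_, rfl⟩
  have h1 : ∀ j, L (Pi.single j I) = I * L (Pi.single j 1) := by
    intro j
    have := h0 j
    unfold dbar at this
    rw [← hL] at this
    have h2 : L (Pi.single j 1) + I * L (Pi.single j I) = 0 := by
      rcases mul_eq_zero.1 this with h3 | h3
      · norm_num at h3
      · exact h3
    have h3 : I * (L (Pi.single j 1) + I * L (Pi.single j I)) = 0 := by rw [h2, mul_zero]
    have h4 : I * I = -1 := I_mul_I
    linear_combination (-1 : ℂ) * h3 + (L (Pi.single j I)) * h4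
  have h2 : ∀ (c : ℂ) (j : Fin n), L (Pi.single j c) = c * L (Pi.single j 1) := by
    intro c j
    have e1 : (Pi.single j c : En n) = c.re • (Pi.single j (1 : ℂ) : En n) +
        c.im • (Pi.single j I : En n) := by
      ext i
      rcases eq_or_ne i j with rfl | hij
      · simp [Complex.re_add_im]
      · simp [hij]
    rw [e1, map_add, map_smul, map_smul, h1]
    simp only [real_smul]
    conv_rhs => rw [← Complex.re_add_im c]
    ring
  have h3 : ∀ (c : ℂ) (v : En n), L (c • v) = c * L v := by
    intro c v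
    have e1 : ∀ v : En n, v = ∑ j, Pi.single j (v j) := fun v => (Finset.univ_sum_single v).symm
    rw [e1 (c • v), map_sum]
    conv_rhs => rw [e1 v, map_sum, Finset.mul_sum]
    refine Finset.sum_congr rfl fun j _ => ?_
    rw [h2, h2 (v j), Pi.smul_apply, smul_eq_mul, mul_assoc]
  let L' : En n →L[ℂ] ℂ :=
    { toFun := L
      map_add' := L.map_add
      map_smul' := h3
      cont := L.cont }
  have h4 : HasFDerivAt h L' z := by
    apply hasFDerivAt_of_restrictScalars ℝ (g' := fderiv ℝ h z)
    · exact hd.hasFDerivAt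
    · rw [← hL]
      ext v
      rfl
  exact h4.differentiableAt

/-- mollification -/
noncomputable def wG (F : En n → ℂ) (t : ℝ) : En n → ℂ :=
  (F ⋆[(ContinuousLinearMap.lsmul ℝ ℝ : ℝ →L[ℝ] ℂ →L[ℝ] ℂ).flip, volume] (rho t : En n → ℝ))

theorem wG_apply (F : En n → ℂ) (t : ℝ) (z : En n) :
    wG F t z = ∫ w, rho t (z - w) • F w := rfl

theorem wG_apply' (F : En n → ℂ) (t : ℝ) (z : En n) :
    wG F t z = ∫ w, rho t w • F (z - w) := by
  rw [wG_apply, ← integral_sub_left_eq_self _ volume z]
  simp

theorem wG_contDiff (F : En n → ℂ) (hF : Integrable F) {t : ℝ} (ht : 0 < t) :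
    ContDiff ℝ ∞ (wG F t) :=
  (rho_compact ht).contDiff_convolution_right _ hF.locallyIntegrable (rho_contDiff t)

theorem wG_fderiv (F : En n → ℂ) (hF : Integrable F) {t : ℝ} (ht : 0 < t) (z v : En n) :
    fderiv ℝ (wG F t) z v = ∫ w, (fderiv ℝ (rho t) (z - w) v) • F w := by
  have h1 := (rho_compact (n := n) ht).hasFDerivAt_convolution_right
    ((ContinuousLinearMap.lsmul ℝ ℝ : ℝ →L[ℝ] ℂ →L[ℝ] ℂ).flip) hF.locallyIntegrable
    ((rho_contDiff t).of_le (by exact_mod_cast le_top)) z
  have h2 : fderiv ℝ (wG F t) z = _ := h1.fderiv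
  rw [h2, convolution_precompR_apply]
  · rfl
  · exact hF.locallyIntegrable
  · exact (rho_compact ht).fderiv (𝕜 := ℝ)
  · exact (rho_contDiff t).continuous_fderiv (by simp)

theorem wG_dbar (F : En n → ℂ) (hF : Integrable F) {t : ℝ} (ht : 0 < t) (z : En n) (j : Fin n) :
    dbar j (wG F t) z = - ∫ w, F w * dbar j (fun w => ((rho t (z - w) : ℝ) : ℂ)) w := by
  have hd : ∀ w v : En n, fderiv ℝ (fun w => ((rho t (z - w) : ℝ) : ℂ)) w v =
      -((fderiv ℝ (rho t) (z - w) v : ℝ) : ℂ) := by
    intro w v
    have h1 : HasFDerivAt (rho t) (fderiv ℝ (rho t) (z - w)) (z - w) :=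
      ((rho_contDiff t).differentiable (by simp) _).hasFDerivAt
    have h2 : HasFDerivAt (fun w : En n => z - w) (-(ContinuousLinearMap.id ℝ (En n))) w :=
      (hasFDerivAt_id w).const_sub z
    have h3 := (h1.comp w h2)
    have h4 := (ofRealCLM.hasFDerivAt.comp w h3)
    have h5 : fderiv ℝ (fun w => ((rho t (z - w) : ℝ) : ℂ)) w = _ := h4.fderiv
    rw [h5]
    simp
  have hi : ∀ v : En n, Integrable fun w => (fderiv ℝ (rho t) (z - w) v) • F w := by
    intro v
    have h1 := ((rho_compact (n := n) ht).fderiv (𝕜 := ℝ)).convolutionExists_right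
      (((ContinuousLinearMap.lsmul ℝ ℝ : ℝ →L[ℝ] ℂ →L[ℝ] ℂ).flip).precompR (En n))
      (hF.locallyIntegrable) ((rho_contDiff t).continuous_fderiv (by simp)) z
    have h2 := (h1 : Integrable _ _)
    exact (ContinuousLinearMap.apply ℝ ℂ v).integrable_comp h2
  unfold dbar
  rw [wG_fderiv F hF ht, wG_fderiv F hF ht, ← integral_const_mul, ← integral_add (hi _)
    ((hi _).const_mul _), ← integral_const_mul, ← integral_neg]
  refine integral_congr_ae (Eventually.of_forall fun w => ?_)
  simp only [hd, real_smul]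
  ring

theorem rho_sub_integral {s : ℝ} (hs : 0 < s) (x : En n) : ∫ y, rho s (x - y) = 1 := by
  rw [integral_sub_left_eq_self (fun y => rho s y) volume x, rho_integral hs]

theorem wG_tendsto (F : En n → ℂ) (hF : Integrable F) :
    ∀ᵐ x, Tendsto (fun s => wG F s x) (𝓝[>] 0) (𝓝 (F x)) := by
  filter_upwards [(Besicovitch.vitaliFamily (volume : Measure (En n))).ae_tendsto_average_norm_sub
    hF.locallyIntegrable] with x h0
  have h1 := h0.comp (Besicovitch.tendsto_filterAt (volume : Measure (En n)) x)
  have hpos : ∀ᶠ s : ℝ in 𝓝[>] 0, 0 < s := self_mem_nhdsWithin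
  refine tendsto_integral_smul_of_tendsto_average_norm_sub
    ((volume : Measure (En n)).real (ball 0 1) / ∫ x : En n, wP x) h1 ?_ ?_ ?_ ?_
  · filter_upwards with s using hF.integrableOn
  · apply tendsto_const_nhds.congr'
    filter_upwards [hpos] with s hs
    exact (rho_sub_integral hs x).symm
  · filter_upwards [hpos] with s hs
    intro y hy
    have h2 : x - y ∈ ball (0 : En n) s := rho_support hs hy
    rw [mem_ball_zero_iff] at h2
    rw [mem_closedBall, dist_comm, dist_eq_norm]
    exact h2.le
  · filter_upwards [hpos] with s hs y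
    exact rho_bound hs x (x - y)

theorem wG_flip (F : En n → ℂ) (t : ℝ) :
    wG F t = (rho t ⋆[(ContinuousLinearMap.lsmul ℝ ℝ : ℝ →L[ℝ] ℂ →L[ℝ] ℂ), volume] F) := by
  ext z
  rw [wG_apply']
  rfl

theorem wG_assoc (F : En n → ℂ) (hF : Integrable F) {s t : ℝ} (hs : 0 < s) (ht : 0 < t)
    (z : En n) : ∫ w, rho s w • wG F t (z - w) =
      (((rho s : En n → ℝ) ⋆[ContinuousLinearMap.mul ℝ ℝ, volume] rho t)
        ⋆[(ContinuousLinearMap.lsmul ℝ ℝ : ℝ →L[ℝ] ℂ →L[ℝ] ℂ), volume] F) z := by
  have h1 := convolution_assoc (μ := (volume : Measure (En n))) (ν := (volume : Measure (En n)))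
    (f := rho s) (g := rho t) (k := F)
    (ContinuousLinearMap.mul ℝ ℝ) (ContinuousLinearMap.lsmul ℝ ℝ : ℝ →L[ℝ] ℂ →L[ℝ] ℂ)
    (ContinuousLinearMap.lsmul ℝ ℝ : ℝ →L[ℝ] ℂ →L[ℝ] ℂ)
    (ContinuousLinearMap.lsmul ℝ ℝ : ℝ →L[ℝ] ℂ →L[ℝ] ℂ)
    (fun x y w => by simp [mul_assoc]) (x₀ := z)
    (rho_contDiff s).continuous.aestronglyMeasurable
    (rho_contDiff t).continuous.aestronglyMeasurable hF.aestronglyMeasurable
    (Eventually.of_forall fun y => (rho_compact ht).convolutionExists_right _
      (rho_contDiff s).continuous.locallyIntegrable (rho_contDiff t).continuous y)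
    (Eventually.of_forall fun y => (rho_compact ht).norm.convolutionExists_left _
      (rho_contDiff t).continuous.norm hF.norm.locallyIntegrable y)
    ((rho_compact hs).norm.convolutionExists_left _ (rho_contDiff s).continuous.norm
      ((rho_compact ht).norm.continuous_convolution_left _ (rho_contDiff t).continuous.norm
        hF.norm.locallyIntegrable).locallyIntegrable z)
  rw [h1, wG_flip F t]
  rfl

theorem wG_comm (F : En n → ℂ) (hF : Integrable F) {s t : ℝ} (hs : 0 < s) (ht : 0 < t)
    (z : En n) : ∫ w, rho s w • wG F t (z - w) = ∫ w, rho t w • wG F s (z - w) := by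
  rw [wG_assoc F hF hs ht, wG_assoc F hF ht hs]
  congr 1
  ext x
  rw [convolution_mul_swap, convolution_mul]
  refine integral_congr_ae (Eventually.of_forall fun w => mul_comm _ _)

theorem wG_const (Ω : Set (En n)) (F : En n → ℂ) (hF : Integrable F)
    (hol : ∀ t : ℝ, 0 < t → ∀ z, closedBall z t ⊆ Ω → DifferentiableAt ℂ (wG F t) z)
    {s t : ℝ} (hs : 0 < s) (ht : 0 < t) (z : En n) (hz : closedBall z (s + t) ⊆ Ω) :
    wG F s z = wG F t z := by
  have h1 := wMV (wG F t) z s hs (fun y hy => hol t ht y (by
    refine (closedBall_subset_closedBall' ?_).trans hz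
    rw [mem_closedBall] at hy
    linarith))
  have h2 := wMV (wG F s) z t ht (fun y hy => hol s hs y (by
    refine (closedBall_subset_closedBall' ?_).trans hz
    rw [mem_closedBall] at hy
    linarith))
  rw [← h1, ← h2, wG_comm F hF hs ht]

/-- a function holomorphic near `supp φ` kills `∂̄ φ` -/
theorem int_dbar_zero (Ω : Set (En n)) (ho : IsOpen Ω) (g : En n → ℂ)
    (hg : DifferentiableOn ℂ g Ω) (hi : Integrable (Ω.indicator g)) (φ : En n → ℂ)
    (hφ : IsTest Ω φ) (j : Fin n) : ∫ x in Ω, g x * dbar j φ x = 0 := by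
  obtain ⟨δ, hδ, hsub⟩ := hφ.compact.isCompact.exists_cthickening_subset_open ho hφ.supp
  obtain ⟨F, hF⟩ : ∃ F, F = Ω.indicator g := ⟨_, rfl⟩
  obtain ⟨t, ht⟩ : ∃ t, t = δ / 2 := ⟨_, rfl⟩
  have ht0 : 0 < t := by rw [ht]; linarith
  rw [← hF] at hi
  -- near the support of `φ`, `g` is `wG F t`
  have hball : ∀ x ∈ tsupport φ, closedBall x δ ⊆ Ω := fun x hx =>
    (closedBall_subset_cthickening hx δ).trans hsub
  have hgG : ∀ y, closedBall y t ⊆ Ω → wG F t y = g y := by
    intro y hy
    rw [wG_apply']
    have h1 := wMV g y t ht0 (fun x hx => (hg x (hy hx)).differentiableAt (ho.mem_nhds (hy hx)))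
    rw [← h1]
    refine integral_congr_ae (Eventually.of_forall fun w => ?_)
    show rho t w • F (y - w) = rho t w • g (y - w)
    by_cases hw : ‖w‖ < t
    · rw [hF, Set.indicator_of_mem]
      apply hy
      rw [mem_closedBall, dist_eq_norm, sub_sub_cancel_left, norm_neg]
      exact hw.le
    · rw [rho_zero_of ht0 w (not_lt.1 hw), zero_smul, zero_smul]
  have hnear : ∀ x ∈ tsupport φ, ∀ᶠ y in 𝓝 x, wG F t y = g y := by
    intro x hx
    filter_upwards [ball_mem_nhds x ht0] with y hy
    apply hgG
    refine (closedBall_subset_closedBall' ?_).trans (hball x hx)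
    rw [mem_ball] at hy
    rw [ht] at hy ⊢
    linarith
  have hdb : ∀ x ∈ tsupport φ, dbar j (wG F t) x = 0 := by
    intro x hx
    apply dbar_of_diffAt
    have h1 : DifferentiableAt ℂ g x :=
      (hg x (hφ.supp hx)).differentiableAt (ho.mem_nhds (hφ.supp hx))
    exact h1.congr_of_eventuallyEq (hnear x hx)
  have hdφ0 : ∀ x, x ∉ tsupport φ → dbar j φ x = 0 := by
    intro x hx
    have h1 : fderiv ℝ φ x = 0 := by
      have h2 : x ∉ tsupport (fderiv ℝ φ) := fun h => hx (tsupport_fderiv_subset ℝ h)
      exact image_eq_zero_of_notMem_tsupport h2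
    unfold dbar
    rw [h1]
    simp
  have hGs := wG_contDiff F hi ht0
  have e1 : ∫ x in Ω, g x * dbar j φ x = ∫ x, wG F t x * dbar j φ x := by
    have e0 : ∫ x in Ω, wG F t x * dbar j φ x = ∫ x, wG F t x * dbar j φ x := by
      apply setIntegral_eq_integral_of_forall_compl_eq_zero
      intro x hx
      rw [hdφ0 x (fun h => hx (hφ.supp h)), mul_zero]
    rw [← e0]
    apply setIntegral_congr_fun ho.measurableSet
    intro x _
    show g x * dbar j φ x = wG F t x * dbar j φ x
    by_cases hx : x ∈ tsupport φ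
    · rw [(hnear x hx).self_of_nhds]
    · rw [hdφ0 x hx, mul_zero, mul_zero]
  have hcg : Continuous (wG F t) := hGs.continuous
  have hcφ : Continuous φ := hφ.smooth.continuous
  have hcdφ : ∀ v : En n, Continuous fun x => fderiv ℝ φ x v := fun v =>
    (hφ.smooth.continuous_fderiv (by simp)).clm_apply continuous_const
  have hcdg : ∀ v : En n, Continuous fun x => fderiv ℝ (wG F t) x v := fun v =>
    (hGs.continuous_fderiv (by simp)).clm_apply continuous_const
  have hparts : ∀ v : En n, ∫ x, wG F t x * fderiv ℝ φ x v =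
      - ∫ x, fderiv ℝ (wG F t) x v * φ x := by
    intro v
    apply integral_mul_fderiv_eq_neg_fderiv_mul_of_integrable
    · exact ((hcdg v).mul hcφ).integrable_of_hasCompactSupport hφ.compact.mul_left
    · exact (hcg.mul (hcdφ v)).integrable_of_hasCompactSupport
        ((hφ.compact.fderiv_apply (𝕜 := ℝ) v).mul_left)
    · exact (hcg.mul hcφ).integrable_of_hasCompactSupport hφ.compact.mul_left
    · exact fun x _ => hGs.differentiable (by simp) x
    · exact fun x _ => hφ.smooth.differentiable (by simp) x
  rw [e1]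
  have hI1 : ∀ v : En n, Integrable fun x => wG F t x * fderiv ℝ φ x v := fun v =>
    (hcg.mul (hcdφ v)).integrable_of_hasCompactSupport
        ((hφ.compact.fderiv_apply (𝕜 := ℝ) v).mul_left)
  have hI2 : ∀ v : En n, Integrable fun x => fderiv ℝ (wG F t) x v * φ x := fun v =>
    ((hcdg v).mul hcφ).integrable_of_hasCompactSupport hφ.compact.mul_left
  have e2 : ∫ x, wG F t x * dbar j φ x =
      (1 / 2) * ((∫ x, wG F t x * fderiv ℝ φ x (Pi.single j 1)) +
        I * ∫ x, wG F t x * fderiv ℝ φ x (Pi.single j I)) := by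
    rw [← integral_const_mul, ← integral_add (hI1 _) ((hI1 _).const_mul _), ← integral_const_mul]
    refine integral_congr_ae (Eventually.of_forall fun x => ?_)
    simp only [dbar]
    ring
  have e3 : ∫ x, dbar j (wG F t) x * φ x =
      (1 / 2) * ((∫ x, fderiv ℝ (wG F t) x (Pi.single j 1) * φ x) +
        I * ∫ x, fderiv ℝ (wG F t) x (Pi.single j I) * φ x) := by
    rw [← integral_const_mul, ← integral_add (hI2 _) ((hI2 _).const_mul _), ← integral_const_mul]
    refine integral_congr_ae (Eventually.of_forall fun x => ?_)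
    simp only [dbar]
    ring
  have e4 : ∫ x, dbar j (wG F t) x * φ x = 0 := by
    have : ∀ x, dbar j (wG F t) x * φ x = 0 := by
      intro x
      by_cases hx : x ∈ tsupport φ
      · rw [hdb x hx, zero_mul]
      · rw [image_eq_zero_of_notMem_tsupport hx, mul_zero]
    simp only [this, integral_zero]
  rw [e3] at e4
  rw [e2, hparts, hparts]
  linear_combination -e4

theorem weyl (Ω : Set (En n)) (ho : IsOpen Ω) (hb : Bornology.IsBounded Ω) : WLem Ω := by
  intro f
  have hfin : (volume : Measure (En n)) Ω < ⊤ := hb.measure_lt_top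
  have : IsFiniteMeasure ((volume : Measure (En n)).restrict Ω) :=
    ⟨by rw [Measure.restrict_apply_univ]; exact hfin⟩
  have hfi : Integrable f ((volume : Measure (En n)).restrict Ω) :=
    (Lp.memLp f).integrable (by norm_num)
  have hzero : ∀ (j : Fin n) (φ : En n → ℂ),
      - ∫ x in Ω, (0 : Form Ω) j x * φ x = 0 := by
    intro j φ
    have h1 : ((0 : Form Ω) j : En n → ℂ) =ᵐ[(volume : Measure (En n)).restrict Ω] 0 :=
      Lp.coeFn_zero ℂ 2 _
    rw [integral_congr_ae (g := fun _ => (0 : ℂ)), integral_zero, neg_zero]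
    filter_upwards [h1] with x hx
    rw [hx]
    simp
  constructor
  · intro hf
    obtain ⟨F, hF⟩ : ∃ F, F = Ω.indicator (f : En n → ℂ) := ⟨_, rfl⟩
    have hFi : Integrable F := by
      rw [hF, integrable_indicator_iff ho.measurableSet]
      exact hfi
    have hol : ∀ t : ℝ, 0 < t → ∀ z, closedBall z t ⊆ Ω → DifferentiableAt ℂ (wG F t) z := by
      intro t ht z hz
      apply diffAt_of_dbar
      · exact (wG_contDiff F hFi ht).differentiable (by simp) z
      · intro j
        rw [wG_dbar F hFi ht]
        have htest : IsTest Ω (fun w => ((rho t (z - w) : ℝ) : ℂ)) := by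
          have hsupp : Function.support (fun w => ((rho t (z - w) : ℝ) : ℂ)) ⊆ closedBall z t := by
            intro w hw
            by_contra hcon
            apply hw
            rw [mem_closedBall, dist_comm, dist_eq_norm, not_le] at hcon
            show ((rho t (z - w) : ℝ) : ℂ) = 0
            rw [rho_zero_of ht _ hcon.le, ofReal_zero]
          refine ⟨?_, ?_, ?_⟩
          · exact ofRealCLM.contDiff.comp ((rho_contDiff t).comp (contDiff_const.sub contDiff_id))
          · exact HasCompactSupport.of_support_subset_isCompact (isCompact_closedBall z t) hsupp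
          · exact (closure_minimal hsupp isClosed_closedBall).trans hz
        have h1 := hf j _ htest
        rw [hzero] at h1
        rw [hF]
        have h2 : ∫ w, Ω.indicator (f : En n → ℂ) w *
            dbar j (fun w => ((rho t (z - w) : ℝ) : ℂ)) w =
            ∫ w in Ω, f w * dbar j (fun w => ((rho t (z - w) : ℝ) : ℂ)) w := by
          rw [← integral_indicator ho.measurableSet]
          refine integral_congr_ae (Eventually.of_forall fun w => ?_)
          by_cases hw : w ∈ Ω
          · simp [hw]
          · simp [hw]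
        rw [h2, h1, neg_zero]
    -- radii
    have hr : ∀ z : En n, ∃ r : ℝ, z ∈ Ω → 0 < r ∧ closedBall z (3 * r) ⊆ Ω := by
      intro z
      by_cases hz : z ∈ Ω
      · obtain ⟨ε, hε, hsub⟩ := Metric.nhds_basis_closedBall.mem_iff.1 (ho.mem_nhds hz)
        refine ⟨ε / 3, fun _ => ⟨by linarith, ?_⟩⟩
        rw [mul_div_cancel₀ ε three_ne_zero]
        exact hsub
      · exact ⟨0, fun h => absurd h hz⟩
    choose r hr using hr
    have hcl : ∀ z ∈ Ω, ∀ s : ℝ, 0 < s → closedBall z (2 * s) ⊆ Ω → wG F (r z) z = wG F s z := by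
      intro z hz s hs hsub
      obtain ⟨h1, h2⟩ := hr z hz
      apply wG_const Ω F hFi hol h1 hs
      rcases le_or_gt s (2 * r z) with h | h
      · exact (closedBall_subset_closedBall (by linarith)).trans h2
      · exact (closedBall_subset_closedBall (by linarith)).trans hsub
    refine ⟨fun z => wG F (r z) z, ?_, ?_⟩
    · intro z hz
      obtain ⟨h1, h2⟩ := hr z hz
      apply DifferentiableAt.differentiableWithinAt
      have h3 : DifferentiableAt ℂ (wG F (r z)) z :=
        hol _ h1 z ((closedBall_subset_closedBall (by linarith)).trans h2)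
      apply h3.congr_of_eventuallyEq
      filter_upwards [ball_mem_nhds z h1] with y hy
      have hy2 : closedBall y (2 * r z) ⊆ Ω := by
        refine (closedBall_subset_closedBall' ?_).trans h2
        rw [mem_ball] at hy
        linarith
      exact hcl y (hy2 (mem_closedBall_self (by linarith))) _ h1 hy2
    · rw [Filter.EventuallyEq, ae_restrict_iff' ho.measurableSet]
      filter_upwards [wG_tendsto F hFi] with x hx hxΩ
      obtain ⟨h1, h2⟩ := hr x hxΩ
      have h3 : ∀ᶠ s : ℝ in 𝓝[>] 0, wG F s x = wG F (r x) x := by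
        filter_upwards [Ioo_mem_nhdsGT h1] with s hs
        exact (hcl x hxΩ s hs.1 ((closedBall_subset_closedBall (by linarith [hs.2])).trans h2)).symm
      have h4 : Tendsto (fun s => wG F s x) (𝓝[>] 0) (𝓝 (wG F (r x) x)) :=
        tendsto_const_nhds.congr' (h3.mono fun s hs => hs.symm)
      have h5 := tendsto_nhds_unique hx h4
      have h6 : F x = f x := by rw [hF, Set.indicator_of_mem hxΩ]
      rw [← h6]
      exact h5
  · rintro ⟨g, hg, hfg⟩ j φ hφ
    rw [hzero]
    have h1 : ∫ x in Ω, f x * dbar j φ x = ∫ x in Ω, g x * dbar j φ x := by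
      apply integral_congr_ae
      filter_upwards [hfg] with x hx
      rw [hx]
    rw [h1]
    apply int_dbar_zero Ω ho g hg _ φ hφ
    rw [integrable_indicator_iff ho.measurableSet]
    exact hfi.congr hfg

end WeylAux

end BK.JC2
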