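import Pool.Agent.H314.BK.St

set_option autoImplicit false

open MeasureTheory Complex Filter Topology
open scoped ContDiff InnerProductSpace ENNReal ComplexConjugate

namespace BK.JC3

variable {n : ℕ}

namespace C3x

theorem contDiff_fd {Φ : En n → ℝ} (hΦ : ContDiff ℝ ∞ Φ) : ContDiff ℝ ∞ (fderiv ℝ Φ) :=
  hΦ.fderiv_right (by simp)

theorem hasFD_apply {Φ : En n → ℝ} (hΦ : ContDiff ℝ ∞ Φ) (x a : En n) :
    HasFDerivAt (fun y => fderiv ℝ Φ y a)
      ((ContinuousLinearMap.apply ℝ ℝ a).comp (fderiv ℝ (fderiv ℝ Φ) x)) x := by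
  have hd : DifferentiableAt ℝ (fderiv ℝ Φ) x :=
    ((contDiff_fd hΦ).differentiable (by simp)).differentiableAt
  exact (ContinuousLinearMap.apply ℝ ℝ a).hasFDerivAt.comp x hd.hasFDerivAt

theorem H_eq {Φ : En n → ℝ} (hΦ : ContDiff ℝ ∞ Φ) (x a : En n) :
    fderiv ℝ (fun y => fderiv ℝ Φ y a) x a = fderiv ℝ (fderiv ℝ Φ) x a a := by
  rw [(hasFD_apply hΦ x a).fderiv]
  rfl

theorem Lv_add {Φ Ψ : En n → ℝ} (hΦ : ContDiff ℝ ∞ Φ) (hΨ : ContDiff ℝ ∞ Ψ) (x a : En n) :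
    Lv (fun y => Φ y + Ψ y) x a = Lv Φ x a + Lv Ψ x a := by
  have key : ∀ v : En n, fderiv ℝ (fun y => fderiv ℝ (fun z => Φ z + Ψ z) y v) x v =
      fderiv ℝ (fun y => fderiv ℝ Φ y v) x v + fderiv ℝ (fun y => fderiv ℝ Ψ y v) x v := by
    intro v
    have e1 : (fun y => fderiv ℝ (fun z => Φ z + Ψ z) y v) =
        fun y => fderiv ℝ Φ y v + fderiv ℝ Ψ y v := by
      funext y
      rw [fderiv_fun_add ((hΦ.differentiable (by simp)).differentiableAt)
        ((hΨ.differentiable (by simp)).differentiableAt)]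
      rfl
    rw [e1, fderiv_fun_add (hasFD_apply hΦ x v).differentiableAt (hasFD_apply hΨ x v).differentiableAt]
    rfl
  unfold Lv
  rw [key, key]
  ring

theorem Lv_const_mul {Φ : En n → ℝ} (hΦ : ContDiff ℝ ∞ Φ) (c : ℝ) (x a : En n) :
    Lv (fun y => c * Φ y) x a = c * Lv Φ x a := by
  have key : ∀ v : En n, fderiv ℝ (fun y => fderiv ℝ (fun z => c * Φ z) y v) x v =
      c * fderiv ℝ (fun y => fderiv ℝ Φ y v) x v := by
    intro v
    have e1 : (fun y => fderiv ℝ (fun z => c * Φ z) y v) =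
        fun y => c * fderiv ℝ Φ y v := by
      funext y
      rw [fderiv_const_mul ((hΦ.differentiable (by simp)).differentiableAt)]
      rfl
    rw [e1, fderiv_const_mul (hasFD_apply hΦ x v).differentiableAt]
    rfl
  unfold Lv
  rw [key, key]
  ring

theorem Lv_congr {Φ Ψ : En n → ℝ} {x : En n} (h : Φ =ᶠ[𝓝 x] Ψ) (a : En n) :
    Lv Φ x a = Lv Ψ x a := by
  have key : ∀ v : En n, fderiv ℝ (fun y => fderiv ℝ Φ y v) x v =
      fderiv ℝ (fun y => fderiv ℝ Ψ y v) x v := by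
    intro v
    have e1 : (fun y => fderiv ℝ Φ y v) =ᶠ[𝓝 x] fun y => fderiv ℝ Ψ y v := by
      filter_upwards [h.fderiv (𝕜 := ℝ)] with y hy
      rw [hy]
    rw [e1.fderiv_eq]
  unfold Lv
  rw [key, key]

theorem Lv_comp {Φ : En n → ℝ} (hΦ : ContDiff ℝ ∞ Φ) {χ : ℝ → ℝ} (hχ : ContDiff ℝ ∞ χ) (x a : En n) :
    Lv (fun y => χ (Φ y)) x a = deriv χ (Φ x) * Lv Φ x a +
      (1 / 4) * deriv (deriv χ) (Φ x) * ((fderiv ℝ Φ x a) ^ 2 + (fderiv ℝ Φ x (I • a)) ^ 2) := by
  have hχ1 : Differentiable ℝ χ := hχ.differentiable (by simp)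
  have hχ2 : Differentiable ℝ (deriv χ) := by
    have := (contDiff_infty_iff_deriv.mp hχ).2
    exact this.differentiable (by simp)
  have hΦ1 : Differentiable ℝ Φ := hΦ.differentiable (by simp)
  have key : ∀ v : En n, fderiv ℝ (fun y => fderiv ℝ (fun z => χ (Φ z)) y v) x v =
      deriv χ (Φ x) * fderiv ℝ (fun y => fderiv ℝ Φ y v) x v +
        deriv (deriv χ) (Φ x) * (fderiv ℝ Φ x v) ^ 2 := by
    intro v
    have e1 : (fun y => fderiv ℝ (fun z => χ (Φ z)) y v) =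
        fun y => deriv χ (Φ y) * fderiv ℝ Φ y v := by
      funext y
      have := ((hχ1 (Φ y)).hasDerivAt.comp_hasFDerivAt y (hΦ1 y).hasFDerivAt).fderiv
      change fderiv ℝ (χ ∘ Φ) y v = _
      rw [this]
      rfl
    rw [e1]
    have h2 : HasFDerivAt (fun y => deriv χ (Φ y)) (deriv (deriv χ) (Φ x) • fderiv ℝ Φ x) x :=
      (hχ2 (Φ x)).hasDerivAt.comp_hasFDerivAt x (hΦ1 x).hasFDerivAt
    have h3 := (h2.mul (hasFD_apply hΦ x v)).fderiv
    have h4 : fderiv ℝ (fun y => deriv χ (Φ y) * fderiv ℝ Φ y v) x = _ := h3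
    rw [h4, H_eq hΦ]
    simp only [ContinuousLinearMap.add_apply, smul_apply, smul_eq_mul,
      ContinuousLinearMap.comp_apply, ContinuousLinearMap.apply_apply]
    ring
  unfold Lv
  rw [key, key]
  ring

theorem Lv_bound {Φ : En n → ℝ} (hΦ : ContDiff ℝ ∞ Φ) {K : Set (En n)} (hK : IsCompact K) :
    ∃ C : ℝ, 0 ≤ C ∧ ∀ x ∈ K, ∀ a, -(C * ‖a‖ ^ 2) ≤ Lv Φ x a := by
  have h1 : ContDiff ℝ ∞ (fderiv ℝ Φ) := hΦ.fderiv_right (m := ∞) (by simp)
  have h2 : Continuous (fderiv ℝ (fderiv ℝ Φ)) := h1.continuous_fderiv (by simp)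
  obtain ⟨M, hM⟩ := hK.exists_bound_of_continuousOn (E := En n →L[ℝ] En n →L[ℝ] ℝ)
    (f := fderiv ℝ (fderiv ℝ Φ)) h2.continuousOn
  refine ⟨max M 0, le_max_right _ _, fun x hx a => ?_⟩
  have hMx : ‖fderiv ℝ (fderiv ℝ Φ) x‖ ≤ max M 0 := (hM x hx).trans (le_max_left _ _)
  have hb : ∀ b : En n, ‖b‖ = ‖a‖ → -(max M 0 * ‖a‖ ^ 2) ≤ fderiv ℝ (fderiv ℝ Φ) x b b := by
    intro b hb
    have h3 := (fderiv ℝ (fderiv ℝ Φ) x).le_opNorm₂ b b
    rw [Real.norm_eq_abs, hb] at h3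
    have h4 := (abs_le.1 h3).1
    have h5 : ‖fderiv ℝ (fderiv ℝ Φ) x‖ * ‖a‖ * ‖a‖ ≤ max M 0 * ‖a‖ ^ 2 := by
      rw [mul_assoc, ← sq]
      exact mul_le_mul_of_nonneg_right hMx (sq_nonneg _)
    linarith
  have hI : ‖(I • a : En n)‖ = ‖a‖ := by rw [norm_smul, Complex.norm_I, one_mul]
  have e1 := hb a rfl
  have e2 := hb (I • a) hI
  unfold Lv
  rw [H_eq hΦ, H_eq hΦ]
  have e3 : 0 ≤ max M 0 * ‖a‖ ^ 2 := mul_nonneg (le_max_right _ _) (sq_nonneg _)
  linarith

theorem Lv_sq_fd (ε : ℝ) (y v : En n) :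
    fderiv ℝ (fun y : En n => ε * ∑ j, ‖y j‖ ^ 2) y v = 2 * ε * ∑ j, inner ℝ (v j) (y j) := by
  have h1 : ∀ j : Fin n, HasFDerivAt (fun y : En n => ‖y j‖ ^ 2)
      (2 • (innerSL ℝ (y j)).comp (ContinuousLinearMap.proj (R := ℝ) (φ := fun _ : Fin n => ℂ) j))
      y := fun j =>
    (ContinuousLinearMap.proj (R := ℝ) (φ := fun _ : Fin n => ℂ) j).hasFDerivAt.norm_sq
  have h2 := (HasFDerivAt.fun_sum fun j (_ : j ∈ Finset.univ) => h1 j).const_mul ε
  rw [h2.fderiv]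
  simp only [smul_apply, ContinuousLinearMap.sum_apply, smul_eq_mul,
    ContinuousLinearMap.comp_apply, ContinuousLinearMap.proj_apply, innerSL_apply_apply]
  rw [Finset.mul_sum, Finset.mul_sum]
  refine Finset.sum_congr rfl fun j _ => ?_
  rw [real_inner_comm, two_nsmul]
  ring

theorem Lv_sq_fd2 (ε : ℝ) (x v : En n) :
    fderiv ℝ (fun y => fderiv ℝ (fun y : En n => ε * ∑ j, ‖y j‖ ^ 2) y v) x v =
      2 * ε * ∑ j, ‖v j‖ ^ 2 := by
  set L : En n →L[ℝ] ℝ := (2 * ε) • ∑ j : Fin n, (innerSL ℝ (v j)).comp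
    (ContinuousLinearMap.proj (R := ℝ) (φ := fun _ : Fin n => ℂ) j) with hL
  have hLa : ∀ y, L y = 2 * ε * ∑ j, inner ℝ (v j) (y j) := by
    intro y
    rw [hL]
    simp only [smul_apply, ContinuousLinearMap.sum_apply, smul_eq_mul,
      ContinuousLinearMap.comp_apply, ContinuousLinearMap.proj_apply, innerSL_apply_apply]
  have h1 : (fun y => fderiv ℝ (fun y : En n => ε * ∑ j, ‖y j‖ ^ 2) y v) = L := by
    funext y
    rw [Lv_sq_fd, hLa]
  rw [h1, ContinuousLinearMap.fderiv, hLa]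
  congr 1
  refine Finset.sum_congr rfl fun j _ => ?_
  rw [real_inner_self_eq_norm_sq]

theorem Lv_sq (ε : ℝ) (hε : 0 ≤ ε) : ContDiff ℝ ∞ (fun y : En n => ε * ∑ j, ‖y j‖ ^ 2) ∧
    ∀ x a : En n, ε * ‖a‖ ^ 2 ≤ Lv (fun y : En n => ε * ∑ j, ‖y j‖ ^ 2) x a := by
  constructor
  · refine contDiff_const.mul (ContDiff.sum fun j _ => ?_)
    exact (contDiff_apply ℝ ℂ j).norm_sq ℝ
  · intro x a
    unfold Lv
    rw [Lv_sq_fd2, Lv_sq_fd2]
    have h1 : ∀ j, ‖(I • a) j‖ = ‖a j‖ := by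
      intro j
      rw [Pi.smul_apply, norm_smul, Complex.norm_I, one_mul]
    simp only [h1]
    have h0 : 0 ≤ ∑ j, ‖a j‖ ^ 2 := Finset.sum_nonneg fun j _ => by positivity
    have h2 : ‖a‖ ≤ Real.sqrt (∑ j, ‖a j‖ ^ 2) := by
      rw [pi_norm_le_iff_of_nonneg (Real.sqrt_nonneg _)]
      intro j
      refine Real.le_sqrt_of_sq_le ?_
      exact Finset.single_le_sum (f := fun j => ‖a j‖ ^ 2) (fun i _ => by positivity)
        (Finset.mem_univ j)
    have h3 : ‖a‖ ^ 2 ≤ ∑ j, ‖a j‖ ^ 2 := by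
      calc ‖a‖ ^ 2 ≤ Real.sqrt (∑ j, ‖a j‖ ^ 2) ^ 2 :=
            pow_le_pow_left₀ (norm_nonneg _) h2 2
        _ = _ := Real.sq_sqrt h0
    have h4 := mul_le_mul_of_nonneg_left h3 hε
    linarith

theorem chi_exists : ∃ χ : ℝ → ℝ, ContDiff ℝ ∞ χ ∧ (∀ t, 0 ≤ χ t) ∧ (∀ t, t ≤ 0 → χ t = 0) ∧
    Monotone χ ∧ Monotone (deriv χ) ∧ (∀ t, 0 ≤ deriv χ t) ∧ (∀ t, 0 ≤ deriv (deriv χ) t) ∧
    (∀ t, 0 < t → 0 < χ t) ∧ (∀ t, 0 < t → 0 < deriv χ t) := by
  have hc : Continuous expNegInvGlue := (expNegInvGlue.contDiff (n := 0)).continuous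
  obtain ⟨χ, hχ⟩ : ∃ χ : ℝ → ℝ, χ = fun t => ∫ s in (0:ℝ)..t, expNegInvGlue s := ⟨_, rfl⟩
  have hder : ∀ t, HasDerivAt χ (expNegInvGlue t) t := by
    intro t
    rw [hχ]
    exact (hc.integral_hasStrictDerivAt 0 t).hasDerivAt
  have hd : deriv χ = expNegInvGlue := by
    funext t
    exact (hder t).deriv
  have hmg : Monotone expNegInvGlue := by
    intro x y hxy
    by_cases hx : x ≤ 0
    · rw [expNegInvGlue.zero_of_nonpos hx]
      exact expNegInvGlue.nonneg y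
    · push Not at hx
      have hy : 0 < y := lt_of_lt_of_le hx hxy
      unfold expNegInvGlue
      rw [if_neg (not_le.2 hx), if_neg (not_le.2 hy)]
      apply Real.exp_le_exp.2
      have := inv_anti₀ hx hxy
      linarith
  have h0 : ∀ t, t ≤ 0 → χ t = 0 := by
    intro t ht
    rw [hχ]
    have : ∫ s in (0:ℝ)..t, expNegInvGlue s = ∫ s in (0:ℝ)..t, (0:ℝ) := by
      apply intervalIntegral.integral_congr
      intro s hs
      rw [Set.uIcc_of_ge ht] at hs
      exact expNegInvGlue.zero_of_nonpos hs.2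
    simp only [this]
    simp
  have hpos : ∀ t, 0 < t → 0 < χ t := by
    intro t ht
    rw [hχ]
    exact intervalIntegral.intervalIntegral_pos_of_pos_on (hc.intervalIntegrable _ _)
      (fun x hx => expNegInvGlue.pos_of_pos hx.1) ht
  refine ⟨χ, ?_, ?_, h0, ?_, ?_, ?_, ?_, hpos, ?_⟩
  · rw [contDiff_infty_iff_deriv]
    exact ⟨fun t => (hder t).differentiableAt, by rw [hd]; exact expNegInvGlue.contDiff⟩
  · intro t
    rcases le_or_gt t 0 with h | h
    · exact (h0 t h).ge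
    · exact (hpos t h).le
  · apply monotone_of_deriv_nonneg (fun t => (hder t).differentiableAt)
    intro t
    rw [hd]; exact expNegInvGlue.nonneg t
  · rw [hd]; exact hmg
  · intro t; rw [hd]; exact expNegInvGlue.nonneg t
  · intro t; rw [hd]; exact hmg.deriv_nonneg
  · intro t ht; rw [hd]; exact expNegInvGlue.pos_of_pos ht

theorem Lv_nonneg_of_submean_T2 (ψ ψ1 ψ2 : ℝ → ℝ) (B r : ℝ)
    (h1 : ∀ s ∈ Set.Icc 0 r, HasDerivAt ψ (ψ1 s) s)
    (h2 : ∀ s ∈ Set.Icc 0 r, HasDerivAt ψ1 (ψ2 s) s)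
    (hB : ∀ s ∈ Set.Icc 0 r, ψ2 s ≤ B) :
    ∀ s ∈ Set.Icc 0 r, ψ s ≤ ψ 0 + ψ1 0 * s + B * s ^ 2 / 2 := by
  have hd1 : ∀ s ∈ Set.Icc 0 r, HasDerivAt (fun s => ψ1 0 + B * s - ψ1 s) (B - ψ2 s) s := by
    intro s hs
    have h3 := (((hasDerivAt_id s).const_mul B).const_add (ψ1 0)).sub (h2 s hs)
    refine h3.congr_deriv ?_
    simp
  have hd0 : ∀ s ∈ Set.Icc 0 r, HasDerivAt (fun s => ψ 0 + ψ1 0 * s + B * s ^ 2 / 2 - ψ s)
      (ψ1 0 + B * s - ψ1 s) s := by
    intro s hs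
    have h3 := ((((hasDerivAt_id s).const_mul (ψ1 0)).const_add (ψ 0)).add
      (((hasDerivAt_pow 2 s).const_mul B).div_const 2)).sub (h1 s hs)
    refine h3.congr_deriv ?_
    simp only [mul_one, Nat.cast_ofNat, Nat.add_one_sub_one, pow_one]
    ring
  have hm1 : MonotoneOn (fun s => ψ1 0 + B * s - ψ1 s) (Set.Icc 0 r) := by
    apply monotoneOn_of_deriv_nonneg (convex_Icc 0 r)
    · intro t ht
      exact (hd1 t ht).continuousAt.continuousWithinAt
    · intro t ht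
      exact (hd1 t (interior_subset ht)).differentiableAt.differentiableWithinAt
    · intro t ht
      rw [(hd1 t (interior_subset ht)).deriv]
      linarith [hB t (interior_subset ht)]
  have hm0 : MonotoneOn (fun s => ψ 0 + ψ1 0 * s + B * s ^ 2 / 2 - ψ s) (Set.Icc 0 r) := by
    apply monotoneOn_of_deriv_nonneg (convex_Icc 0 r)
    · intro t ht
      exact (hd0 t ht).continuousAt.continuousWithinAt
    · intro t ht
      exact (hd0 t (interior_subset ht)).differentiableAt.differentiableWithinAt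
    · intro t ht
      rw [(hd0 t (interior_subset ht)).deriv]
      have ht' := interior_subset ht
      have h0r : (0 : ℝ) ∈ Set.Icc 0 r := ⟨le_rfl, ht'.1.trans ht'.2⟩
      have h4 := hm1 h0r ht' ht'.1
      simp only [mul_zero, add_zero, sub_self] at h4
      exact h4
  intro s hs
  have h0r : (0 : ℝ) ∈ Set.Icc 0 r := ⟨le_rfl, hs.1.trans hs.2⟩
  have h4 := hm0 h0r hs hs.1
  simp only [mul_zero, add_zero, ne_eq, OfNat.ofNat_ne_zero, not_false_eq_true, zero_pow, zero_div,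
    sub_self] at h4
  linarith

theorem Lv_nonneg_of_submean_int (A B C D E G : ℝ) :
    ∫ θ in (0 : ℝ)..(2 * Real.pi), (A + B * Real.cos θ + C * Real.sin θ + D * Real.cos θ ^ 2 +
      E * (Real.sin θ * Real.cos θ) + G * Real.sin θ ^ 2) =
      2 * Real.pi * A + Real.pi * D + Real.pi * G := by
  have hG : ∀ θ : ℝ, HasDerivAt (fun θ : ℝ => A * θ + B * Real.sin θ - C * Real.cos θ +
      D * ((θ + Real.sin θ * Real.cos θ) / 2) + E * ((Real.sin θ * Real.sin θ) / 2) +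
      G * ((θ - Real.sin θ * Real.cos θ) / 2))
      (A + B * Real.cos θ + C * Real.sin θ + D * Real.cos θ ^ 2 +
      E * (Real.sin θ * Real.cos θ) + G * Real.sin θ ^ 2) θ := by
    intro θ
    have hs := Real.hasDerivAt_sin θ
    have hc := Real.hasDerivAt_cos θ
    have hi := hasDerivAt_id θ
    have h := ((((((hi.const_mul A).add (hs.const_mul B)).sub (hc.const_mul C)).add
      (((hi.add (hs.mul hc)).div_const 2).const_mul D)).add
      (((hs.mul hs).div_const 2).const_mul E)).add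
      (((hi.sub (hs.mul hc)).div_const 2).const_mul G))
    refine h.congr_deriv ?_
    have hsc := Real.sin_sq_add_cos_sq θ
    linear_combination (-D / 2 - G / 2) * hsc
  rw [intervalIntegral.integral_eq_sub_of_hasDerivAt (fun θ _ => hG θ)]
  · simp only [Real.sin_two_pi, Real.cos_two_pi, Real.sin_zero, Real.cos_zero]
    ring
  · apply Continuous.intervalIntegrable
    fun_prop

theorem Lv_nonneg_of_submean_eps {u : En n → ℝ} (hu : ContDiff ℝ ∞ u) (x b : En n) (r : ℝ)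
    (hr : 0 < r)
    (h : ∀ s : ℝ, 0 < s → s < r → u x ≤ (2 * Real.pi)⁻¹ * ∫ θ in (0 : ℝ)..(2 * Real.pi),
      u (x + Complex.exp (θ * I) • (s • b))) (ε : ℝ) (hε : 0 < ε) :
    0 ≤ (1 / 4) * (fderiv ℝ (fderiv ℝ u) x b b + fderiv ℝ (fderiv ℝ u) x (I • b) (I • b)) +
      ε := by
  have hu1 : ContDiff ℝ ∞ (fderiv ℝ u) := hu.fderiv_right (by exact le_rfl)
  have hu2 : ContDiff ℝ ∞ (fderiv ℝ (fderiv ℝ u)) := hu1.fderiv_right (by exact le_rfl)
  have hdu : Differentiable ℝ u := hu.differentiable (by simp)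
  have hdu1 : Differentiable ℝ (fderiv ℝ u) := hu1.differentiable (by simp)
  have hev : ∀ v w : En n, ∀ᶠ y in 𝓝 x,
      |fderiv ℝ (fderiv ℝ u) y v w - fderiv ℝ (fderiv ℝ u) x v w| < ε := by
    intro v w
    have hcn : Continuous (fun y => fderiv ℝ (fderiv ℝ u) y v w) :=
      (hu2.continuous.clm_apply continuous_const).clm_apply continuous_const
    have hcn2 : ContinuousAt (fun y => |fderiv ℝ (fderiv ℝ u) y v w -
        fderiv ℝ (fderiv ℝ u) x v w|) x := (hcn.sub continuous_const).abs.continuousAt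
    exact hcn2.eventually_lt continuousAt_const (by simpa using hε)
  obtain ⟨b', hb'⟩ : ∃ b', b' = I • b := ⟨_, rfl⟩
  obtain ⟨ρ, hρ, hρ'⟩ := Metric.eventually_nhds_iff.1
    (((hev b b).and (hev b b')).and ((hev b' b).and (hev b' b')))
  have hexp : ∀ θ : ℝ, Complex.exp (θ * I) • b = Real.cos θ • b + Real.sin θ • b' := by
    intro θ
    rw [hb', Complex.exp_mul_I]
    ext i
    simp only [Pi.smul_apply, Pi.add_apply, smul_eq_mul, Complex.real_smul, Complex.ofReal_cos,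
      Complex.ofReal_sin]
    ring
  have hnorm : ∀ θ : ℝ, ‖Complex.exp (θ * I) • b‖ = ‖b‖ := by
    intro θ
    rw [norm_smul, Complex.norm_exp_ofReal_mul_I, one_mul]
  -- the Taylor bound
  have hT : ∀ θ : ℝ, ∀ v : En n, v = Complex.exp (θ * I) • b → ∀ s₀ : ℝ, 0 ≤ s₀ → s₀ * ‖b‖ < ρ →
      u (x + s₀ • v) ≤ u x + fderiv ℝ u x v * s₀ +
        (fderiv ℝ (fderiv ℝ u) x v v + 2 * ε) * s₀ ^ 2 / 2 := by
    intro θ v hvθ s₀ hs₀ hs₀ρ
    have hv : ‖v‖ = ‖b‖ := by rw [hvθ, hnorm]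
    have hvv : v = Real.cos θ • b + Real.sin θ • b' := by rw [hvθ, hexp]
    have hlin : ∀ s : ℝ, HasDerivAt (fun s : ℝ => x + s • v) v s := by
      intro s
      have h3 := ((hasDerivAt_id s).smul_const v).const_add x
      refine h3.congr_deriv ?_
      simp
    have e1 : ∀ s ∈ Set.Icc (0 : ℝ) s₀, HasDerivAt (fun s : ℝ => u (x + s • v))
        (fderiv ℝ u (x + s • v) v) s := fun s _ =>
      (hdu (x + s • v)).hasFDerivAt.comp_hasDerivAt s (hlin s)
    have e2 : ∀ s ∈ Set.Icc (0 : ℝ) s₀, HasDerivAt (fun s : ℝ => fderiv ℝ u (x + s • v) v)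
        (fderiv ℝ (fderiv ℝ u) (x + s • v) v v) s := by
      intro s _
      have h3 := (hdu1 (x + s • v)).hasFDerivAt.comp_hasDerivAt s (hlin s)
      have h4 := h3.clm_apply (hasDerivAt_const s v)
      refine h4.congr_deriv ?_
      simp
    have e3 : ∀ s ∈ Set.Icc (0 : ℝ) s₀, fderiv ℝ (fderiv ℝ u) (x + s • v) v v ≤
        fderiv ℝ (fderiv ℝ u) x v v + 2 * ε := by
      intro s hs
      have hd : dist (x + s • v) x < ρ := by
        rw [dist_eq_norm, add_sub_cancel_left, norm_smul, hv, Real.norm_eq_abs,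
          abs_of_nonneg hs.1]
        exact lt_of_le_of_lt (mul_le_mul_of_nonneg_right hs.2 (norm_nonneg b)) hs₀ρ
      obtain ⟨⟨g1, g2⟩, ⟨g3, g4⟩⟩ := hρ' hd
      generalize x + s • v = y at g1 g2 g3 g4
      have k : ∀ z, fderiv ℝ (fderiv ℝ u) z v v = Real.cos θ ^ 2 * fderiv ℝ (fderiv ℝ u) z b b +
          Real.cos θ * Real.sin θ * (fderiv ℝ (fderiv ℝ u) z b b' + fderiv ℝ (fderiv ℝ u) z b' b) +
          Real.sin θ ^ 2 * fderiv ℝ (fderiv ℝ u) z b' b' := by
        intro z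
        rw [hvv]
        simp only [map_add, map_smul, add_apply, smul_apply, smul_eq_mul]
        ring
      rw [k y, k x]
      rw [abs_lt] at g1 g2 g3 g4
      have hsc := Real.sin_sq_add_cos_sq θ
      have hc0 := sq_nonneg (Real.cos θ)
      have hs0 := sq_nonneg (Real.sin θ)
      have m1 := mul_le_mul_of_nonneg_left g1.2.le hc0
      have m4 := mul_le_mul_of_nonneg_left g4.2.le hs0
      have m2 : Real.cos θ * Real.sin θ * ((fderiv ℝ (fderiv ℝ u) y b b' +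
          fderiv ℝ (fderiv ℝ u) y b' b) - (fderiv ℝ (fderiv ℝ u) x b b' +
          fderiv ℝ (fderiv ℝ u) x b' b)) ≤ ε := by
        have a1 : |Real.cos θ * Real.sin θ| ≤ 1 / 2 := by
          rw [abs_le]
          constructor
          · nlinarith [sq_nonneg (Real.cos θ + Real.sin θ)]
          · nlinarith [sq_nonneg (Real.cos θ - Real.sin θ)]
        have a2 : |(fderiv ℝ (fderiv ℝ u) y b b' +
          fderiv ℝ (fderiv ℝ u) y b' b) - (fderiv ℝ (fderiv ℝ u) x b b' +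
          fderiv ℝ (fderiv ℝ u) x b' b)| ≤ 2 * ε := by
          rw [abs_le]
          constructor <;> linarith [g2.1, g2.2, g3.1, g3.2]
        calc _ ≤ |Real.cos θ * Real.sin θ * ((fderiv ℝ (fderiv ℝ u) y b b' +
          fderiv ℝ (fderiv ℝ u) y b' b) - (fderiv ℝ (fderiv ℝ u) x b b' +
          fderiv ℝ (fderiv ℝ u) x b' b))| := le_abs_self _
          _ ≤ 1 / 2 * (2 * ε) := by
            rw [abs_mul]
            exact mul_le_mul a1 a2 (abs_nonneg _) (by norm_num)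
          _ = ε := by ring
      have hce : Real.cos θ ^ 2 * ε + Real.sin θ ^ 2 * ε = ε := by
        rw [← add_mul, add_comm, hsc, one_mul]
      linarith
    have h3 := Lv_nonneg_of_submean_T2 (fun s : ℝ => u (x + s • v))
      (fun s : ℝ => fderiv ℝ u (x + s • v) v) (fun s => fderiv ℝ (fderiv ℝ u) (x + s • v) v v)
      (fderiv ℝ (fderiv ℝ u) x v v + 2 * ε) s₀ e1 e2 e3 s₀ ⟨hs₀, le_rfl⟩
    simp only [zero_smul, add_zero] at h3
    exact h3
  -- choose s
  obtain ⟨s, hs0, hsr, hsρ⟩ : ∃ s : ℝ, 0 < s ∧ s < r ∧ s * ‖b‖ < ρ := by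
    refine ⟨min (r / 2) (ρ / (2 * (‖b‖ + 1))), lt_min (by linarith) (by positivity), ?_, ?_⟩
    · exact lt_of_le_of_lt (min_le_left _ _) (by linarith)
    · have hb1 : 0 < ‖b‖ + 1 := by positivity
      calc min (r / 2) (ρ / (2 * (‖b‖ + 1))) * ‖b‖ ≤ ρ / (2 * (‖b‖ + 1)) * ‖b‖ :=
            mul_le_mul_of_nonneg_right (min_le_right _ _) (norm_nonneg b)
        _ ≤ ρ / (2 * (‖b‖ + 1)) * (‖b‖ + 1) := by
            apply mul_le_mul_of_nonneg_left (by linarith) (by positivity)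
        _ = ρ / 2 := by field_simp
        _ < ρ := by linarith
  have hmain := h s hs0 hsr
  have hpt : ∀ θ : ℝ, u (x + Complex.exp (θ * I) • (s • b)) ≤
      (u x + ε * s ^ 2) + (fderiv ℝ u x b * s) * Real.cos θ +
      (fderiv ℝ u x b' * s) * Real.sin θ +
      (fderiv ℝ (fderiv ℝ u) x b b * s ^ 2 / 2) * Real.cos θ ^ 2 +
      ((fderiv ℝ (fderiv ℝ u) x b b' + fderiv ℝ (fderiv ℝ u) x b' b) * s ^ 2 / 2) *
        (Real.sin θ * Real.cos θ) +
      (fderiv ℝ (fderiv ℝ u) x b' b' * s ^ 2 / 2) * Real.sin θ ^ 2 := by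
    intro θ
    have h3 := hT θ (Complex.exp (θ * I) • b) rfl s hs0.le hsρ
    rw [smul_comm (Complex.exp (θ * I)) s b]
    refine h3.trans (le_of_eq ?_)
    rw [hexp θ]
    simp only [map_add, map_smul, add_apply, smul_apply, smul_eq_mul]
    ring
  have hcont : Continuous (fun θ : ℝ => u (x + Complex.exp (θ * I) • (s • b))) := by
    apply hu.continuous.comp
    apply continuous_const.add
    have hce : Continuous (fun θ : ℝ => Complex.exp (θ * I)) :=
      Complex.continuous_exp.comp (Complex.continuous_ofReal.mul continuous_const)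
    exact hce.smul continuous_const
  have hint := intervalIntegral.integral_mono_on (a := 0) (b := 2 * Real.pi)
    (μ := volume) (by positivity) (hcont.intervalIntegrable _ _)
    (by
      apply Continuous.intervalIntegrable
      fun_prop) (fun θ _ => hpt θ)
  rw [Lv_nonneg_of_submean_int] at hint
  have hpi : 0 < 2 * Real.pi := by positivity
  have h10 : 2 * Real.pi * u x ≤ ∫ θ in (0 : ℝ)..(2 * Real.pi),
      u (x + Complex.exp (θ * I) • (s • b)) := by
    have h11 := mul_le_mul_of_nonneg_left hmain hpi.le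
    rw [← mul_assoc, mul_inv_cancel₀ hpi.ne', one_mul] at h11
    exact h11
  have h12 := h10.trans hint
  rw [← hb']
  have h13 : 0 ≤ (2 * Real.pi * s ^ 2) * ((1 / 4) * (fderiv ℝ (fderiv ℝ u) x b b +
      fderiv ℝ (fderiv ℝ u) x b' b') + ε) := by
    linarith
  exact nonneg_of_mul_nonneg_right h13 (by positivity)

theorem Lv_nonneg_of_submean {u : En n → ℝ} (hu : ContDiff ℝ ∞ u) (x b : En n) (r : ℝ) (hr : 0 < r)
    (h : ∀ s : ℝ, 0 < s → s < r → u x ≤ (2 * Real.pi)⁻¹ * ∫ θ in (0 : ℝ)..(2 * Real.pi),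
      u (x + Complex.exp (θ * I) • (s • b))) : 0 ≤ Lv u x b := by
  unfold Lv
  rw [H_eq hu, H_eq hu]
  apply le_of_forall_pos_le_add
  intro ε hε
  exact Lv_nonneg_of_submean_eps hu x b r hr h ε hε

theorem mollify {g : En n → ℝ} (hg : Continuous g) {U K : Set (En n)} (hU : IsOpen U) (hK : IsCompact K)
    (hKU : K ⊆ U)
    (hsub : ∀ a b : En n, (∀ ζ : ℂ, ‖ζ‖ ≤ 1 → a + ζ • b ∈ U) →
      g a ≤ (2 * Real.pi)⁻¹ * ∫ θ in (0 : ℝ)..(2 * Real.pi), g (a + Complex.exp (θ * I) • b))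
    (δ : ℝ) (hδ : 0 < δ) :
    ∃ u : En n → ℝ, ContDiff ℝ ∞ u ∧ (∀ x ∈ K, |u x - g x| ≤ δ) ∧ ∃ r : ℝ, 0 < r ∧
      ∀ x ∈ K, ∀ b : En n, ‖b‖ < r →
        u x ≤ (2 * Real.pi)⁻¹ * ∫ θ in (0 : ℝ)..(2 * Real.pi), u (x + Complex.exp (θ * I) • b) := by
  obtain ⟨r0, hr0, hthick⟩ := hK.exists_cthickening_subset_open hU hKU
  have hL : IsCompact (Metric.cthickening r0 K) := hK.cthickening
  have hKL : K ⊆ Metric.cthickening r0 K := Metric.self_subset_cthickening K
  have hmemL : ∀ x ∈ K, ∀ y, dist y x ≤ r0 → y ∈ Metric.cthickening r0 K := fun x hx y hy =>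
    Metric.mem_cthickening_of_dist_le y x r0 K hx hy
  have huc := hL.uniformContinuousOn_of_continuous hg.continuousOn
  rw [Metric.uniformContinuousOn_iff] at huc
  obtain ⟨η, hη, hgη⟩ := huc δ hδ
  set t : ℝ := min (r0 / 2) η with ht
  have htpos : 0 < t := by rw [ht]; positivity
  have htr : t ≤ r0 / 2 := min_le_left _ _
  have htη : t ≤ η := min_le_right _ _
  let φ : ContDiffBump (0 : En n) := ⟨t / 2, t, by positivity, by linarith⟩
  have hφr : φ.rOut = t := rfl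
  set p : En n → ℝ := φ.normed volume with hp
  have hpc : Continuous p := φ.continuous_normed
  have hp0 : ∀ y, 0 ≤ p y := fun y => φ.nonneg_normed y
  have hpz : ∀ y, t ≤ ‖y‖ → p y = 0 := by
    intro y hy
    have h1 : y ∉ Function.support p := by
      rw [hp, φ.support_normed_eq]
      intro h2
      rw [Metric.mem_ball, dist_zero_right, hφr] at h2
      linarith
    exact Function.notMem_support.mp h1
  set u : En n → ℝ := fun x => ∫ y, p y * g (x - y) with hu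
  have hconv : u = MeasureTheory.convolution p g (ContinuousLinearMap.lsmul ℝ ℝ) volume := by
    funext x
    rw [hu, MeasureTheory.convolution_def]
    rfl
  refine ⟨u, ?_, ?_, r0 / 2, by positivity, ?_⟩
  · rw [hconv]
    exact φ.hasCompactSupport_normed.contDiff_convolution_left _ φ.contDiff_normed
      hg.locallyIntegrable
  · intro x hx
    have h1 := φ.dist_normed_convolution_le (μ := volume) (g := g) (x₀ := x) (ε := δ)
      hg.aestronglyMeasurable (by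
        intro y hy
        rw [hφr, Metric.mem_ball] at hy
        exact (hgη y (hmemL x hx y (by linarith)) x (hKL hx) (by linarith)).le)
    rw [Real.dist_eq] at h1
    rw [hconv]
    exact h1
  · intro x hx b hb
    have hpi : 0 < (2 * Real.pi)⁻¹ := by positivity
    have hpi2 : (0 : ℝ) ≤ 2 * Real.pi := by positivity
    set F : En n → ℝ → ℝ := fun y θ => p y * g (x - y + Complex.exp (θ * I) • b) with hF
    have hFc : Continuous (Function.uncurry F) := by
      rw [hF]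
      unfold Function.uncurry
      fun_prop
    have hS : IsCompact (Metric.closedBall (0 : En n) t) := isCompact_closedBall _ _
    have hzero : ∀ y, y ∉ Metric.closedBall (0 : En n) t → p y = 0 := by
      intro y hy
      apply hpz
      rw [Metric.mem_closedBall, dist_zero_right] at hy
      linarith
    -- integrability on the product
    have hI : Integrable (Function.uncurry F)
        ((volume : Measure (En n)).prod (volume.restrict (Set.Ioc 0 (2 * Real.pi)))) := by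
      have h1 : IntegrableOn (Function.uncurry F)
          (Metric.closedBall (0 : En n) t ×ˢ Set.Icc 0 (2 * Real.pi))
          ((volume : Measure (En n)).prod (volume : Measure ℝ)) :=
        hFc.continuousOn.integrableOn_compact (hS.prod isCompact_Icc)
      have h2 : IntegrableOn (Function.uncurry F)
          (Metric.closedBall (0 : En n) t ×ˢ Set.Ioc 0 (2 * Real.pi))
          ((volume : Measure (En n)).prod (volume : Measure ℝ)) :=
        h1.mono_set (Set.prod_mono le_rfl Set.Ioc_subset_Icc_self)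
      have h3 : IntegrableOn (Function.uncurry F)
          ((Set.univ : Set (En n)) ×ˢ Set.Ioc 0 (2 * Real.pi))
          ((volume : Measure (En n)).prod (volume : Measure ℝ)) := by
        refine h2.of_forall_sdiff_eq_zero (MeasurableSet.univ.prod measurableSet_Ioc) ?_
        rintro ⟨y, θ⟩ ⟨h4, h5⟩
        have h6 : y ∉ Metric.closedBall (0 : En n) t := fun h7 => h5 ⟨h7, h4.2⟩
        change p y * _ = 0
        rw [hzero y h6, zero_mul]
      unfold IntegrableOn at h3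
      rw [← Measure.prod_restrict, Measure.restrict_univ] at h3
      exact h3
    have hswap : ∫ y, ∫ θ in Set.Ioc 0 (2 * Real.pi), F y θ =
        ∫ θ in Set.Ioc 0 (2 * Real.pi), ∫ y, F y θ := integral_integral_swap hI
    have hR : (2 * Real.pi)⁻¹ * ∫ θ in (0 : ℝ)..(2 * Real.pi), u (x + Complex.exp (θ * I) • b) =
        ∫ y, p y * ((2 * Real.pi)⁻¹ * ∫ θ in (0 : ℝ)..(2 * Real.pi),
          g (x - y + Complex.exp (θ * I) • b)) := by
      have e1 : ∀ y, p y * ((2 * Real.pi)⁻¹ * ∫ θ in (0 : ℝ)..(2 * Real.pi),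
          g (x - y + Complex.exp (θ * I) • b)) =
          (2 * Real.pi)⁻¹ * ∫ θ in Set.Ioc 0 (2 * Real.pi), F y θ := by
        intro y
        rw [intervalIntegral.integral_of_le hpi2, hF]
        simp only
        rw [integral_const_mul]
        ring
      simp_rw [e1]
      rw [integral_const_mul, hswap, intervalIntegral.integral_of_le hpi2]
      congr 1
      apply integral_congr_ae
      filter_upwards with θ
      rw [hu]
      simp only
      congr 1
      funext y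
      rw [hF]
      simp only
      congr 2
      abel
    rw [hR, hu]
    simp only
    have hcs : HasCompactSupport p := φ.hasCompactSupport_normed
    apply integral_mono
    · apply Continuous.integrable_of_hasCompactSupport
      · fun_prop
      · exact hcs.mul_right
    · apply Continuous.integrable_of_hasCompactSupport
      · apply hpc.mul
        apply continuous_const.mul
        apply intervalIntegral.continuous_parametric_intervalIntegral_of_continuous'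
        unfold Function.uncurry
        fun_prop
      · exact hcs.mul_right
    · intro y
      rcases le_or_gt t ‖y‖ with h1 | h1
      · simp only
        rw [hpz y h1, zero_mul, zero_mul]
      · simp only
        apply mul_le_mul_of_nonneg_left _ (hp0 y)
        apply hsub
        intro ζ hζ
        apply hthick
        apply hmemL x hx
        rw [dist_eq_norm]
        have e : x - y + ζ • b - x = - y + ζ • b := by abel
        rw [e]
        calc ‖-y + ζ • b‖ ≤ ‖-y‖ + ‖ζ • b‖ := norm_add_le _ _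
          _ = ‖y‖ + ‖ζ‖ * ‖b‖ := by rw [norm_neg, norm_smul]
          _ ≤ t + 1 * (r0 / 2) := by gcongr
          _ ≤ r0 := by linarith

theorem approx {ψ : En n → ℝ} {Ω K : Set (En n)} (hΩ : IsOpen Ω) (hψ : ContinuousOn ψ Ω)
    (hK : IsCompact K) (hKΩ : K ⊆ Ω)
    (hsub : ∀ a b : En n, (∀ ζ : ℂ, ‖ζ‖ ≤ 1 → a + ζ • b ∈ Ω) →
      ψ a ≤ (2 * Real.pi)⁻¹ * ∫ θ in (0 : ℝ)..(2 * Real.pi), ψ (a + Complex.exp (θ * I) • b))
    (δ : ℝ) (hδ : 0 < δ) :
    ∃ u : En n → ℝ, ContDiff ℝ ∞ u ∧ (∀ x ∈ K, |u x - ψ x| ≤ δ) ∧ ∃ c : ℝ, 0 < c ∧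
      ∀ x ∈ K, ∀ a : En n, c * ‖a‖ ^ 2 ≤ Lv u x a := by
  obtain ⟨L, hL, hKL, hLΩ⟩ := exists_compact_between hK hΩ hKΩ
  obtain ⟨g, hg⟩ := ContinuousMap.exists_restrict_eq hL.isClosed
    (⟨L.domRestrict ψ, (hψ.mono hLΩ).domRestrict⟩ : C(L, ℝ))
  have hgψ : ∀ y ∈ L, g y = ψ y := by
    intro y hy
    have := DFunLike.congr_fun hg ⟨y, hy⟩
    exact this
  have hsubg : ∀ a b : En n, (∀ ζ : ℂ, ‖ζ‖ ≤ 1 → a + ζ • b ∈ interior L) →
      g a ≤ (2 * Real.pi)⁻¹ * ∫ θ in (0 : ℝ)..(2 * Real.pi), g (a + Complex.exp (θ * I) • b) := by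
    intro a b hab
    have h1 := hsub a b (fun ζ hζ => hLΩ (interior_subset (hab ζ hζ)))
    have ha : a ∈ L := by
      have := hab 0 (by simp)
      simp only [zero_smul, add_zero] at this
      exact interior_subset this
    rw [hgψ a ha]
    refine h1.trans (le_of_eq ?_)
    congr 1
    apply intervalIntegral.integral_congr
    intro θ _
    have hn : ‖Complex.exp (θ * I)‖ ≤ 1 := by rw [Complex.norm_exp_ofReal_mul_I]
    exact (hgψ _ (interior_subset (hab _ hn))).symm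
  obtain ⟨u0, hu0, hu0K, r, hr, hu0s⟩ := mollify g.continuous isOpen_interior hK hKL hsubg (δ / 2)
    (by positivity)
  have hcont : Continuous (fun y : En n => ∑ j, ‖y j‖ ^ 2) := by fun_prop
  obtain ⟨B, hB⟩ := hK.exists_bound_of_continuousOn hcont.continuousOn
  set ε : ℝ := δ / (2 * (|B| + 1)) with hε
  have hB1 : 0 < |B| + 1 := by positivity
  have hεpos : 0 < ε := by rw [hε]; positivity
  obtain ⟨hsq1, hsq2⟩ := Lv_sq (n := n) ε hεpos.le
  refine ⟨fun y => u0 y + ε * ∑ j, ‖y j‖ ^ 2, hu0.add hsq1, ?_, ε, hεpos, ?_⟩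
  · intro x hx
    have h1 := hu0K x hx
    rw [hgψ x (interior_subset (hKL hx))] at h1
    have h2 : |ε * ∑ j, ‖x j‖ ^ 2| ≤ δ / 2 := by
      rw [abs_mul, abs_of_pos hεpos]
      have h3 := hB x hx
      rw [Real.norm_eq_abs] at h3
      calc ε * |∑ j, ‖x j‖ ^ 2| ≤ ε * (|B| + 1) := by
            gcongr
            exact h3.trans ((le_abs_self B).trans (by linarith))
        _ = δ / 2 := by rw [hε]; field_simp
    have e : u0 x + ε * ∑ j, ‖x j‖ ^ 2 - ψ x = (u0 x - ψ x) + ε * ∑ j, ‖x j‖ ^ 2 := by ring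
    change |u0 x + ε * ∑ j, ‖x j‖ ^ 2 - ψ x| ≤ δ
    rw [e]
    refine (abs_add_le _ _).trans ?_
    linarith
  · intro x hx a
    rw [Lv_add hu0 hsq1]
    have h1 : 0 ≤ Lv u0 x a := by
      have hna : 0 < ‖a‖ + 1 := by positivity
      refine Lv_nonneg_of_submean hu0 x a (r / (‖a‖ + 1)) (by positivity) ?_
      intro s hs hsr
      apply hu0s x hx
      rw [norm_smul, Real.norm_eq_abs, abs_of_pos hs]
      rw [lt_div_iff₀ hna] at hsr
      nlinarith [norm_nonneg a]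
    have h2 := hsq2 x a
    linarith

theorem Lv_const (c : ℝ) (x a : En n) : Lv (fun _ : En n => c) x a = 0 := by
  have e : ∀ v : En n, fderiv ℝ (fun y : En n => fderiv ℝ (fun _ : En n => c) y v) x v = 0 := by
    intro v
    have : (fun y : En n => fderiv ℝ (fun _ : En n => c) y v) = fun _ => (0 : ℝ) := by
      funext y
      rw [fderiv_fun_const]
      rfl
    rw [this, fderiv_fun_const]
    rfl
  unfold Lv
  rw [e, e]
  norm_num

theorem glue {ψ : En n → ℝ} {Ω : Set (En n)} (hΩ : IsOpen Ω) (hψ : ContinuousOn ψ Ω)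
    (hex : ∀ M : ℝ, IsCompact {x ∈ Ω | ψ x ≤ M})
    (happ : ∀ K : Set (En n), IsCompact K → K ⊆ Ω →
      ∃ u : En n → ℝ, ContDiff ℝ ∞ u ∧ (∀ x ∈ K, |u x - ψ x| ≤ 1 / 4) ∧ ∃ c : ℝ, 0 < c ∧
        ∀ x ∈ K, ∀ a : En n, c * ‖a‖ ^ 2 ≤ Lv u x a) :
    ∃ v : En n → ℝ, ContDiffOn ℝ ∞ v Ω ∧ (∀ M : ℝ, IsCompact {x ∈ Ω | v x ≤ M}) ∧
      ∀ x ∈ Ω, ∀ a, 0 ≤ Lv v x a := by
  obtain ⟨χ, hχ, hχ0, hχz, hχm, hχm', hχd, hχdd, hχpos, hχdpos⟩ := chi_exists
  have h1 : ∀ m : ℕ, ∃ u : En n → ℝ, ContDiff ℝ ∞ u ∧ (∀ x ∈ Ω, ψ x ≤ ((m + 1 : ℕ) : ℝ) →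
      |u x - ψ x| ≤ 1 / 4) ∧ ∃ c : ℝ, 0 < c ∧
        ∀ x ∈ Ω, ψ x ≤ ((m + 1 : ℕ) : ℝ) → ∀ a : En n, c * ‖a‖ ^ 2 ≤ Lv u x a := by
    intro m
    obtain ⟨u, hu1, hu2, c, hc, hu3⟩ := happ _ (hex ((m + 1 : ℕ) : ℝ)) (fun x hx => hx.1)
    exact ⟨u, hu1, fun x hx hx2 => hu2 x ⟨hx, hx2⟩, c, hc, fun x hx hx2 a => hu3 x ⟨hx, hx2⟩ a⟩
  choose u hu hua c hc huL using h1
  set w : ℕ → En n → ℝ := fun m x => χ (u m x + (1 / 2 - m)) with hw
  have hΦ : ∀ m : ℕ, ContDiff ℝ ∞ (fun x => u m x + (1 / 2 - (m : ℝ))) :=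
    fun m => (hu m).add contDiff_const
  have hws : ∀ m, ContDiff ℝ ∞ (w m) := fun m => hχ.comp (hΦ m)
  have hw0 : ∀ m x, 0 ≤ w m x := fun m x => hχ0 _
  have hwz : ∀ m : ℕ, ∀ x ∈ Ω, ψ x ≤ (m : ℝ) - 1 → w m x = 0 := by
    intro m x hx hm
    apply hχz
    have h2 := hua m x hx (by push_cast; linarith)
    have h3 := (abs_le.mp h2).2
    linarith
  have hLΦ : ∀ m x a, Lv (fun x => u m x + (1 / 2 - (m : ℝ))) x a = Lv (u m) x a := by
    intro m x a
    rw [Lv_add (hu m) contDiff_const, Lv_const, add_zero]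
  have hwL0 : ∀ m : ℕ, ∀ x ∈ Ω, ψ x ≤ ((m + 1 : ℕ) : ℝ) → ∀ a, deriv χ (u m x + (1 / 2 - m)) *
      Lv (u m) x a ≤ Lv (w m) x a := by
    intro m x hx hm a
    have e := Lv_comp (hΦ m) hχ x a
    rw [hLΦ] at e
    change _ ≤ Lv (fun y => χ (u m y + (1 / 2 - (m : ℝ)))) x a
    rw [e]
    have h2 := hχdd (u m x + (1 / 2 - m))
    have h3 : 0 ≤ (1 / 4) * deriv (deriv χ) (u m x + (1 / 2 - (m : ℝ))) *
        ((fderiv ℝ (fun x => u m x + (1 / 2 - (m : ℝ))) x a) ^ 2 +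
          (fderiv ℝ (fun x => u m x + (1 / 2 - (m : ℝ))) x (I • a)) ^ 2) := by
      positivity
    linarith
  have hwL : ∀ m : ℕ, ∀ x ∈ Ω, ψ x ≤ ((m + 1 : ℕ) : ℝ) → ∀ a, 0 ≤ Lv (w m) x a := by
    intro m x hx hm a
    refine le_trans ?_ (hwL0 m x hx hm a)
    have h2 := huL m x hx hm a
    have h3 : 0 ≤ Lv (u m) x a := le_trans (mul_nonneg (hc m).le (sq_nonneg _)) h2
    exact mul_nonneg (hχd _) h3
  set d : ℝ := deriv χ (1 / 4) with hd
  have hdpos : 0 < d := hχdpos _ (by norm_num)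
  set e0 : ℝ := χ (1 / 4) with he0
  have he0pos : 0 < e0 := hχpos _ (by norm_num)
  have hbig : ∀ m : ℕ, ∀ x ∈ Ω, ψ x ≤ ((m + 1 : ℕ) : ℝ) → (m : ℝ) < ψ x →
      (1 / 4 : ℝ) ≤ u m x + (1 / 2 - m) := by
    intro m x hx hm hm2
    have h2 := (abs_le.mp (hua m x hx hm)).1
    linarith
  have hwL2 : ∀ m : ℕ, ∀ x ∈ Ω, ψ x ≤ ((m + 1 : ℕ) : ℝ) → (m : ℝ) < ψ x → ∀ a,
      d * c m * ‖a‖ ^ 2 ≤ Lv (w m) x a := by
    intro m x hx hm hm2 a
    refine le_trans ?_ (hwL0 m x hx hm a)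
    have h2 := huL m x hx hm a
    have h3 := hχm' (hbig m x hx hm hm2)
    calc d * c m * ‖a‖ ^ 2 = d * (c m * ‖a‖ ^ 2) := by ring
      _ ≤ deriv χ (u m x + (1 / 2 - m)) * Lv (u m) x a := by
        apply mul_le_mul h3 h2 (mul_nonneg (hc m).le (sq_nonneg _)) (hχd _)
  have hwe : ∀ m : ℕ, ∀ x ∈ Ω, ψ x ≤ ((m + 1 : ℕ) : ℝ) → (m : ℝ) < ψ x → e0 ≤ w m x := by
    intro m x hx hm hm2
    exact hχm (hbig m x hx hm hm2)
  -- choice of the coefficients
  have hA : ∀ (V : {V : En n → ℝ // ContDiff ℝ ∞ V}) (m : ℕ), ∃ A : ℝ, 0 ≤ A ∧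
      (m + 1 : ℝ) ≤ A * e0 ∧ ∀ x ∈ Ω, ψ x ≤ ((m + 1 : ℕ) : ℝ) → ∀ a,
        -(A * (d * c m) * ‖a‖ ^ 2) ≤ Lv V.1 x a := by
    intro V m
    obtain ⟨C, hC, hCb⟩ := Lv_bound V.2 (hex ((m + 1 : ℕ) : ℝ))
    have hdc : 0 < d * c m := mul_pos hdpos (hc m)
    refine ⟨(m + 1) / e0 + C / (d * c m), by positivity, ?_, ?_⟩
    · have : (m + 1 : ℝ) / e0 * e0 = m + 1 := by field_simp
      have h2 : 0 ≤ C / (d * c m) * e0 := by positivity
      nlinarith
    · intro x hx hm a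
      have h2 := hCb x ⟨hx, hm⟩ a
      have h3 : C / (d * c m) * (d * c m) = C := div_mul_cancel₀ _ hdc.ne'
      have h4 : 0 ≤ (m + 1 : ℝ) / e0 * (d * c m) * ‖a‖ ^ 2 := by positivity
      have h5 : ((m + 1) / e0 + C / (d * c m)) * (d * c m) * ‖a‖ ^ 2 =
          (m + 1 : ℝ) / e0 * (d * c m) * ‖a‖ ^ 2 + C * ‖a‖ ^ 2 := by
        rw [add_mul, add_mul, h3]
      rw [h5]
      linarith
  choose A hA0 hA1 hA2 using hA
  obtain ⟨V, hV0, hVs⟩ : ∃ V : ℕ → {V : En n → ℝ // ContDiff ℝ ∞ V}, ((V 0).1 = fun _ => 0) ∧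
      ∀ m, (V (m + 1)).1 = fun y => (V m).1 y + A (V m) m * w m y :=
    ⟨fun m => Nat.rec ⟨fun _ => 0, contDiff_const⟩
      (fun m V => ⟨fun y => V.1 y + A V m * w m y, V.2.add (contDiff_const.mul (hws m))⟩) m,
      rfl, fun m => rfl⟩
  -- psh
  have hpsh : ∀ m : ℕ, ∀ x ∈ Ω, ψ x ≤ (m : ℝ) → ∀ a, 0 ≤ Lv (V m).1 x a := by
    intro m
    induction m with
    | zero =>
      intro x hx _ a
      rw [hV0, Lv_const]
    | succ m ih =>
      intro x hx hm a
      rw [hVs, Lv_add (V m).2 (contDiff_const.mul (hws m)), Lv_const_mul (hws m)]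
      rcases le_or_gt (ψ x) (m : ℝ) with h2 | h2
      · have h3 := ih x hx h2 a
        have h4 := mul_nonneg (hA0 (V m) m) (hwL m x hx hm a)
        linarith
      · have h3 := hA2 (V m) m x hx hm a
        have h4 := mul_le_mul_of_nonneg_left (hwL2 m x hx hm h2 a) (hA0 (V m) m)
        have h5 : A (V m) m * (d * c m * ‖a‖ ^ 2) = A (V m) m * (d * c m) * ‖a‖ ^ 2 := by ring
        rw [h5] at h4
        linarith
  have hmono : ∀ m x, (V m).1 x ≤ (V (m + 1)).1 x := by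
    intro m x
    rw [hVs]
    have := mul_nonneg (hA0 (V m) m) (hw0 m x)
    simp only
    linarith
  have hgrow : ∀ m : ℕ, ∀ x ∈ Ω, ψ x ≤ (m : ℝ) → ψ x ≤ (V m).1 x := by
    intro m
    induction m with
    | zero =>
      intro x hx hm
      rw [hV0]
      simpa using hm
    | succ m ih =>
      intro x hx hm
      rcases le_or_gt (ψ x) (m : ℝ) with h2 | h2
      · exact (ih x hx h2).trans (hmono m x)
      · have h3 := mul_le_mul_of_nonneg_left (hwe m x hx hm h2) (hA0 (V m) m)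
        have h4 := hA1 (V m) m
        have hnn : ∀ k, 0 ≤ (V k).1 x := by
          intro k
          induction k with
          | zero => rw [hV0]
          | succ k ihk => exact ihk.trans (hmono k x)
        have h5 := hnn m
        rw [hVs]
        simp only
        push_cast at hm
        linarith
  have hstab : ∀ m k : ℕ, m ≤ k → ∀ x ∈ Ω, ψ x ≤ (m : ℝ) - 1 → (V k).1 x = (V m).1 x := by
    intro m k hmk
    induction k, hmk using Nat.le_induction with
    | base => intro x _ _; rfl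
    | succ k hk ih =>
      intro x hx hm
      rw [hVs]
      have hk' : (m : ℝ) ≤ k := by exact_mod_cast hk
      simp only
      rw [hwz k x hx (by linarith), mul_zero, add_zero]
      exact ih x hx hm
  set v : En n → ℝ := fun x => (V (⌈ψ x⌉₊ + 1)).1 x with hv
  have hvk : ∀ x ∈ Ω, ∀ k : ℕ, ⌈ψ x⌉₊ + 1 ≤ k → v x = (V k).1 x := by
    intro x hx k hk
    refine (hstab _ k hk x hx ?_).symm
    have := Nat.le_ceil (ψ x)
    push_cast
    linarith
  have hloc : ∀ x ∈ Ω, v =ᶠ[𝓝 x] (V (⌈ψ x⌉₊ + 3)).1 := by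
    intro x hx
    have hcx : ContinuousAt ψ x := hψ.continuousAt (hΩ.mem_nhds hx)
    have h2 : ∀ᶠ y in 𝓝 x, ψ y < ψ x + 1 := hcx.eventually (Iio_mem_nhds (by linarith))
    filter_upwards [h2, hΩ.mem_nhds hx] with y hy hyΩ
    apply hvk y hyΩ
    have h3 : ⌈ψ y⌉₊ ≤ ⌈ψ x⌉₊ + 1 := by
      apply Nat.ceil_le.mpr
      have := Nat.le_ceil (ψ x)
      push_cast
      linarith
    omega
  have hvs : ContDiffOn ℝ ∞ v Ω := by
    intro x hx
    exact ((V (⌈ψ x⌉₊ + 3)).2.contDiffAt.congr_of_eventuallyEq (hloc x hx)).contDiffWithinAt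
  have hvψ : ∀ x ∈ Ω, ψ x ≤ v x := by
    intro x hx
    rw [hvk x hx (⌈ψ x⌉₊ + 1) le_rfl]
    apply hgrow _ x hx
    have := Nat.le_ceil (ψ x)
    push_cast
    linarith
  refine ⟨v, hvs, ?_, ?_⟩
  · intro M
    have hKM := hex M
    have hsub : {x ∈ Ω | v x ≤ M} ⊆ {x ∈ Ω | ψ x ≤ M} := fun x hx =>
      ⟨hx.1, (hvψ x hx.1).trans hx.2⟩
    have hcl : IsClosed ({x ∈ Ω | ψ x ≤ M} ∩ v ⁻¹' (Set.Iic M)) :=
      (hvs.continuousOn.mono (fun x hx => hx.1)).preimage_isClosed_of_isClosed hKM.isClosed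
        isClosed_Iic
    have heq : {x ∈ Ω | v x ≤ M} = {x ∈ Ω | ψ x ≤ M} ∩ v ⁻¹' (Set.Iic M) := by
      ext x
      constructor
      · intro hx
        exact ⟨hsub hx, hx.2⟩
      · intro hx
        exact ⟨hx.1.1, hx.2⟩
    rw [heq]
    exact hKM.of_isClosed_subset hcl Set.inter_subset_left
  · intro x hx a
    rw [Lv_congr (hloc x hx) a]
    apply hpsh _ x hx
    have := Nat.le_ceil (ψ x)
    push_cast
    linarith

end C3x

theorem pscS_of_pscC (Ω : Set (En n)) (ho : IsOpen Ω) (hb : Bornology.IsBounded Ω)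
    (hP : PscC Ω) : PscS Ω := by
  obtain ⟨ψ, hψ, hex, hsub⟩ := hP
  exact C3x.glue ho hψ hex (fun K hK hKΩ =>
    C3x.approx ho hψ hK hKΩ hsub (1 / 4) (by norm_num))

end BK.JC3
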