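import Pool.Agent.H314.BK.St

set_option autoImplicit false

open MeasureTheory Complex Filter Topology
open scoped ContDiff InnerProductSpace ENNReal ComplexConjugate

namespace BK.JC4

variable {n : ℕ}

theorem dbar0_zero (Ω : Set (En n)) (ho : IsOpen Ω) (g : Form Ω) (h : IsDbar0 Ω 0 g) :
    g = 0 := by
  have key : ∀ j : Fin n, g j = 0 := by
    intro j
    have hmem : MemLp (g j) 2 ((volume : Measure (En n)).restrict Ω) := Lp.memLp (g j)
    have hloc : LocallyIntegrableOn (g j) Ω (volume : Measure (En n)) := by
      apply locallyIntegrableOn_of_locallyIntegrable_restrict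
      exact hmem.locallyIntegrable (by norm_num)
    have hz := ho.ae_eq_zero_of_integral_contDiff_smul_eq_zero (f := (g j : En n → ℂ)) hloc (by
      intro ρ h1 h2 h3
      have ht : IsTest Ω (fun x => (ρ x : ℂ)) := by
        refine ⟨Complex.ofRealCLM.contDiff.comp h1, ?_, ?_⟩
        · exact h2.comp_left (g := fun r : ℝ => (r : ℂ)) Complex.ofReal_zero
        · refine subset_trans ?_ h3
          apply closure_mono
          intro x hx
          simp only [Function.mem_support, ne_eq, Complex.ofReal_eq_zero] at hx ⊢
          exact hx
      have h4 := h j _ ht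
      have h5 : ∫ x in Ω, ((0 : L2 Ω) : En n → ℂ) x * dbar j (fun x => (ρ x : ℂ)) x = 0 := by
        rw [← integral_zero (En n) ℂ (μ := (volume : Measure (En n)).restrict Ω)]
        apply integral_congr_ae
        filter_upwards [Lp.coeFn_zero ℂ 2 ((volume : Measure (En n)).restrict Ω)] with x hx
        rw [hx]
        simp
      rw [h5] at h4
      have h6 : ∫ x in Ω, g j x * (ρ x : ℂ) = 0 := by
        have := neg_eq_zero.1 h4.symm
        exact this
      have h7 : ∫ x in Ω, (ρ x • (g j : En n → ℂ) x) = ∫ x, (ρ x • (g j : En n → ℂ) x) := by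
        apply setIntegral_eq_integral_of_forall_compl_eq_zero
        intro x hx
        have : ρ x = 0 := by
          by_contra hne
          exact hx (h3 (subset_tsupport _ hne))
        rw [this, zero_smul]
      rw [← h7, ← h6]
      congr 1
      funext x
      rw [Complex.real_smul, mul_comm])
    rw [Lp.eq_zero_iff_ae_eq_zero]
    rw [Filter.EventuallyEq, ae_restrict_iff' ho.measurableSet]
    exact hz
  ext j : 1
  rw [key j]
  rfl

end BK.JC4
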