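import Mathlib

set_option autoImplicit false

open MeasureTheory Complex Filter Topology
open scoped ContDiff InnerProductSpace ENNReal ComplexConjugate

namespace BK

/-- `ℂⁿ` -/
abbrev En (n : ℕ) := Fin n → ℂ

variable {n : ℕ}

/-- The Wirtinger derivative `∂φ/∂z̄_j`. -/
noncomputable def dbar (j : Fin n) (φ : En n → ℂ) (x : En n) : ℂ :=
  (1 / 2) * (fderiv ℝ φ x (Pi.single j 1) + I * fderiv ℝ φ x (Pi.single j I))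

/-- The Wirtinger derivative `∂φ/∂z_j`. -/
noncomputable def dz (j : Fin n) (φ : En n → ℂ) (x : En n) : ℂ :=
  (1 / 2) * (fderiv ℝ φ x (Pi.single j 1) - I * fderiv ℝ φ x (Pi.single j I))

/-- Test functions on `Ω`: smooth, with compact support contained in `Ω`. -/
structure IsTest (Ω : Set (En n)) (φ : En n → ℂ) : Prop where
  smooth : ContDiff ℝ ∞ φ
  compact : HasCompactSupport φ
  supp : tsupport φ ⊆ Ω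

/-- index set of `(0,2)`-forms -/
abbrev Pr (n : ℕ) := {p : Fin n × Fin n // p.1 < p.2}

/-- `L²(Ω)`. -/
noncomputable abbrev L2 (Ω : Set (En n)) := Lp ℂ 2 ((volume : Measure (En n)).restrict Ω)
/-- square integrable `(0,1)`-forms -/
noncomputable abbrev Form (Ω : Set (En n)) := PiLp 2 (fun _ : Fin n => L2 Ω)
/-- square integrable `(0,2)`-forms `Σ_{j<k} c_{jk} dz̄_j ∧ dz̄_k` -/
noncomputable abbrev Form2 (Ω : Set (En n)) := PiLp 2 (fun _ : Pr n => L2 Ω)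

/-- weak `∂̄` on functions -/
def IsDbar0 (Ω : Set (En n)) (f : L2 Ω) (g : Form Ω) : Prop :=
  ∀ j : Fin n, ∀ φ : En n → ℂ, IsTest Ω φ →
    ∫ x in Ω, f x * dbar j φ x = - ∫ x in Ω, g j x * φ x

/-- weak `∂̄` on `(0,1)`-forms: the coefficient of `dz̄_j ∧ dz̄_k` is `∂̄_j u_k - ∂̄_k u_j` -/
def IsDbar1 (Ω : Set (En n)) (u : Form Ω) (c : Form2 Ω) : Prop :=
  ∀ p : Pr n, ∀ φ : En n → ℂ, IsTest Ω φ →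
    ∫ x in Ω, (u p.1.2 x * dbar p.1.1 φ x - u p.1.1 x * dbar p.1.2 φ x)
      = - ∫ x in Ω, c p x * φ x

def IsAdj0 (Ω : Set (En n)) (u : Form Ω) (f : L2 Ω) : Prop :=
  ∀ (h : L2 Ω) (g : Form Ω), IsDbar0 Ω h g → inner ℂ g u = inner ℂ h f

def IsAdj1 (Ω : Set (En n)) (c : Form2 Ω) (u : Form Ω) : Prop :=
  ∀ (v : Form Ω) (w : Form2 Ω), IsDbar1 Ω v w → inner ℂ w c = inner ℂ v u

/-- The graph of `□₁ = ∂̄ ∂̄* + ∂̄* ∂̄` on `(0,1)`-forms. -/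
def Box (Ω : Set (En n)) (u w : Form Ω) : Prop :=
  ∃ (f : L2 Ω) (c : Form2 Ω) (g₁ g₂ : Form Ω), IsAdj0 Ω u f ∧ IsDbar1 Ω u c ∧ IsDbar0 Ω f g₁ ∧
    IsAdj1 Ω c g₂ ∧ w = g₁ + g₂

/-- Levi form `Σ Φ_{j k̄} a_j conj a_k`, as a quarter of the Laplacian along a complex line -/
noncomputable def Lv (Φ : En n → ℝ) (x a : En n) : ℝ :=
  (1 / 4) * (fderiv ℝ (fun y => fderiv ℝ Φ y a) x a +
    fderiv ℝ (fun y => fderiv ℝ Φ y (I • a)) x (I • a))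

/-- `Ω` has a smooth plurisubharmonic exhaustion function -/
def PscS (Ω : Set (En n)) : Prop :=
  ∃ ψ : En n → ℝ, ContDiffOn ℝ ∞ ψ Ω ∧ (∀ M : ℝ, IsCompact {x ∈ Ω | ψ x ≤ M}) ∧
    ∀ x ∈ Ω, ∀ a, 0 ≤ Lv ψ x a

/-- `Ω` has a continuous plurisubharmonic exhaustion function -/
def PscC (Ω : Set (En n)) : Prop :=
  ∃ ψ : En n → ℝ, ContinuousOn ψ Ω ∧ (∀ M : ℝ, IsCompact {x ∈ Ω | ψ x ≤ M}) ∧
    ∀ a b : En n, (∀ ζ : ℂ, ‖ζ‖ ≤ 1 → a + ζ • b ∈ Ω) →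
      ψ a ≤ (2 * Real.pi)⁻¹ * ∫ θ in (0 : ℝ)..(2 * Real.pi), ψ (a + Complex.exp (θ * I) • b)

/-- Kohn–Morrey for closed forms -/
def KM1 (Ω : Set (En n)) : Prop := ∀ (u : Form Ω) (f : L2 Ω), IsDbar1 Ω u 0 → IsAdj0 Ω u f →
  ∃ α : Fin n → Form Ω, (∀ j, IsDbar0 Ω (u j) (α j)) ∧ ∑ j, ‖α j‖ ^ 2 ≤ ‖f‖ ^ 2

/-- Kohn–Morrey for forms orthogonal to closed forms -/
def KM2 (Ω : Set (En n)) : Prop := ∀ (u : Form Ω) (c : Form2 Ω), IsDbar1 Ω u c →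
  (∀ v : Form Ω, IsDbar1 Ω v 0 → inner ℂ v u = 0) →
  ∃ α : Fin n → Form Ω, (∀ j, IsDbar0 Ω (u j) (α j)) ∧ ∑ j, ‖α j‖ ^ 2 ≤ ‖c‖ ^ 2

/-- the form `g_j = - Σ_k ∂_k φ_{jk}` -/
noncomputable def gf (φ : Fin n → Fin n → En n → ℂ) (j : Fin n) (x : En n) : ℂ :=
  - ∑ k, dz k (φ j k) x

/-- dual form of `KM1`, `KM2` -/
def DK (Ω : Set (En n)) : Prop := ∀ φ : Fin n → Fin n → En n → ℂ, (∀ j k, IsTest Ω (φ j k)) →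
  ∀ ε : ℝ, 0 < ε → ∃ (b : L2 Ω) (G g : Form Ω) (C : Form2 Ω),
    (∀ j, ∀ᵐ x ∂((volume : Measure (En n)).restrict Ω), g j x = gf φ j x) ∧
    IsDbar0 Ω b G ∧ IsDbar1 Ω G 0 ∧ (∀ v : Form Ω, IsDbar1 Ω v 0 → inner ℂ v G = inner ℂ v g) ∧
    IsAdj1 Ω C (g - G) ∧
    ‖b‖ ^ 2 ≤ (1 + ε) * ∑ j, ∑ k, ∫ x, ‖φ j k x‖ ^ 2 ∧
    ‖C‖ ^ 2 ≤ (1 + ε) * ∑ j, ∑ k, ∫ x, ‖φ j k x‖ ^ 2

/-- weights used for a compact set `L` -/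
structure Wts (Ω L : Set (En n)) (ε : ℝ) (φ ψ : En n → ℝ) (η : ℕ → En n → ℝ) : Prop where
  sφ : ContDiffOn ℝ ∞ φ Ω
  sψ : ContDiffOn ℝ ∞ ψ Ω
  ψ0 : ∀ x, 0 ≤ ψ x
  φ2 : ∀ x, 2 * ψ x ≤ φ x
  zL : ∀ x ∈ L, φ x = 0
  curv : ∀ x ∈ Ω, ∀ a, (1 + 1 / ε) * ((∑ j, ‖dz j (fun y => (ψ y : ℂ)) x‖ ^ 2) * ∑ j, ‖a j‖ ^ 2) ≤
    Lv φ x a
  sη : ∀ ν, ContDiff ℝ ∞ (η ν)
  cη : ∀ ν, HasCompactSupport (η ν)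
  tη : ∀ ν, tsupport (η ν) ⊆ Ω
  η01 : ∀ ν x, 0 ≤ η ν x ∧ η ν x ≤ 1
  η1 : ∀ x ∈ Ω, ∀ᶠ ν in atTop, ∀ᶠ y in 𝓝 x, η ν y = 1
  gη : ∀ ν, ∀ x ∈ Ω, ∑ j, ‖dz j (fun y => (η ν y : ℂ)) x‖ ^ 2 ≤ Real.exp (ψ x)

/-- existence of weights -/
def WE (Ω : Set (En n)) : Prop := ∀ L : Set (En n), IsCompact L → L ⊆ Ω → ∀ ε : ℝ, 0 < ε →
  ∃ (φ ψ : En n → ℝ) (η : ℕ → En n → ℝ), Wts Ω L ε φ ψ η

/-- weighted dual solution for data supported in `L` -/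
def WD (Ω L : Set (En n)) (ε : ℝ) (φ ψ : En n → ℝ) : Prop :=
  ∀ χ : Fin n → Fin n → En n → ℂ, (∀ j k, IsTest Ω (χ j k)) → (∀ j k, tsupport (χ j k) ⊆ L) →
  ∃ (b : En n → ℂ) (G : Fin n → En n → ℂ) (C : Pr n → En n → ℂ),
    MemLp (fun x => b x * (Real.exp (-(φ x - 2 * ψ x) / 2) : ℝ)) 2 (volume.restrict Ω) ∧
    (∀ j, MemLp (fun x => G j x * (Real.exp (-(φ x - ψ x) / 2) : ℝ)) 2 (volume.restrict Ω)) ∧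
    (∀ p, MemLp (fun x => C p x * (Real.exp (-φ x / 2) : ℝ)) 2 (volume.restrict Ω)) ∧
    (∀ j ρ, IsTest Ω ρ → ∫ x in Ω, b x * dbar j ρ x = - ∫ x in Ω, G j x * ρ x) ∧
    (∀ (p : Pr n) ρ, IsTest Ω ρ →
      ∫ x in Ω, (G p.1.2 x * dbar p.1.1 ρ x - G p.1.1 x * dbar p.1.2 ρ x) = 0) ∧
    (∀ v : Form Ω, IsDbar1 Ω v 0 →
      ∫ x in Ω, ∑ j, conj (v j x) * G j x * (Real.exp (-(φ x - ψ x)) : ℝ) =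
        ∫ x in Ω, ∑ j, conj (v j x) * gf χ j x) ∧
    (∀ (v : Form Ω) (w : Form2 Ω), IsDbar1 Ω v w →
      ∫ x in Ω, ∑ p, conj (w p x) * C p x * (Real.exp (-φ x) : ℝ) =
        ∫ x in Ω, ∑ j, conj (v j x) * (gf χ j x - G j x) * (Real.exp (-(φ x - ψ x)) : ℝ)) ∧
    ∑ j, ∫ x in Ω, ‖G j x‖ ^ 2 * Real.exp (-(φ x - ψ x)) ≤ ∑ j, ∫ x, ‖gf χ j x‖ ^ 2 ∧
    ∫ x in Ω, ‖b x‖ ^ 2 * Real.exp (-(φ x - 2 * ψ x)) ≤ (1 + ε) * ∑ j, ∑ k, ∫ x, ‖χ j k x‖ ^ 2 ∧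
    ∑ p, ∫ x in Ω, ‖C p x‖ ^ 2 * Real.exp (-φ x) ≤ (1 + ε) * ∑ j, ∑ k, ∫ x, ‖χ j k x‖ ^ 2

end BK
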