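import Mathlib

set_option autoImplicit false

open MeasureTheory Complex
open scoped ContDiff InnerProductSpace ENNReal

namespace BergmanCommutator

/-- `ℂⁿ` (as a real Lebesgue measure space). -/
abbrev En (n : ℕ) := Fin n → ℂ

variable {n : ℕ}

/-- The Wirtinger derivative `∂φ/∂z̄_j` of a (real differentiable) function on `ℂⁿ`. -/
noncomputable def dbar (j : Fin n) (φ : En n → ℂ) (x : En n) : ℂ :=
  (1 / 2) * (fderiv ℝ φ x (Pi.single j 1) + I * fderiv ℝ φ x (Pi.single j I))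

/-- Test functions on `Ω`: smooth, with compact support contained in `Ω`. -/
structure IsTest (Ω : Set (En n)) (φ : En n → ℂ) : Prop where
  smooth : ContDiff ℝ ∞ φ
  compact : HasCompactSupport φ
  supp : tsupport φ ⊆ Ω

/-- The Hilbert space `L²(Ω)` (Lebesgue measure). -/
def L2 (Ω : Set (En n)) : Type := Lp ℂ 2 ((volume : Measure (En n)).restrict Ω)

noncomputable instance instL2N (Ω : Set (En n)) : NormedAddCommGroup (L2 Ω) :=
  MeasureTheory.Lp.instNormedAddCommGroup (E := ℂ) (p := 2)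
    (μ := (volume : Measure (En n)).restrict Ω)

noncomputable instance instL2I (Ω : Set (En n)) : InnerProductSpace ℂ (L2 Ω) :=
  MeasureTheory.L2.innerProductSpace (𝕜 := ℂ) (E := ℂ)
    (μ := (volume : Measure (En n)).restrict Ω)

/-- Square integrable `(0,1)`-forms `Σ u_j dz̄_j` on `Ω`, with `‖u‖² = Σ ‖u_j‖²`. -/
def Form (Ω : Set (En n)) : Type := PiLp 2 (fun _ : Fin n => L2 Ω)

noncomputable instance instFormN (Ω : Set (En n)) : NormedAddCommGroup (Form Ω) :=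
  PiLp.normedAddCommGroup 2 (fun _ : Fin n => L2 Ω)

noncomputable instance instFormI (Ω : Set (En n)) : InnerProductSpace ℂ (Form Ω) :=
  PiLp.innerProductSpace (𝕜 := ℂ) (fun _ : Fin n => L2 Ω)

/-- index set `{(j,k) : j < k}` of `(0,2)`-forms -/
abbrev Pr (n : ℕ) := {p : Fin n × Fin n // p.1 < p.2}

/-- Square integrable `(0,2)`-forms `Σ_{j<k} c_{jk} dz̄_j ∧ dz̄_k`, `‖c‖² = Σ_{j<k} ‖c_{jk}‖²`. -/
def Form2 (Ω : Set (En n)) : Type := PiLp 2 (fun _ : Pr n => L2 Ω)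

noncomputable instance instForm2N (Ω : Set (En n)) : NormedAddCommGroup (Form2 Ω) :=
  PiLp.normedAddCommGroup 2 (fun _ : Pr n => L2 Ω)

noncomputable instance instForm2I (Ω : Set (En n)) : InnerProductSpace ℂ (Form2 Ω) :=
  PiLp.innerProductSpace (𝕜 := ℂ) (fun _ : Pr n => L2 Ω)

/-- the underlying function of an element of `L²(Ω)` -/
noncomputable def L2.fn {Ω : Set (En n)} (f : L2 Ω) (x : En n) : ℂ :=
  (show Lp ℂ 2 ((volume : Measure (En n)).restrict Ω) from f) x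

/-- the `j`-th coefficient of a `(0,1)`-form -/
def Form.coef {Ω : Set (En n)} (u : Form Ω) (j : Fin n) : L2 Ω :=
  (show PiLp 2 (fun _ : Fin n => L2 Ω) from u) j

/-- the coefficient `c_{jk}`, `j < k`, of a `(0,2)`-form -/
def Form2.coef {Ω : Set (En n)} (c : Form2 Ω) (p : Pr n) : L2 Ω :=
  (show PiLp 2 (fun _ : Pr n => L2 Ω) from c) p

/-- inner product of `L²(Ω)` (Mathlib's: linear in the second argument) -/
noncomputable def L2.ip {Ω : Set (En n)} (f g : L2 Ω) : ℂ :=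
  @inner ℂ (L2 Ω) InnerProductSpace.toInner f g

/-- inner product of `(0,1)`-forms -/
noncomputable def Form.ip {Ω : Set (En n)} (u w : Form Ω) : ℂ :=
  @inner ℂ (Form Ω) InnerProductSpace.toInner u w

/-- inner product of `(0,2)`-forms -/
noncomputable def Form2.ip {Ω : Set (En n)} (u w : Form2 Ω) : ℂ :=
  @inner ℂ (Form2 Ω) InnerProductSpace.toInner u w

/-- The maximal (weak) `∂̄` on functions: `∂̄ f = Σ g_j dz̄_j`. -/
def IsDbar0 (Ω : Set (En n)) (f : L2 Ω) (g : Form Ω) : Prop :=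
  ∀ j : Fin n, ∀ φ : En n → ℂ, IsTest Ω φ →
    ∫ x in Ω, f.fn x * dbar j φ x = - ∫ x in Ω, (g.coef j).fn x * φ x

/-- The maximal (weak) `∂̄` on `(0,1)`-forms: `∂̄ u = c`; the coefficient of `dz̄_j ∧ dz̄_k`
(`j < k`) is `∂̄_j u_k - ∂̄_k u_j`. -/
def IsDbar1 (Ω : Set (En n)) (u : Form Ω) (c : Form2 Ω) : Prop :=
  ∀ p : Pr n, ∀ φ : En n → ℂ, IsTest Ω φ →
    ∫ x in Ω, ((u.coef p.1.2).fn x * dbar p.1.1 φ x - (u.coef p.1.1).fn x * dbar p.1.2 φ x)
      = - ∫ x in Ω, (c.coef p).fn x * φ x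

/-- Hilbert space adjoint of the maximal `∂̄` on functions: `∂̄* u = f`. -/
def IsAdj0 (Ω : Set (En n)) (u : Form Ω) (f : L2 Ω) : Prop :=
  ∀ (h : L2 Ω) (g : Form Ω), IsDbar0 Ω h g → Form.ip g u = L2.ip h f

/-- Hilbert space adjoint of the maximal `∂̄` on `(0,1)`-forms: `∂̄* c = u`. -/
def IsAdj1 (Ω : Set (En n)) (c : Form2 Ω) (u : Form Ω) : Prop :=
  ∀ (v : Form Ω) (w : Form2 Ω), IsDbar1 Ω v w → Form2.ip w c = Form.ip v u

/-- The graph of the complex Laplacian `□₁ = ∂̄ ∂̄* + ∂̄* ∂̄` on `(0,1)`-forms. -/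
def Box (Ω : Set (En n)) (u w : Form Ω) : Prop :=
  ∃ (f : L2 Ω) (c : Form2 Ω) (g₁ g₂ : Form Ω), IsAdj0 Ω u f ∧ IsDbar1 Ω u c ∧ IsDbar0 Ω f g₁ ∧
    IsAdj1 Ω c g₂ ∧ w = g₁ + g₂

/-- `N` is the bounded inverse `N₁` of `□₁` (the `∂̄`-Neumann operator). -/
def IsNeumannOperator (Ω : Set (En n)) (N : Form Ω →L[ℂ] Form Ω) : Prop :=
  (∀ v, Box Ω (N v) v) ∧ ∀ u w, Box Ω u w → N w = u

/-- `f ∈ A²(Ω)`: `f` is (almost everywhere equal to) a holomorphic function on `Ω`. -/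
def Holo (Ω : Set (En n)) (f : L2 Ω) : Prop :=
  ∃ g : En n → ℂ, DifferentiableOn ℂ g Ω ∧
    ∀ᵐ x ∂((volume : Measure (En n)).restrict Ω), f.fn x = g x

/-- `B` is the Bergman projection: the orthogonal projection of `L²(Ω)` onto `A²(Ω)`. -/
def IsBergmanProjection (Ω : Set (En n)) (B : L2 Ω →L[ℂ] L2 Ω) : Prop :=
  (∀ f, Holo Ω (B f)) ∧ ∀ f h, Holo Ω h → L2.ip h (f - B f) = 0

/-- `M` is the multiplication operator `M_ψ f = ψ f` on `L²(Ω)`. -/
def IsMul (Ω : Set (En n)) (ψ : En n → ℂ) (M : L2 Ω →L[ℂ] L2 Ω) : Prop :=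
  ∀ f : L2 Ω, ∀ᵐ x ∂((volume : Measure (En n)).restrict Ω), (M f).fn x = ψ x * f.fn x

/-- `Ω` is pseudoconvex: it has a continuous plurisubharmonic exhaustion function. -/
def Pseudoconvex (Ω : Set (En n)) : Prop :=
  ∃ ψ : En n → ℝ, ContinuousOn ψ Ω ∧ (∀ M : ℝ, IsCompact {x ∈ Ω | ψ x ≤ M}) ∧
    ∀ a b : En n, (∀ ζ : ℂ, ‖ζ‖ ≤ 1 → a + ζ • b ∈ Ω) →
      ψ a ≤ (2 * Real.pi)⁻¹ * ∫ θ in (0 : ℝ)..(2 * Real.pi), ψ (a + Complex.exp (θ * I) • b)

end BergmanCommutator
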