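import Pool.Agent.H314.BK.Defs
import Pool.Agent.H314.BK.Ab

set_option autoImplicit false

open MeasureTheory Complex Filter Topology
open scoped ContDiff InnerProductSpace ENNReal ComplexConjugate

namespace BK

variable {n : ℕ}

/-- the weighted adjoint on smooth forms: `-e^{φ1} Σ ∂_j (e^{-φ2} u_j)`, `φ1 = φ - 2ψ`,
`φ2 = φ - ψ` -/
noncomputable def Tst (φ ψ : En n → ℝ) (u : Fin n → En n → ℂ) (x : En n) : ℂ :=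
  (Real.exp (-ψ x) : ℂ) * (-∑ j, (dz j (u j) x - dz j (fun y => ((φ y - ψ y : ℝ) : ℂ)) x * u j x))

/-- `∂̄` on smooth `(0,1)`-forms -/
noncomputable def Sst (u : Fin n → En n → ℂ) (p : Pr n) (x : En n) : ℂ :=
  dbar p.1.1 (u p.1.2) x - dbar p.1.2 (u p.1.1) x

/-- Kohn–Morrey–Hörmander inequality for test forms -/
def KI (Ω : Set (En n)) : Prop := ∀ φ : En n → ℝ, ContDiffOn ℝ ∞ φ Ω →
  ∀ u : Fin n → En n → ℂ, (∀ j, IsTest Ω (u j)) →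
  (∑ j, ∑ k, ∫ x in Ω, ‖dbar k (u j) x‖ ^ 2 * Real.exp (-φ x)) +
      ∫ x in Ω, Lv φ x (fun j => u j x) * Real.exp (-φ x) =
    (∑ p, ∫ x in Ω, ‖Sst u p x‖ ^ 2 * Real.exp (-φ x)) +
      ∫ x in Ω, ‖∑ j, (dz j (u j) x - dz j (fun y => (φ y : ℂ)) x * u j x)‖ ^ 2 *
        Real.exp (-φ x)

/-- three-weight inequality for test forms -/
def TI (Ω : Set (En n)) : Prop := ∀ (L : Set (En n)) (ε : ℝ) (φ ψ : En n → ℝ)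
  (η : ℕ → En n → ℝ), 0 < ε → Wts Ω L ε φ ψ η →
  ∀ u : Fin n → En n → ℂ, (∀ j, IsTest Ω (u j)) →
  ∑ j, ∑ k, ∫ x in Ω, ‖dbar k (u j) x‖ ^ 2 * Real.exp (-φ x) ≤
    (1 + ε) * (∫ x in Ω, ‖Tst φ ψ u x‖ ^ 2 * Real.exp (-(φ x - 2 * ψ x))) +
      ∑ p, ∫ x in Ω, ‖Sst u p x‖ ^ 2 * Real.exp (-φ x)

/-- local weak relations for a weighted triple `(u, f, c)` -/
structure LRel (Ω : Set (En n)) (φ ψ : En n → ℝ) (u : Fin n → En n → ℂ) (f : En n → ℂ)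
    (c : Pr n → En n → ℂ) : Prop where
  mu : ∀ j, MemLp (fun x => u j x * (Real.exp (-(φ x - ψ x) / 2) : ℝ)) 2 (volume.restrict Ω)
  mf : MemLp (fun x => f x * (Real.exp (-(φ x - 2 * ψ x) / 2) : ℝ)) 2 (volume.restrict Ω)
  mc : ∀ p, MemLp (fun x => c p x * (Real.exp (-φ x / 2) : ℝ)) 2 (volume.restrict Ω)
  hT : ∀ ρ, IsTest Ω ρ → ∫ x in Ω, (∑ j, u j x * conj (dbar j ρ x)) *
      (Real.exp (-(φ x - ψ x)) : ℝ) =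
    ∫ x in Ω, f x * conj (ρ x) * (Real.exp (-(φ x - 2 * ψ x)) : ℝ)
  hS : ∀ (p : Pr n) ρ, IsTest Ω ρ →
    ∫ x in Ω, (u p.1.2 x * dbar p.1.1 ρ x - u p.1.1 x * dbar p.1.2 ρ x)
      = - ∫ x in Ω, c p x * ρ x

/-- density of test forms in the graph norm -/
def DEN (Ω : Set (En n)) : Prop := ∀ (L : Set (En n)) (ε : ℝ) (φ ψ : En n → ℝ)
  (η : ℕ → En n → ℝ), 0 < ε → Wts Ω L ε φ ψ η →
  ∀ u f c, LRel Ω φ ψ u f c → ∀ δ : ℝ, 0 < δ → ∃ v : Fin n → En n → ℂ, (∀ j, IsTest Ω (v j)) ∧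
    (∑ j, ∫ x in Ω, ‖u j x - v j x‖ ^ 2 * Real.exp (-(φ x - ψ x)) ≤ δ) ∧
    (∫ x in Ω, ‖f x - Tst φ ψ v x‖ ^ 2 * Real.exp (-(φ x - 2 * ψ x)) ≤ δ) ∧
    ∑ p, ∫ x in Ω, ‖c p x - Sst v p x‖ ^ 2 * Real.exp (-φ x) ≤ δ

/-- a priori inequality -/
def AP (Ω L : Set (En n)) (ε : ℝ) (φ ψ : En n → ℝ) : Prop :=
  ∀ u f c, LRel Ω φ ψ u f c →
  ∀ χ : Fin n → Fin n → En n → ℂ, (∀ j k, IsTest Ω (χ j k)) → (∀ j k, tsupport (χ j k) ⊆ L) →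
    ‖∫ x in Ω, ∑ j, u j x * conj (gf χ j x)‖ ^ 2 ≤
      ((1 + ε) * (∫ x in Ω, ‖f x‖ ^ 2 * Real.exp (-(φ x - 2 * ψ x))) +
        ∑ p, ∫ x in Ω, ‖c p x‖ ^ 2 * Real.exp (-φ x)) * ∑ j, ∑ k, ∫ x, ‖χ j k x‖ ^ 2

/-- Weyl's lemma -/
def WLem (Ω : Set (En n)) : Prop := ∀ f : L2 Ω, IsDbar0 Ω f 0 ↔
  ∃ g : En n → ℂ, DifferentiableOn ℂ g Ω ∧ f =ᵐ[(volume : Measure (En n)).restrict Ω] g

/-- the abstract conditions -/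
def CO (Ω : Set (En n)) : Prop := ∀ B : L2 Ω →L[ℂ] L2 Ω, (∀ f, IsDbar0 Ω (B f) 0) →
  (∀ f h, IsDbar0 Ω h 0 → inner ℂ h (f - B f) = 0) →
  (∀ (j : Fin n) (M : L2 Ω →L[ℂ] L2 Ω),
    (∀ f : L2 Ω, M f =ᵐ[(volume : Measure (En n)).restrict Ω] fun x => conj (x j) * f x) →
      IsCompactOperator (B ∘L M - M ∘L B)) →
  KM1 Ω → KM2 Ω → ∃ (T : Submodule ℂ (L2 Ω × Form Ω)) (S : Submodule ℂ (Form Ω × Form2 Ω))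
    (Z : Fin n → L2 Ω →L[ℂ] L2 Ω), (∀ f g, (f, g) ∈ T ↔ IsDbar0 Ω f g) ∧
      (∀ u c, (u, c) ∈ S ↔ IsDbar1 Ω u c) ∧ Stp T S Z B

end BK
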