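import Pool.Agent.H314.BK.FDefs
import Pool.Agent.H314.BK.St

set_option autoImplicit false

open MeasureTheory Complex
open scoped ContDiff InnerProductSpace ENNReal ComplexConjugate

namespace BergmanCommutator

variable {n : ℕ}

theorem isDbar0_iff (Ω : Set (En n)) (f : L2 Ω) (g : Form Ω) :
    IsDbar0 Ω f g ↔ BK.IsDbar0 Ω f g :=
  ⟨fun h j φ hφ => h j φ ⟨hφ.1, hφ.2, hφ.3⟩, fun h j φ hφ => h j φ ⟨hφ.1, hφ.2, hφ.3⟩⟩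

theorem isDbar1_iff (Ω : Set (En n)) (f : Form Ω) (g : Form2 Ω) :
    IsDbar1 Ω f g ↔ BK.IsDbar1 Ω f g :=
  ⟨fun h j φ hφ => h j φ ⟨hφ.1, hφ.2, hφ.3⟩, fun h j φ hφ => h j φ ⟨hφ.1, hφ.2, hφ.3⟩⟩

theorem isAdj0_iff (Ω : Set (En n)) (u : Form Ω) (f : L2 Ω) :
    IsAdj0 Ω u f ↔ BK.IsAdj0 Ω u f :=
  ⟨fun h a b hab => h a b ((isDbar0_iff Ω a b).2 hab),
    fun h a b hab => h a b ((isDbar0_iff Ω a b).1 hab)⟩

theorem isAdj1_iff (Ω : Set (En n)) (u : Form2 Ω) (f : Form Ω) :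
    IsAdj1 Ω u f ↔ BK.IsAdj1 Ω u f :=
  ⟨fun h a b hab => h a b ((isDbar1_iff Ω a b).2 hab),
    fun h a b hab => h a b ((isDbar1_iff Ω a b).1 hab)⟩

theorem box_iff (Ω : Set (En n)) (u w : Form Ω) : Box Ω u w ↔ BK.Box Ω u w := by
  constructor
  · rintro ⟨f, c, g₁, g₂, h1, h2, h3, h4, h5⟩
    exact ⟨f, c, g₁, g₂, (isAdj0_iff _ _ _).1 h1, (isDbar1_iff _ _ _).1 h2,
      (isDbar0_iff _ _ _).1 h3, (isAdj1_iff _ _ _).1 h4, h5⟩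
  · rintro ⟨f, c, g₁, g₂, h1, h2, h3, h4, h5⟩
    exact ⟨f, c, g₁, g₂, (isAdj0_iff _ _ _).2 h1, (isDbar1_iff _ _ _).2 h2,
      (isDbar0_iff _ _ _).2 h3, (isAdj1_iff _ _ _).2 h4, h5⟩

theorem bridge (Ω : Set (En n)) (hW : BK.WLem Ω)
    (hmain : ∀ (B : BK.L2 Ω →L[ℂ] BK.L2 Ω), (∀ f, BK.IsDbar0 Ω (B f) 0) →
      (∀ f h, BK.IsDbar0 Ω h 0 → inner ℂ h (f - B f) = 0) →
      (∀ (j : Fin n) (M : BK.L2 Ω →L[ℂ] BK.L2 Ω),
        (∀ f : BK.L2 Ω, M f =ᵐ[(volume : Measure (En n)).restrict Ω]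
          fun x => conj (x j) * f x) → IsCompactOperator (B ∘L M - M ∘L B)) →
      ∀ (N : BK.Form Ω →L[ℂ] BK.Form Ω), (∀ v, BK.Box Ω (N v) v) → IsCompactOperator N)
    (B : L2 Ω →L[ℂ] L2 Ω) (hB : IsBergmanProjection Ω B)
    (hcomm : ∀ ψ : En n → ℂ, ContinuousOn ψ (closure Ω) → ∀ M : L2 Ω →L[ℂ] L2 Ω, IsMul Ω ψ M →
      IsCompactOperator (B.comp M - M.comp B))
    (N : Form Ω →L[ℂ] Form Ω) (hN : IsNeumannOperator Ω N) : IsCompactOperator N := by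
  refine hmain B ?_ ?_ ?_ N ?_
  · intro f
    exact (hW (B f)).2 (hB.1 f)
  · intro f h hh
    exact hB.2 f h ((hW h).1 hh)
  · intro j M hM
    refine hcomm (fun x => conj (x j)) ?_ M ?_
    · fun_prop
    · intro f
      exact hM f
  · intro v
    exact (box_iff Ω (N v) v).1 (hN.1 v)

end BergmanCommutator
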