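import Pool.Agent.H314.BK.Main0
import Pool.Agent.H314.BK.FMain0
import Pool.Agent.H314.BK.B3
import Pool.Agent.H314.BK.B4
import Pool.Agent.H314.BK.B6
import Pool.Agent.H314.BK.C2
import Pool.Agent.H314.BK.C3

set_option autoImplicit false

open MeasureTheory Complex
open scoped ContDiff InnerProductSpace ENNReal ComplexConjugate

namespace BergmanCommutator

variable {n : ℕ}

theorem main (Ω : Set (En n)) (ho : IsOpen Ω) (hb : Bornology.IsBounded Ω)
    (hp : Pseudoconvex Ω) (B : L2 Ω →L[ℂ] L2 Ω) (hB : IsBergmanProjection Ω B)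
    (hcomm : ∀ ψ : En n → ℂ, ContinuousOn ψ (closure Ω) → ∀ M : L2 Ω →L[ℂ] L2 Ω, IsMul Ω ψ M →
      IsCompactOperator (B.comp M - M.comp B))
    (N : Form Ω →L[ℂ] Form Ω) (hN : IsNeumannOperator Ω N) : IsCompactOperator N := by
  have hP : BK.PscC Ω := hp
  have hW : BK.WLem Ω := BK.JC2.weyl Ω ho hb
  refine bridge Ω hW ?_ B hB hcomm N hN
  intro B' hB1 hB2 hc N' hN'
  refine BK.main0 Ω ho hb (BK.JC3.pscS_of_pscC Ω ho hb hP) (BK.JB3.den Ω ho hb)
    (fun hT hD L hL hLΩ ε hε φ ψ η hWt =>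
      BK.JB4.ap Ω ho hb hT hD L hL hLΩ ε hε φ ψ η hWt)
    (fun L hL hLΩ ε hε φ ψ η hWt hA =>
      BK.JB6.wd Ω ho hb L hL hLΩ ε hε φ ψ η hWt hA
        (fun T S hTc hSc hTS g a b ha hb' hap =>
          BK.JB5.dual_abs T S hTc hSc hTS g a b ha hb' hap))
    B' hB1 hB2 hc N' hN'

end BergmanCommutator
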