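import Pool.Agent.H314.BK.AbM
import Pool.Agent.H314.BK.A3
import Pool.Agent.H314.BK.B1
import Pool.Agent.H314.BK.B2
import Pool.Agent.H314.BK.B5
import Pool.Agent.H314.BK.B7
import Pool.Agent.H314.BK.B8
import Pool.Agent.H314.BK.B9
import Pool.Agent.H314.BK.C1

set_option autoImplicit false

open MeasureTheory Complex Filter Topology
open scoped ContDiff InnerProductSpace ENNReal ComplexConjugate

namespace BK

variable {n : ℕ}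

theorem main0 (Ω : Set (En n)) (ho : IsOpen Ω) (hb : Bornology.IsBounded Ω) (hP : PscS Ω)
    (hDEN : DEN Ω)
    (hAP : TI Ω → DEN Ω → ∀ (L : Set (En n)), IsCompact L → L ⊆ Ω → ∀ ε : ℝ, 0 < ε →
      ∀ (φ ψ : En n → ℝ) (η : ℕ → En n → ℝ), Wts Ω L ε φ ψ η → AP Ω L ε φ ψ)
    (hWD : ∀ (L : Set (En n)), IsCompact L → L ⊆ Ω → ∀ ε : ℝ, 0 < ε →
      ∀ (φ ψ : En n → ℝ) (η : ℕ → En n → ℝ), Wts Ω L ε φ ψ η → AP Ω L ε φ ψ → WD Ω L ε φ ψ)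
    (B : L2 Ω →L[ℂ] L2 Ω) (hB1 : ∀ f, IsDbar0 Ω (B f) 0)
    (hB2 : ∀ f h, IsDbar0 Ω h 0 → inner ℂ h (f - B f) = 0)
    (hc : ∀ (j : Fin n) (M : L2 Ω →L[ℂ] L2 Ω),
      (∀ f : L2 Ω, M f =ᵐ[(volume : Measure (En n)).restrict Ω] fun x => conj (x j) * f x) →
        IsCompactOperator (B ∘L M - M ∘L B))
    (N : Form Ω →L[ℂ] Form Ω) (hN : ∀ v, Box Ω (N v) v) : IsCompactOperator N := by
  have hWE : WE Ω := JB9.we Ω ho hb hP
  have hTI : TI Ω := JB2.ti Ω ho (JB1.ki Ω ho)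
  have hDK : DK Ω := JB7.lim Ω ho hb hWE (fun L ε φ ψ η hε hL hLΩ hW =>
    hWD L hL hLΩ ε hε φ ψ η hW (hAP hTI hDEN L hL hLΩ ε hε φ ψ η hW))
  obtain ⟨hk1, hk2⟩ := JB8.km_of_dk Ω ho hDK
  obtain ⟨T, S, Z, hT, hS, hStp⟩ := JC1.co Ω ho hb B hB1 hB2 hc hk1 hk2
  refine ab_main T S Z B hStp ?_ N ?_
  · intro K hK κ hκ hE f hf
    exact JA3.good_step T S Z B hStp K hK κ hκ hE (fun A hA x hx => JA1.cpt_null A hA x hx)
      (fun x hx h => JA1.ess_eigen K κ hκ hE x hx h) f hf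
  · intro v
    obtain ⟨f, c, g1, g2, h1, h2, h3, h4, h5⟩ := hN v
    refine ⟨f, c, g1, g2, ?_, (hS _ _).2 h2, (hT _ _).2 h3, ?_, h5⟩
    · intro p hp
      exact h1 p.1 p.2 ((hT _ _).1 hp)
    · intro p hp
      exact h4 p.1 p.2 ((hS _ _).1 hp)

end BK
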